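import Mathlib

set_option autoImplicit false

/-! Second moments of integrals of random fields. -/

namespace Pool.Agent.T6.H99.CH

open MeasureTheory Set

/-- the singular kernel near the diagonal -/
noncomputable def gk (s κ : ℝ) : ℝ → ℝ := indicator (Ioo (-κ) κ) fun v => 1 + |v| ^ (-s)

lemma gk_nonneg (s κ v : ℝ) : 0 ≤ gk s κ v := by
  unfold gk
  refine indicator_nonneg (fun v _ => ?_) v
  positivity

lemma gk_int {s κ : ℝ} (hs : s < 1) (hκ : 0 < κ) :
    Integrable (gk s κ) ∧ ∫ v, gk s κ v = 2 * κ + 2 * (κ ^ (1 - s) / (1 - s)) := by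
  have h1 : IntervalIntegrable (fun v : ℝ => 1 + v ^ (-s)) volume 0 κ :=
    intervalIntegrable_const.add (intervalIntegral.intervalIntegrable_rpow' (by linarith))
  have e0 : ∫ v in (0:ℝ)..κ, (1 + v ^ (-s)) = κ + κ ^ (1 - s) / (1 - s) := by
    rw [intervalIntegral.integral_add intervalIntegrable_const
      (intervalIntegral.intervalIntegrable_rpow' (by linarith)), integral_rpow (Or.inl (by linarith))]
    rw [intervalIntegral.integral_const, Real.zero_rpow (by linarith)]
    simp
    ring_nf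
  have h2 : IntervalIntegrable (fun v : ℝ => 1 + |v| ^ (-s)) volume 0 κ := by
    refine h1.congr fun v hv => ?_
    rw [uIoc_of_le hκ.le] at hv
    show 1 + v ^ (-s) = 1 + |v| ^ (-s)
    rw [abs_of_pos hv.1]
  have e2 : ∫ v in (0:ℝ)..κ, (1 + |v| ^ (-s)) = κ + κ ^ (1 - s) / (1 - s) := by
    rw [← e0]
    refine intervalIntegral.integral_congr fun v hv => ?_
    rw [uIcc_of_le hκ.le] at hv
    show 1 + |v| ^ (-s) = 1 + v ^ (-s)
    rw [abs_of_nonneg hv.1]
  have h3 : IntervalIntegrable (fun v : ℝ => 1 + |v| ^ (-s)) volume (-κ) 0 := by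
    have := (IntervalIntegrable.iff_comp_neg (f := fun v : ℝ => 1 + |v| ^ (-s)) (a := 0) (b := κ)).mp h2
    simp only [abs_neg, neg_zero] at this
    exact this.symm
  have e3 : ∫ v in (-κ)..0, (1 + |v| ^ (-s)) = κ + κ ^ (1 - s) / (1 - s) := by
    rw [← e2]
    have := intervalIntegral.integral_comp_neg (a := 0) (b := κ) (fun v : ℝ => 1 + |v| ^ (-s))
    simp only [abs_neg, neg_zero] at this
    rw [this]
  have h4 := h3.trans h2
  have e4 : ∫ v in (-κ)..κ, (1 + |v| ^ (-s)) = 2 * κ + 2 * (κ ^ (1 - s) / (1 - s)) := by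
    rw [← intervalIntegral.integral_add_adjacent_intervals h3 h2, e2, e3]; ring
  have h5 : IntegrableOn (fun v : ℝ => 1 + |v| ^ (-s)) (Ioo (-κ) κ) :=
    (intervalIntegrable_iff_integrableOn_Ioo_of_le (by linarith)).mp h4
  refine ⟨h5.integrable_indicator measurableSet_Ioo, ?_⟩
  unfold gk
  rw [integral_indicator measurableSet_Ioo, ← integral_Ioc_eq_integral_Ioo,
    ← intervalIntegral.integral_of_le (by linarith), e4]

/-- the kernel is small -/
lemma gk_small {s : ℝ} (hs : s < 1) {ε : ℝ} (hε : 0 < ε) : ∃ κ : ℝ, 0 < κ ∧ κ < 1 ∧ Integrable (gk s κ) ∧ ∫ v, gk s κ v ≤ ε := by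
  have h1 : Filter.Tendsto (fun κ : ℝ => 2 * κ + 2 * (κ ^ (1 - s) / (1 - s))) (nhdsWithin 0 (Ioi 0)) (nhds 0) := by
    have h2 : Filter.Tendsto (fun κ : ℝ => 2 * κ + 2 * (κ ^ (1 - s) / (1 - s))) (nhds 0) (nhds (2 * 0 + 2 * ((0:ℝ) ^ (1 - s) / (1 - s)))) := by
      have h3 : ContinuousAt (fun κ : ℝ => κ ^ (1 - s)) 0 := Real.continuousAt_rpow_const _ _ (Or.inr (by linarith))
      exact (Filter.tendsto_id.const_mul 2).add ((h3.tendsto.div_const _).const_mul 2)
    rw [Real.zero_rpow (by linarith), zero_div, mul_zero, add_zero] at h2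
    exact h2.mono_left nhdsWithin_le_nhds
  have h2 : ∀ᶠ κ : ℝ in nhdsWithin 0 (Ioi 0), 2 * κ + 2 * (κ ^ (1 - s) / (1 - s)) < ε :=
    h1.eventually (gt_mem_nhds hε)
  have h3 : ∀ᶠ κ : ℝ in nhdsWithin 0 (Ioi 0), κ < 1 := Filter.Eventually.filter_mono nhdsWithin_le_nhds
    (gt_mem_nhds one_pos)
  obtain ⟨κ, ⟨h4, h5⟩, h6⟩ := ((h2.and h3).and self_mem_nhdsWithin).exists
  obtain ⟨i1, i2⟩ := gk_int hs h6
  exact ⟨κ, h6, h5, i1, by rw [i2]; exact h4.le⟩

variable {S : Type*} [MeasurableSpace S]

/-- the second moment of an integrated field -/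
theorem second_moment {μ : Measure S} [IsFiniteMeasure μ] {W : S → ℝ → ℝ} (hW : Measurable (Function.uncurry W))
    {a b Bd F : ℝ} (hab : a ≤ b) (hBd : ∀ s, ∀ x ∈ Icc a b, |W s x| ≤ Bd) {f : ℝ → ℝ} (hf : Measurable f)
    (hF : ∀ x ∈ Icc a b, |f x| ≤ F) {B C : ℝ} (hB : 0 ≤ B) (hC : 0 ≤ C) {g : ℝ → ℝ} (hg0 : ∀ v, 0 ≤ g v)
    (hg : Integrable g) (hcov : ∀ x ∈ Icc a b, ∀ y ∈ Icc a b, x ≠ y → |∫ s, W s x * W s y ∂μ| ≤ B + C * g (x - y)) :
    ∫ s, (∫ x in Icc a b, f x * W s x) ^ 2 ∂μ ≤ F ^ 2 * (b - a) * (B * (b - a) + C * ∫ v, g v) := by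
  set l := volume.restrict (Icc a b) with hl
  have hfl : IsFiniteMeasure l := ⟨by rw [hl, Measure.restrict_apply_univ]; exact measure_Icc_lt_top⟩
  have hF0 : 0 ≤ F := (abs_nonneg _).trans (hF a ⟨le_rfl, hab⟩)
  have hWx : ∀ x, Measurable fun s => W s x := fun x => hW.comp (measurable_id.prodMk measurable_const)
  have hWs : ∀ s, Measurable fun x => W s x := fun s => hW.comp (measurable_const.prodMk measurable_id)
  -- nonemptiness of the bound
  rcases isEmpty_or_nonempty S with hS | ⟨⟨s0⟩⟩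
  · rw [Measure.eq_zero_of_isEmpty μ, integral_zero_measure]
    have : 0 ≤ ∫ v, g v := integral_nonneg hg0
    have hba : 0 ≤ b - a := by linarith
    positivity
  have hBd0 : 0 ≤ Bd := (abs_nonneg _).trans (hBd s0 a ⟨le_rfl, hab⟩)
  have hmem : ∀ᵐ x ∂l, x ∈ Icc a b := ae_restrict_mem measurableSet_Icc
  have hfb : ∀ s, ∀ x ∈ Icc a b, |f x * W s x| ≤ F * Bd := by
    intro s x hx
    rw [abs_mul]
    exact mul_le_mul (hF x hx) (hBd s x hx) (abs_nonneg _) hF0
  set m : S → ℝ := fun s => ∫ x, f x * W s x ∂l with hm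
  have hmm : Measurable m := by
    have : Measurable (Function.uncurry fun s x => f x * W s x) := (hf.comp measurable_snd).mul hW
    exact (StronglyMeasurable.integral_prod_right this.stronglyMeasurable).measurable
  have hmb : ∀ s, |m s| ≤ F * Bd * (b - a) := by
    intro s
    have h1 := norm_integral_le_of_norm_le_const (μ := l) (f := fun x => f x * W s x) (C := F * Bd)
      (hmem.mono fun x hx => by rw [Real.norm_eq_abs]; exact hfb s x hx)
    have h2 : l.real univ = b - a := by
      rw [hl, Measure.real, Measure.restrict_apply_univ, Real.volume_Icc, ENNReal.toReal_ofReal (by linarith)]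
    rw [h2, Real.norm_eq_abs] at h1
    exact h1
  -- first swap
  have e1 : ∫ s, (∫ x, f x * W s x ∂l) ^ 2 ∂μ = ∫ x, f x * ∫ s, W s x * m s ∂μ ∂l := by
    have i1 : Integrable (Function.uncurry fun s x => f x * (W s x * m s)) (μ.prod l) := by
      refine Integrable.of_bound (C := F * (Bd * (F * Bd * (b - a)))) ?_ ?_
      · exact ((hf.comp measurable_snd).mul (hW.mul (hmm.comp measurable_fst))).aestronglyMeasurable
      · have : ∀ᵐ q ∂(μ.prod l), q.2 ∈ Icc a b := by
          exact (Measure.quasiMeasurePreserving_snd (μ := μ) (ν := l)).ae hmem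
        filter_upwards [this] with q hq
        rw [Real.norm_eq_abs]
        show |f q.2 * (W q.1 q.2 * m q.1)| ≤ _
        rw [abs_mul, abs_mul]
        exact mul_le_mul (hF _ hq) (mul_le_mul (hBd _ _ hq) (hmb _) (abs_nonneg _) hBd0) (by positivity) hF0
    have h1 := integral_integral_swap i1
    have h2 : ∀ s, (∫ x, f x * W s x ∂l) ^ 2 = ∫ x, f x * (W s x * m s) ∂l := by
      intro s
      have : ∀ x, f x * (W s x * m s) = (f x * W s x) * m s := fun x => by ring
      simp_rw [this]
      rw [integral_mul_const, pow_two]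
    simp_rw [h2]
    rw [h1]
    refine integral_congr_ae (ae_of_all _ fun x => ?_)
    show ∫ s, f x * (W s x * m s) ∂μ = _
    rw [integral_const_mul]
  -- second swap
  have e2 : ∀ x ∈ Icc a b, ∫ s, W s x * m s ∂μ = ∫ y, f y * ∫ s, W s x * W s y ∂μ ∂l := by
    intro x hx
    have i1 : Integrable (Function.uncurry fun s y => f y * (W s x * W s y)) (μ.prod l) := by
      refine Integrable.of_bound (C := F * (Bd * Bd)) ?_ ?_
      · exact ((hf.comp measurable_snd).mul (((hWx x).comp measurable_fst).mul hW)).aestronglyMeasurable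
      · have : ∀ᵐ q ∂(μ.prod l), q.2 ∈ Icc a b := by
          exact (Measure.quasiMeasurePreserving_snd (μ := μ) (ν := l)).ae hmem
        filter_upwards [this] with q hq
        rw [Real.norm_eq_abs]
        show |f q.2 * (W q.1 x * W q.1 q.2)| ≤ _
        rw [abs_mul, abs_mul]
        exact mul_le_mul (hF _ hq) (mul_le_mul (hBd _ _ hx) (hBd _ _ hq) (abs_nonneg _) hBd0) (by positivity) hF0
    have h1 := integral_integral_swap i1
    have h2 : ∀ s, W s x * m s = ∫ y, f y * (W s x * W s y) ∂l := by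
      intro s
      have : ∀ y, f y * (W s x * W s y) = W s x * (f y * W s y) := fun y => by ring
      simp_rw [this]
      rw [integral_const_mul]
    simp_rw [h2]
    rw [h1]
    refine integral_congr_ae (ae_of_all _ fun y => ?_)
    show ∫ s, f y * (W s x * W s y) ∂μ = _
    rw [integral_const_mul]
  rw [e1]
  have hgx : ∀ x, Integrable (fun y => g (x - y)) := fun x => hg.comp_sub_left x
  have hba : 0 ≤ b - a := by linarith
  have hl1 : l.real univ = b - a := by
    rw [hl, Measure.real, Measure.restrict_apply_univ, Real.volume_Icc, ENNReal.toReal_ofReal (by linarith)]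
  have hG0 : 0 ≤ ∫ v, g v := integral_nonneg hg0
  -- bound of the inner integral
  have e3 : ∀ x ∈ Icc a b, |∫ s, W s x * m s ∂μ| ≤ F * (B * (b - a) + C * ∫ v, g v) := by
    intro x hx
    rw [e2 x hx]
    have h1 : ‖∫ y, f y * ∫ s, W s x * W s y ∂μ ∂l‖ ≤ ∫ y, F * (B + C * g (x - y)) ∂l := by
      refine norm_integral_le_of_norm_le ?_ ?_
      · exact (((integrable_const B).add (((hgx x).mono_measure Measure.restrict_le_self).const_mul C)).const_mul F)
      · have hne : ∀ᵐ y ∂l, y ≠ x := by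
          rw [ae_iff]
          simp only [ne_eq, not_not]
          have : {y : ℝ | y = x} = {x} := rfl
          rw [this]
          refine le_antisymm ?_ bot_le
          calc l {x} ≤ volume {x} := Measure.restrict_le_self _
            _ = 0 := Real.volume_singleton
        filter_upwards [hmem, hne] with y hy hyx
        rw [Real.norm_eq_abs, abs_mul]
        exact mul_le_mul (hF y hy) (hcov x hx y hy (Ne.symm hyx)) (abs_nonneg _) hF0
    rw [Real.norm_eq_abs] at h1
    refine h1.trans ?_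
    rw [integral_const_mul]
    refine mul_le_mul_of_nonneg_left ?_ hF0
    rw [integral_add (integrable_const _) (((hgx x).mono_measure Measure.restrict_le_self).const_mul C), integral_const,
      integral_const_mul, hl1, smul_eq_mul, mul_comm (b - a)]
    have h2 : ∫ y, g (x - y) ∂l ≤ ∫ y, g (x - y) :=
      integral_mono_measure Measure.restrict_le_self (ae_of_all _ fun y => hg0 _) (hgx x)
    rw [integral_sub_left_eq_self (fun v => g v) volume x] at h2
    have := mul_le_mul_of_nonneg_left h2 hC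
    linarith
  have h4 := norm_integral_le_of_norm_le_const (μ := l) (f := fun x => f x * ∫ s, W s x * m s ∂μ)
    (C := F * (F * (B * (b - a) + C * ∫ v, g v))) (hmem.mono fun x hx => by
      rw [Real.norm_eq_abs, abs_mul]
      exact mul_le_mul (hF x hx) (e3 x hx) (abs_nonneg _) hF0)
  rw [hl1, Real.norm_eq_abs] at h4
  refine (le_abs_self _).trans (h4.trans (le_of_eq (by ring)))

end Pool.Agent.T6.H99.CH
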