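import Pool.Agent.T6.H99.CH.K3
import Pool.Agent.T6.H99.CH.S1

set_option autoImplicit false
set_option linter.unusedSectionVars false

/-! The random field and its covariances. -/

namespace Pool.Agent.T6.H99.CH

open Finset MeasureTheory ProbabilityTheory Filter

variable {Ω : Type*} [mΩ : MeasurableSpace Ω] {P : Measure Ω} {θ : ℕ → Ω → ℝ}

/-- the normalised field over the primes in `I` -/
noncomputable def GF (P : Measure Ω) (θ : ℕ → Ω → ℝ) (α δ : ℝ) (I : Finset ℕ) (ω : Ω) (x : ℝ) : ℝ :=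
  ∏ p ∈ I, (Lf α (pv δ x p) (Xp θ p ω) / cc P θ α δ p)

lemma Lf_pv_meas {S : Set ℕ} {α δ : ℝ} (hδ : 0 ≤ δ) (x : ℝ) {p : ℕ} (hp : p.Prime) (hpS : p ∈ S) :
    Measurable[mS θ S] fun ω => Lf α (pv δ x p) (Xp θ p ω) := by
  have h1 := rr_lt_one hδ hp
  exact th_meas hpS (G := fun t => Lf α (pv δ x p) (ee t)) (Lf_cont (by rw [pv_norm δ x hp]; linarith))

lemma GF_meas {S : Set ℕ} {α δ : ℝ} (hδ : 0 ≤ δ) (x : ℝ) {I : Finset ℕ} (hI : ∀ p ∈ I, p.Prime) (hS : ∀ p ∈ I, p ∈ S) :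
    Measurable[mS θ S] fun ω => GF P θ α δ I ω x := by
  unfold GF
  refine @Finset.measurable_fun_prod _ _ _ _ _ _ (mS θ S) _ _ fun p hp => ?_
  exact (Lf_pv_meas hδ x (hI p hp) (hS p hp)).div_const _

lemma pv_cont (δ : ℝ) {p : ℕ} (hp : p.Prime) : Continuous fun x => pv δ x p := by
  unfold pv
  have : (p:ℂ) ≠ 0 := by exact_mod_cast hp.ne_zero
  exact Continuous.const_cpow (by fun_prop) (Or.inl this)

/-- joint measurability -/
lemma GF_meas2 (h : Ph P θ) {α δ : ℝ} {I : Finset ℕ} (hI : ∀ p ∈ I, p.Prime) :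
    Measurable (Function.uncurry (GF P θ α δ I)) := by
  have e : Function.uncurry (GF P θ α δ I) = fun q : Ω × ℝ => ∏ p ∈ I, (Lf α (pv δ q.2 p) (Xp θ p q.1) / cc P θ α δ p) := by
    funext q; rfl
  rw [e]
  refine Finset.measurable_fun_prod _ fun p hp => ?_
  refine Measurable.div_const ?_ _
  unfold Lf
  have h1 : Measurable fun q : Ω × ℝ => 1 - pv δ q.2 p * Xp θ p q.1 :=
    measurable_const.sub (((pv_cont δ (hI p hp)).measurable.comp measurable_snd).mul ((Xp_meas' h p).comp measurable_fst))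
  exact h1.norm.pow_const _

lemma GF_range (h : Ph P θ) {α : ℝ} (hα : 0 ≤ α) (hα1 : α ≤ 1) {δ : ℝ} (hδ : 0 ≤ δ) {I : Finset ℕ} (hI : ∀ p ∈ I, p.Prime)
    (ω : Ω) (x : ℝ) : 0 < GF P θ α δ I ω x ∧ GF P θ α δ I ω x ≤ 48 ^ I.card := by
  have hf : ∀ p ∈ I, 0 < Lf α (pv δ x p) (Xp θ p ω) / cc P θ α δ p ∧ Lf α (pv δ x p) (Xp θ p ω) / cc P θ α δ p ≤ 48 := by
    intro p hp
    have hx : ‖pv δ x p‖ ≤ 71 / 100 := by rw [pv_norm δ x (hI p hp)]; exact rr_lt_one hδ (hI p hp)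
    obtain ⟨c1, c2⟩ := cc_range h hα hα1 hδ (hI p hp)
    obtain ⟨l1, l2⟩ := Lf_range hα hα1 hx (Xp_norm (θ := θ) p ω)
    constructor
    · exact div_pos (by linarith) (by linarith)
    · rw [div_le_iff₀ (by linarith)]; nlinarith
  unfold GF
  refine ⟨prod_pos fun p hp => (hf p hp).1, ?_⟩
  exact (prod_le_prod (fun p hp => (hf p hp).1.le) fun p hp => (hf p hp).2).trans (by rw [prod_const])

lemma GF_integrable (h : Ph P θ) {α : ℝ} (hα : 0 ≤ α) (hα1 : α ≤ 1) {δ : ℝ} (hδ : 0 ≤ δ) {I : Finset ℕ}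
    (hI : ∀ p ∈ I, p.Prime) (x : ℝ) : Integrable (fun ω => GF P θ α δ I ω x) P := by
  have hpr := h.pr
  refine Integrable.of_bound ((GF_meas hδ x hI (S := Set.univ) fun _ _ => Set.mem_univ _).mono (mS_le h.ms _) le_rfl).aestronglyMeasurable
    (48 ^ I.card) (ae_of_all _ fun ω => ?_)
  obtain ⟨h1, h2⟩ := GF_range h hα hα1 hδ hI ω x
  rw [Real.norm_eq_abs, abs_of_pos h1]
  exact h2

/-- the mean is one -/
lemma GF_mean (h : Ph P θ) {α : ℝ} (hα : 0 ≤ α) (hα1 : α ≤ 1) {δ : ℝ} (hδ : 0 ≤ δ) {I : Finset ℕ} (hI : ∀ p ∈ I, p.Prime)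
    (x : ℝ) : ∫ ω, GF P θ α δ I ω x ∂P = 1 := by
  classical
  unfold GF
  have h1 := E_prodF (𝕜 := ℝ) h I (F := fun p ω => if hp : p.Prime then Lf α (pv δ x p) (Xp θ p ω) / cc P θ α δ p else 1)
    (fun p => by
      by_cases hp : p.Prime
      · simp only [hp, dite_true]
        exact (Lf_pv_meas hδ x hp (Set.mem_singleton p)).div_const _
      · simp only [hp, dite_false]
        exact measurable_const)
  have e1 : ∀ ω, ∏ p ∈ I, (if hp : p.Prime then Lf α (pv δ x p) (Xp θ p ω) / cc P θ α δ p else 1) =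
      ∏ p ∈ I, (Lf α (pv δ x p) (Xp θ p ω) / cc P θ α δ p) := by
    intro ω
    exact prod_congr rfl fun p hp => dif_pos (hI p hp)
  simp_rw [e1] at h1
  rw [h1]
  refine prod_eq_one fun p hp => ?_
  simp only [hI p hp, dite_true]
  rw [integral_div, cc_rot h α hδ x (hI p hp)]
  exact div_self (by have := (cc_range h hα hα1 hδ (hI p hp)).1; linarith)

/-- the covariance -/
lemma GF_cov (h : Ph P θ) {α : ℝ} (_hα : 0 ≤ α) (_hα1 : α ≤ 1) {δ : ℝ} (hδ : 0 ≤ δ) {I : Finset ℕ} (hI : ∀ p ∈ I, p.Prime)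
    (x y : ℝ) : ∫ ω, GF P θ α δ I ω x * GF P θ α δ I ω y ∂P = ∏ p ∈ I, kk P θ α δ x y p := by
  classical
  unfold GF
  simp_rw [← prod_mul_distrib]
  have h1 := E_prodF (𝕜 := ℝ) h I (F := fun p ω => if hp : p.Prime then (Lf α (pv δ x p) (Xp θ p ω) / cc P θ α δ p) *
      (Lf α (pv δ y p) (Xp θ p ω) / cc P θ α δ p) else 1)
    (fun p => by
      by_cases hp : p.Prime
      · simp only [hp, dite_true]
        exact ((Lf_pv_meas hδ x hp (Set.mem_singleton p)).div_const _).mul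
          ((Lf_pv_meas hδ y hp (Set.mem_singleton p)).div_const _)
      · simp only [hp, dite_false]
        exact measurable_const)
  have e1 : ∀ ω, ∏ p ∈ I, (if hp : p.Prime then (Lf α (pv δ x p) (Xp θ p ω) / cc P θ α δ p) *
      (Lf α (pv δ y p) (Xp θ p ω) / cc P θ α δ p) else 1) =
      ∏ p ∈ I, ((Lf α (pv δ x p) (Xp θ p ω) / cc P θ α δ p) * (Lf α (pv δ y p) (Xp θ p ω) / cc P θ α δ p)) := by
    intro ω
    exact prod_congr rfl fun p hp => dif_pos (hI p hp)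
  simp_rw [e1] at h1
  rw [h1]
  refine prod_congr rfl fun p hp => ?_
  simp only [hI p hp, dite_true]
  unfold kk
  rw [← integral_div]
  refine integral_congr_ae (ae_of_all _ fun ω => ?_)
  show Lf α (pv δ x p) (Xp θ p ω) / cc P θ α δ p * (Lf α (pv δ y p) (Xp θ p ω) / cc P θ α δ p) =
    Lf α (pv δ x p) (Xp θ p ω) * Lf α (pv δ y p) (Xp θ p ω) / cc P θ α δ p ^ 2
  rw [div_mul_div_comm, pow_two]

lemma GF_split (α δ : ℝ) {I J : Finset ℕ} (hIJ : I ⊆ J) (ω : Ω) (x : ℝ) :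
    GF P θ α δ J ω x = GF P θ α δ I ω x * GF P θ α δ (J \ I) ω x := by
  classical
  unfold GF
  rw [mul_comm, prod_sdiff hIJ]

/-- the covariance of two levels -/
lemma GF_cov2 (h : Ph P θ) {α : ℝ} (hα : 0 ≤ α) (hα1 : α ≤ 1) {δ : ℝ} (hδ : 0 ≤ δ) {I J : Finset ℕ} (hIJ : I ⊆ J)
    (hJ : ∀ p ∈ J, p.Prime) (x y : ℝ) :
    ∫ ω, GF P θ α δ J ω x * GF P θ α δ I ω y ∂P = ∏ p ∈ I, kk P θ α δ x y p := by
  classical
  have hI : ∀ p ∈ I, p.Prime := fun p hp => hJ p (hIJ hp)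
  have e : ∀ ω, GF P θ α δ J ω x * GF P θ α δ I ω y = (GF P θ α δ I ω x * GF P θ α δ I ω y) * GF P θ α δ (J \ I) ω x := by
    intro ω
    rw [GF_split α δ hIJ]; ring
  simp_rw [e]
  have m1 : Measurable[mS θ (I : Set ℕ)] fun ω => GF P θ α δ I ω x * GF P θ α δ I ω y :=
    (GF_meas hδ x hI fun p hp => hp).mul (GF_meas hδ y hI fun p hp => hp)
  have m2 : Measurable[mS θ ((J \ I : Finset ℕ) : Set ℕ)] fun ω => GF P θ α δ (J \ I) ω x :=
    GF_meas hδ x (fun p hp => hJ p (mem_sdiff.mp hp).1) fun p hp => hp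
  rw [E_mul h (by rw [Finset.disjoint_coe]; exact disjoint_sdiff) m1 m2, GF_cov h hα hα1 hδ hI,
    GF_mean h hα hα1 hδ (fun p hp => hJ p (mem_sdiff.mp hp).1), mul_one]

/-- the covariance of the increments -/
lemma GF_inc (h : Ph P θ) {α : ℝ} (hα : 0 ≤ α) (hα1 : α ≤ 1) {δ : ℝ} (hδ : 0 ≤ δ) {I J : Finset ℕ} (hIJ : I ⊆ J)
    (hJ : ∀ p ∈ J, p.Prime) (x y : ℝ) :
    ∫ ω, (GF P θ α δ J ω x - GF P θ α δ I ω x) * (GF P θ α δ J ω y - GF P θ α δ I ω y) ∂P =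
      (∏ p ∈ J, kk P θ α δ x y p) - ∏ p ∈ I, kk P θ α δ x y p := by
  have hI : ∀ p ∈ I, p.Prime := fun p hp => hJ p (hIJ hp)
  have hi : ∀ (A B : Finset ℕ) (u v : ℝ), (∀ p ∈ A, p.Prime) → (∀ p ∈ B, p.Prime) →
      Integrable (fun ω => GF P θ α δ A ω u * GF P θ α δ B ω v) P := by
    intro A B u v hA hB
    have hpr := h.pr
    refine Integrable.of_bound (((GF_meas hδ u hA (S := Set.univ) fun _ _ => Set.mem_univ _).mul
      (GF_meas hδ v hB (S := Set.univ) fun _ _ => Set.mem_univ _)).mono (mS_le h.ms _) le_rfl).aestronglyMeasurable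
      (48 ^ A.card * 48 ^ B.card) (ae_of_all _ fun ω => ?_)
    obtain ⟨h1, h2⟩ := GF_range h hα hα1 hδ hA ω u
    obtain ⟨h3, h4⟩ := GF_range h hα hα1 hδ hB ω v
    rw [Real.norm_eq_abs, abs_of_pos (mul_pos h1 h3)]
    exact mul_le_mul h2 h4 h3.le (by positivity)
  have e : ∀ ω, (GF P θ α δ J ω x - GF P θ α δ I ω x) * (GF P θ α δ J ω y - GF P θ α δ I ω y) =
      GF P θ α δ J ω x * GF P θ α δ J ω y - GF P θ α δ J ω x * GF P θ α δ I ω y -
      (GF P θ α δ J ω y * GF P θ α δ I ω x - GF P θ α δ I ω x * GF P θ α δ I ω y) := fun ω => by ring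
  simp_rw [e]
  have j1 : Integrable (fun ω => GF P θ α δ J ω x * GF P θ α δ J ω y - GF P θ α δ J ω x * GF P θ α δ I ω y) P :=
    (hi J J x y hJ hJ).sub (hi J I x y hJ hI)
  have j2 : Integrable (fun ω => GF P θ α δ J ω y * GF P θ α δ I ω x - GF P θ α δ I ω x * GF P θ α δ I ω y) P :=
    (hi J I y x hJ hI).sub (hi I I x y hI hI)
  rw [integral_sub j1 j2, integral_sub (hi J J x y hJ hJ) (hi J I x y hJ hI), integral_sub (hi J I y x hJ hI) (hi I I x y hI hI),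
    GF_cov h hα hα1 hδ hJ, GF_cov h hα hα1 hδ hI, GF_cov2 h hα hα1 hδ hIJ hJ, GF_cov2 h hα hα1 hδ hIJ hJ]
  have hsym : ∏ p ∈ I, kk P θ α δ y x p = ∏ p ∈ I, kk P θ α δ x y p := by
    refine prod_congr rfl fun p _ => ?_
    unfold kk
    congr 1
    refine integral_congr_ae (ae_of_all _ fun ω => mul_comm _ _)
  rw [hsym]
  ring

end Pool.Agent.T6.H99.CH
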