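import Pool.Agent.T6.H99.CH.C1

set_option autoImplicit false
set_option linter.unusedSectionVars false

/-! Convergence of the chaos in mean square. -/

namespace Pool.Agent.T6.H99.CH

open Finset MeasureTheory ProbabilityTheory Filter

variable {Ω : Type*} [mΩ : MeasurableSpace Ω] {P : Measure Ω} {θ : ℕ → Ω → ℝ}

lemma exp_abs_sub_one (t : ℝ) : |Real.exp t - 1| ≤ Real.exp |t| - 1 := by
  rcases le_total 0 t with h | h
  · rw [abs_of_nonneg h, abs_of_nonneg (by linarith [Real.one_le_exp h])]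
  · rw [abs_of_nonpos h, abs_of_nonpos (by linarith [Real.exp_le_one_iff.mpr h])]
    have h1 := Real.add_one_le_exp t
    have h2 := Real.add_one_le_exp (-t)
    have h3 : Real.exp t * Real.exp (-t) = 1 := by rw [← Real.exp_add]; simp
    nlinarith [Real.exp_pos t, Real.exp_pos (-t), sq_nonneg (Real.exp t - Real.exp (-t)), sq_nonneg (Real.exp t - 1)]


/-- the constant of the oscillation bound -/
noncomputable def Co : ℝ := Classical.choose cos_osc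

lemma Co_pos : 0 < Co := (Classical.choose_spec cos_osc).1


lemma Co_spec (δ u a b : ℝ) (hδ : 0 ≤ δ) (hδ1 : δ ≤ 1 / 2) (hu : u ≠ 0) (ha : 4 ≤ a) (hab : a ≤ b) :
    |∑ p ∈ PI2 a b, rr δ p ^ 2 * Real.cos (u * Real.log p)| ≤ (Co * (1 + |u|) + 2 / |u|) / Real.log a :=
  (Classical.choose_spec cos_osc).2 δ u a b hδ hδ1 hu ha hab

/-- the constant of the upper bound -/
noncomputable def Ce : ℝ := Classical.choose exp_up

lemma Ce_pos : 0 < Ce := (Classical.choose_spec exp_up).1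

lemma Ce_spec (α δ u a b : ℝ) (hα : 0 ≤ α) (hα1 : α ≤ 1) (hδ : 0 ≤ δ) (hδ1 : δ ≤ 1 / 2) (hu : u ≠ 0) (ha : 4 ≤ a)
    (hab : a ≤ b) : Real.exp (2 * α ^ 2 * ∑ p ∈ PI2 a b, rr δ p ^ 2 * Real.cos (u * Real.log p)) ≤
      Real.exp (Ce * (1 + |u|)) * (1 + |u| ^ (-(2 * α ^ 2))) :=
  (Classical.choose_spec exp_up).2 α δ u a b hα hα1 hδ hδ1 hu ha hab

lemma prod_near (h : Ph P θ) {α : ℝ} (hα : 0 ≤ α) (hα1 : α ≤ 1) {δ : ℝ} (hδ : 0 ≤ δ) (hδ1 : δ ≤ 1 / 2) {x y : ℝ} (hxy : x ≠ y)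
    {m n : ℕ} (hm : 999 ≤ m) (hmn : m ≤ n) {τ : ℝ} (hτ : ∑ p ∈ PI2 (m:ℝ) (n:ℝ), (p:ℝ) ^ (-(3 / 2 : ℝ)) ≤ τ) :
    |∏ p ∈ PI2 (m:ℝ) (n:ℝ), kk P θ α δ x y p - 1| ≤
      Real.exp (2 * ((Co * (1 + |x - y|) + 2 / |x - y|) / Real.log m) + 2000 * τ) - 1 := by
  have hI : ∀ p ∈ PI2 (m:ℝ) (n:ℝ), p.Prime ∧ 1000 ≤ p := by
    intro p hp
    rw [PI2_nat] at hp
    exact ⟨hp.2.2, by omega⟩
  have hu : x - y ≠ 0 := sub_ne_zero.mpr hxy
  have hm4 : (4:ℝ) ≤ m := by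
    have : (999:ℝ) ≤ m := by exact_mod_cast hm
    linarith
  have hmn' : (m:ℝ) ≤ n := by exact_mod_cast hmn
  rw [prod_exp_log h hα hα1 hδ x y fun p hp => (hI p hp).1]
  refine (exp_abs_sub_one _).trans (sub_le_sub_right (Real.exp_le_exp.mpr ?_) 1)
  have h1 := log_prod h hα hα1 hδ x y hI
  have h2 := Co_spec δ (x - y) m n hδ hδ1 hu hm4 hmn'
  have hα2 : 2 * α ^ 2 ≤ 2 := by nlinarith
  have h3 : |2 * α ^ 2 * ∑ p ∈ PI2 (m:ℝ) (n:ℝ), rr δ p ^ 2 * Real.cos ((x - y) * Real.log p)| ≤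
      2 * ((Co * (1 + |x - y|) + 2 / |x - y|) / Real.log m) := by
    rw [abs_mul, abs_of_nonneg (by positivity : 0 ≤ 2 * α ^ 2)]
    exact mul_le_mul hα2 h2 (abs_nonneg _) (by norm_num)
  have h4 := abs_sub_abs_le_abs_sub (∑ p ∈ PI2 (m:ℝ) (n:ℝ), Real.log (kk P θ α δ x y p))
    (2 * α ^ 2 * ∑ p ∈ PI2 (m:ℝ) (n:ℝ), rr δ p ^ 2 * Real.cos ((x - y) * Real.log p))
  linarith

attribute [irreducible] Co Ce

/-- upper bound for the covariance -/
lemma prod_sing (h : Ph P θ) {α : ℝ} (hα : 0 ≤ α) (hα1 : α ≤ 1) {δ : ℝ} (hδ : 0 ≤ δ) (hδ1 : δ ≤ 1 / 2) {x y : ℝ} (hxy : x ≠ y)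
    {z : ℕ} (hz : 1000 ≤ z) {U : ℝ} (hU : |x - y| ≤ U) :
    ∏ p ∈ Bz' z, kk P θ α δ x y p ≤ C3 * Real.exp (Ce * (1 + U)) * (1 + |x - y| ^ (-(2 * α ^ 2))) := by
  have hu : x - y ≠ 0 := sub_ne_zero.mpr hxy
  have hC3 : 0 ≤ C3 := by have := C3_ge; linarith
  refine (prod_up h hα hα1 hδ x y hz).trans ?_
  rw [mul_assoc C3]
  refine mul_le_mul_of_nonneg_left ?_ hC3
  have hzz : ((999 : ℕ) : ℝ) ≤ ((z - 1 : ℕ) : ℝ) := by exact_mod_cast (by omega : 999 ≤ z - 1)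
  have hQ : Q3 (z - 1) = PI2 ((999 : ℕ) : ℝ) ((z - 1 : ℕ) : ℝ) := Q3_eq _
  rw [hQ]
  refine (Ce_spec α δ (x - y) _ _ hα hα1 hδ hδ1 hu (by norm_num) hzz).trans ?_
  refine mul_le_mul_of_nonneg_right (Real.exp_le_exp.mpr ?_) (by positivity)
  exact mul_le_mul_of_nonneg_left (by linarith) Ce_pos.le

lemma Bz'_mono {m n : ℕ} (h : m ≤ n) : Bz' m ⊆ Bz' n := by
  intro p hp
  rw [mem_Bz'] at *
  exact ⟨by omega, hp.2⟩

lemma Bz'_prime {z p : ℕ} (h : p ∈ Bz' z) : p.Prime := (mem_Bz'.mp h).2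

lemma Bz'_union {m n : ℕ} (hm : 1 ≤ m) (h : m ≤ n) : Bz' n = Bz' m ∪ PI2 ((m - 1 : ℕ) : ℝ) ((n - 1 : ℕ) : ℝ) := by
  ext p
  rw [mem_union, mem_Bz', mem_Bz', PI2_nat]
  constructor
  · rintro ⟨h1, h2⟩
    rcases lt_or_ge p m with h | h
    · exact Or.inl ⟨h, h2⟩
    · exact Or.inr ⟨by omega, by omega, h2⟩
  · rintro (⟨h1, h2⟩ | ⟨h1, h2, h3⟩)
    · exact ⟨by omega, h2⟩
    · exact ⟨by omega, h3⟩

lemma Bz'_dj {m n : ℕ} (hm : 1 ≤ m) : Disjoint (Bz' m) (PI2 ((m - 1 : ℕ) : ℝ) ((n - 1 : ℕ) : ℝ)) := by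
  rw [Finset.disjoint_left]
  intro p h1 h2
  rw [mem_Bz'] at h1
  rw [PI2_nat] at h2
  omega

/-- the integrated field -/
noncomputable def Mz (P : Measure Ω) (θ : ℕ → Ω → ℝ) (α : ℝ) (f : ℝ → ℝ) (a b : ℝ) (z : ℕ) (ω : Ω) : ℝ :=
  ∫ x in Set.Icc a b, f x * GF P θ α 0 (Bz' z) ω x

/-- the sequence is Cauchy in mean square -/
theorem Mz_cauchy (h : Ph P θ) {α : ℝ} (hα : 0 ≤ α) (hα1 : 2 * α ^ 2 < 1) {a b F : ℝ} (hab : a ≤ b) {f : ℝ → ℝ}
    (hf : Measurable f) (hF : ∀ x ∈ Set.Icc a b, |f x| ≤ F) {ε : ℝ} (hε : 0 < ε) :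
    ∃ z0 : ℕ, ∀ m n : ℕ, z0 ≤ m → m ≤ n → ∫ ω, (Mz P θ α f a b n ω - Mz P θ α f a b m ω) ^ 2 ∂P ≤ ε := by
  have hpr := h.pr
  have hα' : α ≤ 1 := by nlinarith
  have hF0 : 0 ≤ F := (abs_nonneg _).trans (hF a ⟨le_rfl, hab⟩)
  have hba : 0 ≤ b - a := by linarith
  set U := b - a with hU
  set C4 := C3 * Real.exp (Ce * (1 + U)) with hC4
  have hC40 : 0 < C4 := mul_pos (by have := C3_ge; linarith) (Real.exp_pos _)
  -- choice of κ
  obtain ⟨κ, hκ0, hκ1, hgi, hgs⟩ := gk_small (s := 2 * α ^ 2) hα1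
    (ε := ε / (2 * (F ^ 2 * U + 1) * (2 * C4))) (by positivity)
  -- choice of the level
  obtain ⟨τ0, hτ00, hτ0⟩ : ∃ τ0 : ℝ, 0 < τ0 ∧ C4 * (1 + κ ^ (-(2 * α ^ 2))) * (Real.exp τ0 - 1) ≤
      ε / (2 * (F ^ 2 * U + 1) * (U + 1)) := by
    have h1 : Tendsto (fun t : ℝ => C4 * (1 + κ ^ (-(2 * α ^ 2))) * (Real.exp t - 1)) (nhdsWithin 0 (Set.Ioi 0)) (nhds 0) := by
      have h2 : Tendsto (fun t : ℝ => C4 * (1 + κ ^ (-(2 * α ^ 2))) * (Real.exp t - 1)) (nhds 0)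
          (nhds (C4 * (1 + κ ^ (-(2 * α ^ 2))) * (Real.exp 0 - 1))) :=
        ((Real.continuous_exp.sub continuous_const).const_mul _).tendsto _
      rw [Real.exp_zero, sub_self, mul_zero] at h2
      exact h2.mono_left nhdsWithin_le_nhds
    have h2 := h1.eventually (gt_mem_nhds (show 0 < ε / (2 * (F ^ 2 * U + 1) * (U + 1)) by positivity))
    obtain ⟨t, h3, h4⟩ := (h2.and self_mem_nhdsWithin).exists
    exact ⟨t, h4, h3.le⟩
  obtain ⟨z1, hz1⟩ := U3_tail (ε := τ0 / 4000) (by positivity)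
  have hlog : Tendsto (fun n : ℕ => 2 * ((Co * (1 + U) + 2 / κ) / Real.log n)) atTop (nhds 0) := by
    have h1 : Tendsto (fun n : ℕ => Real.log n) atTop atTop := Real.tendsto_log_atTop.comp tendsto_natCast_atTop_atTop
    have h2 := (h1.const_div_atTop (Co * (1 + U) + 2 / κ)).const_mul 2
    rwa [mul_zero] at h2
  obtain ⟨z2, hz2⟩ := eventually_atTop.mp (hlog.eventually (gt_mem_nhds (show 0 < τ0 / 2 by positivity)))
  refine ⟨1000 + z1 + z2 + 1, fun m n hm hmn => ?_⟩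
  have hm1 : 1 ≤ m := by omega
  -- the field
  set W : Ω → ℝ → ℝ := fun ω x => GF P θ α 0 (Bz' n) ω x - GF P θ α 0 (Bz' m) ω x with hW
  have hsub := Bz'_mono hmn
  have hprn : ∀ p ∈ Bz' n, p.Prime := fun p hp => Bz'_prime hp
  have hprm : ∀ p ∈ Bz' m, p.Prime := fun p hp => Bz'_prime hp
  have hWm : Measurable (Function.uncurry W) := (GF_meas2 h hprn).sub (GF_meas2 h hprm)
  have hWb : ∀ ω, ∀ x ∈ Set.Icc a b, |W ω x| ≤ 48 ^ (Bz' n).card + 48 ^ (Bz' m).card := by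
    intro ω x _
    obtain ⟨h1, h2⟩ := GF_range h hα hα' le_rfl hprn ω x
    obtain ⟨h3, h4⟩ := GF_range h hα hα' le_rfl hprm ω x
    refine (abs_sub _ _).trans ?_
    rw [abs_of_pos h1, abs_of_pos h3]
    exact add_le_add h2 h4
  have hcov : ∀ x ∈ Set.Icc a b, ∀ y ∈ Set.Icc a b, x ≠ y → |∫ ω, W ω x * W ω y ∂P| ≤
      C4 * (1 + κ ^ (-(2 * α ^ 2))) * (Real.exp τ0 - 1) + 2 * C4 * gk (2 * α ^ 2) κ (x - y) := by
    intro x hx y hy hxy
    have hxyU : |x - y| ≤ U := by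
      rw [abs_le, hU]; constructor <;> linarith [hx.1, hx.2, hy.1, hy.2]
    have hu0 : 0 < |x - y| := abs_pos.mpr (sub_ne_zero.mpr hxy)
    rw [hW]
    simp only
    rw [GF_inc h hα hα' le_rfl hsub hprn]
    have p1 := prod_sing h hα hα' le_rfl (by norm_num) hxy (z := n) (by omega) hxyU
    have p2 := prod_sing h hα hα' le_rfl (by norm_num) hxy (z := m) (by omega) hxyU
    have q1 : 0 ≤ ∏ p ∈ Bz' n, kk P θ α 0 x y p := prod_nonneg fun p hp => (kk_range h hα hα' le_rfl x y (hprn p hp)).1.le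
    have q2 : 0 ≤ ∏ p ∈ Bz' m, kk P θ α 0 x y p := prod_nonneg fun p hp => (kk_range h hα hα' le_rfl x y (hprm p hp)).1.le
    have hB0 : 0 ≤ C4 * (1 + κ ^ (-(2 * α ^ 2))) * (Real.exp τ0 - 1) :=
      mul_nonneg (by positivity) (by linarith [Real.one_le_exp hτ00.le])
    rcases lt_or_ge |x - y| κ with hlt | hge
    · have hg : gk (2 * α ^ 2) κ (x - y) = 1 + |x - y| ^ (-(2 * α ^ 2)) := by
        unfold gk
        rw [Set.indicator_of_mem (by rw [Set.mem_Ioo]; exact abs_lt.mp hlt)]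
      rw [hg]
      have hpos : 0 ≤ C4 * (1 + |x - y| ^ (-(2 * α ^ 2))) := by positivity
      have : |∏ p ∈ Bz' n, kk P θ α 0 x y p - ∏ p ∈ Bz' m, kk P θ α 0 x y p| ≤
          C4 * (1 + |x - y| ^ (-(2 * α ^ 2))) + C4 * (1 + |x - y| ^ (-(2 * α ^ 2))) := by
        refine (abs_sub _ _).trans ?_
        rw [abs_of_nonneg q1, abs_of_nonneg q2]
        exact add_le_add p1 p2
      linarith
    · have hg : gk (2 * α ^ 2) κ (x - y) = 0 := by
        unfold gk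
        rw [Set.indicator_of_notMem (by rw [Set.mem_Ioo, ← abs_lt]; exact not_lt.mpr hge)]
      rw [hg, mul_zero, add_zero]
      rw [Bz'_union hm1 hmn, prod_union (Bz'_dj hm1)]
      have hprod : ∏ p ∈ Bz' m, kk P θ α 0 x y p ≤ C4 * (1 + κ ^ (-(2 * α ^ 2))) := by
        refine p2.trans (mul_le_mul_of_nonneg_left ?_ hC40.le)
        have : |x - y| ^ (-(2 * α ^ 2)) ≤ κ ^ (-(2 * α ^ 2)) :=
          Real.rpow_le_rpow_of_nonpos hκ0 hge (by have := sq_nonneg α; linarith)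
        linarith
      have hnear := prod_near h hα hα' (δ := 0) le_rfl (by norm_num) hxy (m := m - 1) (n := n - 1) (by omega) (by omega)
        (hz1 (PI2 ((m - 1 : ℕ) : ℝ) ((n - 1 : ℕ) : ℝ)) fun p hp => by
          rw [PI2_nat] at hp; omega)
      have hz2' := hz2 (m - 1) (by omega)
      have hlm : 1 ≤ Real.log ((m - 1 : ℕ) : ℝ) := log4 (by
        have : ((1000:ℕ):ℝ) ≤ ((m - 1 : ℕ) : ℝ) := by exact_mod_cast (by omega : 1000 ≤ m - 1)
        push_cast at this ⊢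
        linarith)
      have hle : (Co * (1 + |x - y|) + 2 / |x - y|) / Real.log ((m - 1 : ℕ) : ℝ) ≤
          (Co * (1 + U) + 2 / κ) / Real.log ((m - 1 : ℕ) : ℝ) := by
        refine div_le_div_of_nonneg_right ?_ (by linarith)
        have h1 := mul_le_mul_of_nonneg_left (by linarith : 1 + |x - y| ≤ 1 + U) Co_pos.le
        have h2 : 2 / |x - y| ≤ 2 / κ := div_le_div_of_nonneg_left (by norm_num) hκ0 hge
        linarith
      have hexp : Real.exp (2 * ((Co * (1 + |x - y|) + 2 / |x - y|) / Real.log ((m - 1 : ℕ) : ℝ)) + 2000 * (τ0 / 4000)) - 1 ≤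
          Real.exp τ0 - 1 := by
        refine sub_le_sub_right (Real.exp_le_exp.mpr ?_) 1
        linarith
      have e : ∀ A B : ℝ, A * B - A = A * (B - 1) := fun A B => by ring
      rw [e, abs_mul, abs_of_nonneg q2]
      exact mul_le_mul hprod (hnear.trans hexp) (abs_nonneg _) (by positivity)
  have hfin := second_moment (μ := P) hWm hab hWb hf hF
    (mul_nonneg (by positivity : 0 ≤ C4 * (1 + κ ^ (-(2 * α ^ 2)))) (by linarith [Real.one_le_exp hτ00.le]))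
    (by positivity : 0 ≤ 2 * C4) (gk_nonneg _ _) hgi hcov
  have hint : ∀ (k : ℕ) (ω : Ω), IntegrableOn (fun x => f x * GF P θ α 0 (Bz' k) ω x) (Set.Icc a b) := by
    intro k ω
    refine Measure.integrableOn_of_bounded (M := F * 48 ^ (Bz' k).card) (by rw [Real.volume_Icc]; exact ENNReal.ofReal_ne_top) ?_ ?_
    · exact (hf.mul ((GF_meas2 h fun p hp => Bz'_prime hp).comp (measurable_const.prodMk measurable_id))).aestronglyMeasurable
    · filter_upwards [ae_restrict_mem measurableSet_Icc] with x hx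
      obtain ⟨h1, h2⟩ := GF_range h hα hα' le_rfl (I := Bz' k) (fun p hp => Bz'_prime hp) ω x
      rw [Real.norm_eq_abs, abs_mul, abs_of_pos h1]
      exact mul_le_mul (hF x hx) h2 h1.le hF0
  have e1 : ∀ ω, Mz P θ α f a b n ω - Mz P θ α f a b m ω = ∫ x in Set.Icc a b, f x * W ω x := by
    intro ω
    unfold Mz
    rw [← integral_sub (hint n ω) (hint m ω)]
    refine integral_congr_ae (ae_of_all _ fun x => ?_)
    show _ = f x * (GF P θ α 0 (Bz' n) ω x - GF P θ α 0 (Bz' m) ω x)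
    ring
  simp_rw [e1]
  refine hfin.trans ?_
  have k1 : F ^ 2 * U * (C4 * (1 + κ ^ (-(2 * α ^ 2))) * (Real.exp τ0 - 1) * U) ≤ ε / 2 := by
    have a1 : C4 * (1 + κ ^ (-(2 * α ^ 2))) * (Real.exp τ0 - 1) * U ≤ ε / (2 * (F ^ 2 * U + 1) * (U + 1)) * (U + 1) :=
      mul_le_mul hτ0 (by linarith) hba (by positivity)
    have a2 : ε / (2 * (F ^ 2 * U + 1) * (U + 1)) * (U + 1) = ε / (2 * (F ^ 2 * U + 1)) := by
      have : U + 1 ≠ 0 := by positivity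
      field_simp
    rw [a2] at a1
    calc F ^ 2 * U * (C4 * (1 + κ ^ (-(2 * α ^ 2))) * (Real.exp τ0 - 1) * U) ≤ F ^ 2 * U * (ε / (2 * (F ^ 2 * U + 1))) :=
          mul_le_mul_of_nonneg_left a1 (by positivity)
      _ ≤ (F ^ 2 * U + 1) * (ε / (2 * (F ^ 2 * U + 1))) := mul_le_mul_of_nonneg_right (by linarith) (by positivity)
      _ = ε / 2 := by
        have : F ^ 2 * U + 1 ≠ 0 := by positivity
        field_simp
  have k2 : F ^ 2 * U * (2 * C4 * ∫ v, gk (2 * α ^ 2) κ v) ≤ ε / 2 := by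
    have a1 : 2 * C4 * ∫ v, gk (2 * α ^ 2) κ v ≤ 2 * C4 * (ε / (2 * (F ^ 2 * U + 1) * (2 * C4))) :=
      mul_le_mul_of_nonneg_left hgs (by positivity)
    have a2 : 2 * C4 * (ε / (2 * (F ^ 2 * U + 1) * (2 * C4))) = ε / (2 * (F ^ 2 * U + 1)) := by
      have := hC40.ne'
      field_simp
    rw [a2] at a1
    calc F ^ 2 * U * (2 * C4 * ∫ v, gk (2 * α ^ 2) κ v) ≤ F ^ 2 * U * (ε / (2 * (F ^ 2 * U + 1))) :=
          mul_le_mul_of_nonneg_left a1 (by positivity)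
      _ ≤ (F ^ 2 * U + 1) * (ε / (2 * (F ^ 2 * U + 1))) := mul_le_mul_of_nonneg_right (by linarith) (by positivity)
      _ = ε / 2 := by
        have : F ^ 2 * U + 1 ≠ 0 := by positivity
        field_simp
  calc F ^ 2 * (b - a) * (C4 * (1 + κ ^ (-(2 * α ^ 2))) * (Real.exp τ0 - 1) * (b - a) + 2 * C4 * ∫ v, gk (2 * α ^ 2) κ v)
      = F ^ 2 * U * (C4 * (1 + κ ^ (-(2 * α ^ 2))) * (Real.exp τ0 - 1) * U) +
        F ^ 2 * U * (2 * C4 * ∫ v, gk (2 * α ^ 2) κ v) := by rw [← hU]; ring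
    _ ≤ ε := by linarith

end Pool.Agent.T6.H99.CH
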