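import Pool.Agent.T6.H99.CH.C2

set_option autoImplicit false
set_option linter.unusedSectionVars false

/-! The limit of the chaos. -/

namespace Pool.Agent.T6.H99.CH

open Finset MeasureTheory ProbabilityTheory Filter

variable {Ω : Type*} [mΩ : MeasurableSpace Ω] {P : Measure Ω} {θ : ℕ → Ω → ℝ}

lemma Mz_meas (h : Ph P θ) (α : ℝ) {f : ℝ → ℝ} (hf : Measurable f) (a b : ℝ) (z : ℕ) : Measurable (Mz P θ α f a b z) := by
  unfold Mz
  have : Measurable (Function.uncurry fun ω x => f x * GF P θ α 0 (Bz' z) ω x) :=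
    (hf.comp measurable_snd).mul (GF_meas2 h fun p hp => Bz'_prime hp)
  exact (StronglyMeasurable.integral_prod_right this.stronglyMeasurable).measurable

lemma Mz_bdd (h : Ph P θ) {α : ℝ} (hα : 0 ≤ α) (hα1 : α ≤ 1) {a b F : ℝ} (hab : a ≤ b) {f : ℝ → ℝ}
    (hF : ∀ x ∈ Set.Icc a b, |f x| ≤ F) (z : ℕ) (ω : Ω) : |Mz P θ α f a b z ω| ≤ F * 48 ^ (Bz' z).card * (b - a) := by
  have hF0 : 0 ≤ F := (abs_nonneg _).trans (hF a ⟨le_rfl, hab⟩)
  unfold Mz
  have h1 := norm_integral_le_of_norm_le_const (μ := volume.restrict (Set.Icc a b))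
    (f := fun x => f x * GF P θ α 0 (Bz' z) ω x) (C := F * 48 ^ (Bz' z).card) (by
      filter_upwards [ae_restrict_mem measurableSet_Icc] with x hx
      obtain ⟨h1, h2⟩ := GF_range h hα hα1 le_rfl (I := Bz' z) (fun p hp => Bz'_prime hp) ω x
      rw [Real.norm_eq_abs, abs_mul, abs_of_pos h1]
      exact mul_le_mul (hF x hx) h2 h1.le hF0)
  have h2 : (volume.restrict (Set.Icc a b)).real Set.univ = b - a := by
    rw [Measure.real, Measure.restrict_apply_univ, Real.volume_Icc, ENNReal.toReal_ofReal (by linarith)]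
  rw [h2] at h1
  exact h1

lemma Mz_memLp (h : Ph P θ) {α : ℝ} (hα : 0 ≤ α) (hα1 : α ≤ 1) {a b F : ℝ} (hab : a ≤ b) {f : ℝ → ℝ}
    (hf : Measurable f) (hF : ∀ x ∈ Set.Icc a b, |f x| ≤ F) (z : ℕ) (q : ENNReal) : MemLp (Mz P θ α f a b z) q P := by
  have hpr := h.pr
  exact MemLp.of_bound (Mz_meas h α hf a b z).aestronglyMeasurable (F * 48 ^ (Bz' z).card * (b - a))
    (ae_of_all _ fun ω => (Real.norm_eq_abs _).le.trans (Mz_bdd h hα hα1 hab hF z ω))

/-- the mean -/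
lemma Mz_mean (h : Ph P θ) {α : ℝ} (hα : 0 ≤ α) (hα1 : α ≤ 1) {a b F : ℝ} (hab : a ≤ b) {f : ℝ → ℝ}
    (hf : Measurable f) (hF : ∀ x ∈ Set.Icc a b, |f x| ≤ F) (z : ℕ) :
    ∫ ω, Mz P θ α f a b z ω ∂P = ∫ x in Set.Icc a b, f x := by
  have hpr := h.pr
  have hF0 : 0 ≤ F := (abs_nonneg _).trans (hF a ⟨le_rfl, hab⟩)
  unfold Mz
  have hfl : IsFiniteMeasure (volume.restrict (Set.Icc a b)) := ⟨by rw [Measure.restrict_apply_univ]; exact measure_Icc_lt_top⟩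
  have i1 : Integrable (Function.uncurry fun ω x => f x * GF P θ α 0 (Bz' z) ω x) (P.prod (volume.restrict (Set.Icc a b))) := by
    refine Integrable.of_bound (C := F * 48 ^ (Bz' z).card) ?_ ?_
    · exact ((hf.comp measurable_snd).mul (GF_meas2 h fun p hp => Bz'_prime hp)).aestronglyMeasurable
    · have : ∀ᵐ q ∂(P.prod (volume.restrict (Set.Icc a b))), q.2 ∈ Set.Icc a b :=
        (Measure.quasiMeasurePreserving_snd (μ := P) (ν := volume.restrict (Set.Icc a b))).ae (ae_restrict_mem measurableSet_Icc)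
      filter_upwards [this] with q hq
      obtain ⟨h1, h2⟩ := GF_range h hα hα1 le_rfl (I := Bz' z) (fun p hp => Bz'_prime hp) q.1 q.2
      rw [Real.norm_eq_abs]
      show |f q.2 * GF P θ α 0 (Bz' z) q.1 q.2| ≤ _
      rw [abs_mul, abs_of_pos h1]
      exact mul_le_mul (hF _ hq) h2 h1.le hF0
  rw [integral_integral_swap i1]
  refine integral_congr_ae (ae_of_all _ fun x => ?_)
  show ∫ ω, f x * GF P θ α 0 (Bz' z) ω x ∂P = f x
  rw [integral_const_mul, GF_mean h hα hα1 le_rfl (fun p hp => Bz'_prime hp), mul_one]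

lemma eLp_two {g : Ω → ℝ} (hg : MemLp g 2 P) : (eLpNorm g 2 P).toReal = Real.sqrt (∫ ω, g ω ^ 2 ∂P) := by
  rw [hg.eLpNorm_eq_integral_rpow_norm two_ne_zero ENNReal.ofNat_ne_top, ENNReal.toReal_ofReal (by positivity)]
  have : ∀ ω, ‖g ω‖ ^ (2:ENNReal).toReal = g ω ^ 2 := by
    intro ω
    rw [ENNReal.toReal_ofNat, Real.rpow_two, Real.norm_eq_abs, sq_abs]
  simp_rw [this]
  rw [ENNReal.toReal_ofNat, Real.sqrt_eq_rpow]
  norm_num

/-- the limit -/
theorem Mz_limit (h : Ph P θ) {α : ℝ} (hα : 0 ≤ α) (hα1 : 2 * α ^ 2 < 1) {a b F : ℝ} (hab : a ≤ b) {f : ℝ → ℝ}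
    (hf : Measurable f) (hF : ∀ x ∈ Set.Icc a b, |f x| ≤ F) :
    ∃ Z : Ω → ℝ, Measurable Z ∧ MemLp Z 2 P ∧ Tendsto (fun z => ∫ ω, (Mz P θ α f a b z ω - Z ω) ^ 2 ∂P) atTop (nhds 0) := by
  have hpr := h.pr
  have hα' : α ≤ 1 := by nlinarith
  have hm := fun z => Mz_memLp h hα hα' hab hf hF z 2
  set u : ℕ → Lp ℝ 2 P := fun z => (hm z).toLp with hu
  have hdist : ∀ m n, dist (u n) (u m) = Real.sqrt (∫ ω, (Mz P θ α f a b n ω - Mz P θ α f a b m ω) ^ 2 ∂P) := by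
    intro m n
    rw [dist_eq_norm, hu]
    simp only
    rw [← MemLp.toLp_sub (hm n) (hm m), Lp.norm_toLp, eLp_two ((hm n).sub (hm m))]
    rfl
  have hcs : CauchySeq u := by
    rw [Metric.cauchySeq_iff']
    intro ε hε
    obtain ⟨z0, hz0⟩ := Mz_cauchy h hα hα1 hab hf hF (ε := (ε / 2) ^ 2) (by positivity)
    refine ⟨z0, fun n hn => ?_⟩
    rw [hdist]
    have h1 := Real.sqrt_le_sqrt (hz0 z0 n le_rfl hn)
    rw [Real.sqrt_sq (by positivity)] at h1
    linarith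
  obtain ⟨v, hv⟩ := cauchySeq_tendsto_of_complete hcs
  have hvm : MemLp v 2 P := Lp.memLp v
  obtain ⟨Z, hZm, hZv⟩ := hvm.1.aemeasurable
  have hZ : MemLp Z 2 P := (memLp_congr_ae hZv).mp hvm
  refine ⟨Z, hZm, hZ, ?_⟩
  have h1 : Tendsto (fun n => dist (u n) v) atTop (nhds 0) := tendsto_iff_dist_tendsto_zero.mp hv
  have h2 : ∀ n, dist (u n) v ^ 2 = ∫ ω, (Mz P θ α f a b n ω - Z ω) ^ 2 ∂P := by
    intro n
    have e1 : v = hZ.toLp := by
      rw [← Lp.toLp_coeFn v hvm]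
      exact MemLp.toLp_congr _ _ hZv
    rw [dist_eq_norm, e1, hu]
    simp only
    rw [← MemLp.toLp_sub (hm n) hZ, Lp.norm_toLp, eLp_two ((hm n).sub hZ), Real.sq_sqrt]
    · rfl
    · exact integral_nonneg fun ω => sq_nonneg _
  have h3 := h1.pow 2
  simp_rw [h2] at h3
  simpa using h3

/-- mean square convergence implies convergence in mean -/
lemma l1_le_l2 [IsProbabilityMeasure P] {g : Ω → ℝ} (hg : MemLp g 2 P) : ∫ ω, |g ω| ∂P ≤ Real.sqrt (∫ ω, g ω ^ 2 ∂P) := by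
  have h1 : eLpNorm g 1 P ≤ eLpNorm g 2 P := eLpNorm_le_eLpNorm_of_exponent_le (by norm_num) hg.1
  have h2 := ENNReal.toReal_mono hg.2.ne h1
  rw [eLp_two hg] at h2
  have h3 : (eLpNorm g 1 P).toReal = ∫ ω, |g ω| ∂P := by
    rw [eLpNorm_one_eq_lintegral_enorm, ← integral_norm_eq_lintegral_enorm hg.1]
    rfl
  rwa [h3] at h2

end Pool.Agent.T6.H99.CH
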