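import Pool.Agent.T6.H99.CH.R2

set_option autoImplicit false
set_option linter.unusedSectionVars false

/-! Local factors of the random Euler product. -/

namespace Pool.Agent.T6.H99.CH

open Finset MeasureTheory ProbabilityTheory

variable {Ω : Type*} [mΩ : MeasurableSpace Ω] {P : Measure Ω} {θ : ℕ → Ω → ℝ}

/-- the local factor -/
noncomputable def Lf (α : ℝ) (v z : ℂ) : ℝ := ‖1 - v * z‖ ^ (-(2 * α))

noncomputable def Yf (α : ℝ) (v z : ℂ) : ℝ := -(2 * α) * Real.log ‖1 - v * z‖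

lemma one_sub_pos {v z : ℂ} (hv : ‖v‖ < 1) (hz : ‖z‖ = 1) : 0 < ‖1 - v * z‖ := by
  rw [norm_pos_iff, sub_ne_zero]
  intro h
  have : ‖v * z‖ = 1 := by rw [← h, norm_one]
  rw [norm_mul, hz, mul_one] at this
  linarith

lemma Lf_exp {α : ℝ} {v z : ℂ} (hv : ‖v‖ < 1) (hz : ‖z‖ = 1) : Lf α v z = Real.exp (Yf α v z) := by
  unfold Lf Yf
  rw [Real.rpow_def_of_pos (one_sub_pos hv hz)]
  congr 1; ring

lemma Lf_pos {α : ℝ} {v z : ℂ} (hv : ‖v‖ < 1) (hz : ‖z‖ = 1) : 0 < Lf α v z := by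
  rw [Lf_exp hv hz]; exact Real.exp_pos _

lemma Yf_cont {α : ℝ} {v : ℂ} (hv : ‖v‖ < 1) : Continuous fun t => Yf α v (ee t) := by
  unfold Yf
  refine continuous_const.mul (Continuous.log ?_ fun t => (one_sub_pos hv (ee_norm t)).ne')
  have := ee_cont
  fun_prop

lemma Lf_cont {α : ℝ} {v : ℂ} (hv : ‖v‖ < 1) : Continuous fun t => Lf α v (ee t) := by
  have : (fun t => Lf α v (ee t)) = fun t => Real.exp (Yf α v (ee t)) := funext fun t => Lf_exp hv (ee_norm t)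
  rw [this]
  exact Real.continuous_exp.comp (Yf_cont hv)

lemma log_norm_re {w : ℂ} (_hw : ‖w‖ < 1) : Real.log ‖1 - w‖ = (Complex.log (1 - w)).re := (Complex.log_re _).symm

lemma Yf_lin {α : ℝ} (hα : 0 ≤ α) {v z : ℂ} (hv : ‖v‖ ≤ 1 / 2) (hz : ‖z‖ = 1) :
    |Yf α v z - 2 * α * (v * z).re| ≤ 2 * α * ‖v‖ ^ 2 := by
  have hw : ‖v * z‖ = ‖v‖ := by rw [norm_mul, hz, mul_one]
  have hw1 : ‖-(v * z)‖ < 1 := by rw [norm_neg, hw]; linarith
  have h1 := Complex.norm_log_one_add_sub_self_le hw1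
  rw [← sub_eq_add_neg] at h1
  have h2 : |(Complex.log (1 - v * z) - -(v * z)).re| ≤ ‖v‖ ^ 2 := by
    refine (Complex.abs_re_le_norm _).trans (h1.trans ?_)
    rw [norm_neg, hw]
    have h3 : (1 - ‖v‖)⁻¹ ≤ 2 := by
      rw [inv_le_comm₀ (by linarith) two_pos]; linarith
    have := mul_le_mul_of_nonneg_left h3 (sq_nonneg ‖v‖)
    linarith
  have e : Yf α v z - 2 * α * (v * z).re = -(2 * α) * (Complex.log (1 - v * z) - -(v * z)).re := by
    unfold Yf
    rw [log_norm_re (by rw [hw]; linarith), Complex.sub_re, Complex.neg_re]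
    ring
  rw [e, abs_mul, abs_neg, abs_of_nonneg (by positivity : 0 ≤ 2 * α)]
  exact mul_le_mul_of_nonneg_left h2 (by positivity)

lemma Yf_mean (h : Ph P θ) (p : ℕ) {α : ℝ} (hα : 0 ≤ α) {v : ℂ} (hv : ‖v‖ ≤ 1 / 2) :
    |∫ ω, Yf α v (Xp θ p ω) ∂P| ≤ 2 * α * ‖v‖ ^ 3 := by
  have hpr := h.pr
  have hv1 : ‖v‖ < 1 := by linarith
  have i1 : Integrable (fun ω => Yf α v (Xp θ p ω)) P := X_integrable h p (Yf_cont hv1)
  have i2 : Integrable (fun ω => 2 * α * (v * Xp θ p ω ^ 1).re) P :=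
    X_integrable h p (g := fun z => 2 * α * (v * z ^ 1).re) (by have := ee_cont; fun_prop)
  have i3 : Integrable (fun ω => α * (v ^ 2 * Xp θ p ω ^ 2).re) P :=
    X_integrable h p (g := fun z => α * (v ^ 2 * z ^ 2).re) (by have := ee_cont; fun_prop)
  have i4 : Integrable (fun ω => 2 * α * (v * Xp θ p ω ^ 1).re + α * (v ^ 2 * Xp θ p ω ^ 2).re) P := i2.add i3
  have e1 : ∫ ω, (2 * α * (v * Xp θ p ω ^ 1).re + α * (v ^ 2 * Xp θ p ω ^ 2).re) ∂P = 0 := by
    rw [integral_add i2 i3, integral_const_mul, integral_const_mul, E_re h p _ one_ne_zero, E_re h p _ two_ne_zero]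
    simp
  have hpt : ∀ ω, |Yf α v (Xp θ p ω) - (2 * α * (v * Xp θ p ω ^ 1).re + α * (v ^ 2 * Xp θ p ω ^ 2).re)| ≤
      2 * α * ‖v‖ ^ 3 := by
    intro ω
    set z := Xp θ p ω with hz
    have hz1 : ‖z‖ = 1 := Xp_norm _ _
    have hw : ‖v * z‖ = ‖v‖ := by rw [norm_mul, hz1, mul_one]
    have hw1 : ‖-(v * z)‖ < 1 := by rw [norm_neg, hw]; linarith
    have h1 := Complex.norm_log_sub_logTaylor_le 2 hw1
    rw [← sub_eq_add_neg] at h1
    have e2 : Complex.logTaylor (2 + 1) (-(v * z)) = -(v * z) - (v * z) ^ 2 / 2 := by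
      unfold Complex.logTaylor
      simp [sum_range_succ]
      ring
    rw [e2] at h1
    have h2 : |(Complex.log (1 - v * z) - (-(v * z) - (v * z) ^ 2 / 2)).re| ≤ ‖v‖ ^ 3 := by
      refine (Complex.abs_re_le_norm _).trans (h1.trans ?_)
      rw [norm_neg, hw]
      have h3 : (1 - ‖v‖)⁻¹ ≤ 2 := by
        rw [inv_le_comm₀ (by linarith) two_pos]; linarith
      have h4 : 0 ≤ ‖v‖ ^ 3 := by positivity
      have := mul_le_mul_of_nonneg_left h3 h4
      norm_num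
      linarith
    have e3 : Yf α v z - (2 * α * (v * z ^ 1).re + α * (v ^ 2 * z ^ 2).re) =
        -(2 * α) * (Complex.log (1 - v * z) - (-(v * z) - (v * z) ^ 2 / 2)).re := by
      unfold Yf
      rw [log_norm_re (by rw [hw]; linarith), pow_one, ← mul_pow]
      have e4 : ((v * z) ^ 2 / 2).re = ((v * z) ^ 2).re / 2 := by
        rw [show ((v * z) ^ 2 / 2 : ℂ) = ((v * z) ^ 2) / ((2 : ℝ) : ℂ) by push_cast; ring, Complex.div_ofReal_re]
      simp only [Complex.sub_re, Complex.neg_re]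
      rw [e4]
      ring
    rw [e3, abs_mul, abs_neg, abs_of_nonneg (by positivity : 0 ≤ 2 * α)]
    exact mul_le_mul_of_nonneg_left h2 (by positivity)
  have e5 : ∫ ω, Yf α v (Xp θ p ω) ∂P =
      ∫ ω, (Yf α v (Xp θ p ω) - (2 * α * (v * Xp θ p ω ^ 1).re + α * (v ^ 2 * Xp θ p ω ^ 2).re)) ∂P := by
    rw [integral_sub i1 i4, e1, sub_zero]
  rw [e5]
  have := norm_integral_le_of_norm_le_const (μ := P) (C := 2 * α * ‖v‖ ^ 3)
    (ae_of_all _ fun ω => (Real.norm_eq_abs _).le.trans (hpt ω))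
  simpa using this

/-- two points -/
theorem two_pt (h : Ph P θ) (p : ℕ) {α : ℝ} (hα : 0 ≤ α) (hα1 : α ≤ 1) {v w : ℂ} {r : ℝ} (hr : 0 < r) (hr1 : r ≤ 1 / 8)
    (hv : ‖v‖ = r) (hw : ‖w‖ = r) :
    |∫ ω, Lf α v (Xp θ p ω) * Lf α w (Xp θ p ω) ∂P - Real.exp (α ^ 2 * ‖v + w‖ ^ 2)| ≤ 320 * r ^ 3 := by
  have hv1 : ‖v‖ < 1 := by linarith
  have hw1 : ‖w‖ < 1 := by linarith
  have hrC : (r:ℂ) ≠ 0 := by exact_mod_cast hr.ne'
  set c : ℂ := 2 * α * (v + w) / r with hc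
  have hcn : ‖c‖ = 2 * α * ‖v + w‖ / r := by
    rw [hc, norm_div, norm_mul, norm_mul, Complex.norm_real, Complex.norm_real, Real.norm_of_nonneg hα,
      Real.norm_of_nonneg hr.le]
    norm_num
  have hvw : ‖v + w‖ ≤ 2 * r := (norm_add_le _ _).trans (by linarith)
  have hc4 : ‖c‖ ≤ 4 := by
    rw [hcn, div_le_iff₀ hr]
    nlinarith [norm_nonneg (v + w)]
  have hr3 : 0 ≤ r ^ 3 := by positivity
  have h1 := circ h p (Y := fun z => Yf α v z + Yf α w z) (c := c) (r := r) (D := 4)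
    ((Yf_cont hv1).add (Yf_cont hw1)) hr.le (by norm_num) (by linarith) hc4 (fun x hx => by
      have e1 : r * (c * x).re = 2 * α * (v * x).re + 2 * α * (w * x).re := by
        have e2 : ((r:ℝ):ℂ) * (c * x) = ((2 * α : ℝ) : ℂ) * (v * x) + ((2 * α : ℝ) : ℂ) * (w * x) := by
          rw [hc]; push_cast; field_simp
        have e3 := congrArg Complex.re e2
        rw [Complex.re_ofReal_mul, Complex.add_re, Complex.re_ofReal_mul, Complex.re_ofReal_mul] at e3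
        exact e3
      rw [e1]
      have a1 := Yf_lin hα (by linarith : ‖v‖ ≤ 1 / 2) hx
      have a2 := Yf_lin hα (by linarith : ‖w‖ ≤ 1 / 2) hx
      rw [hv] at a1
      rw [hw] at a2
      have e4 : Yf α v x + Yf α w x - (2 * α * (v * x).re + 2 * α * (w * x).re) =
        (Yf α v x - 2 * α * (v * x).re) + (Yf α w x - 2 * α * (w * x).re) := by ring
      rw [e4]
      refine (abs_add_le _ _).trans ?_
      nlinarith [sq_nonneg r]) (by
      have i1 : Integrable (fun ω => Yf α v (Xp θ p ω)) P := X_integrable h p (Yf_cont hv1)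
      have i2 : Integrable (fun ω => Yf α w (Xp θ p ω)) P := X_integrable h p (Yf_cont hw1)
      rw [integral_add i1 i2]
      refine (abs_add_le _ _).trans ?_
      have a1 := Yf_mean h p hα (by linarith : ‖v‖ ≤ 1 / 2)
      have a2 := Yf_mean h p hα (by linarith : ‖w‖ ≤ 1 / 2)
      rw [hv] at a1
      rw [hw] at a2
      nlinarith)
  have e1 : ‖c‖ ^ 2 * r ^ 2 / 4 = α ^ 2 * ‖v + w‖ ^ 2 := by
    rw [hcn]; field_simp; ring
  have e2 : ∫ ω, Lf α v (Xp θ p ω) * Lf α w (Xp θ p ω) ∂P = ∫ ω, Real.exp (Yf α v (Xp θ p ω) + Yf α w (Xp θ p ω)) ∂P := by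
    refine integral_congr_ae (ae_of_all _ fun ω => ?_)
    show Lf α v (Xp θ p ω) * Lf α w (Xp θ p ω) = Real.exp (Yf α v (Xp θ p ω) + Yf α w (Xp θ p ω))
    rw [Lf_exp hv1 (Xp_norm _ _), Lf_exp hw1 (Xp_norm _ _), Real.exp_add]
  rw [e1] at h1
  rw [e2]
  refine h1.trans (le_of_eq (by ring))

/-- one point -/
theorem one_pt (h : Ph P θ) (p : ℕ) {α : ℝ} (hα : 0 ≤ α) (hα1 : α ≤ 1) {v : ℂ} {r : ℝ} (hr : 0 < r) (hr1 : r ≤ 1 / 8)
    (hv : ‖v‖ = r) :
    |∫ ω, Lf α v (Xp θ p ω) ∂P - Real.exp (α ^ 2 * r ^ 2)| ≤ 320 * r ^ 3 := by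
  have hv1 : ‖v‖ < 1 := by linarith
  have hrC : (r:ℂ) ≠ 0 := by exact_mod_cast hr.ne'
  set c : ℂ := 2 * α * v / r with hc
  have hcn : ‖c‖ = 2 * α := by
    rw [hc, norm_div, norm_mul, norm_mul, Complex.norm_real, Complex.norm_real, Real.norm_of_nonneg hα,
      Real.norm_of_nonneg hr.le, hv]
    field_simp
    norm_num
    ring
  have hc4 : ‖c‖ ≤ 4 := by rw [hcn]; linarith
  have hr3 : 0 ≤ r ^ 3 := by positivity
  have h1 := circ h p (Y := fun z => Yf α v z) (c := c) (r := r) (D := 4)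
    (Yf_cont hv1) hr.le (by norm_num) (by linarith) hc4 (fun x hx => by
      have e1 : r * (c * x).re = 2 * α * (v * x).re := by
        have e2 : ((r:ℝ):ℂ) * (c * x) = ((2 * α : ℝ) : ℂ) * (v * x) := by
          rw [hc]; push_cast; field_simp
        have e3 := congrArg Complex.re e2
        rw [Complex.re_ofReal_mul, Complex.re_ofReal_mul] at e3
        exact e3
      rw [e1]
      have a1 := Yf_lin hα (by linarith : ‖v‖ ≤ 1 / 2) hx
      rw [hv] at a1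
      refine a1.trans ?_
      nlinarith [sq_nonneg r]) (by
      have a1 := Yf_mean h p hα (by linarith : ‖v‖ ≤ 1 / 2)
      rw [hv] at a1
      nlinarith)
  have e1 : ‖c‖ ^ 2 * r ^ 2 / 4 = α ^ 2 * r ^ 2 := by rw [hcn]; ring
  have e2 : ∫ ω, Lf α v (Xp θ p ω) ∂P = ∫ ω, Real.exp (Yf α v (Xp θ p ω)) ∂P := by
    refine integral_congr_ae (ae_of_all _ fun ω => ?_)
    show Lf α v (Xp θ p ω) = _
    rw [Lf_exp hv1 (Xp_norm _ _)]
  rw [e1] at h1
  rw [e2]
  refine h1.trans (le_of_eq (by ring))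

/-- exponentials of linear terms -/
theorem lin_pt (h : Ph P θ) (p : ℕ) {D : ℝ} (hD : 1 ≤ D) {u : ℂ} {r : ℝ} (hr : 0 < r) (hr1 : 2 * (D * r) ≤ 1)
    (hu : ‖u‖ ≤ D * r) :
    |∫ ω, Real.exp ((u * Xp θ p ω).re) ∂P - Real.exp (‖u‖ ^ 2 / 4)| ≤ 5 * D ^ 3 * r ^ 3 := by
  have hrC : (r:ℂ) ≠ 0 := by exact_mod_cast hr.ne'
  set c : ℂ := u / r with hc
  have hcn : ‖c‖ = ‖u‖ / r := by
    rw [hc, norm_div, Complex.norm_real, Real.norm_of_nonneg hr.le]
  have hcD : ‖c‖ ≤ D := by rw [hcn, div_le_iff₀ hr]; exact hu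
  have h1 := circ h p (Y := fun z => (u * z).re) (c := c) (r := r) (D := D)
    (by have := ee_cont; fun_prop) hr.le hD hr1 hcD (fun x hx => by
      have e1 : r * (c * x).re = (u * x).re := by
        have e2 : ((r:ℝ):ℂ) * (c * x) = u * x := by
          rw [hc]; field_simp
        have e3 := congrArg Complex.re e2
        rw [Complex.re_ofReal_mul] at e3
        exact e3
      rw [e1, sub_self, abs_zero]
      positivity) (by
      have := E_re h p u (one_ne_zero)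
      simp_rw [pow_one] at this
      rw [this, abs_zero]
      positivity)
  have e1 : ‖c‖ ^ 2 * r ^ 2 / 4 = ‖u‖ ^ 2 / 4 := by rw [hcn]; field_simp
  rw [e1] at h1
  exact h1

end Pool.Agent.T6.H99.CH
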