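import Pool.Agent.T6.H99.CH.N1

set_option autoImplicit false

/-! The sums of `cos (u log p) / p^(1+η)`. -/

namespace Pool.Agent.T6.H99.CH

open Finset MeasureTheory

/-- the oscillating weight -/
noncomputable def gw (η u t : ℝ) : ℝ := t ^ (-η) * Real.cos (u * Real.log t)

noncomputable def Hw (η u t : ℝ) : ℝ :=
  t ^ (-η) * (u * Real.sin (u * Real.log t) - η * Real.cos (u * Real.log t)) / (η ^ 2 + u ^ 2)

lemma gw_deriv (η u : ℝ) {t : ℝ} (ht : 0 < t) :
    HasDerivAt (gw η u) (t ^ (-η) / t * (-η * Real.cos (u * Real.log t) - u * Real.sin (u * Real.log t))) t := by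
  have h1 : HasDerivAt (fun t : ℝ => t ^ (-η)) (-η * t ^ (-η - 1)) t := by
    have := Real.hasDerivAt_rpow_const (x := t) (p := -η) (Or.inl ht.ne')
    simpa using this
  have h2 : HasDerivAt (fun t => Real.cos (u * Real.log t)) (-Real.sin (u * Real.log t) * (u * t⁻¹)) t :=
    ((Real.hasDerivAt_log ht.ne').const_mul u).cos
  have h3 := h1.mul h2
  have e : -η * t ^ (-η - 1) * Real.cos (u * Real.log t) + t ^ (-η) * (-Real.sin (u * Real.log t) * (u * t⁻¹)) =
      t ^ (-η) / t * (-η * Real.cos (u * Real.log t) - u * Real.sin (u * Real.log t)) := by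
    rw [Real.rpow_sub_one ht.ne']
    field_simp
    ring
  rw [e] at h3
  exact h3

lemma Hw_deriv (η u : ℝ) (hu : u ≠ 0) {t : ℝ} (ht : 0 < t) : HasDerivAt (Hw η u) (gw η u t / t) t := by
  have hq : η ^ 2 + u ^ 2 ≠ 0 := by positivity
  have h1 : HasDerivAt (fun t : ℝ => t ^ (-η)) (-η * t ^ (-η - 1)) t := by
    have := Real.hasDerivAt_rpow_const (x := t) (p := -η) (Or.inl ht.ne')
    simpa using this
  have h2 : HasDerivAt (fun t => Real.cos (u * Real.log t)) (-Real.sin (u * Real.log t) * (u * t⁻¹)) t :=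
    ((Real.hasDerivAt_log ht.ne').const_mul u).cos
  have h2' : HasDerivAt (fun t => Real.sin (u * Real.log t)) (Real.cos (u * Real.log t) * (u * t⁻¹)) t :=
    ((Real.hasDerivAt_log ht.ne').const_mul u).sin
  have h3 := (h1.mul ((h2'.const_mul u).sub (h2.const_mul η))).div_const (η ^ 2 + u ^ 2)
  have e : (-η * t ^ (-η - 1) * (u * Real.sin (u * Real.log t) - η * Real.cos (u * Real.log t)) +
      t ^ (-η) * (u * (Real.cos (u * Real.log t) * (u * t⁻¹)) - η * (-Real.sin (u * Real.log t) * (u * t⁻¹)))) /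
      (η ^ 2 + u ^ 2) = gw η u t / t := by
    unfold gw
    rw [Real.rpow_sub_one ht.ne']
    field_simp
    ring
  rw [← e]
  exact h3

lemma rpow_neg_le {η t : ℝ} (hη : 0 ≤ η) (ht : 1 ≤ t) : t ^ (-η) ≤ 1 :=
  Real.rpow_le_one_of_one_le_of_nonpos ht (by linarith)

lemma gw_abs {η u t : ℝ} (hη : 0 ≤ η) (ht : 1 ≤ t) : |gw η u t| ≤ 1 := by
  unfold gw
  have h0 : 0 ≤ t ^ (-η) := Real.rpow_nonneg (by linarith) _
  rw [abs_mul, abs_of_nonneg h0]
  calc t ^ (-η) * |Real.cos (u * Real.log t)| ≤ 1 * 1 :=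
        mul_le_mul (rpow_neg_le hη ht) (Real.abs_cos_le_one _) (abs_nonneg _) zero_le_one
    _ = 1 := one_mul 1

lemma Hw_abs {η u t : ℝ} (hη : 0 ≤ η) (hu : u ≠ 0) (ht : 1 ≤ t) : |Hw η u t| ≤ 1 / |u| := by
  unfold Hw
  set s := Real.sin (u * Real.log t)
  set c := Real.cos (u * Real.log t)
  have hsc : s ^ 2 + c ^ 2 = 1 := Real.sin_sq_add_cos_sq _
  have h0 : 0 ≤ t ^ (-η) := Real.rpow_nonneg (by linarith) _
  have hu0 : 0 < |u| := abs_pos.mpr hu
  have hq : 0 < η ^ 2 + u ^ 2 := by positivity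
  rw [abs_div, abs_mul, abs_of_nonneg h0, abs_of_pos hq, div_le_div_iff₀ hq hu0, one_mul]
  have h1 : |u * s - η * c| * |u| ≤ η ^ 2 + u ^ 2 := by
    rw [← abs_mul]
    refine abs_le_of_sq_le_sq ?_ hq.le
    have h2 : (u * s - η * c) ^ 2 ≤ u ^ 2 + η ^ 2 := by
      nlinarith [sq_nonneg (u * c + η * s)]
    calc ((u * s - η * c) * u) ^ 2 = (u * s - η * c) ^ 2 * u ^ 2 := by ring
      _ ≤ (u ^ 2 + η ^ 2) * (u ^ 2 + η ^ 2) :=
          mul_le_mul h2 (by nlinarith [sq_nonneg η]) (sq_nonneg _) (by positivity)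
      _ = (η ^ 2 + u ^ 2) ^ 2 := by ring
  calc t ^ (-η) * |u * s - η * c| * |u| = t ^ (-η) * (|u * s - η * c| * |u|) := by ring
    _ ≤ 1 * (η ^ 2 + u ^ 2) := mul_le_mul (rpow_neg_le hη ht) h1 (by positivity) zero_le_one
    _ = _ := one_mul _

lemma gw_int {η u a b : ℝ} (hη : 0 ≤ η) (hu : u ≠ 0) (ha : 4 ≤ a) (hab : a ≤ b) :
    |∫ t in a..b, gw η u t / (t * Real.log t)| ≤ 2 / |u| / Real.log a := by
  have hb : 4 ≤ b := ha.trans hab
  have hU : Set.uIcc a b = Set.Icc a b := Set.uIcc_of_le hab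
  have ht4 : ∀ t ∈ Set.Icc a b, 4 ≤ t ∧ 1 ≤ Real.log t := by
    intro t ht
    have h1 : 4 ≤ t := ha.trans ht.1
    exact ⟨h1, log4 h1⟩
  have hu0 : 0 < |u| := abs_pos.mpr hu
  have hgC : ContinuousOn (fun t => gw η u t / t) (Set.uIcc a b) := by
    rw [hU]
    intro t ht
    have h1 := (ht4 t ht).1
    exact ((gw_deriv η u (by linarith : 0 < t)).continuousAt.div continuousAt_id (by simp only [id]; linarith)).continuousWithinAt
  have hHC : ContinuousOn (Hw η u) (Set.uIcc a b) := by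
    rw [hU]
    intro t ht
    have h1 := (ht4 t ht).1
    exact (Hw_deriv η u hu (by linarith : 0 < t)).continuousAt.continuousWithinAt
  have hvd : ∀ t ∈ Set.uIcc a b, HasDerivAt (fun t => (Real.log t)⁻¹) (-(t⁻¹) / Real.log t ^ 2) t := by
    intro t ht
    rw [hU] at ht
    obtain ⟨h1, h2⟩ := ht4 t ht
    exact (Real.hasDerivAt_log (by linarith : t ≠ 0)).inv (by linarith)
  have hvC : ContinuousOn (fun t : ℝ => -(t⁻¹) / Real.log t ^ 2) (Set.uIcc a b) := by
    rw [hU]
    intro t ht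
    obtain ⟨h1, h2⟩ := ht4 t ht
    have h3 : ContinuousAt Real.log t := Real.continuousAt_log (by linarith)
    have h4 : ContinuousAt (fun t : ℝ => t⁻¹) t := continuousAt_inv₀ (by linarith)
    exact (h4.neg.div (h3.pow 2) (pow_ne_zero 2 (by linarith : Real.log t ≠ 0))).continuousWithinAt
  have hp := intervalIntegral.integral_mul_deriv_eq_deriv_mul (a := a) (b := b)
    (u := fun t => (Real.log t)⁻¹) (u' := fun t => -(t⁻¹) / Real.log t ^ 2) (v := Hw η u) (v' := fun t => gw η u t / t)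
    hvd (fun t ht => by
      rw [hU] at ht
      exact Hw_deriv η u hu (by linarith [(ht4 t ht).1])) hvC.intervalIntegrable hgC.intervalIntegrable
  have e1 : ∫ t in a..b, gw η u t / (t * Real.log t) = ∫ t in a..b, (Real.log t)⁻¹ * (gw η u t / t) := by
    refine intervalIntegral.integral_congr fun t _ => ?_
    show gw η u t / (t * Real.log t) = _
    rw [mul_comm t, ← div_div, div_eq_mul_inv (gw η u t), mul_comm (gw η u t), mul_div_assoc]
  rw [e1, hp]
  have hla := log4 ha
  have hlb := log4 hb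
  obtain ⟨i1, i2⟩ := int_log_sq ha hab
  have k1 : |(Real.log b)⁻¹ * Hw η u b| ≤ 1 / |u| * (1 / Real.log b) := by
    rw [abs_mul, abs_of_pos (by positivity : 0 < (Real.log b)⁻¹), mul_comm, one_div (Real.log b)]
    exact mul_le_mul_of_nonneg_right (Hw_abs hη hu (by linarith)) (by positivity)
  have k2 : |(Real.log a)⁻¹ * Hw η u a| ≤ 1 / |u| * (1 / Real.log a) := by
    rw [abs_mul, abs_of_pos (by positivity : 0 < (Real.log a)⁻¹), mul_comm, one_div (Real.log a)]
    exact mul_le_mul_of_nonneg_right (Hw_abs hη hu (by linarith)) (by positivity)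
  have k3 : |∫ t in a..b, -(t⁻¹) / Real.log t ^ 2 * Hw η u t| ≤ 1 / |u| * (1 / Real.log a - 1 / Real.log b) := by
    rw [← i2, ← intervalIntegral.integral_const_mul, ← Real.norm_eq_abs]
    refine intervalIntegral.norm_integral_le_of_norm_le hab (ae_of_all _ fun t ht => ?_) (i1.const_mul _)
    obtain ⟨h1, h2⟩ := ht4 t ⟨ht.1.le, ht.2⟩
    rw [Real.norm_eq_abs, abs_mul, abs_div, abs_neg, abs_of_pos (by positivity : 0 < t⁻¹),
      abs_of_pos (by positivity : 0 < Real.log t ^ 2), mul_comm]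
    have e : t⁻¹ / Real.log t ^ 2 = 1 / (t * Real.log t ^ 2) := by field_simp
    rw [e]
    exact mul_le_mul_of_nonneg_right (Hw_abs hη hu (by linarith)) (by positivity)
  have e2 : 2 / |u| / Real.log a = 1 / |u| * (1 / Real.log b) + 1 / |u| * (1 / Real.log a) +
      1 / |u| * (1 / Real.log a - 1 / Real.log b) := by
    field_simp
    ring
  rw [e2]
  refine (abs_sub _ _).trans (add_le_add ((abs_sub _ _).trans (add_le_add k1 k2)) k3)

/-- oscillation bound -/
theorem ps_osc : ∃ C : ℝ, 0 < C ∧ ∀ (η u a b : ℝ), 0 ≤ η → η ≤ 1 → u ≠ 0 → 4 ≤ a → a ≤ b →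
    |∑ p ∈ PI2 a b, gw η u p / p| ≤ (C * (1 + |u|) + 2 / |u|) / Real.log a := by
  obtain ⟨C, hC, h⟩ := ps_main
  refine ⟨3 * C, by positivity, fun η u a b hη hη1 hu ha hab => ?_⟩
  have hla := log4 ha
  have hK : 0 ≤ 1 + |u| := by positivity
  have h1 := h (gw η u) (fun t => t ^ (-η) / t * (-η * Real.cos (u * Real.log t) - u * Real.sin (u * Real.log t)))
    (1 + |u|) a b ha hab hK (fun t ht => gw_deriv η u (by linarith [ht.1]))
    (fun t ht => gw_abs hη (by linarith [ht.1])) (fun t ht => by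
      have ht0 : 0 < t := by linarith [ht.1]
      have h0 : 0 ≤ t ^ (-η) / t := div_nonneg (Real.rpow_nonneg ht0.le _) ht0.le
      rw [abs_mul, abs_of_nonneg h0]
      have k1 : |(-η * Real.cos (u * Real.log t) - u * Real.sin (u * Real.log t))| ≤ 1 + |u| := by
        refine (abs_sub _ _).trans (add_le_add ?_ ?_)
        · rw [abs_mul, abs_neg, abs_of_nonneg hη]
          calc η * |Real.cos (u * Real.log t)| ≤ 1 * 1 :=
                mul_le_mul hη1 (Real.abs_cos_le_one _) (abs_nonneg _) zero_le_one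
            _ = 1 := one_mul 1
        · rw [abs_mul]
          exact mul_le_of_le_one_right (abs_nonneg _) (Real.abs_sin_le_one _)
      have k2 : t ^ (-η) / t ≤ 1 / t := div_le_div_of_nonneg_right (rpow_neg_le hη (by linarith [ht.1])) ht0.le
      calc t ^ (-η) / t * |(-η * Real.cos (u * Real.log t) - u * Real.sin (u * Real.log t))| ≤ 1 / t * (1 + |u|) :=
            mul_le_mul k2 k1 (abs_nonneg _) (by positivity)
        _ = (1 + |u|) / t := by ring) (by
      intro t ht
      have ht0 : 0 < t := by linarith [ht.1]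
      have c1 : ContinuousAt (fun t : ℝ => t ^ (-η)) t := Real.continuousAt_rpow_const _ _ (Or.inl ht0.ne')
      have c2 : ContinuousAt (fun t : ℝ => u * Real.log t) t := continuousAt_const.mul (Real.continuousAt_log ht0.ne')
      have c3 := Real.continuous_cos.continuousAt.comp (f := fun t : ℝ => u * Real.log t) c2
      have c4 := Real.continuous_sin.continuousAt.comp (f := fun t : ℝ => u * Real.log t) c2
      exact ((c1.div continuousAt_id ht0.ne').mul ((continuousAt_const.mul c3).sub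
        (continuousAt_const.mul c4))).continuousWithinAt)
  have h2 := gw_int hη hu ha hab
  have h3 : |∑ p ∈ PI2 a b, gw η u p / p| ≤ C * (1 + |u| + 2) / Real.log a + 2 / |u| / Real.log a := by
    have := abs_sub_abs_le_abs_sub (∑ p ∈ PI2 a b, gw η u p / p) (∫ t in a..b, gw η u t / (t * Real.log t))
    linarith
  refine h3.trans ?_
  rw [← add_div]
  refine div_le_div_of_nonneg_right ?_ (by linarith)
  have : C * (1 + |u| + 2) ≤ 3 * C * (1 + |u|) := by nlinarith [abs_nonneg u]
  linarith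

/-- Mertens, upper bound -/
theorem ps_mert : ∃ C : ℝ, 0 < C ∧ ∀ a b : ℝ, 4 ≤ a → a ≤ b →
    ∑ p ∈ PI2 a b, 1 / (p:ℝ) ≤ Real.log (Real.log b) - Real.log (Real.log a) + C / Real.log a := by
  obtain ⟨C, hC, h⟩ := ps_main
  refine ⟨2 * C, by positivity, fun a b ha hab => ?_⟩
  have h1 := h (fun _ => 1) (fun _ => 0) 0 a b ha hab le_rfl (fun t _ => hasDerivAt_const t 1)
    (fun t _ => by simp) (fun t _ => by simp) continuousOn_const
  have hb : 4 ≤ b := ha.trans hab
  have hd : ∀ t ∈ Set.uIcc a b, HasDerivAt (fun t => Real.log (Real.log t)) (1 / (t * Real.log t)) t := by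
    intro t ht
    rw [Set.uIcc_of_le hab] at ht
    have h4 : 4 ≤ t := ha.trans ht.1
    have hl := log4 h4
    have := (Real.hasDerivAt_log (by linarith : t ≠ 0)).log (by linarith : Real.log t ≠ 0)
    have e : t⁻¹ / Real.log t = 1 / (t * Real.log t) := by field_simp
    rw [e] at this
    exact this
  have hc : ContinuousOn (fun t => 1 / (t * Real.log t)) (Set.uIcc a b) := by
    intro t ht
    rw [Set.uIcc_of_le hab] at ht
    have h4 : 4 ≤ t := ha.trans ht.1
    have hl := log4 h4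
    have h1 : ContinuousAt Real.log t := Real.continuousAt_log (by linarith)
    exact (continuousAt_const.div (continuousAt_id.mul h1)
      (mul_pos (by linarith : 0 < t) (by linarith : 0 < Real.log t)).ne').continuousWithinAt
  have h2 : ∫ t in a..b, 1 / (t * Real.log t) = Real.log (Real.log b) - Real.log (Real.log a) :=
    intervalIntegral.integral_eq_sub_of_hasDerivAt hd hc.intervalIntegrable
  rw [h2] at h1
  have h3 := (abs_le.mp h1).2
  have e : C * (0 + 2) / Real.log a = 2 * C / Real.log a := by ring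
  rw [e] at h3
  linarith

lemma PI2_split {a b c : ℝ} (hab : a ≤ b) (hbc : b ≤ c) (f : ℕ → ℝ) :
    ∑ p ∈ PI2 a c, f p = ∑ p ∈ PI2 a b, f p + ∑ p ∈ PI2 b c, f p := by
  classical
  unfold PI2
  rw [sum_filter, sum_filter, sum_filter]
  exact (sum_Ioc_consecutive _ (Nat.floor_mono hab) (Nat.floor_mono hbc)).symm

/-- upper bound for all shifts -/
theorem ps_up : ∃ C : ℝ, 0 < C ∧ ∀ (η u a b : ℝ), 0 ≤ η → η ≤ 1 → u ≠ 0 → 4 ≤ a → a ≤ b →
    ∑ p ∈ PI2 a b, gw η u p / p ≤ max (Real.log (1 / |u|)) 0 + C * (1 + |u|) := by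
  obtain ⟨C1, hC1, h1⟩ := ps_osc
  obtain ⟨C2, hC2, h2⟩ := ps_mert
  refine ⟨2 * C1 + C2 + 2, by positivity, fun η u a b hη hη1 hu ha hab => ?_⟩
  have hla := log4 ha
  have hu0 : 0 < |u| := abs_pos.mpr hu
  have hb : 4 ≤ b := ha.trans hab
  -- the far part
  have far : ∀ a' : ℝ, 4 ≤ a' → a' ≤ b → 1 / |u| ≤ Real.log a' →
      ∑ p ∈ PI2 a' b, gw η u p / p ≤ C1 * (1 + |u|) + 2 := by
    intro a' ha' hab' hl
    have hla' := log4 ha'
    refine (le_abs_self _).trans ((h1 η u a' b hη hη1 hu ha' hab').trans ?_)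
    rw [add_div]
    refine add_le_add (div_le_self (by positivity) hla') ?_
    rw [div_div, div_le_iff₀ (by positivity)]
    have : 1 ≤ |u| * Real.log a' := by
      rw [div_le_iff₀ hu0] at hl; linarith
    linarith
  -- the near part
  have near : ∀ b' : ℝ, a ≤ b' → Real.log b' ≤ 1 / |u| →
      ∑ p ∈ PI2 a b', gw η u p / p ≤ Real.log (1 / |u|) + C2 := by
    intro b' hab' hl
    have hb' : 4 ≤ b' := ha.trans hab'
    have hlb' := log4 hb'
    calc ∑ p ∈ PI2 a b', gw η u p / p ≤ ∑ p ∈ PI2 a b', 1 / (p:ℝ) := by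
          refine sum_le_sum fun p hp => ?_
          unfold PI2 at hp
          have hp2 : 1 ≤ (p:ℝ) := by exact_mod_cast (mem_filter.mp hp).2.one_le
          exact div_le_div_of_nonneg_right ((le_abs_self _).trans (gw_abs hη hp2)) (by linarith)
      _ ≤ Real.log (Real.log b') - Real.log (Real.log a) + C2 / Real.log a := h2 a b' ha hab'
      _ ≤ Real.log (1 / |u|) + C2 := by
          have k1 : Real.log (Real.log b') ≤ Real.log (1 / |u|) := Real.log_le_log (by linarith) hl
          have k2 : 0 ≤ Real.log (Real.log a) := Real.log_nonneg hla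
          have k3 : C2 / Real.log a ≤ C2 := div_le_self hC2.le hla
          linarith
  have hC : 0 ≤ C1 * (1 + |u|) := by positivity
  have hM : 0 ≤ max (Real.log (1 / |u|)) 0 := le_max_right _ _
  have hM' : Real.log (1 / |u|) ≤ max (Real.log (1 / |u|)) 0 := le_max_left _ _
  have hCu : C1 * (1 + |u|) + C2 + 2 ≤ (2 * C1 + C2 + 2) * (1 + |u|) := by nlinarith [mul_pos hC1 hu0, mul_pos hC2 hu0]
  rcases le_total (1 / |u|) (Real.log a) with hc | hc
  · have := far a ha hab hc
    linarith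
  rcases le_total (Real.log b) (1 / |u|) with hc2 | hc2
  · have := near b hab hc2
    linarith
  · set t0 := Real.exp (1 / |u|) with ht0
    have hlt0 : Real.log t0 = 1 / |u| := Real.log_exp _
    have e1 : a ≤ t0 := by
      rw [ht0]; exact (Real.log_le_iff_le_exp (by linarith)).mp hc
    have e2 : t0 ≤ b := by
      rw [ht0]; exact (Real.le_log_iff_exp_le (by linarith)).mp hc2
    rw [PI2_split e1 e2]
    have g1 := near t0 e1 hlt0.le
    have g2 := far t0 (ha.trans e1) e2 hlt0.ge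
    linarith

end Pool.Agent.T6.H99.CH
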