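import Pool.Agent.T6.H99.CH.K1
import Pool.Agent.T6.H99.CH.N2

set_option autoImplicit false
set_option linter.unusedSectionVars false

/-! Two-point functions of the random Euler product. -/

namespace Pool.Agent.T6.H99.CH

open Finset MeasureTheory ProbabilityTheory

variable {Ω : Type*} [mΩ : MeasurableSpace Ω] {P : Measure Ω} {θ : ℕ → Ω → ℝ}

/-- `p^(-(1/2+δ))` -/
noncomputable def rr (δ : ℝ) (p : ℕ) : ℝ := (p:ℝ) ^ (-(1 / 2 + δ))

/-- `p^(-(1/2+δ+ix))` -/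
noncomputable def pv (δ x : ℝ) (p : ℕ) : ℂ := (p:ℂ) ^ (-(1 / 2 + δ + x * Complex.I))

lemma rr_pos (δ : ℝ) {p : ℕ} (hp : p.Prime) : 0 < rr δ p := by
  unfold rr
  have : (0:ℝ) < p := by exact_mod_cast hp.pos
  positivity

lemma pv_norm (δ x : ℝ) {p : ℕ} (hp : p.Prime) : ‖pv δ x p‖ = rr δ p := by
  unfold pv rr
  rw [Complex.norm_natCast_cpow_of_pos hp.pos]
  congr 1
  simp

lemma pv_eq (δ x : ℝ) {p : ℕ} (hp : p.Prime) : pv δ x p = rr δ p * Complex.exp (-(x * Real.log p) * Complex.I) := by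
  have hp0 : (0:ℝ) < p := by exact_mod_cast hp.pos
  have hpC : (p:ℂ) ≠ 0 := by exact_mod_cast hp.ne_zero
  unfold pv rr
  rw [Complex.ofReal_cpow hp0.le, show (-(1 / 2 + (δ:ℂ) + x * Complex.I)) = ((-(1 / 2 + δ) : ℝ) : ℂ) + -(x * Complex.I) by
    push_cast; ring, Complex.cpow_add _ _ hpC, Complex.cpow_def_of_ne_zero hpC (-(x * Complex.I)), ← Complex.natCast_log]
  congr 2
  push_cast
  ring

lemma pv_sum_sq (δ x y : ℝ) {p : ℕ} (hp : p.Prime) :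
    ‖pv δ x p + pv δ y p‖ ^ 2 = rr δ p ^ 2 * (2 + 2 * Real.cos ((x - y) * Real.log p)) := by
  have e1 : Complex.exp (-(x * Real.log p) * Complex.I) = ((Real.cos (x * Real.log p) : ℝ) : ℂ) -
      ((Real.sin (x * Real.log p) : ℝ) : ℂ) * Complex.I := by
    rw [Complex.exp_mul_I]
    push_cast
    rw [Complex.cos_neg, Complex.sin_neg]
    ring
  have e2 : Complex.exp (-(y * Real.log p) * Complex.I) = ((Real.cos (y * Real.log p) : ℝ) : ℂ) -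
      ((Real.sin (y * Real.log p) : ℝ) : ℂ) * Complex.I := by
    rw [Complex.exp_mul_I]
    push_cast
    rw [Complex.cos_neg, Complex.sin_neg]
    ring
  rw [pv_eq δ x hp, pv_eq δ y hp, ← mul_add, norm_mul, mul_pow, e1, e2, Complex.norm_real, Real.norm_eq_abs, sq_abs]
  congr 1
  set a := Real.cos (x * Real.log p)
  set b := Real.sin (x * Real.log p)
  set c := Real.cos (y * Real.log p)
  set d := Real.sin (y * Real.log p)
  have h1 : a ^ 2 + b ^ 2 = 1 := by rw [add_comm]; exact Real.sin_sq_add_cos_sq _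
  have h2 : c ^ 2 + d ^ 2 = 1 := by rw [add_comm]; exact Real.sin_sq_add_cos_sq _
  have h3 : Real.cos ((x - y) * Real.log p) = a * c + b * d := by
    rw [sub_mul, Real.cos_sub]
  rw [h3, ← Complex.normSq_eq_norm_sq, Complex.normSq_apply]
  simp only [Complex.add_re, Complex.sub_re, Complex.ofReal_re, Complex.mul_re, Complex.I_re, Complex.ofReal_im,
    Complex.I_im, Complex.add_im, Complex.sub_im, Complex.mul_im]
  nlinarith

lemma rr_le_half {δ : ℝ} (hδ : 0 ≤ δ) {p : ℕ} (hp : p.Prime) : rr δ p ≤ (2:ℝ) ^ (-(1 / 2 : ℝ)) := by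
  unfold rr
  have h2 : (2:ℝ) ≤ p := by exact_mod_cast hp.two_le
  calc (p:ℝ) ^ (-(1 / 2 + δ)) ≤ (p:ℝ) ^ (-(1 / 2 : ℝ)) :=
        Real.rpow_le_rpow_of_exponent_le (by linarith) (by linarith)
    _ ≤ _ := Real.rpow_le_rpow_of_nonpos (by norm_num) h2 (by norm_num)

lemma half_lt : (2:ℝ) ^ (-(1 / 2 : ℝ)) ≤ 71 / 100 := by
  have h0 : (0:ℝ) ≤ (2:ℝ) ^ (-(1 / 2 : ℝ)) := by positivity
  have h1 : ((2:ℝ) ^ (-(1 / 2 : ℝ))) ^ 2 = 1 / 2 := by
    rw [← Real.rpow_natCast, ← Real.rpow_mul (by norm_num)]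
    norm_num
  nlinarith

lemma rr_lt_one {δ : ℝ} (hδ : 0 ≤ δ) {p : ℕ} (hp : p.Prime) : rr δ p ≤ 71 / 100 := (rr_le_half hδ hp).trans half_lt

lemma rr_cube {δ : ℝ} (hδ : 0 ≤ δ) {p : ℕ} (hp : p.Prime) : rr δ p ^ 3 ≤ (p:ℝ) ^ (-(3 / 2 : ℝ)) := by
  have h1 : (1:ℝ) ≤ p := by exact_mod_cast hp.one_le
  unfold rr
  rw [← Real.rpow_natCast, ← Real.rpow_mul (by linarith)]
  exact Real.rpow_le_rpow_of_exponent_le h1 (by push_cast; linarith)

lemma rr_sq (δ : ℝ) {p : ℕ} (hp : p.Prime) : rr δ p ^ 2 = (p:ℝ) ^ (-(2 * δ)) / p := by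
  have h0 : (0:ℝ) < p := by exact_mod_cast hp.pos
  unfold rr
  rw [← Real.rpow_natCast, ← Real.rpow_mul h0.le, ← Real.rpow_sub_one h0.ne']
  congr 1
  push_cast; ring

lemma rr_small {δ : ℝ} (hδ : 0 ≤ δ) {p : ℕ} (hp : p.Prime) (h1000 : 1000 ≤ p) : rr δ p ≤ 1 / 30 := by
  have h1 := rr_sq δ hp
  have h2 : (1000:ℝ) ≤ p := by exact_mod_cast h1000
  have h3 : (p:ℝ) ^ (-(2 * δ)) ≤ 1 := Real.rpow_le_one_of_one_le_of_nonpos (by linarith) (by linarith)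
  have h4 : rr δ p ^ 2 ≤ 1 / 1000 := by
    rw [h1, div_le_div_iff₀ (by linarith) (by norm_num)]
    linarith
  have h0 := (rr_pos δ hp).le
  nlinarith

/-- the expectation of a local factor -/
noncomputable def cc (P : Measure Ω) (θ : ℕ → Ω → ℝ) (α δ : ℝ) (p : ℕ) : ℝ :=
  ∫ ω, Lf α (rr δ p) (Xp θ p ω) ∂P

lemma cc_rot (h : Ph P θ) (α : ℝ) {δ : ℝ} (hδ : 0 ≤ δ) (x : ℝ) {p : ℕ} (hp : p.Prime) :
    ∫ ω, Lf α (pv δ x p) (Xp θ p ω) ∂P = cc P θ α δ p := by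
  have hr := rr_pos δ hp
  have hrl := rr_lt_one hδ hp
  have e1 : ∀ z : ℂ, Lf α (pv δ x p) z = Lf α (rr δ p) (Complex.exp (-(x * Real.log p) * Complex.I) * z) := by
    intro z
    unfold Lf
    rw [pv_eq δ x hp, mul_assoc]
  have hw : ‖Complex.exp (-(x * Real.log p) * Complex.I)‖ = 1 := by
    rw [show (-(x * Real.log p) * Complex.I : ℂ) = ((-(x * Real.log p) : ℝ) : ℂ) * Complex.I by push_cast; ring]
    exact Complex.norm_exp_ofReal_mul_I _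
  simp_rw [e1]
  refine E_rot h p (g := fun z => Lf α (rr δ p) z) (Lf_cont ?_) hw
  rw [Complex.norm_real, Real.norm_of_nonneg hr.le]
  linarith

/-- the two-point ratio -/
noncomputable def kk (P : Measure Ω) (θ : ℕ → Ω → ℝ) (α δ x y : ℝ) (p : ℕ) : ℝ :=
  (∫ ω, Lf α (pv δ x p) (Xp θ p ω) * Lf α (pv δ y p) (Xp θ p ω) ∂P) / cc P θ α δ p ^ 2

lemma Lf_range {α : ℝ} (hα : 0 ≤ α) (hα1 : α ≤ 1) {v z : ℂ} (hv : ‖v‖ ≤ 71 / 100) (hz : ‖z‖ = 1) :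
    1 / 4 ≤ Lf α v z ∧ Lf α v z ≤ 12 := by
  have hw : ‖v * z‖ = ‖v‖ := by rw [norm_mul, hz, mul_one]
  have h1 : 29 / 100 ≤ ‖1 - v * z‖ := by
    have := norm_sub_norm_le (1:ℂ) (v * z)
    rw [norm_one, hw] at this
    linarith
  have h2 : ‖1 - v * z‖ ≤ 2 := by
    have := norm_sub_le (1:ℂ) (v * z)
    rw [norm_one, hw] at this
    linarith
  set b := ‖1 - v * z‖
  have hb : 0 < b := by linarith
  unfold Lf
  constructor
  · calc (1:ℝ) / 4 = (2:ℝ) ^ (-(2:ℝ)) := by norm_num [Real.rpow_neg]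
      _ ≤ (2:ℝ) ^ (-(2 * α)) := Real.rpow_le_rpow_of_exponent_le (by norm_num) (by linarith)
      _ ≤ b ^ (-(2 * α)) := Real.rpow_le_rpow_of_nonpos hb h2 (by linarith)
  · calc b ^ (-(2 * α)) ≤ (29 / 100 : ℝ) ^ (-(2 * α)) := Real.rpow_le_rpow_of_nonpos (by norm_num) h1 (by linarith)
      _ ≤ (29 / 100 : ℝ) ^ (-(2:ℝ)) := Real.rpow_le_rpow_of_exponent_ge (by norm_num) (by norm_num) (by linarith)
      _ ≤ 12 := by
          rw [Real.rpow_neg (by norm_num)]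
          norm_num

lemma real_norm_rr {δ : ℝ} (hδ : 0 ≤ δ) {p : ℕ} (hp : p.Prime) : ‖((rr δ p : ℝ) : ℂ)‖ ≤ 71 / 100 := by
  rw [Complex.norm_real, Real.norm_of_nonneg (rr_pos δ hp).le]
  exact rr_lt_one hδ hp

lemma cc_range (h : Ph P θ) {α : ℝ} (hα : 0 ≤ α) (hα1 : α ≤ 1) {δ : ℝ} (hδ : 0 ≤ δ) {p : ℕ} (hp : p.Prime) :
    1 / 4 ≤ cc P θ α δ p ∧ cc P θ α δ p ≤ 12 := by
  have hpr := h.pr
  have hn := real_norm_rr hδ hp
  have hi : Integrable (fun ω => Lf α (rr δ p) (Xp θ p ω)) P :=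
    X_integrable h p (Lf_cont (by linarith))
  unfold cc
  constructor
  · calc (1:ℝ) / 4 = ∫ _ω : Ω, (1 / 4 : ℝ) ∂P := by simp
      _ ≤ _ := integral_mono (integrable_const _) hi fun ω => (Lf_range hα hα1 hn (Xp_norm _ _)).1
  · calc _ ≤ ∫ _ω : Ω, (12 : ℝ) ∂P := integral_mono hi (integrable_const _) fun ω => (Lf_range hα hα1 hn (Xp_norm _ _)).2
      _ = 12 := by simp

lemma LL_integrable (h : Ph P θ) (α : ℝ) {δ : ℝ} (hδ : 0 ≤ δ) (x y : ℝ) {p : ℕ} (hp : p.Prime) :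
    Integrable (fun ω => Lf α (pv δ x p) (Xp θ p ω) * Lf α (pv δ y p) (Xp θ p ω)) P := by
  have h1 := rr_lt_one hδ hp
  exact X_integrable h p (g := fun z => Lf α (pv δ x p) z * Lf α (pv δ y p) z)
    ((Lf_cont (by rw [pv_norm δ x hp]; linarith)).mul (Lf_cont (by rw [pv_norm δ y hp]; linarith)))

lemma kk_range (h : Ph P θ) {α : ℝ} (hα : 0 ≤ α) (hα1 : α ≤ 1) {δ : ℝ} (hδ : 0 ≤ δ) (x y : ℝ) {p : ℕ} (hp : p.Prime) :
    0 < kk P θ α δ x y p ∧ kk P θ α δ x y p ≤ 2304 := by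
  have hpr := h.pr
  have hx : ‖pv δ x p‖ ≤ 71 / 100 := by rw [pv_norm δ x hp]; exact rr_lt_one hδ hp
  have hy : ‖pv δ y p‖ ≤ 71 / 100 := by rw [pv_norm δ y hp]; exact rr_lt_one hδ hp
  obtain ⟨c1, c2⟩ := cc_range h hα hα1 hδ hp
  have hi := LL_integrable h α hδ x y hp
  have k1 : 1 / 16 ≤ ∫ ω, Lf α (pv δ x p) (Xp θ p ω) * Lf α (pv δ y p) (Xp θ p ω) ∂P := by
    calc (1:ℝ) / 16 = ∫ _ω : Ω, (1 / 16 : ℝ) ∂P := by simp
      _ ≤ _ := integral_mono (integrable_const _) hi fun ω => by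
        have a1 := (Lf_range hα hα1 hx (Xp_norm (θ := θ) p ω)).1
        have a2 := (Lf_range hα hα1 hy (Xp_norm (θ := θ) p ω)).1
        show (1:ℝ) / 16 ≤ Lf α (pv δ x p) (Xp θ p ω) * Lf α (pv δ y p) (Xp θ p ω)
        nlinarith
  have k2 : ∫ ω, Lf α (pv δ x p) (Xp θ p ω) * Lf α (pv δ y p) (Xp θ p ω) ∂P ≤ 144 := by
    calc _ ≤ ∫ _ω : Ω, (144 : ℝ) ∂P := integral_mono hi (integrable_const _) fun ω => by
            have a1 := Lf_range hα hα1 hx (Xp_norm (θ := θ) p ω)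
            have a2 := Lf_range hα hα1 hy (Xp_norm (θ := θ) p ω)
            show Lf α (pv δ x p) (Xp θ p ω) * Lf α (pv δ y p) (Xp θ p ω) ≤ 144
            nlinarith [a1.1, a1.2, a2.1, a2.2]
      _ = 144 := by simp
  unfold kk
  constructor
  · exact div_pos (by linarith) (by positivity)
  · rw [div_le_iff₀ (by positivity)]
    nlinarith

lemma log_close {A a τ : ℝ} (ha : 0 < a) (hτ : τ ≤ 1 / 2) (h : |A - a| ≤ τ * a) :
    0 < A ∧ |Real.log A - Real.log a| ≤ 2 * τ := by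
  have hτ0 : 0 ≤ τ := by
    by_contra hc
    have : τ * a < 0 := mul_neg_of_neg_of_pos (not_le.mp hc) ha
    linarith [abs_nonneg (A - a)]
  obtain ⟨h1, h2⟩ := abs_le.mp h
  have hA : a / 2 ≤ A := by nlinarith
  have hA0 : 0 < A := by linarith
  refine ⟨hA0, ?_⟩
  rw [← Real.log_div hA0.ne' ha.ne']
  have hq : |A / a - 1| ≤ τ := by
    rw [div_sub_one ha.ne', abs_div, abs_of_pos ha, div_le_iff₀ ha]
    exact h
  have hq0 : 0 < A / a := div_pos hA0 ha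
  obtain ⟨q1, q2⟩ := abs_le.mp hq
  rw [abs_le]
  constructor
  · have := Real.one_sub_inv_le_log_of_pos hq0
    have h3 : (A / a)⁻¹ ≤ 1 + 2 * τ := by
      rw [inv_eq_one_div, div_le_iff₀ hq0]
      nlinarith
    linarith
  · have := Real.log_le_sub_one_of_pos hq0
    linarith

/-- the size of the two-point ratio -/
theorem kk_log (h : Ph P θ) {α : ℝ} (hα : 0 ≤ α) (hα1 : α ≤ 1) {δ : ℝ} (hδ : 0 ≤ δ) (x y : ℝ) {p : ℕ} (hp : p.Prime)
    (h1000 : 1000 ≤ p) :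
    |Real.log (kk P θ α δ x y p) - 2 * α ^ 2 * (rr δ p ^ 2 * Real.cos ((x - y) * Real.log p))| ≤ 2000 * rr δ p ^ 3 := by
  set r := rr δ p with hr
  have hr0 : 0 < r := rr_pos δ hp
  have hr1 : r ≤ 1 / 30 := rr_small hδ hp h1000
  have hr8 : r ≤ 1 / 8 := by linarith
  have hr3 : 0 < r ^ 3 := by positivity
  have hr3' : r ^ 3 ≤ 1 / 27000 := by
    calc r ^ 3 ≤ (1 / 30) ^ 3 := pow_le_pow_left₀ hr0.le hr1 3
      _ = _ := by norm_num
  have h2 := two_pt h p hα hα1 hr0 hr8 (pv_norm δ x hp) (pv_norm δ y hp)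
  have h1 := one_pt h p hα hα1 hr0 hr8 (v := ((rr δ p : ℝ) : ℂ)) (by
    rw [Complex.norm_real, Real.norm_of_nonneg hr0.le])
  have e1 : 1 ≤ Real.exp (α ^ 2 * ‖pv δ x p + pv δ y p‖ ^ 2) := Real.one_le_exp (by positivity)
  have e2 : 1 ≤ Real.exp (α ^ 2 * r ^ 2) := Real.one_le_exp (by positivity)
  have hτ : 320 * r ^ 3 ≤ 1 / 2 := by linarith
  obtain ⟨p1, l1⟩ := log_close (Real.exp_pos _) hτ (h2.trans (le_mul_of_one_le_right (by positivity) e1))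
  obtain ⟨p2, l2⟩ := log_close (Real.exp_pos _) hτ (h1.trans (le_mul_of_one_le_right (by positivity) e2))
  rw [Real.log_exp] at l1 l2
  rw [pv_sum_sq δ x y hp] at l1
  have e3 : Real.log (kk P θ α δ x y p) =
      Real.log (∫ ω, Lf α (pv δ x p) (Xp θ p ω) * Lf α (pv δ y p) (Xp θ p ω) ∂P) - 2 * Real.log (cc P θ α δ p) := by
    unfold kk
    rw [Real.log_div p1.ne' (pow_ne_zero 2 (show cc P θ α δ p ≠ 0 from p2.ne')), Real.log_pow]
    push_cast; ring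
  rw [e3]
  change |Real.log (cc P θ α δ p) - α ^ 2 * r ^ 2| ≤ 2 * (320 * r ^ 3) at l2
  rw [abs_le] at l1 l2 ⊢
  constructor <;> nlinarith [l1.1, l1.2, l2.1, l2.2]

end Pool.Agent.T6.H99.CH
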