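import Pool.Agent.T6.H99.CH.K2

set_option autoImplicit false
set_option linter.unusedSectionVars false

/-! Products of the two-point ratios. -/

namespace Pool.Agent.T6.H99.CH

open Finset MeasureTheory ProbabilityTheory

variable {Ω : Type*} [mΩ : MeasurableSpace Ω] {P : Measure Ω} {θ : ℕ → Ω → ℝ}

/-- `∑ n^(-3/2)` -/
noncomputable def U3 : ℝ := ∑' n : ℕ, (n:ℝ) ^ (-(3 / 2 : ℝ))

lemma U3_summable : Summable fun n : ℕ => (n:ℝ) ^ (-(3 / 2 : ℝ)) := Real.summable_nat_rpow.mpr (by norm_num)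

lemma U3_le (s : Finset ℕ) : ∑ p ∈ s, (p:ℝ) ^ (-(3 / 2 : ℝ)) ≤ U3 :=
  U3_summable.sum_le_tsum s fun n _ => by positivity

lemma U3_tail {ε : ℝ} (hε : 0 < ε) : ∃ z0 : ℕ, ∀ s : Finset ℕ, (∀ p ∈ s, z0 ≤ p) →
    ∑ p ∈ s, (p:ℝ) ^ (-(3 / 2 : ℝ)) ≤ ε := by
  obtain ⟨t, ht⟩ := (summable_iff_vanishing_norm.mp U3_summable) ε hε
  refine ⟨t.sup id + 1, fun s hs => ?_⟩
  have hd : Disjoint s t := by
    rw [Finset.disjoint_left]
    intro p hp hpt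
    have h1 := hs p hp
    have h2 : p ≤ t.sup id := Finset.le_sup (f := id) hpt
    omega
  have h3 := ht s hd
  exact (le_abs_self _).trans (by simpa using h3.le)

/-- the sum of the logarithms -/
lemma log_prod (h : Ph P θ) {α : ℝ} (hα : 0 ≤ α) (hα1 : α ≤ 1) {δ : ℝ} (hδ : 0 ≤ δ) (x y : ℝ) {I : Finset ℕ}
    (hI : ∀ p ∈ I, p.Prime ∧ 1000 ≤ p) :
    |∑ p ∈ I, Real.log (kk P θ α δ x y p) - 2 * α ^ 2 * ∑ p ∈ I, rr δ p ^ 2 * Real.cos ((x - y) * Real.log p)| ≤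
      2000 * ∑ p ∈ I, (p:ℝ) ^ (-(3 / 2 : ℝ)) := by
  rw [mul_sum, ← sum_sub_distrib, mul_sum]
  refine (abs_sum_le_sum_abs _ _).trans (sum_le_sum fun p hp => ?_)
  obtain ⟨h1, h2⟩ := hI p hp
  refine (kk_log h hα hα1 hδ x y h1 h2).trans ?_
  exact mul_le_mul_of_nonneg_left (rr_cube hδ h1) (by norm_num)

lemma prod_exp_log (h : Ph P θ) {α : ℝ} (hα : 0 ≤ α) (hα1 : α ≤ 1) {δ : ℝ} (hδ : 0 ≤ δ) (x y : ℝ) {I : Finset ℕ}
    (hI : ∀ p ∈ I, p.Prime) :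
    ∏ p ∈ I, kk P θ α δ x y p = Real.exp (∑ p ∈ I, Real.log (kk P θ α δ x y p)) := by
  rw [Real.exp_sum]
  refine prod_congr rfl fun p hp => ?_
  rw [Real.exp_log (kk_range h hα hα1 hδ x y (hI p hp)).1]

/-- primes below `z` -/
def Bz' (z : ℕ) : Finset ℕ := (range z).filter Nat.Prime

lemma mem_Bz' {z p : ℕ} : p ∈ Bz' z ↔ p < z ∧ p.Prime := by
  unfold Bz'; rw [mem_filter, mem_range]

lemma PI2_nat {m n : ℕ} {p : ℕ} : p ∈ PI2 (m:ℝ) (n:ℝ) ↔ m < p ∧ p ≤ n ∧ p.Prime := by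
  unfold PI2
  rw [mem_filter, mem_Ioc, Nat.floor_natCast, Nat.floor_natCast]
  tauto

lemma Bz'_split {z : ℕ} (hz : 1000 ≤ z) : Bz' z = Bz' 1000 ∪ PI2 ((999 : ℕ) : ℝ) ((z - 1 : ℕ) : ℝ) := by
  ext p
  rw [mem_union, mem_Bz', mem_Bz', PI2_nat]
  constructor
  · rintro ⟨h1, h2⟩
    rcases lt_or_ge p 1000 with h | h
    · exact Or.inl ⟨h, h2⟩
    · exact Or.inr ⟨by omega, by omega, h2⟩
  · rintro (⟨h1, h2⟩ | ⟨h1, h2, h3⟩)
    · exact ⟨by omega, h2⟩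
    · exact ⟨by omega, h3⟩

lemma Bz'_disj (n : ℕ) : Disjoint (Bz' 1000) (PI2 ((999 : ℕ) : ℝ) (n : ℝ)) := by
  rw [Finset.disjoint_left]
  intro p h1 h2
  rw [mem_Bz'] at h1
  rw [PI2_nat] at h2
  omega

lemma prod_small (h : Ph P θ) {α : ℝ} (hα : 0 ≤ α) (hα1 : α ≤ 1) {δ : ℝ} (hδ : 0 ≤ δ) (x y : ℝ) {I : Finset ℕ}
    (hI : ∀ p ∈ I, p.Prime) : ∏ p ∈ I, kk P θ α δ x y p ≤ 2304 ^ I.card := by
  have hb : ∀ p ∈ I, kk P θ α δ x y p ≤ 2304 := fun p hp => (kk_range h hα hα1 hδ x y (hI p hp)).2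
  exact (prod_le_prod (fun p hp => (kk_range h hα hα1 hδ x y (hI p hp)).1.le) hb).trans (by rw [prod_const])

lemma prod_large (h : Ph P θ) {α : ℝ} (hα : 0 ≤ α) (hα1 : α ≤ 1) {δ : ℝ} (hδ : 0 ≤ δ) (x y : ℝ) {I : Finset ℕ}
    (hI : ∀ p ∈ I, p.Prime ∧ 1000 ≤ p) : ∏ p ∈ I, kk P θ α δ x y p ≤
      Real.exp (2000 * U3) * Real.exp (2 * α ^ 2 * ∑ p ∈ I, rr δ p ^ 2 * Real.cos ((x - y) * Real.log p)) := by
  rw [prod_exp_log h hα hα1 hδ x y fun p hp => (hI p hp).1, ← Real.exp_add, Real.exp_le_exp]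
  have h3 := (abs_le.mp (log_prod h hα hα1 hδ x y hI)).2
  have h4 := U3_le I
  linarith

lemma U3_nonneg : 0 ≤ U3 := tsum_nonneg fun _ => by positivity

/-- the primes in `[1000, n]` -/
noncomputable def Q3 (n : ℕ) : Finset ℕ := PI2 ((999 : ℕ) : ℝ) (n : ℝ)

lemma mem_Q3 {n p : ℕ} : p ∈ Q3 n ↔ 999 < p ∧ p ≤ n ∧ p.Prime := PI2_nat

/-- the constant in the upper bound -/
noncomputable def C3 : ℝ := 2304 ^ (Bz' 1000).card * Real.exp (2000 * U3)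

lemma C3_ge : 1 ≤ C3 := by
  have hU := U3_nonneg
  unfold C3
  generalize (Bz' 1000).card = k
  exact one_le_mul_of_one_le_of_one_le (one_le_pow₀ (by norm_num)) (Real.one_le_exp (by positivity))

/-- upper bound for the product over all primes below `z` -/
theorem prod_up (h : Ph P θ) {α : ℝ} (hα : 0 ≤ α) (hα1 : α ≤ 1) {δ : ℝ} (hδ : 0 ≤ δ) (x y : ℝ) {z : ℕ} (hz : 1000 ≤ z) :
    ∏ p ∈ Bz' z, kk P θ α δ x y p ≤
      C3 * Real.exp (2 * α ^ 2 * ∑ p ∈ Q3 (z - 1), rr δ p ^ 2 * Real.cos ((x - y) * Real.log p)) := by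
  have hI : ∀ p ∈ Q3 (z - 1), p.Prime ∧ 1000 ≤ p := by
    intro p hp
    rw [mem_Q3] at hp
    exact ⟨hp.2.2, by omega⟩
  have hs : Bz' z = Bz' 1000 ∪ Q3 (z - 1) := Bz'_split hz
  have hd : Disjoint (Bz' 1000) (Q3 (z - 1)) := Bz'_disj _
  rw [hs, prod_union hd]
  have h1 := prod_small h hα hα1 hδ x y (I := Bz' 1000) fun p hp => (mem_Bz'.mp hp).2
  have h2 := prod_large h hα hα1 hδ x y hI
  have h5 : 0 ≤ ∏ p ∈ Q3 (z - 1), kk P θ α δ x y p :=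
    prod_nonneg fun p hp => (kk_range h hα hα1 hδ x y (hI p hp).1).1.le
  unfold C3
  rw [mul_assoc]
  exact mul_le_mul h1 h2 h5 (pow_nonneg (by norm_num) _)

lemma Q3_eq (n : ℕ) : Q3 n = PI2 ((999 : ℕ) : ℝ) (n : ℝ) := rfl

attribute [irreducible] C3 Bz' Q3

lemma sum_gw (δ u : ℝ) {I : Finset ℕ} (hI : ∀ p ∈ I, p.Prime) :
    ∑ p ∈ I, rr δ p ^ 2 * Real.cos (u * Real.log p) = ∑ p ∈ I, gw (2 * δ) u p / p := by
  refine sum_congr rfl fun p hp => ?_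
  rw [rr_sq δ (hI p hp)]
  unfold gw
  ring

lemma PI2_prime {a b : ℝ} {p : ℕ} (hp : p ∈ PI2 a b) : p.Prime := (mem_filter.mp hp).2

/-- the exponential of the sum of cosines -/
theorem exp_up : ∃ C : ℝ, 0 < C ∧ ∀ (α δ u a b : ℝ), 0 ≤ α → α ≤ 1 → 0 ≤ δ → δ ≤ 1 / 2 → u ≠ 0 → 4 ≤ a → a ≤ b →
    Real.exp (2 * α ^ 2 * ∑ p ∈ PI2 a b, rr δ p ^ 2 * Real.cos (u * Real.log p)) ≤
      Real.exp (C * (1 + |u|)) * (1 + |u| ^ (-(2 * α ^ 2))) := by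
  obtain ⟨C, hC, h⟩ := ps_up
  refine ⟨2 * C, by positivity, fun α δ u a b hα hα1 hδ hδ1 hu ha hab => ?_⟩
  have h1 := h (2 * δ) u a b (by linarith) (by linarith) hu ha hab
  rw [sum_gw δ u fun p hp => PI2_prime hp]
  have hα2 : 0 ≤ 2 * α ^ 2 := by positivity
  have hα3 : 2 * α ^ 2 ≤ 2 := by nlinarith
  have hu0 : 0 < |u| := abs_pos.mpr hu
  have h2 : 2 * α ^ 2 * ∑ p ∈ PI2 a b, gw (2 * δ) u p / p ≤
      2 * α ^ 2 * max (Real.log (1 / |u|)) 0 + 2 * C * (1 + |u|) := by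
    have h3 := mul_le_mul_of_nonneg_left h1 hα2
    have h4 : 2 * α ^ 2 * (C * (1 + |u|)) ≤ 2 * (C * (1 + |u|)) := mul_le_mul_of_nonneg_right hα3 (by positivity)
    linarith
  refine (Real.exp_le_exp.mpr h2).trans ?_
  rw [Real.exp_add, mul_comm]
  refine mul_le_mul_of_nonneg_left ?_ (Real.exp_pos _).le
  rcases max_cases (Real.log (1 / |u|)) 0 with ⟨h5, _⟩ | ⟨h5, _⟩
  · rw [h5]
    have e : Real.exp (2 * α ^ 2 * Real.log (1 / |u|)) = |u| ^ (-(2 * α ^ 2)) := by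
      rw [Real.rpow_def_of_pos hu0, one_div, Real.log_inv]
      congr 1; ring
    rw [e]; linarith
  · rw [h5, mul_zero, Real.exp_zero]
    have : 0 ≤ |u| ^ (-(2 * α ^ 2)) := by positivity
    linarith

/-- oscillation -/
theorem cos_osc : ∃ C : ℝ, 0 < C ∧ ∀ (δ u a b : ℝ), 0 ≤ δ → δ ≤ 1 / 2 → u ≠ 0 → 4 ≤ a → a ≤ b →
    |∑ p ∈ PI2 a b, rr δ p ^ 2 * Real.cos (u * Real.log p)| ≤ (C * (1 + |u|) + 2 / |u|) / Real.log a := by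
  obtain ⟨C, hC, h⟩ := ps_osc
  refine ⟨C, hC, fun δ u a b hδ hδ1 hu ha hab => ?_⟩
  rw [sum_gw δ u fun p hp => PI2_prime hp]
  exact h (2 * δ) u a b (by linarith) (by linarith) hu ha hab

end Pool.Agent.T6.H99.CH
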