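import Mathlib
import Pool.Agent.H381R2.HR.A1

set_option autoImplicit false

/-! Sums over primes with a smooth oscillating weight. -/

namespace Pool.Agent.T6.H99.CH

open Finset MeasureTheory

theorem theta_err : ∃ C : ℝ, 0 < C ∧ ∀ x : ℝ, 4 ≤ x → |Chebyshev.theta x - x| ≤ C * (x / Real.log x) := by
  obtain ⟨C, hC, h⟩ := Pool.Agent.H381R2.HR.A1
  obtain ⟨C1, h1⟩ := Chebyshev.psi_sub_theta_le_mul_sqrt
  refine ⟨2 * |C1| + 2 * C + 1, by positivity, fun x hx => ?_⟩
  have hx0 : (0:ℝ) < x := by linarith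
  have hlogx : 0 < Real.log x := Real.log_pos (by linarith)
  set N : ℕ := ⌊x⌋₊ with hN
  have hN1 : (N : ℝ) ≤ x := Nat.floor_le hx0.le
  have hN2 : x < N + 1 := Nat.lt_floor_add_one x
  have hN4 : 4 ≤ N := Nat.le_floor (by simpa using hx)
  have hN4' : (4:ℝ) ≤ N := by exact_mod_cast hN4
  have hNlog : 0 < Real.log N := Real.log_pos (by linarith)
  have hhalf : x / 2 ≤ N := by linarith
  have hsq : Real.log x ≤ 2 * Real.log N := by
    have : x ≤ (N:ℝ)^2 := by nlinarith
    calc Real.log x ≤ Real.log ((N:ℝ)^2) := Real.log_le_log hx0 this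
      _ = 2 * Real.log N := by rw [Real.log_pow]; norm_num
  have hdiv : (N:ℝ) / Real.log N ≤ 2 * (x / Real.log x) := by
    rw [← mul_div_assoc, div_le_div_iff₀ hNlog hlogx]
    nlinarith [mul_le_mul hN1 hsq hlogx.le hx0.le]
  have hpsi : |Chebyshev.psi x - N| ≤ C * (N / Real.log N) := by
    rw [Chebyshev.psi_eq_psi_coe_floor x]
    exact h N (by omega)
  have hpt := h1 x
  have hpt0 := Chebyshev.theta_le_psi x
  have hs0 : 0 ≤ Real.sqrt x := Real.sqrt_nonneg x
  have hsqrt : Real.sqrt x ≤ 2 * (x / Real.log x) := by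
    rw [← mul_div_assoc, le_div_iff₀ hlogx]
    have e1 : Real.log x = 2 * Real.log (Real.sqrt x) := by
      rw [Real.log_sqrt hx0.le]; ring
    have e2 : Real.log (Real.sqrt x) ≤ Real.sqrt x := by
      have := Real.log_le_sub_one_of_pos (Real.sqrt_pos.2 hx0)
      linarith
    have e3 : Real.sqrt x * Real.sqrt x = x := Real.mul_self_sqrt hx0.le
    rw [e1]
    nlinarith
  have hone : 1 ≤ x / Real.log x := by
    rw [le_div_iff₀ hlogx]
    have := Real.log_le_sub_one_of_pos hx0
    linarith
  have hC1 : C1 * Real.sqrt x ≤ |C1| * Real.sqrt x :=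
    mul_le_mul_of_nonneg_right (le_abs_self C1) hs0
  have hC1' : |C1| * Real.sqrt x ≤ |C1| * (2 * (x / Real.log x)) :=
    mul_le_mul_of_nonneg_left hsqrt (abs_nonneg _)
  have hC' : C * (N / Real.log N) ≤ C * (2 * (x / Real.log x)) :=
    mul_le_mul_of_nonneg_left hdiv hC.le
  rw [abs_le] at hpsi ⊢
  constructor
  · nlinarith [hpsi.1, hpsi.2]
  · nlinarith [hpsi.1, hpsi.2, mul_nonneg (abs_nonneg C1) (by linarith : (0:ℝ) ≤ x / Real.log x)]

lemma log4 {a : ℝ} (ha : 4 ≤ a) : 1 ≤ Real.log a := by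
  rw [Real.le_log_iff_exp_le (by linarith)]
  have := Real.exp_one_lt_d9
  linarith

/-- the integral of `1/(t log² t)` -/
lemma int_log_sq {a b : ℝ} (ha : 4 ≤ a) (hab : a ≤ b) :
    IntervalIntegrable (fun t => 1 / (t * Real.log t ^ 2)) volume a b ∧
    ∫ t in a..b, 1 / (t * Real.log t ^ 2) = 1 / Real.log a - 1 / Real.log b := by
  have hd : ∀ t ∈ Set.uIcc a b, HasDerivAt (fun t => -(1 / Real.log t)) (1 / (t * Real.log t ^ 2)) t := by
    intro t ht
    rw [Set.uIcc_of_le hab] at ht
    have h4 : 4 ≤ t := ha.trans ht.1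
    have hl := log4 h4
    have hl0 : Real.log t ≠ 0 := by linarith
    have h1 := ((Real.hasDerivAt_log (by linarith : t ≠ 0)).inv hl0).neg
    have e : -(-t⁻¹ / Real.log t ^ 2) = 1 / (t * Real.log t ^ 2) := by
      have : t ≠ 0 := by linarith
      field_simp
    rw [e] at h1
    have e0 : (fun t => -(1 / Real.log t)) = -Real.log⁻¹ := by
      funext x
      simp [one_div]
    rw [e0]
    exact h1
  have hc : ContinuousOn (fun t => 1 / (t * Real.log t ^ 2)) (Set.uIcc a b) := by
    intro t ht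
    rw [Set.uIcc_of_le hab] at ht
    have h4 : 4 ≤ t := ha.trans ht.1
    have hl := log4 h4
    have h0 : t * Real.log t ^ 2 ≠ 0 := by positivity
    have h1 : ContinuousAt Real.log t := Real.continuousAt_log (by linarith)
    exact ((continuousAt_const.div (continuousAt_id.mul (h1.pow 2)) h0)).continuousWithinAt
  have hi : IntervalIntegrable (fun t => 1 / (t * Real.log t ^ 2)) volume a b := hc.intervalIntegrable
  refine ⟨hi, ?_⟩
  rw [intervalIntegral.integral_eq_sub_of_hasDerivAt hd hi]
  ring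

/-- primes in `(a, b]` -/
noncomputable def PI2 (a b : ℝ) : Finset ℕ := (Ioc ⌊a⌋₊ ⌊b⌋₊).filter Nat.Prime

theorem ps_main : ∃ C : ℝ, 0 < C ∧ ∀ (g g' : ℝ → ℝ) (K a b : ℝ), 4 ≤ a → a ≤ b → 0 ≤ K →
    (∀ t ∈ Set.Icc a b, HasDerivAt g (g' t) t) → (∀ t ∈ Set.Icc a b, |g t| ≤ 1) →
    (∀ t ∈ Set.Icc a b, |g' t| ≤ K / t) → ContinuousOn g' (Set.Icc a b) →
    |∑ p ∈ PI2 a b, g p / p - ∫ t in a..b, g t / (t * Real.log t)| ≤ C * (K + 2) / Real.log a := by
  obtain ⟨C, hC, hθ⟩ := theta_err
  refine ⟨3 * C, by positivity, fun g g' K a b ha hab hK hg hg1 hg2 hgc => ?_⟩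
  obtain ⟨f, hf⟩ : ∃ f : ℝ → ℝ, ∀ t, f t = g t / (t * Real.log t) := ⟨_, fun _ => rfl⟩
  obtain ⟨f', hf'⟩ : ∃ f' : ℝ → ℝ, ∀ t, f' t = (g' t * (t * Real.log t) - g t * (Real.log t + 1)) / (t * Real.log t) ^ 2 :=
    ⟨_, fun _ => rfl⟩
  have hb : 4 ≤ b := ha.trans hab
  have ht4 : ∀ t ∈ Set.Icc a b, 4 ≤ t ∧ 1 ≤ Real.log t ∧ 0 < t * Real.log t := by
    intro t ht
    have h1 : 4 ≤ t := ha.trans ht.1
    have h2 := log4 h1
    exact ⟨h1, h2, by positivity⟩
  have hd : ∀ t ∈ Set.Icc a b, HasDerivAt f (f' t) t := by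
    intro t ht
    obtain ⟨h1, h2, h3⟩ := ht4 t ht
    have h4 : HasDerivAt (fun t => t * Real.log t) (Real.log t + 1) t := by
      have := (hasDerivAt_id t).mul (Real.hasDerivAt_log (by linarith : t ≠ 0))
      simp only [id, one_mul] at this
      rwa [mul_inv_cancel₀ (by linarith : t ≠ 0)] at this
    have h5 := (hg t ht).div h4 h3.ne'
    have e : f = fun t => g t / (t * Real.log t) := funext hf
    rw [e, hf']
    exact h5
  have hgC : ContinuousOn g (Set.Icc a b) := fun t ht => (hg t ht).continuousAt.continuousWithinAt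
  have hlC : ContinuousOn Real.log (Set.Icc a b) := fun t ht =>
    (Real.continuousAt_log (by have := (ht4 t ht).1; linarith)).continuousWithinAt
  have hfC' : ContinuousOn f' (Set.Icc a b) := by
    have e : f' = fun t => (g' t * (t * Real.log t) - g t * (Real.log t + 1)) / (t * Real.log t) ^ 2 := funext hf'
    rw [e]
    refine ContinuousOn.div ?_ ?_ ?_
    · exact (hgc.mul (continuousOn_id.mul hlC)).sub (hgC.mul (hlC.add continuousOn_const))
    · exact (continuousOn_id.mul hlC).pow 2
    · intro t ht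
      exact pow_ne_zero 2 (ht4 t ht).2.2.ne'
  have hderiv : ∀ t ∈ Set.Icc a b, deriv f t = f' t := fun t ht => (hd t ht).deriv
  -- Abel summation
  set c : ℕ → ℝ := fun k => if k.Prime then Real.log k else 0 with hc
  have hcs : ∀ t : ℝ, ∑ k ∈ Icc 0 ⌊t⌋₊, c k = Chebyshev.theta t := by
    intro t
    rw [Chebyshev.theta_eq_sum_Icc, sum_filter]
  have hint : IntegrableOn (deriv f) (Set.Icc a b) := by
    have h1 : IntegrableOn f' (Set.Icc a b) := hfC'.integrableOn_Icc
    exact h1.congr_fun (fun t ht => (hderiv t ht).symm) measurableSet_Icc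
  have habel := sum_mul_eq_sub_sub_integral_mul c (by linarith : 0 ≤ a) hab
    (fun t ht => (hd t ht).differentiableAt) hint
  simp_rw [hcs] at habel
  have e1 : ∑ k ∈ Ioc ⌊a⌋₊ ⌊b⌋₊, f k * c k = ∑ p ∈ PI2 a b, g p / p := by
    unfold PI2
    rw [sum_filter]
    refine sum_congr rfl fun k hk => ?_
    have hck : c k = if k.Prime then Real.log k else 0 := rfl
    rw [hck, hf]
    split_ifs with h
    · have h2 : (2:ℝ) ≤ k := by exact_mod_cast h.two_le
      have h3 : Real.log k ≠ 0 := (Real.log_pos (by linarith)).ne'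
      field_simp
    · rw [mul_zero]
  have e2 : ∫ t in Set.Ioc a b, deriv f t * Chebyshev.theta t = ∫ t in a..b, f' t * Chebyshev.theta t := by
    rw [intervalIntegral.integral_of_le hab]
    refine setIntegral_congr_fun measurableSet_Ioc fun t ht => ?_
    rw [hderiv t ⟨ht.1.le, ht.2⟩]
  rw [e1, e2] at habel
  -- integration by parts
  have hU : Set.uIcc a b = Set.Icc a b := Set.uIcc_of_le hab
  have hparts : ∫ t in a..b, f t = f b * b - f a * a - ∫ t in a..b, f' t * t := by
    have h1 := intervalIntegral.integral_mul_deriv_eq_deriv_mul (a := a) (b := b) (u := f) (u' := f')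
      (v := fun t => t) (v' := fun _ => 1) (fun t ht => hd t (hU ▸ ht)) (fun t _ => hasDerivAt_id t)
      (by rw [← hU] at hfC'; exact hfC'.intervalIntegrable) (intervalIntegrable_const)
    simpa using h1
  have hfi : ∫ t in a..b, g t / (t * Real.log t) = ∫ t in a..b, f t := by
    refine intervalIntegral.integral_congr fun t _ => ?_
    rw [hf]
  have hf'U : ContinuousOn f' (Set.uIcc a b) := by rw [hU]; exact hfC'
  have hthI : IntervalIntegrable (fun t => f' t * Chebyshev.theta t) volume a b := by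
    have h1 : IntervalIntegrable Chebyshev.theta volume a b := Chebyshev.theta_mono.intervalIntegrable
    exact h1.continuousOn_mul hf'U
  have htI : IntervalIntegrable (fun t => f' t * t) volume a b :=
    (hf'U.mul continuousOn_id).intervalIntegrable
  have hD : ∑ p ∈ PI2 a b, g p / p - ∫ t in a..b, g t / (t * Real.log t) =
      f b * (Chebyshev.theta b - b) - f a * (Chebyshev.theta a - a) -
        ∫ t in a..b, f' t * (Chebyshev.theta t - t) := by
    rw [hfi, hparts, habel]
    simp_rw [mul_sub]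
    rw [intervalIntegral.integral_sub hthI htI]
    ring
  rw [hD]
  have hla := log4 ha
  have hend : ∀ t ∈ Set.Icc a b, |f t * (Chebyshev.theta t - t)| ≤ C / Real.log a := by
    intro t ht
    obtain ⟨h1, h2, h3⟩ := ht4 t ht
    rw [abs_mul, hf, abs_div, abs_of_pos h3]
    have h5 := hθ t h1
    have h6 : |g t| / (t * Real.log t) ≤ 1 / (t * Real.log t) := div_le_div_of_nonneg_right (hg1 t ht) h3.le
    have ht0 : 0 < t := by linarith
    have hlt : Real.log a ≤ Real.log t := Real.log_le_log (by linarith) ht.1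
    calc |g t| / (t * Real.log t) * |Chebyshev.theta t - t| ≤ 1 / (t * Real.log t) * (C * (t / Real.log t)) :=
          mul_le_mul h6 h5 (abs_nonneg _) (by positivity)
      _ = C / Real.log t / Real.log t := by field_simp
      _ ≤ C / Real.log t := div_le_self (by positivity) h2
      _ ≤ C / Real.log a := div_le_div_of_nonneg_left hC.le (by linarith) hlt
  have hintb : |∫ t in a..b, f' t * (Chebyshev.theta t - t)| ≤ C * (K + 2) * (1 / Real.log a - 1 / Real.log b) := by
    obtain ⟨g1, g2⟩ := int_log_sq ha hab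
    rw [← g2, ← intervalIntegral.integral_const_mul]
    rw [← Real.norm_eq_abs]
    refine intervalIntegral.norm_integral_le_of_norm_le hab (ae_of_all _ fun t ht => ?_) (g1.const_mul _)
    have htI : t ∈ Set.Icc a b := ⟨ht.1.le, ht.2⟩
    obtain ⟨h1, h2, h3⟩ := ht4 t htI
    have ht0 : 0 < t := by linarith
    have h5 := hθ t h1
    have hf'b : |f' t| ≤ (K + 2) / (t ^ 2 * Real.log t) := by
      rw [hf', abs_div, abs_of_pos (by positivity : 0 < (t * Real.log t) ^ 2), div_le_div_iff₀ (by positivity) (by positivity)]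
      have k1 : |g' t * (t * Real.log t) - g t * (Real.log t + 1)| ≤ K * Real.log t + 2 * Real.log t := by
        refine (abs_sub _ _).trans (add_le_add ?_ ?_)
        · rw [abs_mul, abs_of_pos h3]
          calc |g' t| * (t * Real.log t) ≤ K / t * (t * Real.log t) := mul_le_mul_of_nonneg_right (hg2 t htI) h3.le
            _ = K * Real.log t := by field_simp
        · rw [abs_mul, abs_of_pos (by linarith : 0 < Real.log t + 1)]
          calc |g t| * (Real.log t + 1) ≤ 1 * (Real.log t + 1) := mul_le_mul_of_nonneg_right (hg1 t htI) (by linarith)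
            _ ≤ 2 * Real.log t := by linarith
      calc |g' t * (t * Real.log t) - g t * (Real.log t + 1)| * (t ^ 2 * Real.log t) ≤
            (K * Real.log t + 2 * Real.log t) * (t ^ 2 * Real.log t) := mul_le_mul_of_nonneg_right k1 (by positivity)
        _ = (K + 2) * (t * Real.log t) ^ 2 := by ring
    rw [Real.norm_eq_abs, abs_mul]
    calc |f' t| * |Chebyshev.theta t - t| ≤ (K + 2) / (t ^ 2 * Real.log t) * (C * (t / Real.log t)) :=
          mul_le_mul hf'b h5 (abs_nonneg _) (by positivity)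
      _ = C * (K + 2) * (1 / (t * Real.log t ^ 2)) := by field_simp
  have hlb : 0 < Real.log b := by have := log4 hb; linarith
  have hlb2 : 0 ≤ 1 / Real.log b := by positivity
  have k1 := hend b ⟨hab, le_rfl⟩
  have k2 := hend a ⟨le_rfl, hab⟩
  have hCK : 0 ≤ C * (K + 2) := by positivity
  have k3 : C * (K + 2) * (1 / Real.log a - 1 / Real.log b) ≤ C * (K + 2) / Real.log a := by
    rw [mul_sub, ← mul_div_assoc, mul_one]
    have : 0 ≤ C * (K + 2) * (1 / Real.log b) := mul_nonneg hCK hlb2
    linarith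
  calc |f b * (Chebyshev.theta b - b) - f a * (Chebyshev.theta a - a) - ∫ t in a..b, f' t * (Chebyshev.theta t - t)|
      ≤ |f b * (Chebyshev.theta b - b)| + |f a * (Chebyshev.theta a - a)| +
        |∫ t in a..b, f' t * (Chebyshev.theta t - t)| := by
        refine (abs_sub _ _).trans (add_le_add (abs_sub _ _) le_rfl)
    _ ≤ C / Real.log a + C / Real.log a + C * (K + 2) / Real.log a := by linarith
    _ = (2 * C + C * (K + 2)) / Real.log a := by ring
    _ ≤ 3 * C * (K + 2) / Real.log a := by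
        refine div_le_div_of_nonneg_right ?_ (by linarith)
        nlinarith
end Pool.Agent.T6.H99.CH
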