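import Mathlib

set_option autoImplicit false
set_option linter.unusedSectionVars false
set_option warn.classDefReducibility false

/-! Independent uniform phases and the random completely multiplicative function. -/

namespace Pool.Agent.T6.H99.CH

open Finset MeasureTheory ProbabilityTheory

/-- independent phases, uniformly distributed on `[0,1]` -/
structure Ph {Ω : Type*} [mΩ : MeasurableSpace Ω] (P : Measure Ω) (θ : ℕ → Ω → ℝ) : Prop where
  pr : IsProbabilityMeasure P
  ms : ∀ n, Measurable (θ n)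
  ind : iIndepFun θ P
  law : ∀ n, P.map (θ n) = volume.restrict (Set.Icc 0 1)

/-- the point of the circle -/
noncomputable def ee (t : ℝ) : ℂ := Complex.exp (2 * Real.pi * Complex.I * t)

lemma ee_norm (t : ℝ) : ‖ee t‖ = 1 := by
  unfold ee
  rw [show (2 * Real.pi * Complex.I * t : ℂ) = ((2 * Real.pi * t : ℝ) : ℂ) * Complex.I by push_cast; ring]
  exact Complex.norm_exp_ofReal_mul_I _

lemma ee_cont : Continuous ee := by unfold ee; fun_prop

lemma ee_meas : Measurable ee := ee_cont.measurable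

lemma ee_ne (t : ℝ) : ee t ≠ 0 := fun h => by
  have := ee_norm t
  rw [h] at this; simp at this

lemma ee_conj (t : ℝ) : starRingEnd ℂ (ee t) = (ee t)⁻¹ := by
  rw [Complex.inv_def, Complex.normSq_eq_norm_sq, ee_norm]; simp

/-- the integral of a power -/
lemma ee_int (n : ℤ) : ∫ t in Set.Icc (0:ℝ) 1, ee t ^ n = if n = 0 then 1 else 0 := by
  rw [integral_Icc_eq_integral_Ioc, ← intervalIntegral.integral_of_le zero_le_one]
  split_ifs with h
  · subst h; simp
  · have e : ∀ t : ℝ, ee t ^ n = Complex.exp ((n * (2 * Real.pi * Complex.I)) * t) := by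
      intro t
      unfold ee
      rw [← Complex.exp_int_mul]; congr 1; ring
    simp_rw [e]
    have hc : (n * (2 * Real.pi * Complex.I) : ℂ) ≠ 0 := by
      have := Complex.two_pi_I_ne_zero
      have h2 : (n:ℂ) ≠ 0 := by exact_mod_cast h
      exact mul_ne_zero h2 this
    rw [integral_exp_mul_complex hc]
    have h1 : Complex.exp (n * (2 * Real.pi * Complex.I) * ((1:ℝ):ℂ)) = 1 := by
      rw [Complex.ofReal_one, mul_one]; exact Complex.exp_int_mul_two_pi_mul_I n
    rw [h1]; simp

variable {Ω : Type*} [mΩ : MeasurableSpace Ω] {P : Measure Ω} {θ : ℕ → Ω → ℝ}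

/-- the σ-algebra of the phases in `S` -/
def mS (θ : ℕ → Ω → ℝ) (S : Set ℕ) : MeasurableSpace Ω := ⨆ p ∈ S, MeasurableSpace.comap (θ p) inferInstance

lemma mS_le (h : ∀ n, Measurable (θ n)) (S : Set ℕ) : mS θ S ≤ mΩ :=
  iSup₂_le fun p _ => (h p).comap_le

lemma mS_mono {S T : Set ℕ} (h : S ⊆ T) : mS θ S ≤ mS θ T :=
  iSup₂_le fun p hp => le_iSup₂_of_le p (h hp) le_rfl

lemma mS_th {S : Set ℕ} {p : ℕ} (hp : p ∈ S) : Measurable[mS θ S] (θ p) := by
  have h1 : MeasurableSpace.comap (θ p) inferInstance ≤ mS θ S := le_iSup₂_of_le p hp le_rfl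
  exact (comap_measurable (θ p)).mono h1 le_rfl

/-- the random variable on the circle -/
noncomputable def Xp (θ : ℕ → Ω → ℝ) (p : ℕ) (ω : Ω) : ℂ := ee (θ p ω)

lemma Xp_norm (p : ℕ) (ω : Ω) : ‖Xp θ p ω‖ = 1 := ee_norm _

lemma Xp_meas {S : Set ℕ} {p : ℕ} (hp : p ∈ S) : Measurable[mS θ S] (Xp θ p) :=
  ee_meas.comp (mS_th hp)

lemma Xp_meas' (h : Ph P θ) (p : ℕ) : Measurable (Xp θ p) := ee_meas.comp (h.ms p)

/-- expectations of functions of one phase -/
lemma E_one (h : Ph P θ) {E : Type*} [NormedAddCommGroup E] [NormedSpace ℝ E] (p : ℕ) {g : ℂ → E} (hg : Continuous g) :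
    ∫ ω, g (Xp θ p ω) ∂P = ∫ t in Set.Icc (0:ℝ) 1, g (ee t) := by
  have h1 : AEStronglyMeasurable (fun t => g (ee t)) (P.map (θ p)) :=
    (hg.comp ee_cont).aestronglyMeasurable
  rw [← h.law p, integral_map (h.ms p).aemeasurable h1]
  rfl

/-- independence -/
lemma E_mul (h : Ph P θ) {𝕜 : Type*} [RCLike 𝕜] {S T : Set ℕ} (hST : Disjoint S T) {F G : Ω → 𝕜}
    (hF : Measurable[mS θ S] F) (hG : Measurable[mS θ T] G) :
    ∫ ω, F ω * G ω ∂P = (∫ ω, F ω ∂P) * ∫ ω, G ω ∂P := by
  have h1 : Indep (mS θ S) (mS θ T) P := indep_iSup_of_disjoint (fun i => (h.ms i).comap_le) h.ind hST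
  have h2 : IndepFun F G P := by
    rw [IndepFun_iff_Indep]
    exact indep_of_indep_of_le_left (indep_of_indep_of_le_right h1 hG.comap_le) hF.comap_le
  exact h2.integral_fun_mul_eq_mul_integral (hF.mono (mS_le h.ms S) le_rfl).aestronglyMeasurable
    (hG.mono (mS_le h.ms T) le_rfl).aestronglyMeasurable

/-- independence of many blocks -/
lemma E_prod (h : Ph P θ) {𝕜 : Type*} [RCLike 𝕜] (J : ℕ) {S : ℕ → Set ℕ} (hd : ∀ i j, i < j → Disjoint (S i) (S j))
    {F : ℕ → Ω → 𝕜} (hF : ∀ i, Measurable[mS θ (S i)] (F i)) :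
    ∫ ω, ∏ i ∈ range J, F i ω ∂P = ∏ i ∈ range J, ∫ ω, F i ω ∂P := by
  have := h.pr
  induction J with
  | zero => simp
  | succ J ih =>
    simp_rw [prod_range_succ]
    rw [← ih]
    have h1 : Measurable[mS θ (⋃ i ∈ range J, S i)] (fun ω => ∏ i ∈ range J, F i ω) := by
      refine @Finset.measurable_fun_prod _ _ _ _ _ _ (mS θ (⋃ i ∈ range J, S i)) _ _ fun i hi => ?_
      exact (hF i).mono (mS_mono (Set.subset_biUnion_of_mem (u := fun i => S i) hi)) le_rfl
    refine E_mul h ?_ h1 (hF J)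
    rw [Set.disjoint_iUnion₂_left]
    exact fun i hi => hd i J (mem_range.mp hi)

end Pool.Agent.T6.H99.CH

namespace Pool.Agent.T6.H99.CH

open Finset MeasureTheory ProbabilityTheory

variable {Ω : Type*} [mΩ : MeasurableSpace Ω] {P : Measure Ω} {θ : ℕ → Ω → ℝ}

/-- independence over a finite set of primes -/
lemma E_prodF (h : Ph P θ) {𝕜 : Type*} [RCLike 𝕜] (s : Finset ℕ)
    {F : ℕ → Ω → 𝕜} (hF : ∀ p, Measurable[mS θ {p}] (F p)) :
    ∫ ω, ∏ p ∈ s, F p ω ∂P = ∏ p ∈ s, ∫ ω, F p ω ∂P := by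
  classical
  have := h.pr
  induction s using Finset.induction_on with
  | empty => simp
  | insert a s ha ih =>
    simp_rw [prod_insert ha]
    rw [← ih]
    have h1 : Measurable[mS θ (s : Set ℕ)] (fun ω => ∏ p ∈ s, F p ω) := by
      refine @Finset.measurable_fun_prod _ _ _ _ _ _ (mS θ (s : Set ℕ)) _ _ fun i hi => ?_
      exact (hF i).mono (mS_mono (Set.singleton_subset_iff.mpr (by exact_mod_cast hi))) le_rfl
    refine E_mul h ?_ (hF a) h1
    rw [Set.disjoint_singleton_left]
    exact_mod_cast ha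

/-- the random completely multiplicative function -/
noncomputable def chi (θ : ℕ → Ω → ℝ) (ω : Ω) : ℕ →* ℂ where
  toFun n := if n = 0 then 0 else n.factorization.prod fun p k => Xp θ p ω ^ k
  map_one' := by simp
  map_mul' m n := by
    rcases Nat.eq_zero_or_pos m with hm | hm
    · subst hm; simp
    rcases Nat.eq_zero_or_pos n with hn | hn
    · subst hn; simp
    rw [if_neg (mul_ne_zero hm.ne' hn.ne'), if_neg hm.ne', if_neg hn.ne', Nat.factorization_mul hm.ne' hn.ne']
    exact Finsupp.prod_add_index' (fun p => pow_zero _) fun p a b => pow_add _ _ _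

lemma chi_zero (ω : Ω) : chi θ ω 0 = 0 := by
  show (if (0:ℕ) = 0 then (0:ℂ) else (Nat.factorization 0).prod fun p k => Xp θ p ω ^ k) = 0
  simp

lemma Xp_ne (p : ℕ) (ω : Ω) : Xp θ p ω ≠ 0 := ee_ne _

lemma chi_eq {n : ℕ} (hn : n ≠ 0) {S : Finset ℕ} (hS : n.primeFactors ⊆ S) (ω : Ω) :
    chi θ ω n = ∏ p ∈ S, Xp θ p ω ^ (n.factorization p) := by
  show (if n = 0 then 0 else n.factorization.prod fun p k => Xp θ p ω ^ k) = _
  rw [if_neg hn]
  exact Finsupp.prod_of_support_subset _ (by rwa [Nat.support_factorization]) _ fun p _ => pow_zero _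

lemma chi_prime {p : ℕ} (hp : p.Prime) (ω : Ω) : chi θ ω p = Xp θ p ω := by
  rw [chi_eq hp.ne_zero (S := {p}) (by rw [Nat.Prime.primeFactors hp]), prod_singleton, hp.factorization_self, pow_one]

lemma chi_norm {n : ℕ} (hn : n ≠ 0) (ω : Ω) : ‖chi θ ω n‖ = 1 := by
  rw [chi_eq hn (subset_refl _), norm_prod]
  exact prod_eq_one fun p _ => by rw [norm_pow, Xp_norm, one_pow]

lemma chi_norm_le (n : ℕ) (ω : Ω) : ‖chi θ ω n‖ ≤ 1 := by
  rcases eq_or_ne n 0 with h | h
  · subst h
    rw [chi_zero, norm_zero]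
    exact zero_le_one
  · exact (chi_norm h ω).le

lemma chi_meas {S : Set ℕ} {n : ℕ} (hS : ∀ p, p.Prime → p ∣ n → p ∈ S) : Measurable[mS θ S] fun ω => chi θ ω n := by
  rcases eq_or_ne n 0 with h | h
  · subst h
    have : (fun ω => chi θ ω 0) = fun _ => (0:ℂ) := by
      funext ω
      exact chi_zero ω
    rw [this]; exact measurable_const
  · have : (fun ω => chi θ ω n) = fun ω => ∏ p ∈ n.primeFactors, Xp θ p ω ^ (n.factorization p) := by
      funext ω; exact chi_eq h (subset_refl _) ω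
    rw [this]
    refine @Finset.measurable_fun_prod _ _ _ _ _ _ (mS θ S) _ _ fun p hp => ?_
    have h1 := Nat.mem_primeFactors.mp hp
    exact (Xp_meas (hS p h1.1 h1.2.1)).pow_const _

/-- orthogonality -/
lemma chi_orth (h : Ph P θ) {m n : ℕ} (hm : m ≠ 0) (hn : n ≠ 0) :
    ∫ ω, chi θ ω m * starRingEnd ℂ (chi θ ω n) ∂P = if m = n then 1 else 0 := by
  classical
  set S := m.primeFactors ∪ n.primeFactors with hS
  have e1 : ∀ ω, chi θ ω m * starRingEnd ℂ (chi θ ω n) =
      ∏ p ∈ S, (Xp θ p ω ^ ((m.factorization p : ℤ) - n.factorization p)) := by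
    intro ω
    rw [chi_eq hm subset_union_left, chi_eq hn subset_union_right, map_prod, ← prod_mul_distrib]
    refine prod_congr rfl fun p _ => ?_
    rw [map_pow, show starRingEnd ℂ (Xp θ p ω) = (Xp θ p ω)⁻¹ from ee_conj _, zpow_sub₀ (Xp_ne _ _), zpow_natCast,
      zpow_natCast, inv_pow, div_eq_mul_inv]
  simp_rw [e1]
  have hmeas : ∀ p, Measurable[mS θ {p}] fun ω => Xp θ p ω ^ ((m.factorization p : ℤ) - n.factorization p) := by
    intro p
    have e : (fun ω => Xp θ p ω ^ ((m.factorization p : ℤ) - n.factorization p)) =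
        fun ω => Xp θ p ω ^ (m.factorization p) * (starRingEnd ℂ (Xp θ p ω)) ^ (n.factorization p) := by
      funext ω
      rw [show starRingEnd ℂ (Xp θ p ω) = (Xp θ p ω)⁻¹ from ee_conj _, zpow_sub₀ (Xp_ne _ _), zpow_natCast,
        zpow_natCast, inv_pow, div_eq_mul_inv]
    rw [e]
    have hX : Measurable[mS θ {p}] (Xp θ p) := Xp_meas (Set.mem_singleton p)
    exact (hX.pow_const _).mul ((Complex.continuous_conj.measurable.comp hX).pow_const _)
  rw [E_prodF h S hmeas]
  have e2 : ∀ p, ∫ ω, Xp θ p ω ^ ((m.factorization p : ℤ) - n.factorization p) ∂P =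
      if (m.factorization p : ℤ) - n.factorization p = 0 then 1 else 0 := by
    intro p
    have h1 : AEStronglyMeasurable (fun t => ee t ^ ((m.factorization p : ℤ) - n.factorization p)) (P.map (θ p)) := by
      refine Continuous.aestronglyMeasurable ?_
      exact ee_cont.zpow₀ _ fun t => Or.inl (ee_ne t)
    have h2 := integral_map (h.ms p).aemeasurable h1
    rw [h.law p, ee_int] at h2
    exact h2.symm
  simp_rw [e2]
  split_ifs with hmn
  · subst hmn
    exact prod_eq_one fun p _ => by simp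
  · have h1 : ∃ p ∈ S, m.factorization p ≠ n.factorization p := by
      by_contra hc
      push Not at hc
      refine hmn (Nat.eq_of_factorization_eq hm hn fun p => ?_)
      by_cases hp : p ∈ S
      · exact hc p hp
      · rw [hS, mem_union, not_or, ← Nat.support_factorization, ← Nat.support_factorization,
          Finsupp.notMem_support_iff, Finsupp.notMem_support_iff] at hp
        rw [hp.1, hp.2]
    obtain ⟨p, hp, hne⟩ := h1
    refine prod_eq_zero hp (if_neg fun h0 => hne ?_)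
    omega

end Pool.Agent.T6.H99.CH
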