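import Pool.Agent.T6.H99.CH.R1

set_option autoImplicit false
set_option linter.unusedSectionVars false

/-! Exponential moments of one phase. -/

namespace Pool.Agent.T6.H99.CH

open Finset MeasureTheory ProbabilityTheory

variable {Ω : Type*} [mΩ : MeasurableSpace Ω] {P : Measure Ω} {θ : ℕ → Ω → ℝ}

lemma ee_per (t : ℝ) : ee (t + 1) = ee t := by
  unfold ee
  rw [show (2 * Real.pi * Complex.I * ((t + 1 : ℝ) : ℂ)) = 2 * Real.pi * Complex.I * t + 2 * Real.pi * Complex.I by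
    push_cast; ring]
  exact Complex.exp_periodic _

lemma th_integrable (h : Ph P θ) {E : Type*} [NormedAddCommGroup E] (p : ℕ) {G : ℝ → E} (hG : Continuous G) :
    Integrable (fun ω => G (θ p ω)) P := by
  have h1 : Integrable G (P.map (θ p)) := by
    rw [h.law p]
    exact hG.integrableOn_Icc
  exact (integrable_map_measure h1.aestronglyMeasurable (h.ms p).aemeasurable).mp h1

lemma th_integral (h : Ph P θ) {E : Type*} [NormedAddCommGroup E] [NormedSpace ℝ E] (p : ℕ) {G : ℝ → E}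
    (hG : Continuous G) : ∫ ω, G (θ p ω) ∂P = ∫ t in (0:ℝ)..1, G t := by
  have h1 : AEStronglyMeasurable G (P.map (θ p)) := hG.aestronglyMeasurable
  rw [intervalIntegral.integral_of_le zero_le_one, ← integral_Icc_eq_integral_Ioc, ← h.law p,
    integral_map (h.ms p).aemeasurable h1]

lemma th_meas {S : Set ℕ} {p : ℕ} (hp : p ∈ S) {G : ℝ → ℝ} (hG : Continuous G) :
    Measurable[mS θ S] fun ω => G (θ p ω) := hG.measurable.comp (mS_th hp)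

lemma X_integrable (h : Ph P θ) {E : Type*} [NormedAddCommGroup E] (p : ℕ) {g : ℂ → E}
    (hg : Continuous fun t => g (ee t)) : Integrable (fun ω => g (Xp θ p ω)) P := th_integrable h p hg

/-- invariance under rotations -/
lemma E_rot (h : Ph P θ) {E : Type*} [NormedAddCommGroup E] [NormedSpace ℝ E] (p : ℕ) {g : ℂ → E}
    (hg : Continuous fun t => g (ee t)) {w : ℂ} (hw : ‖w‖ = 1) :
    ∫ ω, g (w * Xp θ p ω) ∂P = ∫ ω, g (Xp θ p ω) ∂P := by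
  obtain ⟨s, hs⟩ : ∃ s : ℝ, w = ee s := by
    refine ⟨Complex.arg w / (2 * Real.pi), ?_⟩
    unfold ee
    have h1 := Complex.norm_mul_exp_arg_mul_I w
    rw [hw, Complex.ofReal_one, one_mul] at h1
    conv_lhs => rw [← h1]
    congr 1
    have : (Real.pi : ℂ) ≠ 0 := by exact_mod_cast Real.pi_ne_zero
    push_cast
    field_simp
  have hadd : ∀ t : ℝ, w * ee t = ee (t + s) := by
    intro t
    rw [hs]
    unfold ee
    rw [← Complex.exp_add]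
    congr 1
    push_cast
    ring
  have e1 : ∫ ω, g (w * Xp θ p ω) ∂P = ∫ t in (0:ℝ)..1, g (ee (t + s)) := by
    have h1 := th_integral h p (G := fun t => g (ee (t + s))) (hg.comp (continuous_add_const s))
    rw [← h1]
    refine integral_congr_ae (ae_of_all _ fun ω => ?_)
    show g (w * ee (θ p ω)) = _
    rw [hadd]
  have e2 : ∫ ω, g (Xp θ p ω) ∂P = ∫ t in (0:ℝ)..1, g (ee t) := th_integral h p hg
  rw [e1, e2, intervalIntegral.integral_comp_add_right (fun t => g (ee t)) s, zero_add]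
  have hper : Function.Periodic (fun t => g (ee t)) 1 := fun t => by simp only [ee_per]
  have := hper.intervalIntegral_add_eq s 0
  rw [zero_add] at this
  rw [add_comm 1 s]
  exact this

lemma E_pow (h : Ph P θ) (p : ℕ) {k : ℕ} (hk : k ≠ 0) : ∫ ω, Xp θ p ω ^ k ∂P = 0 := by
  rw [E_one h p (continuous_pow k)]
  have := ee_int (k:ℤ)
  simp_rw [zpow_natCast] at this
  rw [this, if_neg (by exact_mod_cast hk)]

lemma E_re (h : Ph P θ) (p : ℕ) (c : ℂ) {k : ℕ} (hk : k ≠ 0) : ∫ ω, (c * Xp θ p ω ^ k).re ∂P = 0 := by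
  have h1 : Integrable (fun ω => c * Xp θ p ω ^ k) P := X_integrable h p (g := fun z => c * z ^ k) (by have := ee_cont; fun_prop)
  have h2 : ∫ ω, (c * Xp θ p ω ^ k).re ∂P = (∫ ω, c * Xp θ p ω ^ k ∂P).re := integral_re h1
  rw [h2, integral_const_mul, E_pow h p hk, mul_zero, Complex.zero_re]

lemma re_sq (w : ℂ) : w.re ^ 2 = (‖w‖ ^ 2 + (w ^ 2).re) / 2 := by
  rw [← Complex.normSq_eq_norm_sq, Complex.normSq_apply, pow_two w, Complex.mul_re]; ring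

lemma E_re_sq (h : Ph P θ) (p : ℕ) (c : ℂ) : ∫ ω, (c * Xp θ p ω).re ^ 2 ∂P = ‖c‖ ^ 2 / 2 := by
  have := h.pr
  have e : ∀ ω, (c * Xp θ p ω).re ^ 2 = ‖c‖ ^ 2 / 2 + (c ^ 2 * Xp θ p ω ^ 2).re / 2 := by
    intro ω
    rw [re_sq, norm_mul, Xp_norm, mul_pow]
    ring_nf
  simp_rw [e]
  have h1 : Integrable (fun ω => (c ^ 2 * Xp θ p ω ^ 2).re / 2) P :=
    X_integrable h p (g := fun z => (c ^ 2 * z ^ 2).re / 2) (by have := ee_cont; fun_prop)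
  have h3 : ∫ ω, (c ^ 2 * Xp θ p ω ^ 2).re / 2 ∂P = 0 := by
    rw [integral_div, E_re h p _ two_ne_zero, zero_div]
  rw [integral_add (integrable_const _) h1, h3, add_zero]
  simp

lemma exp_three {y : ℝ} (hy : |y| ≤ 1) : |Real.exp y - (1 + y + y ^ 2 / 2)| ≤ |y| ^ 3 / 4 := by
  have h := Real.exp_bound hy (n := 3) (by norm_num)
  have e : ∑ m ∈ range 3, y ^ m / (m.factorial : ℝ) = 1 + y + y ^ 2 / 2 := by
    simp [sum_range_succ, Nat.factorial]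
  rw [e] at h
  refine h.trans ?_
  have : ((Nat.succ 3 : ℕ) : ℝ) / (((3 : ℕ).factorial : ℝ) * ((3:ℕ) : ℝ)) ≤ 1 / 4 := by norm_num [Nat.factorial]
  calc |y| ^ 3 * (((Nat.succ 3 : ℕ) : ℝ) / (((3 : ℕ).factorial : ℝ) * ((3:ℕ) : ℝ))) ≤ |y| ^ 3 * (1 / 4) :=
        mul_le_mul_of_nonneg_left this (by positivity)
    _ = _ := by ring

/-- the exponential moment of one phase -/
theorem circ (h : Ph P θ) (p : ℕ) {Y : ℂ → ℝ} (hYc : Continuous fun t => Y (ee t)) {c : ℂ} {r D : ℝ} (hr : 0 ≤ r) (hD : 1 ≤ D)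
    (hDr : 2 * (D * r) ≤ 1) (hc : ‖c‖ ≤ D) (hY : ∀ x : ℂ, ‖x‖ = 1 → |Y x - r * (c * x).re| ≤ D * r ^ 2)
    (hE : |∫ ω, Y (Xp θ p ω) ∂P| ≤ D ^ 3 * r ^ 3) :
    |∫ ω, Real.exp (Y (Xp θ p ω)) ∂P - Real.exp (‖c‖ ^ 2 * r ^ 2 / 4)| ≤ 5 * D ^ 3 * r ^ 3 := by
  have hpr := h.pr
  have hD0 : 0 ≤ D := by linarith
  have hDr0 : 0 ≤ D * r := mul_nonneg hD0 hr
  have hr1 : r ≤ 1 / 2 := by nlinarith
  have hRe : ∀ ω, |r * (c * Xp θ p ω).re| ≤ D * r := by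
    intro ω
    rw [abs_mul, abs_of_nonneg hr, mul_comm]
    refine mul_le_mul_of_nonneg_right ?_ hr
    calc |(c * Xp θ p ω).re| ≤ ‖c * Xp θ p ω‖ := Complex.abs_re_le_norm _
      _ = ‖c‖ := by rw [norm_mul, Xp_norm, mul_one]
      _ ≤ D := hc
  have hYd : ∀ ω, |Y (Xp θ p ω) - r * (c * Xp θ p ω).re| ≤ D * r ^ 2 := fun ω => hY _ (Xp_norm _ _)
  have hDr2 : D * r ^ 2 ≤ D * r := by
    have : r ^ 2 ≤ r := by nlinarith
    exact mul_le_mul_of_nonneg_left this hD0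
  have hYb : ∀ ω, |Y (Xp θ p ω)| ≤ 2 * (D * r) := by
    intro ω
    have h1 := abs_sub_abs_le_abs_sub (Y (Xp θ p ω)) (r * (c * Xp θ p ω).re)
    linarith [hYd ω, hRe ω]
  have i1 : Integrable (fun ω => Real.exp (Y (Xp θ p ω))) P := X_integrable h p (g := fun z => Real.exp (Y z)) (Real.continuous_exp.comp hYc)
  have i2 : Integrable (fun ω => Y (Xp θ p ω)) P := X_integrable h p (g := fun z => Y z) hYc
  have i3 : Integrable (fun ω => (r * (c * Xp θ p ω).re) ^ 2 / 2) P :=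
    X_integrable h p (g := fun z => (r * (c * z).re) ^ 2 / 2) (by have := ee_cont; fun_prop)
  have i4 : Integrable (fun ω => 1 + Y (Xp θ p ω)) P := X_integrable h p (g := fun z => 1 + Y z) (continuous_const.add hYc)
  have i5 : Integrable (fun ω => 1 + Y (Xp θ p ω) + (r * (c * Xp θ p ω).re) ^ 2 / 2) P :=
    X_integrable h p (g := fun z => 1 + Y z + (r * (c * z).re) ^ 2 / 2)
      ((continuous_const.add hYc).add (by have := ee_cont; fun_prop))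
  have e1 : ∫ ω, (1 + Y (Xp θ p ω) + (r * (c * Xp θ p ω).re) ^ 2 / 2) ∂P =
      1 + (∫ ω, Y (Xp θ p ω) ∂P) + ‖c‖ ^ 2 * r ^ 2 / 4 := by
    rw [integral_add i4 i3, integral_add (integrable_const _) i2, integral_div]
    simp_rw [mul_pow]
    rw [integral_const_mul, E_re_sq h p c]
    simp
    ring
  have hpt : ∀ ω, |Real.exp (Y (Xp θ p ω)) - (1 + Y (Xp θ p ω) + (r * (c * Xp θ p ω).re) ^ 2 / 2)| ≤
      (2 + 3 / 2) * D ^ 3 * r ^ 3 := by
    intro ω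
    set y := Y (Xp θ p ω) with hy
    set x := r * (c * Xp θ p ω).re with hx
    have a1 : |y| ≤ 1 := (hYb ω).trans hDr
    have a2 := exp_three a1
    have a3 : |y| ^ 3 / 4 ≤ 2 * D ^ 3 * r ^ 3 := by
      have : |y| ^ 3 ≤ (2 * (D * r)) ^ 3 := pow_le_pow_left₀ (abs_nonneg _) (hYb ω) 3
      nlinarith
    have a4 : |y ^ 2 / 2 - x ^ 2 / 2| ≤ 3 / 2 * D ^ 3 * r ^ 3 := by
      have e : y ^ 2 / 2 - x ^ 2 / 2 = (y - x) * (y + x) / 2 := by ring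
      rw [e, abs_div, abs_mul, abs_two]
      have b1 := hYd ω
      have b2 : |y + x| ≤ 3 * (D * r) := by
        have := abs_add_le y x
        linarith [hYb ω, hRe ω]
      have b3 : |y - x| * |y + x| ≤ D * r ^ 2 * (3 * (D * r)) := mul_le_mul b1 b2 (abs_nonneg _) (by positivity)
      have b4 : D ^ 2 * r ^ 3 ≤ D ^ 3 * r ^ 3 := by
        have : D ^ 2 ≤ D ^ 3 := pow_le_pow_right₀ hD (by norm_num)
        exact mul_le_mul_of_nonneg_right this (by positivity)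
      nlinarith
    have e2 : Real.exp y - (1 + y + x ^ 2 / 2) = (Real.exp y - (1 + y + y ^ 2 / 2)) + (y ^ 2 / 2 - x ^ 2 / 2) := by ring
    rw [e2]
    refine (abs_add_le _ _).trans ?_
    linarith
  have k1 : |∫ ω, Real.exp (Y (Xp θ p ω)) ∂P - (1 + (∫ ω, Y (Xp θ p ω) ∂P) + ‖c‖ ^ 2 * r ^ 2 / 4)| ≤
      (2 + 3 / 2) * D ^ 3 * r ^ 3 := by
    rw [← e1, ← integral_sub i1 i5]
    have := norm_integral_le_of_norm_le_const (μ := P) (C := (2 + 3 / 2) * D ^ 3 * r ^ 3) (ae_of_all _ fun ω => (Real.norm_eq_abs _).le.trans (hpt ω))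
    simpa using this
  have hx0 : 0 ≤ ‖c‖ ^ 2 * r ^ 2 / 4 := by positivity
  have hxle : ‖c‖ ^ 2 * r ^ 2 / 4 ≤ (D * r) ^ 2 / 4 := by
    rw [mul_pow]
    have : ‖c‖ ^ 2 ≤ D ^ 2 := pow_le_pow_left₀ (norm_nonneg _) hc 2
    nlinarith [sq_nonneg r]
  have hDrh : D * r ≤ 1 / 2 := by linarith
  have hx1 : |‖c‖ ^ 2 * r ^ 2 / 4| ≤ 1 := by
    rw [abs_of_nonneg hx0]; nlinarith
  have k2 : |Real.exp (‖c‖ ^ 2 * r ^ 2 / 4) - (1 + ‖c‖ ^ 2 * r ^ 2 / 4)| ≤ 1 / 2 * D ^ 3 * r ^ 3 := by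
    have := Real.abs_exp_sub_one_sub_id_le hx1
    have e : Real.exp (‖c‖ ^ 2 * r ^ 2 / 4) - (1 + ‖c‖ ^ 2 * r ^ 2 / 4) =
      Real.exp (‖c‖ ^ 2 * r ^ 2 / 4) - 1 - ‖c‖ ^ 2 * r ^ 2 / 4 := by ring
    rw [e]
    refine this.trans ?_
    have h1 : (‖c‖ ^ 2 * r ^ 2 / 4) ^ 2 ≤ ((D * r) ^ 2 / 4) ^ 2 := pow_le_pow_left₀ hx0 hxle 2
    have h2 : ((D * r) ^ 2 / 4) ^ 2 ≤ 1 / 2 * D ^ 3 * r ^ 3 := by
      have h3 : (D * r) ^ 4 ≤ (D * r) ^ 3 := pow_le_pow_of_le_one hDr0 (by linarith) (by norm_num)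
      have h4 : 0 ≤ (D * r) ^ 3 := by positivity
      have e1 : ((D * r) ^ 2 / 4) ^ 2 = (D * r) ^ 4 / 16 := by ring
      have e2 : 1 / 2 * D ^ 3 * r ^ 3 = (D * r) ^ 3 / 2 := by ring
      rw [e1, e2]; linarith
    exact h1.trans h2
  have e3 : ∫ ω, Real.exp (Y (Xp θ p ω)) ∂P - Real.exp (‖c‖ ^ 2 * r ^ 2 / 4) =
      (∫ ω, Real.exp (Y (Xp θ p ω)) ∂P - (1 + (∫ ω, Y (Xp θ p ω) ∂P) + ‖c‖ ^ 2 * r ^ 2 / 4)) +
      (∫ ω, Y (Xp θ p ω) ∂P) -
      (Real.exp (‖c‖ ^ 2 * r ^ 2 / 4) - (1 + ‖c‖ ^ 2 * r ^ 2 / 4)) := by ring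
  rw [e3]
  refine (abs_sub _ _).trans ?_
  have := abs_add_le (∫ ω, Real.exp (Y (Xp θ p ω)) ∂P - (1 + (∫ ω, Y (Xp θ p ω) ∂P) + ‖c‖ ^ 2 * r ^ 2 / 4))
    (∫ ω, Y (Xp θ p ω) ∂P)
  linarith

end Pool.Agent.T6.H99.CH
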