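import Pool.Agent.T6.H99.CH.R2

set_option autoImplicit false
set_option linter.unusedSectionVars false

/-! The random evaluation of Dirichlet polynomials, and mean values at two points. -/

namespace Pool.Agent.T6.H99.CH

open Finset MeasureTheory ProbabilityTheory


/-- a finite sum of complex numbers times powers `n^(-it)` -/
lemma osc_int {a b : ℕ} (ha : a ≠ 0) (hb : b ≠ 0) (hab : a ≠ b) {N : ℝ} (haN : (a:ℝ) ≤ N) (hbN : (b:ℝ) ≤ N) (X1 X2 : ℝ) :
    ‖∫ t in X1..X2, (a:ℂ) ^ (-(t * Complex.I)) * starRingEnd ℂ ((b:ℂ) ^ (-(t * Complex.I)))‖ ≤ 2 * N := by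
  have ha0 : (0:ℝ) < a := by exact_mod_cast Nat.pos_of_ne_zero ha
  have hb0 : (0:ℝ) < b := by exact_mod_cast Nat.pos_of_ne_zero hb
  have haC : (a:ℂ) ≠ 0 := by exact_mod_cast ha
  have hbC : (b:ℂ) ≠ 0 := by exact_mod_cast hb
  set w : ℝ := Real.log b - Real.log a with hw
  have e1 : ∀ t : ℝ, (a:ℂ) ^ (-(t * Complex.I)) * starRingEnd ℂ ((b:ℂ) ^ (-(t * Complex.I))) =
      Complex.exp ((w * Complex.I) * t) := by
    intro t
    rw [Complex.cpow_def_of_ne_zero haC, Complex.cpow_def_of_ne_zero hbC, ← Complex.exp_conj, ← Complex.exp_add,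
      ← Complex.natCast_log, ← Complex.natCast_log]
    congr 1
    rw [map_mul, map_neg, map_mul, Complex.conj_ofReal, Complex.conj_ofReal, Complex.conj_I, hw]
    push_cast
    ring
  have hw0 : w ≠ 0 := by
    intro h
    have h2 : Real.log a = Real.log b := by linarith
    exact hab (by exact_mod_cast Real.log_injOn_pos (Set.mem_Ioi.mpr ha0) (Set.mem_Ioi.mpr hb0) h2)
  have hwC : (w * Complex.I : ℂ) ≠ 0 := mul_ne_zero (by exact_mod_cast hw0) Complex.I_ne_zero
  have e2 : ∫ t in X1..X2, (a:ℂ) ^ (-(t * Complex.I)) * starRingEnd ℂ ((b:ℂ) ^ (-(t * Complex.I))) =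
      ∫ t in X1..X2, Complex.exp ((w * Complex.I) * t) := intervalIntegral.integral_congr fun t _ => e1 t
  rw [e2, integral_exp_mul_complex hwC, norm_div]
  have h1 : ‖(w * Complex.I : ℂ)‖ = |w| := by rw [norm_mul, Complex.norm_I, mul_one, Complex.norm_real, Real.norm_eq_abs]
  have h2 : ∀ X : ℝ, ‖Complex.exp (w * Complex.I * X)‖ = 1 := by
    intro X
    rw [show (w * Complex.I * X : ℂ) = ((w * X : ℝ) : ℂ) * Complex.I by push_cast; ring]
    exact Complex.norm_exp_ofReal_mul_I _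
  have h3 : ‖Complex.exp (w * Complex.I * X2) - Complex.exp (w * Complex.I * X1)‖ ≤ 2 := by
    refine (norm_sub_le _ _).trans ?_
    rw [h2, h2]; norm_num
  have hN0 : 0 < N := lt_of_lt_of_le ha0 haN
  have h4 : 1 / N ≤ |w| := by
    -- |log b - log a| ≥ 1 / max
    have key : ∀ x y : ℕ, x ≠ 0 → x < y → (y:ℝ) ≤ N → 1 / N ≤ Real.log y - Real.log x := by
      intro x y hx hxy hy
      have hx0 : (0:ℝ) < x := by exact_mod_cast Nat.pos_of_ne_zero hx
      have hy0 : (0:ℝ) < y := by exact_mod_cast (Nat.zero_lt_of_lt hxy)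
      have hxy1 : (x:ℝ) + 1 ≤ y := by exact_mod_cast hxy
      have h5 : Real.log (x / y) ≤ x / y - 1 := Real.log_le_sub_one_of_pos (by positivity)
      rw [Real.log_div hx0.ne' hy0.ne'] at h5
      have h6 : (x:ℝ) / y - 1 ≤ -(1 / y) := by
        rw [div_sub_one hy0.ne', ← neg_div]
        exact div_le_div_of_nonneg_right (by linarith) hy0.le
      have h7 : 1 / N ≤ 1 / y := one_div_le_one_div_of_le hy0 hy
      linarith
    rcases lt_or_gt_of_ne hab with h | h
    · have := key a b ha h hbN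
      exact this.trans (le_abs_self _)
    · have := key b a hb h haN
      rw [abs_sub_comm]
      exact this.trans (le_abs_self _)
  rw [h1]
  have hwp : 0 < |w| := abs_pos.mpr hw0
  rw [div_le_iff₀ hwp]
  have h5 : 1 ≤ N * |w| := by
    rw [div_le_iff₀ hN0] at h4
    linarith
  calc ‖Complex.exp (w * Complex.I * X2) - Complex.exp (w * Complex.I * X1)‖ ≤ 2 := h3
    _ ≤ 2 * N * |w| := by nlinarith

variable {Ω : Type*} [mΩ : MeasurableSpace Ω] {P : Measure Ω} {θ : ℕ → Ω → ℝ}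

/-- mean values of general Dirichlet polynomials -/
theorem mean_gen (h : Ph P θ) {ι : Type*} (S : Finset ι) (c : ι → ℂ) (l : ι → ℕ) (hl : ∀ j ∈ S, l j ≠ 0) {N : ℝ}
    (hN : ∀ j ∈ S, (l j : ℝ) ≤ N) (X1 X2 : ℝ) :
    |(∫ t in X1..X2, ‖∑ j ∈ S, c j * (l j : ℂ) ^ (-(t * Complex.I))‖ ^ 2) -
      (X2 - X1) * ∫ ω, ‖∑ j ∈ S, c j * chi θ ω (l j)‖ ^ 2 ∂P| ≤ 2 * N * (∑ j ∈ S, ‖c j‖) ^ 2 := by
  have hpr := h.pr
  classical
  -- both sides are double sums
  have ex : ∀ (v : ι → ℂ), ((‖∑ j ∈ S, c j * v j‖ ^ 2 : ℝ) : ℂ) =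
      ∑ j ∈ S, ∑ k ∈ S, (c j * starRingEnd ℂ (c k)) * (v j * starRingEnd ℂ (v k)) := by
    intro v
    rw [← Complex.normSq_eq_norm_sq, ← Complex.mul_conj, map_sum, sum_mul_sum]
    refine sum_congr rfl fun j _ => sum_congr rfl fun k _ => ?_
    rw [map_mul]; ring
  have hcont : ∀ n : ℕ, n ≠ 0 → Continuous fun t : ℝ => (n:ℂ) ^ (-(t * Complex.I)) := by
    intro n hn
    have hn' : (n:ℂ) ≠ 0 := by exact_mod_cast hn
    exact Continuous.const_cpow (by fun_prop) (Or.inl hn')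
  have hT : (((∫ t in X1..X2, ‖∑ j ∈ S, c j * (l j : ℂ) ^ (-(t * Complex.I))‖ ^ 2) : ℝ) : ℂ) =
      ∑ j ∈ S, ∑ k ∈ S, (c j * starRingEnd ℂ (c k)) *
        ∫ t in X1..X2, ((l j : ℂ) ^ (-(t * Complex.I)) * starRingEnd ℂ ((l k : ℂ) ^ (-(t * Complex.I)))) := by
    rw [← intervalIntegral.integral_ofReal]
    simp_rw [ex]
    have hc1 : ∀ j ∈ S, ∀ k ∈ S, Continuous fun t : ℝ => (c j * starRingEnd ℂ (c k)) *
        ((l j : ℂ) ^ (-(t * Complex.I)) * starRingEnd ℂ ((l k : ℂ) ^ (-(t * Complex.I)))) := fun j hj k hk =>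
      continuous_const.mul ((hcont _ (hl j hj)).mul (Complex.continuous_conj.comp (hcont _ (hl k hk))))
    rw [intervalIntegral.integral_finsetSum fun j hj =>
      (continuous_finsetSum _ fun k hk => hc1 j hj k hk).intervalIntegrable _ _]
    refine sum_congr rfl fun j hj => ?_
    rw [intervalIntegral.integral_finsetSum fun k hk => (hc1 j hj k hk).intervalIntegrable _ _]
    refine sum_congr rfl fun k hk => ?_
    rw [intervalIntegral.integral_const_mul]
  have hchim : ∀ n : ℕ, Measurable fun ω => chi θ ω n := fun n =>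
    (chi_meas (S := Set.univ) fun _ _ _ => Set.mem_univ _).mono (mS_le h.ms _) le_rfl
  have hR : (((∫ ω, ‖∑ j ∈ S, c j * chi θ ω (l j)‖ ^ 2 ∂P) : ℝ) : ℂ) =
      ∑ j ∈ S, ∑ k ∈ S, (c j * starRingEnd ℂ (c k)) * (if l j = l k then 1 else 0) := by
    rw [← integral_complex_ofReal]
    simp_rw [ex]
    have hi : ∀ j k : ι, Integrable (fun ω => (c j * starRingEnd ℂ (c k)) * (chi θ ω (l j) * starRingEnd ℂ (chi θ ω (l k)))) P := by
      intro j k
      refine Integrable.of_bound (((hchim _).mul (Complex.continuous_conj.measurable.comp (hchim _))).const_mul _).aestronglyMeasurable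
        (‖c j * starRingEnd ℂ (c k)‖) (ae_of_all _ fun ω => ?_)
      rw [norm_mul, norm_mul (chi θ ω (l j)), Complex.norm_conj]
      have h1 := chi_norm_le (θ := θ) (l j) ω
      have h2 := chi_norm_le (θ := θ) (l k) ω
      calc ‖c j * starRingEnd ℂ (c k)‖ * (‖chi θ ω (l j)‖ * ‖chi θ ω (l k)‖) ≤ ‖c j * starRingEnd ℂ (c k)‖ * (1 * 1) := by
            gcongr
        _ = _ := by ring
    rw [integral_finsetSum _ fun j _ => integrable_finsetSum _ fun k _ => hi j k]
    refine sum_congr rfl fun j hj => ?_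
    rw [integral_finsetSum _ fun k _ => hi j k]
    refine sum_congr rfl fun k hk => ?_
    rw [integral_const_mul, chi_orth h (hl j hj) (hl k hk)]
  rw [← Real.norm_eq_abs, ← Complex.norm_real]
  push_cast
  rw [hT, hR, mul_sum, ← sum_sub_distrib]
  have hterm : ∀ j ∈ S, ∀ k ∈ S, ‖(c j * starRingEnd ℂ (c k)) *
        (∫ t in X1..X2, ((l j : ℂ) ^ (-(t * Complex.I)) * starRingEnd ℂ ((l k : ℂ) ^ (-(t * Complex.I))))) -
        ((X2 - X1 : ℝ) : ℂ) * ((c j * starRingEnd ℂ (c k)) * (if l j = l k then 1 else 0))‖ ≤ 2 * N * (‖c j‖ * ‖c k‖) := by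
    intro j hj k hk
    have hN0 : 0 ≤ N := (Nat.cast_nonneg _).trans (hN j hj)
    by_cases hjk : l j = l k
    · rw [if_pos hjk, hjk]
      have hlk : ((l k : ℕ) : ℂ) ≠ 0 := by exact_mod_cast hl k hk
      have e1 : ∀ t : ℝ, ((l k : ℂ) ^ (-(t * Complex.I)) * starRingEnd ℂ ((l k : ℂ) ^ (-(t * Complex.I)))) = 1 := by
        intro t
        rw [Complex.mul_conj, Complex.normSq_eq_norm_sq, Complex.norm_natCast_cpow_of_pos (Nat.pos_of_ne_zero (hl k hk))]
        simp
      simp_rw [e1]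
      rw [intervalIntegral.integral_const]
      rw [Complex.real_smul, mul_one, mul_one, mul_comm, sub_self, norm_zero]
      positivity
    · rw [if_neg hjk, mul_zero, mul_zero, sub_zero, norm_mul, norm_mul, Complex.norm_conj, mul_comm]
      exact mul_le_mul_of_nonneg_right (osc_int (hl j hj) (hl k hk) hjk (hN j hj) (hN k hk) X1 X2) (by positivity)
  calc ‖∑ j ∈ S, (∑ k ∈ S, (c j * starRingEnd ℂ (c k)) *
        (∫ t in X1..X2, ((l j : ℂ) ^ (-(t * Complex.I)) * starRingEnd ℂ ((l k : ℂ) ^ (-(t * Complex.I))))) -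
        ((X2:ℂ) - (X1:ℂ)) * ∑ k ∈ S, (c j * starRingEnd ℂ (c k)) * (if l j = l k then 1 else 0))‖
      ≤ ∑ j ∈ S, ∑ k ∈ S, 2 * N * (‖c j‖ * ‖c k‖) := by
        refine norm_sum_le_of_le _ fun j hj => ?_
        rw [mul_sum, ← sum_sub_distrib]
        refine norm_sum_le_of_le _ fun k hk => ?_
        have := hterm j hj k hk
        push_cast at this
        exact this
    _ = 2 * N * (∑ j ∈ S, ‖c j‖) ^ 2 := by
        rw [pow_two, sum_mul_sum, mul_sum]
        refine sum_congr rfl fun j _ => ?_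
        rw [mul_sum]

end Pool.Agent.T6.H99.CH
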