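import Pool.Agent.Y755.Blk2
import Pool.Agent.T6.H99.CH.R3
import Pool.Agent.T6.H99.CH.K2

set_option autoImplicit false
set_option linter.unusedSectionVars false

/-! The random evaluation of Dirichlet polynomials, and mean values at two points. -/

namespace Pool.Agent.T6.H99.CH

open Finset MeasureTheory ProbabilityTheory MonoidAlgebra
open Pool.Agent.Y755
open Pool.Agent.W184.NZ

variable {Ω : Type*} [mΩ : MeasurableSpace Ω] {P : Measure Ω} {θ : ℕ → Ω → ℝ}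

/-- `χ(n) n^(-s)` -/
noncomputable def hr (θ : ℕ → Ω → ℝ) (ω : Ω) (s : ℂ) : ℕ →* ℂ where
  toFun n := chi θ ω n * (n:ℂ) ^ (-s)
  map_one' := by simp
  map_mul' m n := by
    rw [map_mul, Nat.cast_mul, Complex.natCast_mul_natCast_cpow]; ring

/-- the random evaluation -/
noncomputable def rv (θ : ℕ → Ω → ℝ) (ω : Ω) (s : ℂ) : P1 →ₐ[ℝ] ℂ := MonoidAlgebra.lift ℝ ℂ ℕ (hr θ ω s)

lemma rv_single (ω : Ω) (s : ℂ) (n : ℕ) (c : ℝ) : rv θ ω s (single n c) = c * (chi θ ω n * (n:ℂ) ^ (-s)) := by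
  unfold rv; rw [MonoidAlgebra.lift_single, Complex.real_smul]; rfl

lemma rv_apply (ω : Ω) (s : ℂ) (f : P1) :
    rv θ ω s f = ∑ n ∈ f.coeff.support, (f.coeff n : ℂ) * (chi θ ω n * (n:ℂ) ^ (-s)) := by
  conv_lhs => rw [P1_sum f, map_sum]
  exact sum_congr rfl fun n _ => rv_single ω s n _

lemma rv_meas {S : Set ℕ} {f : P1} {I : Finset ℕ} (hf : f ∈ SA1 (M1 I)) (hS : ∀ p ∈ I, p ∈ S) (s : ℂ) :
    Measurable[mS θ S] fun ω => rv θ ω s f := by
  simp_rw [rv_apply]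
  refine @Finset.measurable_fun_sum _ _ _ _ _ _ (mS θ S) _ _ fun n hn => ?_
  refine Measurable.const_mul (Measurable.mul_const ?_ _) _
  exact chi_meas fun p hp hd => hS p ((hf n hn).2 p hp hd)

lemma rv_meas' (h : Ph P θ) (f : P1) (s : ℂ) : Measurable fun ω => rv θ ω s f := by
  simp_rw [rv_apply]
  refine Finset.measurable_fun_sum _ fun n _ => ?_
  refine Measurable.const_mul (Measurable.mul_const ?_ _) _
  exact (chi_meas (S := Set.univ) fun _ _ _ => Set.mem_univ _).mono (mS_le h.ms _) le_rfl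

lemma norm_cpow_le_one {n : ℕ} (hn : n ≠ 0) {s : ℂ} (hs : 0 ≤ s.re) : ‖(n:ℂ) ^ (-s)‖ ≤ 1 := by
  rw [Complex.norm_natCast_cpow_of_pos (Nat.pos_of_ne_zero hn), Complex.neg_re]
  have : (1:ℝ) ≤ n := by exact_mod_cast Nat.one_le_iff_ne_zero.mpr hn
  exact Real.rpow_le_one_of_one_le_of_nonpos this (by linarith)

lemma rv_norm {N : ℝ} {f : P1} (hf : Bd1 N f) {s : ℂ} (hs : 0 ≤ s.re) (ω : Ω) : ‖rv θ ω s f‖ ≤ l1' f := by
  rw [rv_apply]
  refine (norm_sum_le _ _).trans (sum_le_sum fun n hn => ?_)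
  rw [norm_mul, norm_mul, Complex.norm_real, Real.norm_eq_abs]
  have h1 := chi_norm_le (θ := θ) n ω
  have h2 := norm_cpow_le_one (hf n hn).1 hs
  calc |f.coeff n| * (‖chi θ ω n‖ * ‖(n:ℂ) ^ (-s)‖) ≤ |f.coeff n| * (1 * 1) := by gcongr
    _ = _ := by ring

/-- the mean square -/
theorem rv_ip (h : Ph P θ) {N : ℝ} {f : P1} (hf : Bd1 N f) (δ x : ℝ) :
    ∫ ω, ‖rv θ ω (1 / 2 + δ + x * Complex.I) f‖ ^ 2 ∂P = ip δ f f := by
  have hpr := h.pr
  have ex : ∀ ω, ((‖rv θ ω (1 / 2 + δ + x * Complex.I) f‖ ^ 2 : ℝ) : ℂ) =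
      ∑ j ∈ f.coeff.support, ∑ k ∈ f.coeff.support, (((f.coeff j : ℂ) * (j:ℂ) ^ (-(1 / 2 + δ + x * Complex.I))) *
        starRingEnd ℂ ((f.coeff k : ℂ) * (k:ℂ) ^ (-(1 / 2 + δ + x * Complex.I)))) *
        (chi θ ω j * starRingEnd ℂ (chi θ ω k)) := by
    intro ω
    rw [← Complex.normSq_eq_norm_sq, ← Complex.mul_conj, rv_apply, map_sum, sum_mul_sum]
    refine sum_congr rfl fun j _ => sum_congr rfl fun k _ => ?_
    simp only [map_mul]; ring
  have hchim : ∀ n : ℕ, Measurable fun ω => chi θ ω n := fun n =>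
    (chi_meas (S := Set.univ) fun _ _ _ => Set.mem_univ _).mono (mS_le h.ms _) le_rfl
  have h1 : (((∫ ω, ‖rv θ ω (1 / 2 + δ + x * Complex.I) f‖ ^ 2 ∂P) : ℝ) : ℂ) = ((ip δ f f : ℝ) : ℂ) := by
    rw [← integral_complex_ofReal]
    simp_rw [ex]
    have hi : ∀ (c : ℂ) (j k : ℕ), Integrable (fun ω => c * (chi θ ω j * starRingEnd ℂ (chi θ ω k))) P := by
      intro c j k
      refine Integrable.of_bound (((hchim _).mul (Complex.continuous_conj.measurable.comp (hchim _))).const_mul _).aestronglyMeasurable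
        (‖c‖) (ae_of_all _ fun ω => ?_)
      rw [norm_mul, norm_mul (chi θ ω j), Complex.norm_conj]
      have h1 := chi_norm_le (θ := θ) j ω
      have h2 := chi_norm_le (θ := θ) k ω
      calc ‖c‖ * (‖chi θ ω j‖ * ‖chi θ ω k‖) ≤ ‖c‖ * (1 * 1) := by gcongr
        _ = _ := by ring
    rw [integral_finsetSum _ fun j _ => integrable_finsetSum _ fun k _ => hi _ j k, ip_eq δ f f (subset_refl _)]
    push_cast
    refine sum_congr rfl fun j hj => ?_
    rw [integral_finsetSum _ fun k _ => hi _ j k]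
    rw [sum_eq_single j]
    · rw [integral_const_mul, chi_orth h (hf j hj).1 (hf j hj).1, if_pos rfl, mul_one, map_mul, Complex.conj_ofReal]
      have hj0 : (0:ℝ) < j := by exact_mod_cast Nat.pos_of_ne_zero (hf j hj).1
      have e1 : ∀ w : ℂ, w * starRingEnd ℂ w = ((‖w‖ ^ 2 : ℝ) : ℂ) := by
        intro w; rw [Complex.mul_conj, Complex.normSq_eq_norm_sq]
      calc (f.coeff j : ℂ) * (j:ℂ) ^ (-(1 / 2 + δ + x * Complex.I)) * ((f.coeff j : ℂ) *
            starRingEnd ℂ ((j:ℂ) ^ (-(1 / 2 + δ + x * Complex.I))))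
          = (f.coeff j : ℂ) * (f.coeff j : ℂ) * ((j:ℂ) ^ (-(1 / 2 + δ + x * Complex.I)) *
            starRingEnd ℂ ((j:ℂ) ^ (-(1 / 2 + δ + x * Complex.I)))) := by ring
        _ = (f.coeff j : ℂ) * (f.coeff j : ℂ) * ((wδ δ j : ℝ) : ℂ) := by
            rw [e1, Complex.norm_natCast_cpow_of_pos (Nat.pos_of_ne_zero (hf j hj).1)]
            congr 2
            unfold wδ
            have e3 : (-(1 / 2 + (δ:ℂ) + x * Complex.I)).re = -(1 / 2 + δ) := by simp
            rw [e3, ← Real.rpow_natCast, ← Real.rpow_mul hj0.le, show (1:ℝ) / j = (j:ℝ) ^ (-1:ℝ) by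
              rw [Real.rpow_neg_one, one_div], ← Real.rpow_add hj0]
            congr 1
            push_cast; ring
    · intro k hk hkj
      rw [integral_const_mul, chi_orth h (hf j hj).1 (hf k hk).1, if_neg (Ne.symm hkj), mul_zero]
    · intro hc; exact absurd hj hc
  exact_mod_cast h1

/-- mean values at two points -/
theorem mean_two (h : Ph P θ) {N1 N2 δ : ℝ} (hδ : 0 ≤ δ) {f g : P1} (hf : Bd1 N1 f) (hg : Bd1 N2 g) (x y X1 X2 : ℝ) :
    |(∫ t in X1..X2, ‖es (1 / 2 + δ + (t + x) * Complex.I) f‖ ^ 2 * ‖es (1 / 2 + δ + (t + y) * Complex.I) g‖ ^ 2) -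
      (X2 - X1) * ∫ ω, ‖rv θ ω (1 / 2 + δ + x * Complex.I) f‖ ^ 2 * ‖rv θ ω (1 / 2 + δ + y * Complex.I) g‖ ^ 2 ∂P| ≤
      2 * (N1 * N2) * (l1' f * l1' g) ^ 2 := by
  set S := f.coeff.support ×ˢ g.coeff.support with hS
  set c : ℕ × ℕ → ℂ := fun q => ((f.coeff q.1 : ℂ) * (q.1:ℂ) ^ (-(1 / 2 + δ + x * Complex.I))) *
    ((g.coeff q.2 : ℂ) * (q.2:ℂ) ^ (-(1 / 2 + δ + y * Complex.I))) with hc
  have hmem : ∀ q ∈ S, q.1 ∈ f.coeff.support ∧ q.2 ∈ g.coeff.support := fun q hq => mem_product.mp hq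
  have hl : ∀ q ∈ S, q.1 * q.2 ≠ 0 := fun q hq => mul_ne_zero (hf _ (hmem q hq).1).1 (hg _ (hmem q hq).2).1
  have hN : ∀ q ∈ S, ((q.1 * q.2 : ℕ) : ℝ) ≤ N1 * N2 := by
    intro q hq
    push_cast
    have h1 := (hf _ (hmem q hq).1).2
    exact mul_le_mul h1 (hg _ (hmem q hq).2).2 (by positivity) ((Nat.cast_nonneg _).trans h1)
  have hm := mean_gen h S c (fun q => q.1 * q.2) hl hN X1 X2
  have e1 : ∀ t : ℝ, ‖∑ j ∈ S, c j * ((j.1 * j.2 : ℕ) : ℂ) ^ (-(t * Complex.I))‖ ^ 2 =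
      ‖es (1 / 2 + δ + (t + x) * Complex.I) f‖ ^ 2 * ‖es (1 / 2 + δ + (t + y) * Complex.I) g‖ ^ 2 := by
    intro t
    rw [← mul_pow, ← norm_mul, es_apply, es_apply, sum_mul_sum, hS, sum_product]
    congr 2
    refine sum_congr rfl fun j hj => sum_congr rfl fun k hk => ?_
    have hj0 : (j:ℂ) ≠ 0 := by exact_mod_cast (hf j hj).1
    have hk0 : (k:ℂ) ≠ 0 := by exact_mod_cast (hg k hk).1
    rw [hc]
    simp only
    rw [Nat.cast_mul, Complex.natCast_mul_natCast_cpow]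
    rw [show (-(1 / 2 + (δ:ℂ) + (t + x) * Complex.I)) = -(1 / 2 + δ + x * Complex.I) + -(t * Complex.I) by ring,
      show (-(1 / 2 + (δ:ℂ) + (t + y) * Complex.I)) = -(1 / 2 + δ + y * Complex.I) + -(t * Complex.I) by ring,
      Complex.cpow_add _ _ hj0, Complex.cpow_add _ _ hk0]
    ring
  have e2 : ∀ ω, ‖∑ j ∈ S, c j * chi θ ω (j.1 * j.2)‖ ^ 2 =
      ‖rv θ ω (1 / 2 + δ + x * Complex.I) f‖ ^ 2 * ‖rv θ ω (1 / 2 + δ + y * Complex.I) g‖ ^ 2 := by
    intro ω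
    rw [← mul_pow, ← norm_mul, rv_apply, rv_apply, sum_mul_sum, hS, sum_product]
    congr 2
    refine sum_congr rfl fun j hj => sum_congr rfl fun k hk => ?_
    rw [hc]
    simp only
    rw [map_mul]
    ring
  simp_rw [e1, e2] at hm
  refine hm.trans ?_
  have h0 : 0 ≤ 2 * (N1 * N2) * (l1' f * l1' g) ^ 2 - 2 * (N1 * N2) * (∑ j ∈ S, ‖c j‖) ^ 2 := by
    rcases S.eq_empty_or_nonempty with hSe | ⟨q, hq⟩
    · have : (∑ j ∈ S, ‖c j‖) = 0 := by rw [hSe, sum_empty]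
      rw [this]
      rw [hS, product_eq_empty] at hSe
      have hz : l1' f * l1' g = 0 := by
        rcases hSe with h1 | h1
        · unfold l1'; rw [h1]; simp
        · unfold l1'; rw [h1]; simp
      rw [hz]; simp
    · have hN0 : 0 ≤ N1 * N2 := (Nat.cast_nonneg _).trans (hN q hq)
      have hs : ∑ j ∈ S, ‖c j‖ ≤ l1' f * l1' g := by
        rw [hS, sum_product]
        unfold l1'
        rw [sum_mul_sum]
        refine sum_le_sum fun j hj => sum_le_sum fun k hk => ?_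
        rw [hc]
        simp only
        rw [norm_mul, norm_mul, norm_mul, Complex.norm_real, Complex.norm_real, Real.norm_eq_abs, Real.norm_eq_abs]
        have a1 := norm_cpow_le_one (hf j hj).1 (s := 1 / 2 + δ + x * Complex.I) (by simp; linarith)
        have a2 := norm_cpow_le_one (hg k hk).1 (s := 1 / 2 + δ + y * Complex.I) (by simp; linarith)
        calc |f.coeff j| * ‖(j:ℂ) ^ (-(1 / 2 + δ + x * Complex.I))‖ * (|g.coeff k| * ‖(k:ℂ) ^ (-(1 / 2 + δ + y * Complex.I))‖)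
            ≤ |f.coeff j| * 1 * (|g.coeff k| * 1) := by gcongr
          _ = _ := by ring
      have hs0 : 0 ≤ ∑ j ∈ S, ‖c j‖ := sum_nonneg fun _ _ => norm_nonneg _
      have := pow_le_pow_left₀ hs0 hs 2
      nlinarith
  linarith

end Pool.Agent.T6.H99.CH
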