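import Pool.Agent.T6.H99.CH.T1

set_option autoImplicit false
set_option linter.unusedSectionVars false

/-! One block at two points. -/

namespace Pool.Agent.T6.H99.CH

open Finset MeasureTheory ProbabilityTheory MonoidAlgebra
open Pool.Agent.Y755
open Pool.Agent.W184.NZ

variable {Ω : Type*} [mΩ : MeasurableSpace Ω] {P : Measure Ω} {θ : ℕ → Ω → ℝ}

/-- the random sum over the primes of `I` -/
noncomputable def wI (θ : ℕ → Ω → ℝ) (δ x : ℝ) (I : Finset ℕ) (ω : Ω) : ℂ := ∑ p ∈ I, pv δ x p * Xp θ p ω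

lemma rv_x1 {I : Finset ℕ} (hI : ∀ p ∈ I, p.Prime) (δ x : ℝ) (ω : Ω) :
    rv θ ω (1 / 2 + δ + x * Complex.I) (x1 I) = wI θ δ x I ω := by
  unfold x1 wI
  rw [map_sum]
  refine sum_congr rfl fun p hp => ?_
  rw [rv_single, chi_prime (hI p hp)]
  unfold pv
  rw [Complex.ofReal_one, one_mul, mul_comm]

lemma wI_meas {S : Set ℕ} {I : Finset ℕ} (hS : ∀ p ∈ I, p ∈ S) (δ x : ℝ) : Measurable[mS θ S] (wI θ δ x I) := by
  unfold wI
  refine @Finset.measurable_fun_sum _ _ _ _ _ _ (mS θ S) _ _ fun p hp => ?_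
  exact (Xp_meas (hS p hp)).const_mul _

lemma rr_eq_rp (δ : ℝ) (p : ℕ) : rr δ p = rp δ p := rfl

lemma wI_norm {I : Finset ℕ} (hI : ∀ p ∈ I, p.Prime) (δ x : ℝ) (ω : Ω) : ‖wI θ δ x I ω‖ ≤ ∑ p ∈ I, rr δ p := by
  unfold wI
  refine (norm_sum_le _ _).trans (sum_le_sum fun p hp => ?_)
  rw [norm_mul, Xp_norm, mul_one, pv_norm δ x (hI p hp)]

/-- expectations of exponentials of linear forms -/
lemma lin_prod (h : Ph P θ) {I : Finset ℕ} (hI : ∀ p ∈ I, p.Prime) (u : ℕ → ℂ) :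
    ∫ ω, Real.exp ((∑ p ∈ I, u p * Xp θ p ω).re) ∂P = ∏ p ∈ I, ∫ ω, Real.exp ((u p * Xp θ p ω).re) ∂P := by
  have e : ∀ ω, Real.exp ((∑ p ∈ I, u p * Xp θ p ω).re) = ∏ p ∈ I, Real.exp ((u p * Xp θ p ω).re) := by
    intro ω
    rw [Complex.re_sum, Real.exp_sum]
  simp_rw [e]
  refine E_prodF h I (F := fun p ω => Real.exp ((u p * Xp θ p ω).re)) fun p => ?_
  exact Real.measurable_exp.comp (Complex.measurable_re.comp ((Xp_meas (Set.mem_singleton p)).const_mul _))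

/-- upper bound for large exponents -/
lemma lin_up (h : Ph P θ) {δ : ℝ} (hδ : 0 ≤ δ) {I : Finset ℕ} (hI : Bg I) (x : ℝ) {c0 : ℂ} (hc : ‖c0‖ ≤ 12) :
    ∫ ω, Real.exp ((c0 * wI θ δ x I ω).re) ∂P ≤ Real.exp (36 * vI I + 8640 * uI I) := by
  have hp : ∀ p ∈ I, p.Prime := fun p hp => (hI p hp).1
  have e : ∀ ω, c0 * wI θ δ x I ω = ∑ p ∈ I, (c0 * pv δ x p) * Xp θ p ω := by
    intro ω
    unfold wI
    rw [mul_sum]
    exact sum_congr rfl fun p _ => by ring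
  simp_rw [e]
  rw [lin_prod h hp]
  have hb : ∀ p ∈ I, ∫ ω, Real.exp ((c0 * pv δ x p * Xp θ p ω).re) ∂P ≤
      Real.exp (36 * (1 / (p:ℝ)) + 8640 * (p:ℝ) ^ (-(3 / 2 : ℝ))) := by
    intro p hpI
    obtain ⟨h1, h2⟩ := hI p hpI
    have hr0 := rr_pos δ h1
    have hr1 := rr_small hδ h1 h2
    have hn : ‖c0 * pv δ x p‖ ≤ 12 * rr δ p := by
      rw [norm_mul, pv_norm δ x h1]
      exact mul_le_mul_of_nonneg_right hc hr0.le
    have h3 := (abs_le.mp (lin_pt h p (D := 12) (by norm_num) hr0 (by linarith) hn)).2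
    have h4 : ‖c0 * pv δ x p‖ ^ 2 / 4 ≤ 36 * rr δ p ^ 2 := by
      have := pow_le_pow_left₀ (norm_nonneg _) hn 2
      nlinarith
    have h5 : rr δ p ^ 2 ≤ 1 / (p:ℝ) := by
      rw [rr_sq δ h1]
      refine div_le_div_of_nonneg_right ?_ (Nat.cast_nonneg _)
      exact Real.rpow_le_one_of_one_le_of_nonpos (by exact_mod_cast h1.one_le) (by linarith)
    have h6 := rr_cube hδ h1
    have hE : Real.exp (‖c0 * pv δ x p‖ ^ 2 / 4) ≤ Real.exp (36 * (1 / (p:ℝ))) := Real.exp_le_exp.mpr (by linarith)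
    have hE1 : 1 ≤ Real.exp (36 * (1 / (p:ℝ))) := Real.one_le_exp (by positivity)
    have hr3 : 0 ≤ rr δ p ^ 3 := by positivity
    calc ∫ ω, Real.exp ((c0 * pv δ x p * Xp θ p ω).re) ∂P ≤ Real.exp (36 * (1 / (p:ℝ))) + 8640 * rr δ p ^ 3 := by linarith
      _ ≤ Real.exp (36 * (1 / (p:ℝ))) * (1 + 8640 * (p:ℝ) ^ (-(3 / 2 : ℝ))) := by nlinarith
      _ ≤ Real.exp (36 * (1 / (p:ℝ))) * Real.exp (8640 * (p:ℝ) ^ (-(3 / 2 : ℝ))) := by
          refine mul_le_mul_of_nonneg_left ?_ (Real.exp_pos _).le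
          have := Real.add_one_le_exp (8640 * (p:ℝ) ^ (-(3 / 2 : ℝ)))
          linarith
      _ = _ := by rw [← Real.exp_add]
  refine (prod_le_prod (fun p _ => integral_nonneg fun ω => (Real.exp_pos _).le) hb).trans ?_
  rw [← Real.exp_sum, sum_add_distrib, ← mul_sum, ← mul_sum]
  rfl

/-- the constant for large exponents -/
noncomputable def CT (c : ℝ) : ℝ := 4 * Real.exp (8676 * c)

lemma CT_pos (c : ℝ) : 0 < CT c := by unfold CT; positivity

lemma wI_meas' (h : Ph P θ) (δ x : ℝ) (I : Finset ℕ) : Measurable (wI θ δ x I) :=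
  (wI_meas (S := Set.univ) (fun _ _ => Set.mem_univ _) δ x).mono (mS_le h.ms _) le_rfl

lemma wI_int (h : Ph P θ) (δ x y : ℝ) {I : Finset ℕ} (hI : ∀ p ∈ I, p.Prime) {G : ℂ → ℂ → ℝ}
    (hG : Continuous (Function.uncurry G)) : Integrable (fun ω => G (wI θ δ x I ω) (wI θ δ y I ω)) P := by
  have hpr := h.pr
  set K := ∑ p ∈ I, rr δ p
  obtain ⟨C, hC⟩ := ((isCompact_closedBall (0:ℂ) K).prod (isCompact_closedBall (0:ℂ) K)).exists_bound_of_continuousOn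
    hG.continuousOn
  refine Integrable.of_bound ?_ C (ae_of_all _ fun ω => ?_)
  · exact (hG.measurable.comp ((wI_meas' h δ x I).prodMk (wI_meas' h δ y I))).aestronglyMeasurable
  · refine hC (wI θ δ x I ω, wI θ δ y I ω) ⟨?_, ?_⟩ <;> rw [mem_closedBall_zero_iff]
    · exact wI_norm hI δ x ω
    · exact wI_norm hI δ y ω

lemma exp8_up (h : Ph P θ) {c δ : ℝ} (hδ : 0 ≤ δ) {I : Finset ℕ} (hI : Bg I) (hv : vI I ≤ c) (hu : uI I ≤ c) (x : ℝ) :
    ∫ ω, Real.exp (8 * ‖wI θ δ x I ω‖) ∂P ≤ CT c := by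
  have hp : ∀ p ∈ I, p.Prime := fun p hp => (hI p hp).1
  have hE : Real.exp (36 * vI I + 8640 * uI I) ≤ Real.exp (8676 * c) := Real.exp_le_exp.mpr (by linarith)
  have hi : ∀ c0 : ℂ, Integrable (fun ω => Real.exp ((c0 * wI θ δ x I ω).re)) P := fun c0 =>
    wI_int h δ x x hp (G := fun z _ => Real.exp ((c0 * z).re)) (by fun_prop)
  have h1 : ∫ ω, Real.exp (8 * ‖wI θ δ x I ω‖) ∂P ≤ ∫ ω, (Real.exp ((((8:ℂ) - 8 * Complex.I) * wI θ δ x I ω).re) +
      Real.exp ((((8:ℂ) + 8 * Complex.I) * wI θ δ x I ω).re) + Real.exp ((((-8:ℂ) - 8 * Complex.I) * wI θ δ x I ω).re) +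
      Real.exp ((((-8:ℂ) + 8 * Complex.I) * wI θ δ x I ω).re)) ∂P := by
    refine integral_mono (wI_int h δ x x hp (G := fun z _ => Real.exp (8 * ‖z‖)) (by fun_prop))
      ((((hi _).add (hi _)).add (hi _)).add (hi _)) fun ω => norm_exp8_le _
  refine h1.trans ?_
  have j1 : Integrable (fun ω => Real.exp ((((8:ℂ) - 8 * Complex.I) * wI θ δ x I ω).re) +
      Real.exp ((((8:ℂ) + 8 * Complex.I) * wI θ δ x I ω).re)) P := (hi _).add (hi _)
  have j2 : Integrable (fun ω => Real.exp ((((8:ℂ) - 8 * Complex.I) * wI θ δ x I ω).re) +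
      Real.exp ((((8:ℂ) + 8 * Complex.I) * wI θ δ x I ω).re) + Real.exp ((((-8:ℂ) - 8 * Complex.I) * wI θ δ x I ω).re)) P :=
    j1.add (hi _)
  rw [integral_add j2 (hi _), integral_add j1 (hi _), integral_add (hi _) (hi _)]
  have b1 := lin_up h hδ hI x (c0 := (8:ℂ) - 8 * Complex.I) (norm88 _ (by simp; norm_num) (by simp; norm_num))
  have b2 := lin_up h hδ hI x (c0 := (8:ℂ) + 8 * Complex.I) (norm88 _ (by simp; norm_num) (by simp; norm_num))
  have b3 := lin_up h hδ hI x (c0 := (-8:ℂ) - 8 * Complex.I) (norm88 _ (by simp; norm_num) (by simp; norm_num))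
  have b4 := lin_up h hδ hI x (c0 := (-8:ℂ) + 8 * Complex.I) (norm88 _ (by simp; norm_num) (by simp; norm_num))
  unfold CT
  linarith

end Pool.Agent.T6.H99.CH
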