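import Pool.Agent.T6.H99.CH.T2
import Pool.Agent.Y755.Par

set_option autoImplicit false
set_option linter.unusedSectionVars false

/-! One block at two points: the comparison. -/

namespace Pool.Agent.T6.H99.CH

open Finset MeasureTheory ProbabilityTheory MonoidAlgebra
open Pool.Agent.Y755
open Pool.Agent.W184.NZ

variable {Ω : Type*} [mΩ : MeasurableSpace Ω] {P : Measure Ω} {θ : ℕ → Ω → ℝ}

/-- the main term of a block at two points -/
noncomputable def E0 (α δ x y : ℝ) (I : Finset ℕ) : ℝ :=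
  Real.exp (2 * α ^ 2 * ∑ p ∈ I, rr δ p ^ 2 * (1 + Real.cos ((x - y) * Real.log p)))

lemma E0_ge {α δ x y : ℝ} (I : Finset ℕ) : 1 ≤ E0 α δ x y I := by
  refine Real.one_le_exp ?_
  refine mul_nonneg (by positivity) (sum_nonneg fun p _ => mul_nonneg (sq_nonneg _) ?_)
  have := Real.neg_one_le_cos ((x - y) * Real.log p)
  linarith

lemma NK_cont (K : ℕ) (a : ℝ) : Continuous fun z : ℂ => NK K a z := by
  unfold NK
  fun_prop

lemma two_main (h : Ph P θ) {δ : ℝ} (hδ : 0 ≤ δ) {I : Finset ℕ} (hI : Bg I) {α : ℝ} (h0 : 0 ≤ α) (h1 : α ≤ 1)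
    (x y : ℝ) :
    |∫ ω, ‖Complex.exp (α * wI θ δ x I ω)‖ ^ 2 * ‖Complex.exp (α * wI θ δ y I ω)‖ ^ 2 ∂P - E0 α δ x y I| ≤
      (Real.exp (320 * uI I) - 1) * E0 α δ x y I := by
  have hp : ∀ p ∈ I, p.Prime := fun p hp => (hI p hp).1
  set u : ℕ → ℂ := fun p => (2 * α : ℝ) * (pv δ x p + pv δ y p) with hu
  have e : ∀ ω, ‖Complex.exp (α * wI θ δ x I ω)‖ ^ 2 * ‖Complex.exp (α * wI θ δ y I ω)‖ ^ 2 =
      Real.exp ((∑ p ∈ I, u p * Xp θ p ω).re) := by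
    intro ω
    rw [Complex.norm_exp, Complex.norm_exp, ← Real.exp_nat_mul, ← Real.exp_nat_mul, ← Real.exp_add]
    congr 1
    have e2 : ∑ p ∈ I, u p * Xp θ p ω = (2 * α : ℝ) * (wI θ δ x I ω + wI θ δ y I ω) := by
      unfold wI
      rw [← sum_add_distrib, mul_sum]
      refine sum_congr rfl fun p _ => ?_
      rw [hu]; ring
    rw [e2, Complex.re_ofReal_mul, Complex.re_ofReal_mul, Complex.re_ofReal_mul, Complex.add_re]
    push_cast; ring
  simp_rw [e]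
  rw [lin_prod h hp]
  have hm : ∀ p ∈ I, ‖((∫ ω, Real.exp ((u p * Xp θ p ω).re) ∂P : ℝ) : ℂ) - ((Real.exp (‖u p‖ ^ 2 / 4) : ℝ) : ℂ)‖ ≤
      (320 * (p:ℝ) ^ (-(3 / 2 : ℝ))) * Real.exp (‖u p‖ ^ 2 / 4) := by
    intro p hpI
    obtain ⟨h2, h3⟩ := hI p hpI
    have hr0 := rr_pos δ h2
    have hr1 := rr_small hδ h2 h3
    have hn : ‖u p‖ ≤ 4 * rr δ p := by
      rw [hu]
      simp only
      rw [norm_mul, Complex.norm_real, Real.norm_of_nonneg (by positivity)]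
      have h4 := norm_add_le (pv δ x p) (pv δ y p)
      rw [pv_norm δ x h2, pv_norm δ y h2] at h4
      have h5 : 0 ≤ ‖pv δ x p + pv δ y p‖ := norm_nonneg _
      nlinarith
    have h4 := lin_pt h p (D := 4) (by norm_num) hr0 (by linarith) hn
    rw [← Complex.ofReal_sub, Complex.norm_real, Real.norm_eq_abs]
    refine h4.trans ?_
    have h5 := rr_cube hδ h2
    have h6 : 1 ≤ Real.exp (‖u p‖ ^ 2 / 4) := Real.one_le_exp (by positivity)
    have h7 : 0 ≤ (p:ℝ) ^ (-(3 / 2 : ℝ)) := by positivity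
    nlinarith
  have h2 := prod_close I (a := fun p => ((∫ ω, Real.exp ((u p * Xp θ p ω).re) ∂P : ℝ) : ℂ))
    (b := fun p => Real.exp (‖u p‖ ^ 2 / 4)) (e := fun p => 320 * (p:ℝ) ^ (-(3 / 2 : ℝ)))
    (fun p _ => (Real.exp_pos _).le) (fun p _ => by positivity) hm
  have e3 : ∏ p ∈ I, Real.exp (‖u p‖ ^ 2 / 4) = E0 α δ x y I := by
    rw [← Real.exp_sum]
    unfold E0
    congr 1
    rw [mul_sum]
    refine sum_congr rfl fun p hpI => ?_
    rw [hu]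
    simp only
    rw [norm_mul, Complex.norm_real, Real.norm_of_nonneg (by positivity), mul_pow, pv_sum_sq δ x y (hp p hpI)]
    ring
  rw [e3, ← mul_sum] at h2
  refine re_close ?_ h2
  push_cast
  rfl

/-- one block at two points -/
theorem blk_two (h : Ph P θ) {c δ : ℝ} (hδ : 0 ≤ δ) {I : Finset ℕ} (hI : Bg I) (hv : vI I ≤ c) (hu : uI I ≤ c)
    {R : ℕ} (hR : 1 ≤ R) {α : ℝ} (h0 : 0 ≤ α) (h1 : α ≤ 1) (x y : ℝ) :
    |∫ ω, ‖NK (20 * R) α (wI θ δ x I ω)‖ ^ 2 * ‖NK (20 * R) α (wI θ δ y I ω)‖ ^ 2 ∂P - E0 α δ x y I| ≤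
      ((Real.exp (320 * uI I) - 1) + 8 * CT c * Real.exp (-(R:ℝ))) * E0 α δ x y I := by
  have hpr := h.pr
  have hp : ∀ p ∈ I, p.Prime := fun p hp => (hI p hp).1
  have hm := two_main h hδ hI h0 h1 x y
  have ha : |α| ≤ 1 := by rw [abs_of_nonneg h0]; exact h1
  have i1 : Integrable (fun ω => ‖NK (20 * R) α (wI θ δ x I ω)‖ ^ 2 * ‖NK (20 * R) α (wI θ δ y I ω)‖ ^ 2) P :=
    wI_int h δ x y hp (G := fun z w => ‖NK (20 * R) α z‖ ^ 2 * ‖NK (20 * R) α w‖ ^ 2)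
      (by
        refine (((NK_cont _ _).comp continuous_fst).norm.pow 2).mul (((NK_cont _ _).comp continuous_snd).norm.pow 2))
  have i2 : Integrable (fun ω => ‖Complex.exp (α * wI θ δ x I ω)‖ ^ 2 * ‖Complex.exp (α * wI θ δ y I ω)‖ ^ 2) P :=
    wI_int h δ x y hp (G := fun z w => ‖Complex.exp (α * z)‖ ^ 2 * ‖Complex.exp (α * w)‖ ^ 2) (by fun_prop)
  have i3 : ∀ x, Integrable (fun ω => Real.exp (8 * ‖wI θ δ x I ω‖)) P := fun x =>
    wI_int h δ x x hp (G := fun z _ => Real.exp (8 * ‖z‖)) (by fun_prop)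
  have hd : |∫ ω, ‖NK (20 * R) α (wI θ δ x I ω)‖ ^ 2 * ‖NK (20 * R) α (wI θ δ y I ω)‖ ^ 2 ∂P -
      ∫ ω, ‖Complex.exp (α * wI θ δ x I ω)‖ ^ 2 * ‖Complex.exp (α * wI θ δ y I ω)‖ ^ 2 ∂P| ≤
      8 * CT c * Real.exp (-(R:ℝ)) := by
    rw [← integral_sub i1 i2, ← Real.norm_eq_abs]
    have hb : ∀ ω, ‖‖NK (20 * R) α (wI θ δ x I ω)‖ ^ 2 * ‖NK (20 * R) α (wI θ δ y I ω)‖ ^ 2 -
        ‖Complex.exp (α * wI θ δ x I ω)‖ ^ 2 * ‖Complex.exp (α * wI θ δ y I ω)‖ ^ 2‖ ≤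
        4 * Real.exp (-(R:ℝ)) * (Real.exp (8 * ‖wI θ δ x I ω‖) + Real.exp (8 * ‖wI θ δ y I ω‖)) := by
      intro ω
      set z := wI θ δ x I ω
      set w := wI θ δ y I ω
      have z0 := norm_nonneg z
      have w0 := norm_nonneg w
      have r1 := rho_le hR (a := α) (by linarith) z
      have r2 := rho_le hR (a := α) (by linarith) w
      have n1 := NK_norm_le (20 * R) ha z
      have n2 := NK_norm_le (20 * R) ha w
      have g : ∀ v : ℂ, ‖Complex.exp (α * v)‖ ≤ Real.exp ‖v‖ := by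
        intro v
        rw [Complex.norm_exp]
        refine Real.exp_le_exp.mpr ((Complex.re_le_norm _).trans ?_)
        rw [norm_mul, Complex.norm_real, Real.norm_eq_abs]
        nlinarith [norm_nonneg v]
      have g1 := g z
      have g2 := g w
      set a1 := ‖NK (20 * R) α z‖ with ha1
      set a2 := ‖NK (20 * R) α w‖ with ha2
      set b1 := ‖Complex.exp (α * z)‖ with hb1
      set b2 := ‖Complex.exp (α * w)‖ with hb2
      have d1 : |a1 - b1| ≤ 2 * Real.exp (-(R:ℝ)) * Real.exp (3 * ‖z‖) := (abs_norm_sub_norm_le _ _).trans r1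
      have d2 : |a2 - b2| ≤ 2 * Real.exp (-(R:ℝ)) * Real.exp (3 * ‖w‖) := (abs_norm_sub_norm_le _ _).trans r2
      have a10 : 0 ≤ a1 := norm_nonneg _
      have a20 : 0 ≤ a2 := norm_nonneg _
      have b10 : 0 ≤ b1 := norm_nonneg _
      have b20 : 0 ≤ b2 := norm_nonneg _
      set ρ := Real.exp (-(R:ℝ)) with hρ
      set X := Real.exp ‖z‖ with hX
      set Y := Real.exp ‖w‖ with hY
      have X0 : 1 ≤ X := Real.one_le_exp z0
      have Y0 : 1 ≤ Y := Real.one_le_exp w0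
      have eX : ∀ n : ℕ, Real.exp (n * ‖z‖) = X ^ n := fun n => Real.exp_nat_mul _ n
      have eY : ∀ n : ℕ, Real.exp (n * ‖w‖) = Y ^ n := fun n => Real.exp_nat_mul _ n
      have eX3 := eX 3
      have eY3 := eY 3
      have eX8 := eX 8
      have eY8 := eY 8
      push_cast at eX3 eY3 eX8 eY8
      rw [eX3] at d1
      rw [eY3] at d2
      rw [eX8, eY8, Real.norm_eq_abs]
      have ρ0 : 0 < ρ := Real.exp_pos _
      have s1 : |a1 ^ 2 - b1 ^ 2| ≤ 4 * ρ * X ^ 4 := by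
        rw [show a1 ^ 2 - b1 ^ 2 = (a1 - b1) * (a1 + b1) by ring, abs_mul, abs_of_nonneg (by positivity : 0 ≤ a1 + b1)]
        calc _ ≤ (2 * ρ * X ^ 3) * (X + X) := mul_le_mul d1 (by linarith) (by positivity) (by positivity)
          _ = _ := by ring
      have s2 : |a2 ^ 2 - b2 ^ 2| ≤ 4 * ρ * Y ^ 4 := by
        rw [show a2 ^ 2 - b2 ^ 2 = (a2 - b2) * (a2 + b2) by ring, abs_mul, abs_of_nonneg (by positivity : 0 ≤ a2 + b2)]
        calc _ ≤ (2 * ρ * Y ^ 3) * (Y + Y) := mul_le_mul d2 (by linarith) (by positivity) (by positivity)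
          _ = _ := by ring
      have t1 : a2 ^ 2 ≤ Y ^ 4 := by
        calc a2 ^ 2 ≤ Y ^ 2 := pow_le_pow_left₀ a20 n2 2
          _ ≤ Y ^ 4 := pow_le_pow_right₀ Y0 (by norm_num)
      have t2 : b1 ^ 2 ≤ X ^ 4 := by
        calc b1 ^ 2 ≤ X ^ 2 := pow_le_pow_left₀ b10 g1 2
          _ ≤ X ^ 4 := pow_le_pow_right₀ X0 (by norm_num)
      calc |a1 ^ 2 * a2 ^ 2 - b1 ^ 2 * b2 ^ 2| = |(a1 ^ 2 - b1 ^ 2) * a2 ^ 2 + b1 ^ 2 * (a2 ^ 2 - b2 ^ 2)| := by
            congr 1; ring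
        _ ≤ |(a1 ^ 2 - b1 ^ 2) * a2 ^ 2| + |b1 ^ 2 * (a2 ^ 2 - b2 ^ 2)| := abs_add_le _ _
        _ = |a1 ^ 2 - b1 ^ 2| * a2 ^ 2 + b1 ^ 2 * |a2 ^ 2 - b2 ^ 2| := by
            rw [abs_mul, abs_mul, abs_of_nonneg (sq_nonneg a2), abs_of_nonneg (sq_nonneg b1)]
        _ ≤ 4 * ρ * X ^ 4 * Y ^ 4 + X ^ 4 * (4 * ρ * Y ^ 4) := by gcongr
        _ = 4 * ρ * (2 * X ^ 4 * Y ^ 4) := by ring
        _ ≤ 4 * ρ * (X ^ 8 + Y ^ 8) := by
            refine mul_le_mul_of_nonneg_left ?_ (by positivity)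
            nlinarith [sq_nonneg (X ^ 4 - Y ^ 4)]
    have i4 : Integrable (fun ω => Real.exp (8 * ‖wI θ δ x I ω‖) + Real.exp (8 * ‖wI θ δ y I ω‖)) P := (i3 x).add (i3 y)
    refine (norm_integral_le_of_norm_le (i4.const_mul _) (ae_of_all _ hb)).trans ?_
    rw [integral_const_mul, integral_add (i3 x) (i3 y)]
    have b1 := exp8_up h hδ hI hv hu x
    have b2 := exp8_up h hδ hI hv hu y
    have x0 := Real.exp_pos (-(R:ℝ))
    nlinarith
  have hE := E0_ge (α := α) (δ := δ) (x := x) (y := y) I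
  have hX : 0 ≤ 8 * CT c * Real.exp (-(R:ℝ)) := by have := CT_pos c; positivity
  have hf : |∫ ω, ‖NK (20 * R) α (wI θ δ x I ω)‖ ^ 2 * ‖NK (20 * R) α (wI θ δ y I ω)‖ ^ 2 ∂P - E0 α δ x y I| ≤
      8 * CT c * Real.exp (-(R:ℝ)) + (Real.exp (320 * uI I) - 1) * E0 α δ x y I :=
    (abs_sub_le _ _ _).trans (add_le_add hd hm)
  refine hf.trans ?_
  rw [add_mul]
  nlinarith

end Pool.Agent.T6.H99.CH
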