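import Pool.Agent.T6.H99.CH.T2b
import Pool.Agent.T6.H99.CH.C3
import Pool.Agent.Y753.NL.Win

set_option autoImplicit false
set_option linter.unusedSectionVars false

/-! Independence of the blocks. -/

namespace Pool.Agent.T6.H99.CH

open Finset MeasureTheory ProbabilityTheory MonoidAlgebra
open Pool.Agent.Y755
open Pool.Agent.W184.NZ

variable {Ω : Type*} [mΩ : MeasurableSpace Ω] {P : Measure Ω} {θ : ℕ → Ω → ℝ}

/-- the weight of a block -/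
noncomputable def bw (θ : ℕ → Ω → ℝ) (δ α : ℝ) (z : ℕ) (y : ℝ) (Rs : ℕ) (x : ℝ) (i : ℕ) (ω : Ω) : ℝ :=
  ‖NK (20 * RR Rs i) α (wI θ δ x (IZ z y i) ω)‖ ^ 2

lemma rv_A (A0 : P1) (δ α : ℝ) (z : ℕ) (y : ℝ) (J Rs : ℕ) (x : ℝ) (ω : Ω) :
    ‖rv θ ω (1 / 2 + δ + x * Complex.I) (A0 * Bz α z y J Rs ∅)‖ ^ 2 =
      ‖rv θ ω (1 / 2 + δ + x * Complex.I) A0‖ ^ 2 * ∏ i ∈ range J, bw θ δ α z y Rs x i ω := by
  rw [map_mul, norm_mul, mul_pow, Bz_empty, map_prod, norm_prod, ← prod_pow]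
  congr 1
  refine prod_congr rfl fun i _ => ?_
  unfold bw
  rw [NK_map, rv_x1 (IZ_prime i)]

lemma bw_meas {S : Set ℕ} {z : ℕ} {y : ℝ} {i : ℕ} (hS : ∀ p ∈ IZ z y i, p ∈ S) (δ α : ℝ) (Rs : ℕ) (x : ℝ) :
    Measurable[mS θ S] (bw θ δ α z y Rs x i) :=
  ((NK_cont (20 * RR Rs i) α).norm.pow 2).measurable.comp (wI_meas hS δ x)

/-- the small primes at two points -/
noncomputable def q0 (P : Measure Ω) (θ : ℕ → Ω → ℝ) (δ : ℝ) (A0 : P1) (x y : ℝ) : ℝ :=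
  ∫ ω, ‖rv θ ω (1 / 2 + δ + x * Complex.I) A0‖ ^ 2 * ‖rv θ ω (1 / 2 + δ + y * Complex.I) A0‖ ^ 2 ∂P

lemma q0_nonneg (δ : ℝ) (A0 : P1) (x y : ℝ) : 0 ≤ q0 P θ δ A0 x y :=
  integral_nonneg fun ω => by positivity

lemma q0_symm (δ : ℝ) (A0 : P1) (x y : ℝ) : q0 P θ δ A0 x y = q0 P θ δ A0 y x := by
  unfold q0
  exact integral_congr_ae (ae_of_all _ fun ω => mul_comm _ _)

lemma q_meas {z : ℕ} {A0 : P1} (hAm : A0 ∈ SA1 (M1 (S0 z))) (δ x : ℝ) :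
    Measurable[mS θ (S0 z : Set ℕ)] fun ω => ‖rv θ ω (1 / 2 + δ + x * Complex.I) A0‖ ^ 2 :=
  (continuous_norm.pow 2).measurable.comp (rv_meas hAm (fun _ hp => hp) _)

lemma dj1' {z : ℕ} {y : ℝ} (J : ℕ) : Disjoint ((S0 z : Finset ℕ) : Set ℕ) (((range J).biUnion (IZ z y) : Finset ℕ) : Set ℕ) := by
  rw [Finset.disjoint_coe]; exact dj1 J

theorem two_A (h : Ph P θ) {A0 : P1} {z : ℕ} {Y : ℝ} (hAm : A0 ∈ SA1 (M1 (S0 z)))
    (hdj : ∀ i j, i < j → Disjoint (IZ z Y i) (IZ z Y j)) (δ α : ℝ) (J Rs : ℕ) (x y : ℝ) :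
    ∫ ω, ‖rv θ ω (1 / 2 + δ + x * Complex.I) (A0 * Bz α z Y J Rs ∅)‖ ^ 2 *
      ‖rv θ ω (1 / 2 + δ + y * Complex.I) (A0 * Bz α z Y J Rs ∅)‖ ^ 2 ∂P =
    q0 P θ δ A0 x y * ∏ i ∈ range J, ∫ ω, bw θ δ α z Y Rs x i ω * bw θ δ α z Y Rs y i ω ∂P := by
  have e : ∀ ω, ‖rv θ ω (1 / 2 + δ + x * Complex.I) (A0 * Bz α z Y J Rs ∅)‖ ^ 2 *
      ‖rv θ ω (1 / 2 + δ + y * Complex.I) (A0 * Bz α z Y J Rs ∅)‖ ^ 2 =
      (‖rv θ ω (1 / 2 + δ + x * Complex.I) A0‖ ^ 2 * ‖rv θ ω (1 / 2 + δ + y * Complex.I) A0‖ ^ 2) *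
        ∏ i ∈ range J, (bw θ δ α z Y Rs x i ω * bw θ δ α z Y Rs y i ω) := by
    intro ω
    rw [rv_A, rv_A, prod_mul_distrib]; ring
  simp_rw [e]
  have m1 : Measurable[mS θ (S0 z : Set ℕ)] fun ω => ‖rv θ ω (1 / 2 + δ + x * Complex.I) A0‖ ^ 2 *
      ‖rv θ ω (1 / 2 + δ + y * Complex.I) A0‖ ^ 2 := (q_meas hAm δ x).mul (q_meas hAm δ y)
  have m2 : Measurable[mS θ (((range J).biUnion (IZ z Y) : Finset ℕ) : Set ℕ)] fun ω =>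
      ∏ i ∈ range J, (bw θ δ α z Y Rs x i ω * bw θ δ α z Y Rs y i ω) := by
    refine @Finset.measurable_fun_prod _ _ _ _ _ _ (mS θ (((range J).biUnion (IZ z Y) : Finset ℕ) : Set ℕ)) _ _ fun i hi => ?_
    have hS : ∀ p ∈ IZ z Y i, p ∈ (((range J).biUnion (IZ z Y) : Finset ℕ) : Set ℕ) := fun p hp => by
      rw [Finset.mem_coe, mem_biUnion]; exact ⟨i, hi, hp⟩
    exact (bw_meas hS δ α Rs x).mul (bw_meas hS δ α Rs y)
  rw [E_mul h (dj1' J) m1 m2]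
  congr 1
  refine E_prod h J (S := fun i => (IZ z Y i : Set ℕ)) (fun i j hij => by rw [Finset.disjoint_coe]; exact hdj i j hij)
    (F := fun i ω => bw θ δ α z Y Rs x i ω * bw θ δ α z Y Rs y i ω) fun i => ?_
  exact (bw_meas (fun p hp => hp) δ α Rs x).mul (bw_meas (fun p hp => hp) δ α Rs y)

theorem one_A (h : Ph P θ) {A0 : P1} {z : ℕ} {Y : ℝ} (hAm : A0 ∈ SA1 (M1 (S0 z)))
    (hdj : ∀ i j, i < j → Disjoint (IZ z Y i) (IZ z Y j)) (δ α : ℝ) (J Rs : ℕ) (x y : ℝ) :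
    ∫ ω, ‖rv θ ω (1 / 2 + δ + x * Complex.I) (A0 * Bz α z Y J Rs ∅)‖ ^ 2 *
      ‖rv θ ω (1 / 2 + δ + y * Complex.I) A0‖ ^ 2 ∂P =
    q0 P θ δ A0 x y * ∏ i ∈ range J, ∫ ω, bw θ δ α z Y Rs x i ω ∂P := by
  have e : ∀ ω, ‖rv θ ω (1 / 2 + δ + x * Complex.I) (A0 * Bz α z Y J Rs ∅)‖ ^ 2 *
      ‖rv θ ω (1 / 2 + δ + y * Complex.I) A0‖ ^ 2 =
      (‖rv θ ω (1 / 2 + δ + x * Complex.I) A0‖ ^ 2 * ‖rv θ ω (1 / 2 + δ + y * Complex.I) A0‖ ^ 2) *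
        ∏ i ∈ range J, bw θ δ α z Y Rs x i ω := by
    intro ω
    rw [rv_A]; ring
  simp_rw [e]
  have m1 : Measurable[mS θ (S0 z : Set ℕ)] fun ω => ‖rv θ ω (1 / 2 + δ + x * Complex.I) A0‖ ^ 2 *
      ‖rv θ ω (1 / 2 + δ + y * Complex.I) A0‖ ^ 2 := (q_meas hAm δ x).mul (q_meas hAm δ y)
  have m2 : Measurable[mS θ (((range J).biUnion (IZ z Y) : Finset ℕ) : Set ℕ)] fun ω =>
      ∏ i ∈ range J, bw θ δ α z Y Rs x i ω := by
    refine @Finset.measurable_fun_prod _ _ _ _ _ _ (mS θ (((range J).biUnion (IZ z Y) : Finset ℕ) : Set ℕ)) _ _ fun i hi => ?_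
    have hS : ∀ p ∈ IZ z Y i, p ∈ (((range J).biUnion (IZ z Y) : Finset ℕ) : Set ℕ) := fun p hp => by
      rw [Finset.mem_coe, mem_biUnion]; exact ⟨i, hi, hp⟩
    exact bw_meas hS δ α Rs x
  rw [E_mul h (dj1' J) m1 m2]
  congr 1
  refine E_prod h J (S := fun i => (IZ z Y i : Set ℕ)) (fun i j hij => by rw [Finset.disjoint_coe]; exact hdj i j hij)
    (F := fun i ω => bw θ δ α z Y Rs x i ω) fun i => ?_
  exact bw_meas (fun p hp => hp) δ α Rs x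

section

variable {c Y δ α : ℝ} {z J Rs N K : ℕ}

/-- the mean of the blocks -/
theorem D1_near (h : Ph P θ) (hS : Sy c z Y J Rs N K) (hδ : 0 ≤ δ) (hα : 0 ≤ α) (hα1 : α ≤ 1) (hE : ET c z Y J Rs ≤ 1)
    (x : ℝ) : (1 - ET c z Y J Rs) * Real.exp (α ^ 2 * Vd δ z Y J) ≤ ∏ i ∈ range J, ∫ ω, bw θ δ α z Y Rs x i ω ∂P ∧
      ∏ i ∈ range J, ∫ ω, bw θ δ α z Y Rs x i ω ∂P ≤ Real.exp (ET c z Y J Rs) * Real.exp (α ^ 2 * Vd δ z Y J) := by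
  have hpr := h.pr
  have ha : |α - 1| ≤ 1 := by rw [abs_le]; constructor <;> linarith
  have e0 : 1 + (α - 1) = α := by ring
  have n45 := N45 (A0 := 1) hS hδ ha (Subalgebra.one_mem _) hE
  rw [e0, ip_one] at n45
  simp only [one_mul] at n45
  have hB : Bd1 (1 * Real.exp (Real.log Y * (180 * ((Rs:ℝ) + 1)))) (1 * Bz α z Y J Rs ∅) :=
    AB_Bd (a := α) hS Bd1.one zero_le_one le_rfl ∅
  have h1 := rv_ip h hB δ x
  simp only [one_mul] at h1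
  have h2 : ∫ ω, ‖rv θ ω (1 / 2 + δ + x * Complex.I) (Bz α z Y J Rs ∅)‖ ^ 2 ∂P =
      ∏ i ∈ range J, ∫ ω, bw θ δ α z Y Rs x i ω ∂P := by
    have h3 := one_A h (A0 := 1) (Subalgebra.one_mem _) (IZ_dj hS) δ α J Rs x x
    have h4 : q0 P θ δ 1 x x = 1 := by
      unfold q0
      simp
    rw [h4] at h3
    simp only [one_mul, map_one, norm_one, one_pow, mul_one] at h3
    exact h3
  rw [← h2, h1]
  refine ⟨n45.1, ?_⟩
  have h5 := single_le_sum (f := fun S => ip δ (Bz α z Y J Rs S) (Bz α z Y J Rs S))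
      (fun _ _ => ip_self_nonneg _ _) (empty_mem_powerset (range J))
  refine h5.trans (n45.2.trans (le_of_eq ?_))
  rw [Real.exp_add]; ring

/-- the error of a block at two points -/
noncomputable def eT (c : ℝ) (z : ℕ) (y : ℝ) (Rs i : ℕ) : ℝ :=
  (Real.exp (320 * uI (IZ z y i)) - 1) + 8 * CT c * Real.exp (-(RR Rs i : ℝ))

lemma eT_nonneg (c : ℝ) (z : ℕ) (y : ℝ) (Rs i : ℕ) : 0 ≤ eT c z y Rs i := by
  unfold eT
  have h1 : 1 ≤ Real.exp (320 * uI (IZ z y i)) := Real.one_le_exp (by have := uI_nonneg (IZ z y i); positivity)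
  have := CT_pos c
  have : 0 ≤ 8 * CT c * Real.exp (-(RR Rs i : ℝ)) := by positivity
  linarith

/-- the oscillating part -/
noncomputable def KK (δ α : ℝ) (z : ℕ) (y : ℝ) (J : ℕ) (u : ℝ) : ℝ :=
  Real.exp (2 * α ^ 2 * ∑ p ∈ (range J).biUnion (IZ z y), rr δ p ^ 2 * Real.cos (u * Real.log p))

lemma prod_E0 (hdj : ∀ i j, i < j → Disjoint (IZ z Y i) (IZ z Y j)) (δ α x y : ℝ) :
    ∏ i ∈ range J, E0 α δ x y (IZ z Y i) = KK δ α z Y J (x - y) * Real.exp (α ^ 2 * Vd δ z Y J) ^ 2 := by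
  have hpd : Set.PairwiseDisjoint ((range J : Finset ℕ) : Set ℕ) (IZ z Y) := by
    intro i _ j _ hij
    rcases lt_or_gt_of_ne hij with h | h
    · exact hdj i j h
    · exact (hdj j i h).symm
  unfold E0 KK Vd vd
  rw [← Real.exp_sum, ← Real.exp_nat_mul, ← Real.exp_add, sum_biUnion hpd]
  congr 1
  rw [mul_sum, mul_sum, mul_sum, ← sum_add_distrib]
  refine sum_congr rfl fun i _ => ?_
  push_cast
  have e : ∑ p ∈ IZ z Y i, rr δ p ^ 2 * (1 + Real.cos ((x - y) * Real.log p)) =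
      ∑ p ∈ IZ z Y i, rp δ p ^ 2 + ∑ p ∈ IZ z Y i, rr δ p ^ 2 * Real.cos ((x - y) * Real.log p) := by
    rw [← sum_add_distrib]
    exact sum_congr rfl fun p _ => by rw [rr_eq_rp]; ring
  rw [e]; ring

/-- two points -/
theorem D_near (h : Ph P θ) (hS : Sy c z Y J Rs N K) (hδ : 0 ≤ δ) (hα : 0 ≤ α) (hα1 : α ≤ 1) (x y : ℝ) :
    |∏ i ∈ range J, ∫ ω, bw θ δ α z Y Rs x i ω * bw θ δ α z Y Rs y i ω ∂P -
      KK δ α z Y J (x - y) * Real.exp (α ^ 2 * Vd δ z Y J) ^ 2| ≤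
      (Real.exp (∑ i ∈ range J, eT c z Y Rs i) - 1) * (KK δ α z Y J (x - y) * Real.exp (α ^ 2 * Vd δ z Y J) ^ 2) := by
  rw [← prod_E0 (IZ_dj hS) δ α x y]
  have hm : ∀ i ∈ range J, ‖((∫ ω, bw θ δ α z Y Rs x i ω * bw θ δ α z Y Rs y i ω ∂P : ℝ) : ℂ) -
      ((E0 α δ x y (IZ z Y i) : ℝ) : ℂ)‖ ≤ eT c z Y Rs i * E0 α δ x y (IZ z Y i) := by
    intro i hi
    rw [mem_range] at hi
    rw [← Complex.ofReal_sub, Complex.norm_real, Real.norm_eq_abs]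
    exact blk_two h hδ (Bg_IZ hS.z1 Y i) (hS.rg.v i hi) (hS.rg.u hi) (R := RR Rs i)
      (by have := hS.R1; unfold RR; omega) hα hα1 x y
  have h2 := prod_close (range J) (a := fun i => ((∫ ω, bw θ δ α z Y Rs x i ω * bw θ δ α z Y Rs y i ω ∂P : ℝ) : ℂ))
    (b := fun i => E0 α δ x y (IZ z Y i)) (e := fun i => eT c z Y Rs i)
    (fun i _ => by have := E0_ge (α := α) (δ := δ) (x := x) (y := y) (IZ z Y i); linarith) (fun i _ => eT_nonneg _ _ _ _ _) hm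
  refine re_close ?_ h2
  push_cast
  rfl

end

end Pool.Agent.T6.H99.CH
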