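import Pool.Agent.T6.H99.CH.T3
import Pool.Agent.Y753.NL.Small2

set_option autoImplicit false
set_option linter.unusedSectionVars false

/-! The polynomial over the small primes. -/

namespace Pool.Agent.T6.H99.CH

open Finset MeasureTheory ProbabilityTheory MonoidAlgebra
open Pool.Agent.Y755
open Pool.Agent.W184.NZ
open Pool.Agent.Y753.NL (Az Az_mem Az_Bd Az_ip_ge loc_unif)
open Pool.Agent.H306R2 (lc)

variable {Ω : Type*} [mΩ : MeasurableSpace Ω] {P : Measure Ω} {θ : ℕ → Ω → ℝ}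

/-- the approximation property -/
def PP (α ε : ℝ) (z : ℕ) (A0 : P1) : Prop := ∀ φ : P1 →ₐ[ℝ] ℂ, (∀ p ∈ S0 z, ‖φ (single p 1)‖ ≤ (2:ℝ) ^ (-(1 / 2 : ℝ))) →
  |(∏ p ∈ S0 z, ‖1 - φ (single p 1)‖ ^ α) * ‖φ A0‖ - 1| ≤ ε

lemma map_Lp (φ : P1 →ₐ[ℝ] ℂ) (α : ℝ) (K p : ℕ) :
    φ (Pool.Agent.Y753.NL.Lp α K p) = ∑ j ∈ range (K + 1), (lc α j : ℂ) * (φ (single p 1)) ^ j := by
  unfold Pool.Agent.Y753.NL.Lp
  rw [map_sum]
  refine sum_congr rfl fun j _ => ?_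
  have e : (single (p ^ j) (lc α j) : P1) = lc α j • (single p (1:ℝ)) ^ j := by
    rw [MonoidAlgebra.single_pow, one_pow, MonoidAlgebra.smul_single, smul_eq_mul, mul_one]
  rw [e, map_smul, map_pow, Complex.real_smul]

theorem PP_ex {α ε : ℝ} (hα : 0 < α) (z : ℕ) (hε : 0 < ε) : ∃ (A0 : P1) (m : ℝ), Bd1 m A0 ∧ 0 ≤ m ∧
    A0 ∈ SA1 (M1 (S0 z)) ∧ (∀ δ, 1 ≤ ip δ A0 A0) ∧ PP α ε z A0 := by
  obtain ⟨e, he, hp⟩ := Pool.Agent.Y753.NL.prod_close (S0 z) hε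
  have hr0 : (0:ℝ) < (2:ℝ) ^ (-(1 / 2 : ℝ)) := by positivity
  have hr1 : (2:ℝ) ^ (-(1 / 2 : ℝ)) < 1 := Real.rpow_lt_one_of_one_lt_of_neg (by norm_num) (by norm_num)
  obtain ⟨K0, hK0⟩ := loc_unif hα hr0 hr1 he
  obtain ⟨m, hm⟩ := Az_Bd α K0 z
  refine ⟨Az α K0 z, max m 0, hm.mono (le_max_left _ _), le_max_right _ _, Az_mem α K0 z,
    fun δ => Az_ip_ge hα K0 z, fun φ hφ => ?_⟩
  have h1 := hp (fun p => ‖1 - φ (single p 1)‖ ^ α * ‖∑ j ∈ range (K0 + 1), (lc α j : ℂ) * (φ (single p 1)) ^ j‖)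
    (fun p hpp => hK0 K0 le_rfl _ (hφ p hpp))
  refine le_trans (le_of_eq ?_) h1
  congr 2
  rw [prod_mul_distrib]
  congr 1
  unfold Az
  rw [map_prod, norm_prod]
  exact prod_congr rfl fun p _ => by rw [map_Lp]

lemma PP_use {α ε : ℝ} {z : ℕ} {A0 : P1} (h : PP α ε z A0) (hε : 0 ≤ ε) (hε1 : ε ≤ 1) {φ : P1 →ₐ[ℝ] ℂ}
    (hφ : ∀ p ∈ S0 z, ‖φ (single p 1)‖ ≤ (2:ℝ) ^ (-(1 / 2 : ℝ))) :
    |‖φ A0‖ ^ 2 - ∏ p ∈ S0 z, ‖1 - φ (single p 1)‖ ^ (-(2 * α))| ≤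
      3 * ε * ∏ p ∈ S0 z, ‖1 - φ (single p 1)‖ ^ (-(2 * α)) := by
  have hr1 : (2:ℝ) ^ (-(1 / 2 : ℝ)) < 1 := Real.rpow_lt_one_of_one_lt_of_neg (by norm_num) (by norm_num)
  have hpos : ∀ p ∈ S0 z, 0 < ‖1 - φ (single p 1)‖ := by
    intro p hp
    rw [norm_pos_iff]
    intro h0
    have h1 : φ (single p 1) = 1 := (sub_eq_zero.mp h0).symm
    have h2 := hφ p hp
    rw [h1, norm_one] at h2
    linarith
  set L := ∏ p ∈ S0 z, ‖1 - φ (single p 1)‖ ^ (-(2 * α)) with hL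
  set u := (∏ p ∈ S0 z, ‖1 - φ (single p 1)‖ ^ α) with hu
  have hL0 : 0 < L := prod_pos fun p hp => Real.rpow_pos_of_pos (hpos p hp) _
  have e1 : u ^ 2 * L = 1 := by
    rw [hu, hL, ← prod_pow, ← prod_mul_distrib]
    refine prod_eq_one fun p hp => ?_
    rw [← Real.rpow_natCast, ← Real.rpow_mul (norm_nonneg _), ← Real.rpow_add (hpos p hp)]
    have : α * ((2:ℕ):ℝ) + -(2 * α) = 0 := by push_cast; ring
    rw [this, Real.rpow_zero]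
  have h1 := h φ hφ
  rw [← hu] at h1
  have e2 : ‖φ A0‖ ^ 2 = (u * ‖φ A0‖) ^ 2 * L := by
    calc ‖φ A0‖ ^ 2 = ‖φ A0‖ ^ 2 * (u ^ 2 * L) := by rw [e1, mul_one]
      _ = _ := by ring
  rw [e2]
  obtain ⟨h2, h3⟩ := abs_le.mp h1
  have e3 : (u * ‖φ A0‖) ^ 2 * L - L = ((u * ‖φ A0‖) ^ 2 - 1) * L := by ring
  rw [e3, abs_mul, abs_of_pos hL0]
  refine mul_le_mul_of_nonneg_right ?_ hL0.le
  rw [abs_le]
  constructor <;> nlinarith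

lemma rv_single1 {p : ℕ} (hp : p.Prime) (δ x : ℝ) (ω : Ω) :
    rv θ ω (1 / 2 + δ + x * Complex.I) (single p 1) = pv δ x p * Xp θ p ω := by
  rw [rv_single, chi_prime hp]
  unfold pv
  rw [Complex.ofReal_one, one_mul, mul_comm]

lemma es_single1 {p : ℕ} (δ x : ℝ) : es (1 / 2 + δ + x * Complex.I) (single p 1) = pv δ x p := by
  rw [es_single]
  unfold pv
  rw [Complex.ofReal_one, one_mul]

/-- the random polynomial -/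
lemma PP_rv {α ε : ℝ} {z : ℕ} {A0 : P1} (h : PP α ε z A0) (hε : 0 ≤ ε) (hε1 : ε ≤ 1) {δ : ℝ} (hδ : 0 ≤ δ) (x : ℝ) (ω : Ω) :
    |‖rv θ ω (1 / 2 + δ + x * Complex.I) A0‖ ^ 2 - ∏ p ∈ S0 z, Lf α (pv δ x p) (Xp θ p ω)| ≤
      3 * ε * ∏ p ∈ S0 z, Lf α (pv δ x p) (Xp θ p ω) := by
  have h1 := PP_use h hε hε1 (φ := rv θ ω (1 / 2 + δ + x * Complex.I)) (fun p hp => by
    rw [rv_single1 (mem_S0.mp hp).2, norm_mul, Xp_norm, mul_one, pv_norm δ x (mem_S0.mp hp).2]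
    exact rr_le_half hδ (mem_S0.mp hp).2)
  have e : ∏ p ∈ S0 z, ‖1 - rv θ ω (1 / 2 + δ + x * Complex.I) (single p 1)‖ ^ (-(2 * α)) =
      ∏ p ∈ S0 z, Lf α (pv δ x p) (Xp θ p ω) := by
    refine prod_congr rfl fun p hp => ?_
    rw [rv_single1 (mem_S0.mp hp).2]
    rfl
  rwa [e] at h1

/-- the polynomial on the line -/
lemma PP_es {α ε : ℝ} {z : ℕ} {A0 : P1} (h : PP α ε z A0) (hε : 0 ≤ ε) (hε1 : ε ≤ 1) {δ : ℝ} (hδ : 0 ≤ δ) (t : ℝ) :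
    |‖es (1 / 2 + δ + t * Complex.I) A0‖ ^ 2 - ∏ p ∈ S0 z, Lf α (pv δ t p) 1| ≤
      3 * ε * ∏ p ∈ S0 z, Lf α (pv δ t p) 1 := by
  have h1 := PP_use h hε hε1 (φ := es (1 / 2 + δ + t * Complex.I)) (fun p hp => by
    rw [es_single1, pv_norm δ t (mem_S0.mp hp).2]
    exact rr_le_half hδ (mem_S0.mp hp).2)
  have e : ∏ p ∈ S0 z, ‖1 - es (1 / 2 + δ + t * Complex.I) (single p 1)‖ ^ (-(2 * α)) =
      ∏ p ∈ S0 z, Lf α (pv δ t p) 1 := by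
    refine prod_congr rfl fun p hp => ?_
    rw [es_single1]
    unfold Lf
    rw [mul_one]
  rwa [e] at h1

/-- the condition of the library -/
lemma PP_iPA {α ε ε' : ℝ} {z : ℕ} {A0 : P1} (h : PP α ε z A0) (hε : 0 ≤ ε) (hε1 : ε ≤ 1) (hε' : 3 * ε ≤ ε') {s : ℂ}
    (hs : 1 / 2 ≤ s.re) : 1 - ε' ≤ ‖es s (Pz z)‖ ^ (2 * α) * ‖es s A0‖ ^ 2 ∧
      ‖es s (Pz z)‖ ^ (2 * α) * ‖es s A0‖ ^ 2 ≤ 1 + ε' := by
  have e0 : s = 1 / 2 + ((s.re - 1 / 2 : ℝ) : ℂ) + ((s.im : ℝ) : ℂ) * Complex.I := by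
    apply Complex.ext <;> simp
  have h1 := PP_es h hε hε1 (δ := s.re - 1 / 2) (by linarith) s.im
  rw [← e0] at h1
  set L := ∏ p ∈ S0 z, Lf α (pv (s.re - 1 / 2) s.im p) 1 with hL
  have hPz := es_Pz_pos z hs
  have e1 : ‖es s (Pz z)‖ ^ (2 * α) * L = 1 := by
    rw [es_Pz, norm_prod, ← Real.finsetProd_rpow _ _ (fun i _ => norm_nonneg _)]
    have hset : z.primesBelow = S0 z := rfl
    rw [hset, hL, ← prod_mul_distrib]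
    refine prod_eq_one fun p hp => ?_
    have hpv : pv (s.re - 1 / 2) s.im p = (p:ℂ) ^ (-s) := by
      unfold pv; rw [← e0]
    unfold Lf
    rw [hpv, mul_one]
    have hp' := (mem_S0.mp hp).2
    have hpos : 0 < ‖1 - (p:ℂ) ^ (-s)‖ := by
      rw [norm_pos_iff]
      intro h0
      have h2 : (p:ℂ) ^ (-s) = 1 := (sub_eq_zero.mp h0).symm
      have h3 := (norm_p_le hp'.two_le hs).trans_lt (half_lt_one hp'.two_le)
      rw [h2, norm_one] at h3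
      exact lt_irrefl _ h3
    rw [← Real.rpow_add hpos]
    have : 2 * α + -(2 * α) = 0 := by ring
    rw [this, Real.rpow_zero]
  have hP0 : 0 < ‖es s (Pz z)‖ ^ (2 * α) := Real.rpow_pos_of_pos hPz _
  obtain ⟨h2, h3⟩ := abs_le.mp h1
  have h4 := mul_le_mul_of_nonneg_left h2 hP0.le
  have h5 := mul_le_mul_of_nonneg_left h3 hP0.le
  set Q := ‖es s (Pz z)‖ ^ (2 * α)
  have e2 : Q * -(3 * ε * L) = -(3 * ε) * (Q * L) := by ring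
  have e3 : Q * (3 * ε * L) = (3 * ε) * (Q * L) := by ring
  rw [e2, e1] at h4
  rw [e3, e1] at h5
  rw [mul_sub, e1] at h4 h5
  constructor <;> linarith

lemma S0_eq (z : ℕ) : S0 z = Bz' z := by
  ext p; rw [mem_S0, mem_Bz']

lemma prod_Lf_GF (h : Ph P θ) {α : ℝ} (hα : 0 ≤ α) (hα1 : α ≤ 1) {δ : ℝ} (hδ : 0 ≤ δ) (z : ℕ) (x : ℝ) (ω : Ω) :
    ∏ p ∈ S0 z, Lf α (pv δ x p) (Xp θ p ω) = (∏ p ∈ S0 z, cc P θ α δ p) * GF P θ α δ (S0 z) ω x := by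
  unfold GF
  rw [← prod_mul_distrib]
  refine prod_congr rfl fun p hp => ?_
  have := (cc_range h hα hα1 hδ (mem_S0.mp hp).2).1
  field_simp

lemma cc_prod_pos (h : Ph P θ) {α : ℝ} (hα : 0 ≤ α) (hα1 : α ≤ 1) {δ : ℝ} (hδ : 0 ≤ δ) (z : ℕ) :
    0 < ∏ p ∈ S0 z, cc P θ α δ p := prod_pos fun p hp => by
  have := (cc_range h hα hα1 hδ (mem_S0.mp hp).2).1
  linarith

/-- the norm of the polynomial -/
theorem B_near (h : Ph P θ) {α ε : ℝ} {z : ℕ} {A0 : P1} (hP : PP α ε z A0) (hε : 0 ≤ ε) (hε1 : ε ≤ 1) {m : ℝ}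
    (hA : Bd1 m A0) (hα : 0 ≤ α) (hα1 : α ≤ 1) {δ : ℝ} (hδ : 0 ≤ δ) :
    |ip δ A0 A0 - ∏ p ∈ S0 z, cc P θ α δ p| ≤ 3 * ε * ∏ p ∈ S0 z, cc P θ α δ p := by
  have hpr := h.pr
  have hpm : ∀ p ∈ S0 z, p.Prime := fun p hp => (mem_S0.mp hp).2
  have h1 := rv_ip h hA δ 0
  have hg := GF_mean h hα hα1 hδ hpm 0
  have hgi := GF_integrable h hα hα1 hδ hpm 0
  have hc := cc_prod_pos h hα hα1 hδ z
  set C := ∏ p ∈ S0 z, cc P θ α δ p with hC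
  have hr : Integrable (fun ω => ‖rv θ ω (1 / 2 + δ + (0:ℝ) * Complex.I) A0‖ ^ 2) P := by
    refine Integrable.of_bound ((continuous_norm.pow 2).measurable.comp (rv_meas' h A0 _)).aestronglyMeasurable
      ((l1' A0) ^ 2) (ae_of_all _ fun ω => ?_)
    show ‖‖rv θ ω (1 / 2 + δ + (0:ℝ) * Complex.I) A0‖ ^ 2‖ ≤ _
    rw [Real.norm_of_nonneg (by positivity)]
    exact pow_le_pow_left₀ (norm_nonneg _) (rv_norm hA (by simp; linarith) ω) 2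
  have e1 : ip δ A0 A0 - C = ∫ ω, (‖rv θ ω (1 / 2 + δ + (0:ℝ) * Complex.I) A0‖ ^ 2 - C * GF P θ α δ (S0 z) ω 0) ∂P := by
    rw [integral_sub hr (hgi.const_mul C), h1, integral_const_mul, hg, mul_one]
  rw [e1, ← Real.norm_eq_abs]
  refine (norm_integral_le_of_norm_le ((hgi.const_mul C).const_mul (3 * ε)) (ae_of_all _ fun ω => ?_)).trans ?_
  · have h2 := PP_rv (θ := θ) hP hε hε1 hδ 0 ω
    rw [prod_Lf_GF h hα hα1 hδ] at h2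
    rw [Real.norm_eq_abs]
    exact h2
  · rw [integral_const_mul, integral_const_mul, hg, mul_one]

/-- the covariance of the polynomial -/
theorem q0_up (h : Ph P θ) {α ε : ℝ} {z : ℕ} {A0 : P1} (hP : PP α ε z A0) (hε : 0 ≤ ε) (hε1 : ε ≤ 1) {m : ℝ}
    (_hA : Bd1 m A0) (hα : 0 ≤ α) (hα1 : α ≤ 1) {δ : ℝ} (hδ : 0 ≤ δ) (x y : ℝ) :
    q0 P θ δ A0 x y ≤ (1 + 3 * ε) ^ 2 * ((∏ p ∈ S0 z, cc P θ α δ p) ^ 2 * ∏ p ∈ S0 z, kk P θ α δ x y p) := by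
  have hpr := h.pr
  have hpm : ∀ p ∈ S0 z, p.Prime := fun p hp => (mem_S0.mp hp).2
  have hg := GF_cov h hα hα1 hδ hpm x y
  have hc := cc_prod_pos h hα hα1 hδ z
  set C := ∏ p ∈ S0 z, cc P θ α δ p with hC
  have hi : Integrable (fun ω => GF P θ α δ (S0 z) ω x * GF P θ α δ (S0 z) ω y) P := by
    refine Integrable.of_bound (((GF_meas hδ x hpm (S := Set.univ) fun _ _ => Set.mem_univ _).mul
      (GF_meas hδ y hpm (S := Set.univ) fun _ _ => Set.mem_univ _)).mono (mS_le h.ms _) le_rfl).aestronglyMeasurable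
      (48 ^ (S0 z).card * 48 ^ (S0 z).card) (ae_of_all _ fun ω => ?_)
    obtain ⟨h1, h2⟩ := GF_range h hα hα1 hδ hpm ω x
    obtain ⟨h3, h4⟩ := GF_range h hα hα1 hδ hpm ω y
    rw [Real.norm_eq_abs, abs_of_pos (mul_pos h1 h3)]
    exact mul_le_mul h2 h4 h3.le (by positivity)
  unfold q0
  rw [← hg, ← integral_const_mul, ← integral_const_mul]
  refine integral_mono_of_nonneg (ae_of_all _ fun ω => by positivity) ((hi.const_mul _).const_mul _)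
    (ae_of_all _ fun ω => ?_)
  show ‖rv θ ω (1 / 2 + δ + x * Complex.I) A0‖ ^ 2 * ‖rv θ ω (1 / 2 + δ + y * Complex.I) A0‖ ^ 2 ≤
    (1 + 3 * ε) ^ 2 * (C ^ 2 * (GF P θ α δ (S0 z) ω x * GF P θ α δ (S0 z) ω y))
  have h1 := (abs_le.mp (PP_rv (θ := θ) hP hε hε1 hδ x ω)).2
  have h2 := (abs_le.mp (PP_rv (θ := θ) hP hε hε1 hδ y ω)).2
  rw [prod_Lf_GF h hα hα1 hδ, ← hC] at h1 h2
  obtain ⟨g1, -⟩ := GF_range h hα hα1 hδ hpm ω x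
  obtain ⟨g2, -⟩ := GF_range h hα hα1 hδ hpm ω y
  have h3 : ‖rv θ ω (1 / 2 + δ + x * Complex.I) A0‖ ^ 2 ≤ (1 + 3 * ε) * (C * GF P θ α δ (S0 z) ω x) := by linarith
  have h4 : ‖rv θ ω (1 / 2 + δ + y * Complex.I) A0‖ ^ 2 ≤ (1 + 3 * ε) * (C * GF P θ α δ (S0 z) ω y) := by linarith
  calc _ ≤ ((1 + 3 * ε) * (C * GF P θ α δ (S0 z) ω x)) * ((1 + 3 * ε) * (C * GF P θ α δ (S0 z) ω y)) :=
        mul_le_mul h3 h4 (by positivity) (by positivity)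
    _ = _ := by ring

/-- the normalised covariance -/
theorem qB_up (h : Ph P θ) {α ε : ℝ} {z : ℕ} {A0 : P1} (hP : PP α ε z A0) (hε : 0 ≤ ε) (hε1 : ε ≤ 1 / 30) {m : ℝ}
    (hA : Bd1 m A0) (hα : 0 ≤ α) (hα1 : α ≤ 1) {δ : ℝ} (hδ : 0 ≤ δ) (x y : ℝ) :
    q0 P θ δ A0 x y / ip δ A0 A0 ^ 2 ≤ 4 * ∏ p ∈ S0 z, kk P θ α δ x y p := by
  have hpm : ∀ p ∈ S0 z, p.Prime := fun p hp => (mem_S0.mp hp).2
  have h1 := q0_up h hP hε (by linarith) hA hα hα1 hδ x y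
  have h2 := (abs_le.mp (B_near h hP hε (by linarith) hA hα hα1 hδ)).1
  have hc := cc_prod_pos h hα hα1 hδ z
  set C := ∏ p ∈ S0 z, cc P θ α δ p with hC
  have hk : 0 ≤ ∏ p ∈ S0 z, kk P θ α δ x y p := prod_nonneg fun p hp => (kk_range h hα hα1 hδ x y (hpm p hp)).1.le
  set k := ∏ p ∈ S0 z, kk P θ α δ x y p
  have h3 : 9 / 10 * C ≤ ip δ A0 A0 := by nlinarith
  have h4 : 0 < ip δ A0 A0 := by nlinarith
  rw [div_le_iff₀ (by positivity)]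
  have h5 : (9 / 10 * C) ^ 2 ≤ ip δ A0 A0 ^ 2 := pow_le_pow_left₀ (by positivity) h3 2
  have h6 : (1 + 3 * ε) ^ 2 ≤ 2 := by nlinarith
  have h7 : (1 + 3 * ε) ^ 2 * (C ^ 2 * k) ≤ 2 * (C ^ 2 * k) := mul_le_mul_of_nonneg_right h6 (by positivity)
  have h8 : 4 * k * (9 / 10 * C) ^ 2 ≤ 4 * k * ip δ A0 A0 ^ 2 := mul_le_mul_of_nonneg_left h5 (by positivity)
  have h9 : 0 ≤ C ^ 2 * k := by positivity
  nlinarith

end Pool.Agent.T6.H99.CH
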