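import Pool.Agent.T6.H99.CH.T4
import Pool.Agent.Y755.Par

set_option autoImplicit false
set_option linter.unusedSectionVars false

/-! The covariance kernel of the polynomials. -/

namespace Pool.Agent.T6.H99.CH

open Finset MeasureTheory ProbabilityTheory MonoidAlgebra
open Pool.Agent.Y755
open Pool.Agent.W184.NZ

variable {Ω : Type*} [mΩ : MeasurableSpace Ω] {P : Measure Ω} {θ : ℕ → Ω → ℝ}

lemma eT_small {c ε : ℝ} (_hc : 0 ≤ c) (hε : 0 < ε) : ∃ z0 R0 : ℕ, ∀ z : ℕ, z0 ≤ z → ∀ Rs : ℕ, R0 ≤ Rs →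
    ∀ (y : ℝ) (J : ℕ), Rg c J (IZ z y) (bb y) → ∑ i ∈ range J, eT c z y Rs i ≤ ε := by
  have hCE := CT_pos c
  set B := 320 * Real.exp (320 * c) with hB
  have hB0 : 0 < B := by positivity
  obtain ⟨z0, hz0⟩ := uI_tail (ε := ε / 2 / B) (by positivity)
  obtain ⟨R0, hR0⟩ := exists_nat_gt (16 * CT c / (ε / 2))
  refine ⟨z0, R0, fun z hz Rs hRs y J hJ => ?_⟩
  have h1 : ∀ i ∈ range J, eT c z y Rs i ≤ B * uI (IZ z y i) + 8 * CT c * Real.exp (-(RR Rs i : ℝ)) := by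
    intro i hi
    rw [mem_range] at hi
    unfold eT
    have hu0 := uI_nonneg (IZ z y i)
    have hu1 := hJ.u hi
    have h2 := exp_sub_one_le (x := 320 * uI (IZ z y i)) (M := 320 * c) (by positivity) (by linarith)
    rw [hB]
    linarith
  have h2 : ∑ i ∈ range J, uI (IZ z y i) ≤ ε / 2 / B := by
    have h3 : ∑ i ∈ range J, uI (IZ z y i) = ∑ p ∈ (range J).biUnion (IZ z y), (p:ℝ) ^ (-(3 / 2 : ℝ)) := by
      rw [sum_biUnion]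
      · rfl
      · intro i _ j _ hij
        rcases lt_or_gt_of_ne hij with h | h
        · exact hJ.dj i j h
        · exact (hJ.dj j i h).symm
    rw [h3]
    refine hz0 z hz _ fun p hp => ?_
    rw [mem_biUnion] at hp
    obtain ⟨i, _, hi⟩ := hp
    exact (mem_IZ.mp hi).2
  have h3 := sum_exp_two J Rs
  have h4 : 16 * CT c * Real.exp (-(2 * (Rs:ℝ))) ≤ ε / 2 := by
    have h5 : (R0:ℝ) ≤ Rs := by exact_mod_cast hRs
    have h6 : 16 * CT c / (ε / 2) ≤ Real.exp (2 * (Rs:ℝ)) := by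
      have := Real.add_one_le_exp (2 * (Rs:ℝ))
      have : (0:ℝ) ≤ Rs := Nat.cast_nonneg _
      linarith
    rw [div_le_iff₀ (by positivity)] at h6
    rw [Real.exp_neg, ← div_eq_mul_inv, div_le_iff₀ (Real.exp_pos _)]
    linarith
  refine (sum_le_sum h1).trans ?_
  rw [sum_add_distrib, ← mul_sum, ← mul_sum]
  have h5 : B * (ε / 2 / B) = ε / 2 := by field_simp
  have h6 := mul_le_mul_of_nonneg_left h2 hB0.le
  have h7 := mul_le_mul_of_nonneg_left h3 (by positivity : 0 ≤ 8 * CT c)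
  linarith

/-- the union of the blocks -/
lemma blocks_eq {z : ℕ} (hz : 1000 ≤ z) {y : ℝ} (hy : (z:ℝ) ≤ y) {J : ℕ} (hJ : bb y J < 144) :
    (range J).biUnion (IZ z y) = PI2 ((z - 1 : ℕ) : ℝ) ((⌊y⌋₊ : ℕ) : ℝ) := by
  have hz1 : (1000:ℝ) ≤ z := by exact_mod_cast hz
  ext p
  rw [mem_blocks (by omega) (by linarith) hJ, PI2_nat, Nat.le_floor_iff (by linarith)]
  constructor
  · rintro ⟨h1, h2, h3⟩
    exact ⟨by omega, h3, h1⟩
  · rintro ⟨h1, h2, h3⟩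
    exact ⟨h3, by omega, h2⟩

section

variable {c Y δ α : ℝ} {z J Rs N K : ℕ}

lemma z_floor (hS : Sy c z Y J Rs N K) : z ≤ ⌊Y⌋₊ := Nat.le_floor hS.zy

lemma KK_pos (u : ℝ) : 0 < KK δ α z Y J u := Real.exp_pos _

/-- decorrelation -/
lemma KK_far (hS : Sy c z Y J Rs N K) (hδ : 0 ≤ δ) (hδ1 : δ ≤ 1 / 2) (hα : 0 ≤ α) (hα1 : α ≤ 1) {u κ U : ℝ} (hκ : 0 < κ)
    (hu : κ ≤ |u|) (hU : |u| ≤ U) :
    |KK δ α z Y J u - 1| ≤ Real.exp (2 * ((Co * (1 + U) + 2 / κ) / Real.log ((z - 1 : ℕ) : ℝ))) - 1 := by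
  have hu0 : u ≠ 0 := by
    intro h
    rw [h, abs_zero] at hu
    linarith
  have hz1 := hS.z1
  have hzf := z_floor hS
  have h4 : (4:ℝ) ≤ ((z - 1 : ℕ) : ℝ) := by exact_mod_cast (by omega : 4 ≤ z - 1)
  have hzz : ((z - 1 : ℕ) : ℝ) ≤ ((⌊Y⌋₊ : ℕ) : ℝ) := by exact_mod_cast (by omega : z - 1 ≤ ⌊Y⌋₊)
  have h1 := Co_spec δ u _ _ hδ hδ1 hu0 h4 hzz
  unfold KK
  rw [blocks_eq hS.z1 hS.zy hS.J1]
  refine (exp_abs_sub_one _).trans (sub_le_sub_right (Real.exp_le_exp.mpr ?_) 1)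
  have hα2 : 2 * α ^ 2 ≤ 2 := by nlinarith
  rw [abs_mul, abs_of_nonneg (by positivity : 0 ≤ 2 * α ^ 2)]
  have hl : 0 < Real.log ((z - 1 : ℕ) : ℝ) := Real.log_pos (by linarith)
  have h2 : (Co * (1 + |u|) + 2 / |u|) / Real.log ((z - 1 : ℕ) : ℝ) ≤ (Co * (1 + U) + 2 / κ) / Real.log ((z - 1 : ℕ) : ℝ) := by
    refine div_le_div_of_nonneg_right ?_ hl.le
    have h1 := mul_le_mul_of_nonneg_left (by linarith : 1 + |u| ≤ 1 + U) Co_pos.le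
    have h2 : 2 / |u| ≤ 2 / κ := div_le_div_of_nonneg_left (by norm_num) hκ hu
    linarith
  exact mul_le_mul hα2 (h1.trans h2) (abs_nonneg _) (by norm_num)

/-- the whole kernel near the diagonal -/
lemma KK_sing (h : Ph P θ) (hS : Sy c z Y J Rs N K) (hδ : 0 ≤ δ) (hδ1 : δ ≤ 1 / 2) (hα : 0 ≤ α) (hα1 : α ≤ 1) {x y U : ℝ}
    (hxy : x ≠ y) (hU : |x - y| ≤ U) :
    (∏ p ∈ S0 z, kk P θ α δ x y p) * KK δ α z Y J (x - y) ≤
      C3 * Real.exp (Ce * (1 + U)) * (1 + |x - y| ^ (-(2 * α ^ 2))) := by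
  have hu : x - y ≠ 0 := sub_ne_zero.mpr hxy
  have hz1 := hS.z1
  have hzf := z_floor hS
  have hC3 : 0 ≤ C3 := by have := C3_ge; linarith
  have h1 := prod_up h hα hα1 hδ x y (z := z) hz1
  rw [← S0_eq] at h1
  have h9 : ((999 : ℕ) : ℝ) ≤ ((z - 1 : ℕ) : ℝ) := by exact_mod_cast (by omega : 999 ≤ z - 1)
  have hzz : ((z - 1 : ℕ) : ℝ) ≤ ((⌊Y⌋₊ : ℕ) : ℝ) := by exact_mod_cast (by omega : z - 1 ≤ ⌊Y⌋₊)
  have hQ : Q3 (z - 1) = PI2 ((999 : ℕ) : ℝ) ((z - 1 : ℕ) : ℝ) := Q3_eq _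
  rw [hQ] at h1
  have h2 := mul_le_mul_of_nonneg_right h1 (KK_pos (δ := δ) (α := α) (z := z) (Y := Y) (J := J) (x - y)).le
  refine h2.trans ?_
  unfold KK
  rw [blocks_eq hS.z1 hS.zy hS.J1, mul_assoc, ← Real.exp_add, ← mul_add, ← PI2_split h9 hzz, mul_assoc C3]
  refine mul_le_mul_of_nonneg_left ?_ hC3
  refine (Ce_spec α δ (x - y) _ _ hα hα1 hδ hδ1 hu (by norm_num) (h9.trans hzz)).trans ?_
  refine mul_le_mul_of_nonneg_right (Real.exp_le_exp.mpr ?_) (by positivity)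
  exact mul_le_mul_of_nonneg_left (by linarith) Ce_pos.le

lemma kk_sing0 (h : Ph P θ) (hz : 1000 ≤ z) (hδ : 0 ≤ δ) (hδ1 : δ ≤ 1 / 2) (hα : 0 ≤ α) (hα1 : α ≤ 1) {x y U : ℝ}
    (hxy : x ≠ y) (hU : |x - y| ≤ U) :
    ∏ p ∈ S0 z, kk P θ α δ x y p ≤ C3 * Real.exp (Ce * (1 + U)) * (1 + |x - y| ^ (-(2 * α ^ 2))) := by
  rw [S0_eq]
  exact prod_sing h hα hα1 hδ hδ1 hxy hz hU

/-- arithmetic -/
lemma cov_arith {D D1 D2 k ε2 ε3 e3 : ℝ} (_hk : 0 ≤ k) (hD : |D - k| ≤ e3 * k) (h1 : |D1 - 1| ≤ 2 * ε2) (h2 : |D2 - 1| ≤ 2 * ε2)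
    (_h3 : ε3 = ε3) : |D - D1 - D2 + 1| ≤ |k - 1| + e3 * k + 4 * ε2 := by
  have e : D - D1 - D2 + 1 = (D - k) + (k - 1) - (D1 - 1) - (D2 - 1) := by ring
  rw [e]
  refine (abs_sub _ _).trans ?_
  have a1 := abs_sub (D - k + (k - 1)) (D1 - 1)
  have a2 := abs_add_le (D - k) (k - 1)
  linarith

/-- the normalised means of the blocks -/
noncomputable def dd2 (P : Measure Ω) (θ : ℕ → Ω → ℝ) (δ α : ℝ) (z : ℕ) (Y : ℝ) (J Rs : ℕ) (x y : ℝ) : ℝ :=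
  (∏ i ∈ range J, ∫ ω, bw θ δ α z Y Rs x i ω * bw θ δ α z Y Rs y i ω ∂P) / Real.exp (α ^ 2 * Vd δ z Y J) ^ 2

noncomputable def dd1 (P : Measure Ω) (θ : ℕ → Ω → ℝ) (δ α : ℝ) (z : ℕ) (Y : ℝ) (J Rs : ℕ) (x : ℝ) : ℝ :=
  (∏ i ∈ range J, ∫ ω, bw θ δ α z Y Rs x i ω ∂P) / Real.exp (α ^ 2 * Vd δ z Y J)

lemma dd1_near (h : Ph P θ) (hS : Sy c z Y J Rs N K) (hδ : 0 ≤ δ) (hα : 0 ≤ α) (hα1 : α ≤ 1) {ε2 : ℝ}
    (hE : ET c z Y J Rs ≤ ε2) (hε2 : ε2 ≤ 1 / 2) (x : ℝ) : |dd1 P θ δ α z Y J Rs x - 1| ≤ 2 * ε2 := by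
  obtain ⟨h1, h2⟩ := D1_near h hS hδ hα hα1 (by linarith) x
  have hE0 := ET_nonneg c z Y J Rs
  have hp := Real.exp_pos (α ^ 2 * Vd δ z Y J)
  unfold dd1
  set E := Real.exp (α ^ 2 * Vd δ z Y J)
  rw [← le_div_iff₀ hp] at h1
  rw [← div_le_iff₀ hp] at h2
  have h3 : Real.exp (ET c z Y J Rs) ≤ 1 + 2 * ET c z Y J Rs := by
    have h4 := Real.add_one_le_exp (-(ET c z Y J Rs))
    have h5 : Real.exp (ET c z Y J Rs) * Real.exp (-(ET c z Y J Rs)) = 1 := by rw [← Real.exp_add]; simp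
    have h6 := Real.exp_pos (ET c z Y J Rs)
    nlinarith
  rw [abs_le]
  constructor <;> linarith

lemma dd2_near (h : Ph P θ) (hS : Sy c z Y J Rs N K) (hδ : 0 ≤ δ) (hα : 0 ≤ α) (hα1 : α ≤ 1) {ε3 : ℝ}
    (hE : ∑ i ∈ range J, eT c z Y Rs i ≤ ε3) (x y : ℝ) :
    |dd2 P θ δ α z Y J Rs x y - KK δ α z Y J (x - y)| ≤ (Real.exp ε3 - 1) * KK δ α z Y J (x - y) := by
  have h1 := D_near h hS hδ hα hα1 x y
  have hp := Real.exp_pos (α ^ 2 * Vd δ z Y J)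
  have hk := KK_pos (δ := δ) (α := α) (z := z) (Y := Y) (J := J) (x - y)
  unfold dd2
  set E := Real.exp (α ^ 2 * Vd δ z Y J)
  set k := KK δ α z Y J (x - y)
  have hE2 : 0 < E ^ 2 := by positivity
  have e : (∏ i ∈ range J, ∫ ω, bw θ δ α z Y Rs x i ω * bw θ δ α z Y Rs y i ω ∂P) / E ^ 2 - k =
      ((∏ i ∈ range J, ∫ ω, bw θ δ α z Y Rs x i ω * bw θ δ α z Y Rs y i ω ∂P) - k * E ^ 2) / E ^ 2 := by
    field_simp
  rw [e, abs_div, abs_of_pos hE2, div_le_iff₀ hE2]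
  refine h1.trans ?_
  have h2 := Real.exp_le_exp.mpr hE
  have h3 : 0 ≤ k * E ^ 2 := by positivity
  nlinarith

/-- the kernel -/
theorem cov_kernel (h : Ph P θ) (hS : Sy c z Y J Rs N K) (hδ : 0 ≤ δ) (hδ1 : δ ≤ 1 / 2) (hα : 0 ≤ α) (hα1 : α ≤ 1)
    {A0 : P1} {m ε' : ℝ} (hP : PP α ε' z A0) (hε' : 0 ≤ ε') (hε'1 : ε' ≤ 1 / 30) (hA : Bd1 m A0) {ε2 ε3 : ℝ}
    (hE : ET c z Y J Rs ≤ ε2) (hε2 : ε2 ≤ 1 / 4) (hE3 : ∑ i ∈ range J, eT c z Y Rs i ≤ ε3) (hε3 : ε3 ≤ 1 / 2)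
    {x y κ U : ℝ} (hκ : 0 < κ) (hxy : x ≠ y) (hU : |x - y| ≤ U) :
    |q0 P θ δ A0 x y / ip δ A0 A0 ^ 2 * (dd2 P θ δ α z Y J Rs x y - dd1 P θ δ α z Y J Rs x -
      dd1 P θ δ α z Y J Rs y + 1)| ≤
      4 * (C3 * Real.exp (Ce * (1 + U))) * (1 + κ ^ (-(2 * α ^ 2))) *
        ((Real.exp (2 * ((Co * (1 + U) + 2 / κ) / Real.log ((z - 1 : ℕ) : ℝ))) - 1) +
          (Real.exp ε3 - 1) * Real.exp (2 * ((Co * (1 + U) + 2 / κ) / Real.log ((z - 1 : ℕ) : ℝ))) + 4 * ε2) +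
      16 * (C3 * Real.exp (Ce * (1 + U))) * gk (2 * α ^ 2) κ (x - y) := by
  have a1 := dd1_near h hS hδ hα hα1 hE (by linarith) x
  have a2 := dd1_near h hS hδ hα hα1 hE (by linarith) y
  have a3 := dd2_near h hS hδ hα hα1 hE3 x y
  have hk := KK_pos (δ := δ) (α := α) (z := z) (Y := Y) (J := J) (x - y)
  have a4 := cov_arith (ε3 := ε3) hk.le a3 a1 a2 rfl
  have hq0 : 0 ≤ q0 P θ δ A0 x y / ip δ A0 A0 ^ 2 := div_nonneg (q0_nonneg _ _ _ _) (sq_nonneg _)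
  have hq := qB_up h hP hε' hε'1 hA hα hα1 hδ x y
  have hkk0 : 0 ≤ ∏ p ∈ S0 z, kk P θ α δ x y p :=
    prod_nonneg fun p hp => (kk_range h hα hα1 hδ x y (mem_S0.mp hp).2).1.le
  have p1 := kk_sing0 (z := z) h hS.z1 hδ hδ1 hα hα1 hxy hU
  have p2 := KK_sing h hS hδ hδ1 hα hα1 hxy hU
  have hε20 : 0 ≤ ε2 := (ET_nonneg c z Y J Rs).trans hE
  have hε30 : 0 ≤ ε3 := (sum_nonneg fun i _ => eT_nonneg _ _ _ _ _).trans hE3
  have hex3 : Real.exp ε3 - 1 ≤ 1 := by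
    have h4 := Real.add_one_le_exp (-ε3)
    have h5 : Real.exp ε3 * Real.exp (-ε3) = 1 := by rw [← Real.exp_add]; simp
    have h6 := Real.exp_pos ε3
    nlinarith
  have hex30 : 0 ≤ Real.exp ε3 - 1 := by have := Real.one_le_exp hε30; linarith
  set q := q0 P θ δ A0 x y / ip δ A0 A0 ^ 2
  set D := dd2 P θ δ α z Y J Rs x y - dd1 P θ δ α z Y J Rs x - dd1 P θ δ α z Y J Rs y + 1
  set k := KK δ α z Y J (x - y)
  set pk := ∏ p ∈ S0 z, kk P θ α δ x y p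
  set C4 := C3 * Real.exp (Ce * (1 + U)) with hC4
  have hC40 : 0 < C4 := mul_pos (by have := C3_ge; linarith) (Real.exp_pos _)
  set τ := 2 * ((Co * (1 + U) + 2 / κ) / Real.log ((z - 1 : ℕ) : ℝ)) with hτ
  have hU0 : 0 ≤ U := (abs_nonneg _).trans hU
  have hτ0 : 0 ≤ τ := by
    have hl : 0 ≤ Real.log ((z - 1 : ℕ) : ℝ) := Real.log_natCast_nonneg _
    have := Co_pos
    rw [hτ]; positivity
  have hexτ : 1 ≤ Real.exp τ := Real.one_le_exp hτ0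
  rw [abs_mul, abs_of_nonneg hq0]
  rcases lt_or_ge |x - y| κ with hlt | hge
  · have hg : gk (2 * α ^ 2) κ (x - y) = 1 + |x - y| ^ (-(2 * α ^ 2)) := by
      unfold gk
      rw [Set.indicator_of_mem (by rw [Set.mem_Ioo]; exact abs_lt.mp hlt)]
    rw [hg]
    have hD : |D| ≤ 2 * k + 2 := by
      refine a4.trans ?_
      have b1 : |k - 1| ≤ k + 1 := by rw [abs_le]; constructor <;> linarith
      have b2 : (Real.exp ε3 - 1) * k ≤ k := by nlinarith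
      linarith
    have h1 : 0 ≤ 4 * C4 * (1 + κ ^ (-(2 * α ^ 2))) * ((Real.exp τ - 1) + (Real.exp ε3 - 1) * Real.exp τ + 4 * ε2) := by
      have : 0 ≤ (Real.exp τ - 1) + (Real.exp ε3 - 1) * Real.exp τ + 4 * ε2 := by
        have : 0 ≤ (Real.exp ε3 - 1) * Real.exp τ := mul_nonneg hex30 (Real.exp_pos _).le
        linarith
      positivity
    have h2 : q * |D| ≤ (4 * pk) * (2 * k + 2) := mul_le_mul hq hD (abs_nonneg _) (by positivity)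
    have h3 : (4 * pk) * (2 * k + 2) = 8 * (pk * k) + 8 * pk := by ring
    linarith
  · have hg : gk (2 * α ^ 2) κ (x - y) = 0 := by
      unfold gk
      rw [Set.indicator_of_notMem (by rw [Set.mem_Ioo, ← abs_lt]; exact not_lt.mpr hge)]
    rw [hg, mul_zero, add_zero]
    have hf := KK_far (α := α) hS hδ hδ1 hα hα1 hκ hge hU
    rw [← hτ] at hf
    have hk1 : k ≤ Real.exp τ := by have := (abs_le.mp hf).2; linarith
    have hprod : pk ≤ C4 * (1 + κ ^ (-(2 * α ^ 2))) := by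
      refine p1.trans (mul_le_mul_of_nonneg_left ?_ hC40.le)
      have : |x - y| ^ (-(2 * α ^ 2)) ≤ κ ^ (-(2 * α ^ 2)) :=
        Real.rpow_le_rpow_of_nonpos hκ hge (by have := sq_nonneg α; linarith)
      linarith
    have hD : |D| ≤ (Real.exp τ - 1) + (Real.exp ε3 - 1) * Real.exp τ + 4 * ε2 := by
      refine a4.trans ?_
      have := mul_le_mul_of_nonneg_left hk1 hex30
      linarith
    calc q * |D| ≤ (4 * (C4 * (1 + κ ^ (-(2 * α ^ 2))))) * ((Real.exp τ - 1) + (Real.exp ε3 - 1) * Real.exp τ + 4 * ε2) :=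
          mul_le_mul (hq.trans (mul_le_mul_of_nonneg_left hprod (by norm_num))) hD (abs_nonneg _) (by positivity)
      _ = _ := by ring

end

end Pool.Agent.T6.H99.CH
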