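import Pool.Agent.T6.H99.CH.T5

set_option autoImplicit false
set_option linter.unusedSectionVars false

/-! The mean square distance of the two levels. -/

namespace Pool.Agent.T6.H99.CH

open Finset MeasureTheory ProbabilityTheory MonoidAlgebra Filter
open Pool.Agent.Y755
open Pool.Agent.W184.NZ
open Pool.Agent.Y753.NL (wf wf_cont)

variable {Ω : Type*} [mΩ : MeasurableSpace Ω] {P : Measure Ω} {θ : ℕ → Ω → ℝ}

/-- the difference of the two levels -/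
noncomputable def Wt (δ α : ℝ) (z : ℕ) (Y : ℝ) (J Rs : ℕ) (A0 : P1) (t x : ℝ) : ℝ :=
  wf δ α z Y J Rs A0 (t + x) / (ip δ A0 A0 * Real.exp (α ^ 2 * Vd δ z Y J)) -
    ‖es (1 / 2 + δ + ((t + x : ℝ) : ℂ) * Complex.I) A0‖ ^ 2 / ip δ A0 A0

section

variable {c Y δ α W m : ℝ} {z J Rs N K : ℕ} {A0 : P1}

lemma four_err {I1 I2 I3 I4 M1 M2 M3 M4 e B V : ℝ} (hB : 1 ≤ B) (hV : 1 ≤ V) (h1 : |I1 - M1| ≤ e) (h2 : |I2 - M2| ≤ e)
    (h3 : |I3 - M3| ≤ e) (h4 : |I4 - M4| ≤ e) :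
    |(I1 / (B * V) ^ 2 - I2 / (B ^ 2 * V) - I3 / (B ^ 2 * V) + I4 / B ^ 2) -
      (M1 / (B * V) ^ 2 - M2 / (B ^ 2 * V) - M3 / (B ^ 2 * V) + M4 / B ^ 2)| ≤ 4 * e := by
  have hd : ∀ {x y d : ℝ}, |x - y| ≤ e → 1 ≤ d → |x / d - y / d| ≤ e := by
    intro x y d hx hd
    rw [← sub_div, abs_div, abs_of_pos (by linarith : 0 < d), div_le_iff₀ (by linarith)]
    have : 0 ≤ e := (abs_nonneg _).trans hx
    nlinarith
  have hBV : 1 ≤ B * V := one_le_mul_of_one_le_of_one_le hB hV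
  have hB2 : 1 ≤ B ^ 2 := one_le_pow₀ hB
  have a1 := hd h1 (one_le_pow₀ hBV (n := 2))
  have a2 := hd h2 (one_le_mul_of_one_le_of_one_le hB2 hV)
  have a3 := hd h3 (one_le_mul_of_one_le_of_one_le hB2 hV)
  have a4 := hd h4 hB2
  rw [abs_le] at a1 a2 a3 a4 ⊢
  constructor <;> linarith

/-- the covariances over a window -/
theorem win_cov (h : Ph P θ) (hS : Sy c z Y J Rs N K) (hA : Bd1 m A0) (hAm : A0 ∈ SA1 (M1 (S0 z))) (hm0 : 0 ≤ m)
    (hδ : 0 ≤ δ) (hα : 0 ≤ α) (hα1 : α ≤ 1) (hB : 1 ≤ ip δ A0 A0)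
    (hW : Real.exp (Real.log Y * (180 * ((Rs:ℝ) + 1))) ≤ W) (x y X1 X2 : ℝ) :
    |(∫ t in X1..X2, Wt δ α z Y J Rs A0 t x * Wt δ α z Y J Rs A0 t y) - (X2 - X1) *
      (q0 P θ δ A0 x y / ip δ A0 A0 ^ 2 * (dd2 P θ δ α z Y J Rs x y - dd1 P θ δ α z Y J Rs x -
      dd1 P θ δ α z Y J Rs y + 1))| ≤ 8 * (m ^ 2 * l1' A0 ^ 4 * W ^ 4) := by
  have hW1 := one_le_W hS hW
  have hα2 : |α| ≤ 2 := by rw [abs_of_nonneg hα]; linarith
  set A := A0 * Bz α z Y J Rs ∅ with hAdef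
  have hAB : Bd1 (m * W) A := AB_Bd (a := α) hS hA hm0 hW ∅
  have hl1 : l1' A ^ 2 ≤ l1' A0 ^ 2 * W := AB_l1_one (A0 := A0) hS hα2 hW
  have hl0 := l1'_nonneg A0
  have hlA := l1'_nonneg A
  set l0 := l1' A0 with hl0def
  set lA := l1' A with hlAdef
  set EV := Real.exp (α ^ 2 * Vd δ z Y J) with hEV
  have hEV1 : 1 ≤ EV := Real.one_le_exp (mul_nonneg (sq_nonneg _) (Vd_nonneg _ _ _ _))
  set B := ip δ A0 A0 with hBdef
  have hW4 : W ^ 2 ≤ W ^ 4 := pow_le_pow_right₀ hW1 (by norm_num)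
  have hW41 : 1 ≤ W ^ 4 := one_le_pow₀ hW1
  -- the four mean values
  have m1 := mean_two h hδ hAB hAB x y X1 X2
  have m2 := mean_two h hδ hAB hA x y X1 X2
  have m3 := mean_two h hδ hA hAB x y X1 X2
  have m4 := mean_two h hδ hA hA x y X1 X2
  have t1 := two_A h hAm (IZ_dj hS) δ α J Rs x y
  have t2 := one_A h hAm (IZ_dj hS) δ α J Rs x y
  have t3 := one_A h hAm (IZ_dj hS) δ α J Rs y x
  have t3' : ∫ ω, ‖rv θ ω (1 / 2 + δ + x * Complex.I) A0‖ ^ 2 *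
      ‖rv θ ω (1 / 2 + δ + y * Complex.I) (A0 * Bz α z Y J Rs ∅)‖ ^ 2 ∂P =
      q0 P θ δ A0 x y * ∏ i ∈ range J, ∫ ω, bw θ δ α z Y Rs y i ω ∂P := by
    rw [q0_symm, ← t3]
    exact integral_congr_ae (ae_of_all _ fun ω => mul_comm _ _)
  have t4 : ∫ ω, ‖rv θ ω (1 / 2 + δ + x * Complex.I) A0‖ ^ 2 * ‖rv θ ω (1 / 2 + δ + y * Complex.I) A0‖ ^ 2 ∂P =
      q0 P θ δ A0 x y := rfl
  rw [t1] at m1
  rw [t2] at m2
  rw [t3'] at m3
  rw [t4] at m4
  set e := 2 * (m ^ 2 * l0 ^ 4 * W ^ 4) with he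
  have b1 : 2 * (m * W * (m * W)) * (lA * lA) ^ 2 ≤ e := by
    have : (lA * lA) ^ 2 = (lA ^ 2) ^ 2 := by ring
    rw [this]
    have h2 := pow_le_pow_left₀ (sq_nonneg lA) hl1 2
    calc 2 * (m * W * (m * W)) * (lA ^ 2) ^ 2 ≤ 2 * (m * W * (m * W)) * (l0 ^ 2 * W) ^ 2 :=
          mul_le_mul_of_nonneg_left h2 (by positivity)
      _ = e := by rw [he]; ring
  have b2 : 2 * (m * W * m) * (lA * l0) ^ 2 ≤ e := by
    have : (lA * l0) ^ 2 = lA ^ 2 * l0 ^ 2 := by ring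
    rw [this]
    calc 2 * (m * W * m) * (lA ^ 2 * l0 ^ 2) ≤ 2 * (m * W * m) * ((l0 ^ 2 * W) * l0 ^ 2) := by gcongr
      _ = 2 * (m ^ 2 * l0 ^ 4 * W ^ 2) := by ring
      _ ≤ e := by rw [he]; gcongr
  have b3 : 2 * (m * (m * W)) * (l0 * lA) ^ 2 ≤ e := by
    refine le_trans (le_of_eq ?_) b2
    ring
  have b4 : 2 * (m * m) * (l0 * l0) ^ 2 ≤ e := by
    calc 2 * (m * m) * (l0 * l0) ^ 2 = 2 * (m ^ 2 * l0 ^ 4 * 1) := by ring
      _ ≤ e := by rw [he]; gcongr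
  have hf := four_err hB hEV1 (m1.trans b1) (m2.trans b2) (m3.trans b3) (m4.trans b4)
  have e8 : 8 * (m ^ 2 * l0 ^ 4 * W ^ 4) = 4 * e := by rw [he]; ring
  rw [e8]
  refine le_trans (le_of_eq ?_) hf
  congr 2
  · -- the integral
    have c1 : ∀ (u : ℝ), Continuous fun t : ℝ => ‖es (1 / 2 + δ + (t + u) * Complex.I) A‖ ^ 2 := by
      intro u
      have := (es_cont0 δ hAB).comp (continuous_id.add continuous_const : Continuous fun t : ℝ => t + u)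
      refine this.congr fun t => ?_
      simp
    have c2 : ∀ (u : ℝ), Continuous fun t : ℝ => ‖es (1 / 2 + δ + (t + u) * Complex.I) A0‖ ^ 2 := by
      intro u
      have := (es_cont0 δ hA).comp (continuous_id.add continuous_const : Continuous fun t : ℝ => t + u)
      refine this.congr fun t => ?_
      simp
    rw [← intervalIntegral.integral_div, ← intervalIntegral.integral_div, ← intervalIntegral.integral_div,
      ← intervalIntegral.integral_div]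
    have j1 : IntervalIntegrable (fun t : ℝ => ‖es (1 / 2 + δ + (t + x) * Complex.I) A‖ ^ 2 *
        ‖es (1 / 2 + δ + (t + y) * Complex.I) A‖ ^ 2 / (B * EV) ^ 2) volume X1 X2 :=
      (((c1 x).mul (c1 y)).div_const _).intervalIntegrable _ _
    have j2 : IntervalIntegrable (fun t : ℝ => ‖es (1 / 2 + δ + (t + x) * Complex.I) A‖ ^ 2 *
        ‖es (1 / 2 + δ + (t + y) * Complex.I) A0‖ ^ 2 / (B ^ 2 * EV)) volume X1 X2 :=
      (((c1 x).mul (c2 y)).div_const _).intervalIntegrable _ _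
    have j3 : IntervalIntegrable (fun t : ℝ => ‖es (1 / 2 + δ + (t + x) * Complex.I) A0‖ ^ 2 *
        ‖es (1 / 2 + δ + (t + y) * Complex.I) A‖ ^ 2 / (B ^ 2 * EV)) volume X1 X2 :=
      (((c2 x).mul (c1 y)).div_const _).intervalIntegrable _ _
    have j4 : IntervalIntegrable (fun t : ℝ => ‖es (1 / 2 + δ + (t + x) * Complex.I) A0‖ ^ 2 *
        ‖es (1 / 2 + δ + (t + y) * Complex.I) A0‖ ^ 2 / B ^ 2) volume X1 X2 :=
      (((c2 x).mul (c2 y)).div_const _).intervalIntegrable _ _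
    rw [← intervalIntegral.integral_sub j1 j2, ← intervalIntegral.integral_sub (j1.sub j2) j3,
      ← intervalIntegral.integral_add ((j1.sub j2).sub j3) j4]
    refine intervalIntegral.integral_congr fun t _ => ?_
    show Wt δ α z Y J Rs A0 t x * Wt δ α z Y J Rs A0 t y = _
    unfold Wt wf
    rw [← hAdef, ← hEV, ← hBdef]
    push_cast
    have hB0 : B ≠ 0 := by linarith
    have hE0 : EV ≠ 0 := by linarith
    field_simp
    ring
  · -- the main term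
    unfold dd2 dd1
    rw [← hEV]
    have hB0 : B ≠ 0 := by linarith
    have hE0 : EV ≠ 0 := by linarith
    field_simp

end

end Pool.Agent.T6.H99.CH
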