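import Pool.Agent.T6.H99.CH.T6

set_option autoImplicit false
set_option linter.unusedSectionVars false

/-! The mean square distance is small. -/

namespace Pool.Agent.T6.H99.CH

open Finset MeasureTheory ProbabilityTheory MonoidAlgebra Filter
open Pool.Agent.Y755
open Pool.Agent.W184.NZ
open Pool.Agent.Y753.NL (wf wf_cont)

variable {Ω : Type*} [mΩ : MeasurableSpace Ω] {P : Measure Ω} {θ : ℕ → Ω → ℝ}

/-- choice of the small parameter -/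
lemma small_tau {K0 η : ℝ} (hK : 0 ≤ K0) (hη : 0 < η) : ∃ τ : ℝ, 0 < τ ∧ τ ≤ 1 / 4 ∧
    K0 * ((Real.exp τ - 1) + (Real.exp τ - 1) * Real.exp τ + 4 * τ) ≤ η := by
  refine ⟨min (1 / 4) (η / (12 * (K0 + 1))), lt_min (by norm_num) (by positivity), min_le_left _ _, ?_⟩
  set τ := min (1 / 4) (η / (12 * (K0 + 1))) with hτ
  have h1 : τ ≤ 1 / 4 := min_le_left _ _
  have h2 : τ ≤ η / (12 * (K0 + 1)) := min_le_right _ _
  have h0 : 0 < τ := lt_min (by norm_num) (by positivity)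
  have h3 : Real.exp τ - 1 ≤ 2 * τ := by
    have h4 := Real.add_one_le_exp (-τ)
    have h5 : Real.exp τ * Real.exp (-τ) = 1 := by rw [← Real.exp_add]; simp
    have h6 := Real.exp_pos τ
    nlinarith
  have h4 : 0 ≤ Real.exp τ - 1 := by have := Real.one_le_exp h0.le; linarith
  have h5 : Real.exp τ ≤ 3 / 2 := by linarith
  have h6 : (Real.exp τ - 1) + (Real.exp τ - 1) * Real.exp τ + 4 * τ ≤ 9 * τ := by nlinarith
  have h7 : K0 * (9 * τ) ≤ K0 * (9 * (η / (12 * (K0 + 1)))) := by gcongr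
  refine (mul_le_mul_of_nonneg_left h6 hK).trans (h7.trans ?_)
  have h8 : K0 * (9 * (η / (12 * (K0 + 1)))) = (9 / 12) * η * (K0 / (K0 + 1)) := by field_simp
  rw [h8]
  have h9 : K0 / (K0 + 1) ≤ 1 := by rw [div_le_one (by positivity)]; linarith
  nlinarith

lemma log_large (M : ℝ) {τ : ℝ} (hτ : 0 < τ) : ∃ z0 : ℕ, ∀ z : ℕ, z0 ≤ z → 2 * (M / Real.log ((z - 1 : ℕ) : ℝ)) ≤ τ := by
  have h1 : Tendsto (fun n : ℕ => Real.log n) atTop atTop := Real.tendsto_log_atTop.comp tendsto_natCast_atTop_atTop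
  have h2 := (h1.const_div_atTop M).const_mul 2
  rw [mul_zero] at h2
  obtain ⟨z2, hz2⟩ := eventually_atTop.mp (h2.eventually (gt_mem_nhds hτ))
  exact ⟨z2 + 1, fun z hz => (hz2 (z - 1) (by omega)).le⟩

lemma Wt_bdd {δ α Y m W c : ℝ} {z J Rs N K : ℕ} {A0 : P1} (hS : Sy c z Y J Rs N K) (hA : Bd1 m A0) (hm0 : 0 ≤ m)
    (hδ : 0 ≤ δ) (hB : 1 ≤ ip δ A0 A0) (hW : Real.exp (Real.log Y * (180 * ((Rs:ℝ) + 1))) ≤ W) (t x : ℝ) :
    |Wt δ α z Y J Rs A0 t x| ≤ l1' (A0 * Bz α z Y J Rs ∅) ^ 2 + l1' A0 ^ 2 := by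
  have hAB : Bd1 (m * W) (A0 * Bz α z Y J Rs ∅) := AB_Bd (a := α) hS hA hm0 hW ∅
  have hEV1 : 1 ≤ Real.exp (α ^ 2 * Vd δ z Y J) := Real.one_le_exp (mul_nonneg (sq_nonneg _) (Vd_nonneg _ _ _ _))
  have hre : 0 ≤ (1 / 2 + (δ:ℂ) + ((t + x : ℝ) : ℂ) * Complex.I).re := by simp; linarith
  have h1 := pow_le_pow_left₀ (norm_nonneg _) (es_norm_le hre hAB) 2
  have h2 := pow_le_pow_left₀ (norm_nonneg _) (es_norm_le hre hA) 2
  unfold Wt wf
  refine (abs_sub _ _).trans (add_le_add ?_ ?_)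
  · rw [abs_div, abs_of_nonneg (by positivity), abs_of_pos (by positivity)]
    refine (div_le_self (by positivity) (one_le_mul_of_one_le_of_one_le hB hEV1)).trans h1
  · rw [abs_div, abs_of_nonneg (by positivity), abs_of_pos (by positivity)]
    exact (div_le_self (by positivity) hB).trans h2

lemma Wt_cont {δ α Y m W c : ℝ} {z J Rs N K : ℕ} {A0 : P1} (hS : Sy c z Y J Rs N K) (hA : Bd1 m A0) (hm0 : 0 ≤ m)
    (hW : Real.exp (Real.log Y * (180 * ((Rs:ℝ) + 1))) ≤ W) :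
    Continuous (Function.uncurry (Wt δ α z Y J Rs A0)) := by
  have c1 : Continuous (wf δ α z Y J Rs A0) := wf_cont hS hA hm0 hW
  have c2 : Continuous fun t : ℝ => ‖es (1 / 2 + δ + t * Complex.I) A0‖ ^ 2 := es_cont0 δ hA
  have c3 : Continuous fun q : ℝ × ℝ => q.1 + q.2 := by fun_prop
  exact ((c1.comp c3).div_const _).sub ((c2.comp c3).div_const _)

theorem L2_small (h : Ph P θ) {α : ℝ} (hα : 0 ≤ α) (hα1 : 2 * α ^ 2 < 1) {a b F : ℝ} (hab : a ≤ b) {f : ℝ → ℝ}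
    (hf : Measurable f) (hF : ∀ x ∈ Set.Icc a b, |f x| ≤ F) {c : ℝ} (hc : 0 ≤ c) {η : ℝ} (hη : 0 < η) :
    ∃ (z1 R1 : ℕ) (e1 : ℝ), 0 < e1 ∧ e1 ≤ 1 / 4 ∧ ∀ (Y δ W m ε' : ℝ) (z J Rs N K : ℕ) (A0 : P1), z1 ≤ z → R1 ≤ Rs →
      Sy c z Y J Rs N K → Bd1 m A0 → A0 ∈ SA1 (M1 (S0 z)) → 0 ≤ m → 0 ≤ δ → δ ≤ 1 / 2 → 1 ≤ ip δ A0 A0 →
      Real.exp (Real.log Y * (180 * ((Rs:ℝ) + 1))) ≤ W → PP α ε' z A0 → 0 ≤ ε' → ε' ≤ 1 / 30 → ET c z Y J Rs ≤ e1 →
      ∀ X1 X2 : ℝ, X1 ≤ X2 → 8 * (m ^ 2 * l1' A0 ^ 4 * W ^ 4) ≤ e1 * (X2 - X1) →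
      ∫ t in Set.Icc X1 X2, (∫ x in Set.Icc a b, f x * Wt δ α z Y J Rs A0 t x) ^ 2 ≤ η * (X2 - X1) := by
  have hα' : α ≤ 1 := by nlinarith
  have hF0 : 0 ≤ F := (abs_nonneg _).trans (hF a ⟨le_rfl, hab⟩)
  have hba : 0 ≤ b - a := by linarith
  set U := b - a with hU
  set C4 := C3 * Real.exp (Ce * (1 + U)) with hC4
  have hC40 : 0 < C4 := mul_pos (by have := C3_ge; linarith) (Real.exp_pos _)
  set G := F ^ 2 * U + 1 with hG
  have hG0 : 0 < G := by positivity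
  -- choice of κ
  obtain ⟨κ, hκ0, hκ1, hgi, hgs⟩ := gk_small (s := 2 * α ^ 2) hα1 (ε := η / (3 * G * (16 * C4))) (by positivity)
  -- choice of τ
  set K0 := 4 * C4 * (1 + κ ^ (-(2 * α ^ 2))) with hK0
  have hK00 : 0 ≤ K0 := by positivity
  obtain ⟨τ, hτ0, hτ1, hτ⟩ := small_tau hK00 (η := η / (3 * G * (U + 1))) (by positivity)
  obtain ⟨z1, hz1⟩ := log_large (Co * (1 + U) + 2 / κ) hτ0
  obtain ⟨z2, R1, heT⟩ := eT_small hc hτ0
  refine ⟨max z1 z2, R1, min τ (η / (3 * G * (U + 1))), lt_min hτ0 (by positivity), (min_le_left _ _).trans hτ1, ?_⟩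
  intro Y δ W m ε' z J Rs N K A0 hz hR hS hA hAm hm0 hδ hδ1 hB hW hP hε' hε'1 hET X1 X2 hX12 herr
  have hX : 0 ≤ X2 - X1 := by linarith
  have hzl := hz1 z ((le_max_left _ _).trans hz)
  have hE3 := heT z ((le_max_right _ _).trans hz) Rs hR Y J hS.rg
  have hET1 : ET c z Y J Rs ≤ τ := hET.trans (min_le_left _ _)
  have herr' : 8 * (m ^ 2 * l1' A0 ^ 4 * W ^ 4) ≤ η / (3 * G * (U + 1)) * (X2 - X1) :=
    herr.trans (mul_le_mul_of_nonneg_right (min_le_right _ _) hX)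
  have hcov : ∀ x ∈ Set.Icc a b, ∀ y ∈ Set.Icc a b, x ≠ y →
      |∫ t, Wt δ α z Y J Rs A0 t x * Wt δ α z Y J Rs A0 t y ∂(volume.restrict (Set.Icc X1 X2))| ≤
      (2 * (η / (3 * G * (U + 1))) * (X2 - X1)) + (X2 - X1) * (16 * C4) * gk (2 * α ^ 2) κ (x - y) := by
    intro x hx y hy hxy
    have hxyU : |x - y| ≤ U := by
      rw [abs_le, hU]; constructor <;> linarith [hx.1, hx.2, hy.1, hy.2]
    have h1 := win_cov h hS hA hAm hm0 hδ hα hα' hB hW x y X1 X2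
    have h2 := cov_kernel h hS hδ hδ1 hα hα' hP hε' hε'1 hA (ε2 := τ) (ε3 := τ) hET1 hτ1 hE3 (by linarith only [hτ1]) hκ0 hxy hxyU
    rw [intervalIntegral.integral_of_le hX12, ← integral_Icc_eq_integral_Ioc] at h1
    have h3 : (Real.exp (2 * ((Co * (1 + U) + 2 / κ) / Real.log ((z - 1 : ℕ) : ℝ))) - 1) +
          (Real.exp τ - 1) * Real.exp (2 * ((Co * (1 + U) + 2 / κ) / Real.log ((z - 1 : ℕ) : ℝ))) + 4 * τ ≤
        (Real.exp τ - 1) + (Real.exp τ - 1) * Real.exp τ + 4 * τ := by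
      have h4 := Real.exp_le_exp.mpr hzl
      have h5 : 0 ≤ Real.exp τ - 1 := sub_nonneg.mpr (Real.one_le_exp hτ0.le)
      have h6 := mul_le_mul_of_nonneg_left h4 h5
      linarith only [h4, h6]
    have h4 := mul_le_mul_of_nonneg_left h3 hK00
    have h5 : |q0 P θ δ A0 x y / ip δ A0 A0 ^ 2 * (dd2 P θ δ α z Y J Rs x y - dd1 P θ δ α z Y J Rs x -
      dd1 P θ δ α z Y J Rs y + 1)| ≤ η / (3 * G * (U + 1)) + 16 * C4 * gk (2 * α ^ 2) κ (x - y) := by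
      rw [← hC4, ← hK0] at h2
      linarith only [h2, h4, hτ]
    set q := q0 P θ δ A0 x y / ip δ A0 A0 ^ 2 * (dd2 P θ δ α z Y J Rs x y - dd1 P θ δ α z Y J Rs x -
      dd1 P θ δ α z Y J Rs y + 1) with hq
    have h6 : |(X2 - X1) * q| ≤ (X2 - X1) * (η / (3 * G * (U + 1)) + 16 * C4 * gk (2 * α ^ 2) κ (x - y)) := by
      rw [abs_mul, abs_of_nonneg hX]
      exact mul_le_mul_of_nonneg_left h5 hX
    have h7 := abs_sub_abs_le_abs_sub (∫ t in Set.Icc X1 X2, Wt δ α z Y J Rs A0 t x * Wt δ α z Y J Rs A0 t y)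
      ((X2 - X1) * q)
    have h8 : (X2 - X1) * (η / (3 * G * (U + 1)) + 16 * C4 * gk (2 * α ^ 2) κ (x - y)) =
      η / (3 * G * (U + 1)) * (X2 - X1) + (X2 - X1) * (16 * C4) * gk (2 * α ^ 2) κ (x - y) := by ring
    rw [h8] at h6
    linarith only [h1, h6, h7, herr']
  have hWm : Measurable (Function.uncurry (Wt δ α z Y J Rs A0)) := (Wt_cont hS hA hm0 hW).measurable
  have hfin := second_moment (μ := volume.restrict (Set.Icc X1 X2)) hWm hab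
    (fun t x _ => Wt_bdd hS hA hm0 hδ hB hW t x) hf hF (by positivity) (by positivity) (gk_nonneg _ _) hgi hcov
  refine hfin.trans ?_
  have k1 : F ^ 2 * U * (2 * (η / (3 * G * (U + 1))) * (X2 - X1) * U) ≤ 2 * (η / 3) * (X2 - X1) := by
    have a1 : η / (3 * G * (U + 1)) * U ≤ η / (3 * G) := by
      rw [div_mul_eq_mul_div, div_le_div_iff₀ (by positivity) (by positivity)]
      nlinarith [mul_nonneg hη.le hG0.le]
    have a2 : F ^ 2 * U * (η / (3 * G)) ≤ η / 3 := by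
      rw [mul_div_assoc', div_le_div_iff₀ (by positivity) (by norm_num)]
      have : F ^ 2 * U ≤ G := by rw [hG]; linarith
      nlinarith
    calc F ^ 2 * U * (2 * (η / (3 * G * (U + 1))) * (X2 - X1) * U)
        = 2 * (X2 - X1) * (F ^ 2 * U * (η / (3 * G * (U + 1)) * U)) := by ring
      _ ≤ 2 * (X2 - X1) * (F ^ 2 * U * (η / (3 * G))) := by gcongr
      _ ≤ 2 * (X2 - X1) * (η / 3) := by gcongr
      _ = _ := by ring
  have k2 : F ^ 2 * U * ((X2 - X1) * (16 * C4) * ∫ v, gk (2 * α ^ 2) κ v) ≤ η / 3 * (X2 - X1) := by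
    have a1 : 16 * C4 * ∫ v, gk (2 * α ^ 2) κ v ≤ 16 * C4 * (η / (3 * G * (16 * C4))) :=
      mul_le_mul_of_nonneg_left hgs (by positivity)
    have a2 : 16 * C4 * (η / (3 * G * (16 * C4))) = η / (3 * G) := by
      have := hC40.ne'
      field_simp
    rw [a2] at a1
    have a3 : F ^ 2 * U * (η / (3 * G)) ≤ η / 3 := by
      rw [mul_div_assoc', div_le_div_iff₀ (by positivity) (by norm_num)]
      have : F ^ 2 * U ≤ G := by rw [hG]; linarith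
      nlinarith
    calc F ^ 2 * U * ((X2 - X1) * (16 * C4) * ∫ v, gk (2 * α ^ 2) κ v)
        = (X2 - X1) * (F ^ 2 * U * (16 * C4 * ∫ v, gk (2 * α ^ 2) κ v)) := by ring
      _ ≤ (X2 - X1) * (F ^ 2 * U * (η / (3 * G))) := by gcongr
      _ ≤ (X2 - X1) * (η / 3) := by gcongr
      _ = _ := by ring
  calc F ^ 2 * U * (2 * (η / (3 * G * (U + 1))) * (X2 - X1) * U + (X2 - X1) * (16 * C4) * ∫ v, gk (2 * α ^ 2) κ v)
      = F ^ 2 * U * (2 * (η / (3 * G * (U + 1))) * (X2 - X1) * U) +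
        F ^ 2 * U * ((X2 - X1) * (16 * C4) * ∫ v, gk (2 * α ^ 2) κ v) := by ring
    _ ≤ _ := by linarith only [k1, k2]

end Pool.Agent.T6.H99.CH
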