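import Pool.Agent.T6.H99.CH.K2

set_option autoImplicit false
set_option linter.unusedSectionVars false

/-! Equidistribution of the phases of the primes. -/

namespace Pool.Agent.T6.H99.CH

open Finset MeasureTheory ProbabilityTheory Filter Topology
open UnitAddTorus

variable {Ω : Type*} [mΩ : MeasurableSpace Ω] {P : Measure Ω} {θ : ℕ → Ω → ℝ}

/-- the phase of `p` at time `t` -/
noncomputable def tt (t : ℝ) (p : ℕ) : ℝ := -(t * Real.log p) / (2 * Real.pi)

lemma ee_tt (t : ℝ) (p : ℕ) : ee (tt t p) = Complex.exp (-(t * Real.log p) * Complex.I) := by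
  unfold ee tt
  congr 1
  have : (Real.pi : ℂ) ≠ 0 := by exact_mod_cast Real.pi_ne_zero
  push_cast
  field_simp

lemma pv_tt (δ t x : ℝ) {p : ℕ} (hp : p.Prime) : pv δ (t + x) p = pv δ x p * ee (tt t p) := by
  rw [pv_eq δ _ hp, pv_eq δ _ hp, ee_tt, mul_assoc, ← Complex.exp_add]
  congr 2
  push_cast; ring

lemma fact_prod (S : Finset ℕ) (hS : ∀ p ∈ S, p.Prime) (k : ℕ → ℕ) {q : ℕ} (hq : q ∈ S) :
    (∏ p ∈ S, p ^ k p).factorization q = k q := by
  rw [Nat.factorization_prod_apply (fun p hp => pow_ne_zero _ (hS p hp).ne_zero), sum_eq_single q]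
  · rw [(hS q hq).factorization_pow, Finsupp.single_eq_same]
  · intro p hp hpq
    rw [(hS p hp).factorization_pow, Finsupp.single_apply, if_neg hpq]
  · intro h; exact absurd hq h

/-- the logarithms of the primes are linearly independent -/
lemma log_indep (S : Finset ℕ) (hS : ∀ p ∈ S, p.Prime) (n : ℕ → ℤ) (h : ∑ p ∈ S, (n p : ℝ) * Real.log p = 0) :
    ∀ p ∈ S, n p = 0 := by
  have hl : ∀ k : ℕ → ℕ, Real.log ((∏ p ∈ S, p ^ k p : ℕ) : ℝ) = ∑ p ∈ S, (k p : ℝ) * Real.log p := by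
    intro k
    push_cast
    rw [Real.log_prod (fun p hp => pow_ne_zero _ (by exact_mod_cast (hS p hp).ne_zero))]
    exact sum_congr rfl fun p _ => Real.log_pow _ _
  have hpos : ∀ k : ℕ → ℕ, 0 < (∏ p ∈ S, p ^ k p) := fun k => prod_pos fun p hp => pow_pos (hS p hp).pos _
  have h1 := hl fun p => (n p).toNat
  have h2 := hl fun p => (-(n p)).toNat
  have h3 : Real.log ((∏ p ∈ S, p ^ (n p).toNat : ℕ) : ℝ) = Real.log ((∏ p ∈ S, p ^ (-(n p)).toNat : ℕ) : ℝ) := by
    rw [h1, h2, ← sub_eq_zero, ← sum_sub_distrib, ← h]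
    refine sum_congr rfl fun p _ => ?_
    have e : ((n p : ℤ) : ℝ) = (((n p).toNat : ℕ) : ℝ) - (((-(n p)).toNat : ℕ) : ℝ) := by
      have h4 : ((n p).toNat : ℤ) - ((-(n p)).toNat : ℤ) = n p := Int.toNat_sub_toNat_neg (n p)
      rw [← h4]
      push_cast
      simp
    rw [e]; ring
  have h4 := Real.log_injOn_pos (Set.mem_Ioi.mpr (by exact_mod_cast hpos _)) (Set.mem_Ioi.mpr (by exact_mod_cast hpos _)) h3
  have h5 : (∏ p ∈ S, p ^ (n p).toNat) = ∏ p ∈ S, p ^ (-(n p)).toNat := by exact_mod_cast h4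
  intro p hp
  have h6 := fact_prod S hS (fun p => (n p).toNat) hp
  have h7 := fact_prod S hS (fun p => (-(n p)).toNat) hp
  rw [h5, h7] at h6
  omega

/-- the curve of the phases -/
noncomputable def tor (S : Finset ℕ) (v : ℕ → ℝ) : UnitAddTorus S := fun i => ((v i : ℝ) : UnitAddCircle)

lemma mF_tor (S : Finset ℕ) (n : S → ℤ) (v : ℕ → ℝ) : mFourier n (tor S v) = ∏ i : S, ee (v i) ^ (n i) := by
  show ∏ i : S, fourier (n i) ((v i : ℝ) : UnitAddCircle) = _
  refine prod_congr rfl fun i _ => ?_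
  rw [fourier_coe_apply]
  unfold ee
  rw [← Complex.exp_int_mul]
  congr 1
  push_cast; ring

lemma tor_cont (S : Finset ℕ) : Continuous fun t : ℝ => tor S (tt t) := by
  refine continuous_pi fun i => ?_
  have h1 : Continuous fun t : ℝ => tt t i := by unfold tt; fun_prop
  exact (AddCircle.continuous_mk' 1).comp h1

lemma tor_meas (h : Ph P θ) (S : Finset ℕ) : Measurable fun ω => tor S fun p => θ p ω := by
  refine measurable_pi_lambda _ fun i => ?_
  exact (AddCircle.continuous_mk' (1:ℝ)).measurable.comp (h.ms i)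

/-- averages of the monomials over the phases -/
lemma mono_E (h : Ph P θ) (S : Finset ℕ) (n : S → ℤ) :
    ∫ ω, mFourier n (tor S fun p => θ p ω) ∂P = if n = 0 then 1 else 0 := by
  classical
  have hpr := h.pr
  simp_rw [mF_tor]
  set k : ℕ → ℤ := fun p => if hp : p ∈ S then n ⟨p, hp⟩ else 0 with hk
  have e1 : ∀ ω, ∏ i : S, ee (θ i ω) ^ (n i) = ∏ p ∈ S, Xp θ p ω ^ (k p) := by
    intro ω
    rw [← Finset.prod_coe_sort S fun p => Xp θ p ω ^ (k p)]
    refine prod_congr rfl fun i _ => ?_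
    rw [hk]
    simp only [i.2, dite_true]
    rfl
  simp_rw [e1]
  rw [E_prodF (𝕜 := ℂ) h S (F := fun p ω => Xp θ p ω ^ (k p)) fun p => by
    have : Measurable fun z : ℂ => z ^ (k p) := by
      rcases le_total 0 (k p) with h0 | h0
      · obtain ⟨m, hm⟩ := Int.eq_ofNat_of_zero_le h0
        rw [hm]; simp only [zpow_natCast]; exact measurable_id.pow_const _
      · obtain ⟨m, hm⟩ := Int.exists_eq_neg_ofNat h0
        rw [hm]; simp only [zpow_neg, zpow_natCast]; exact (measurable_id.pow_const _).inv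
    exact this.comp (Xp_meas (Set.mem_singleton p))]
  have e2 : ∀ p, ∫ ω, Xp θ p ω ^ (k p) ∂P = if k p = 0 then 1 else 0 := by
    intro p
    have h1 : AEStronglyMeasurable (fun t : ℝ => ee t ^ (k p)) (P.map (θ p)) :=
      (ee_cont.zpow₀ (k p) fun t => Or.inl (ee_ne t)).aestronglyMeasurable
    have h2 := integral_map (μ := P) (h.ms p).aemeasurable h1
    rw [h.law p, ee_int] at h2
    exact h2.symm
  simp_rw [e2]
  rw [Finset.prod_ite_zero]
  split_ifs with h1 h2 h2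
  · simp
  · exfalso
    apply h2
    funext i
    have := h1 i i.2
    rw [hk] at this
    simpa using this
  · exfalso
    apply h1
    intro p hp
    rw [hk]
    simp [hp, h2]
  · rfl

/-- averages of the monomials over time -/
lemma mono_T (S : Finset ℕ) (hS : ∀ p ∈ S, p.Prime) (n : S → ℤ) :
    Tendsto (fun T : ℝ => (T:ℂ)⁻¹ * ∫ t in (0:ℝ)..T, mFourier n (tor S (tt t))) atTop (𝓝 (if n = 0 then 1 else 0)) := by
  classical
  set k : ℕ → ℤ := fun p => if hp : p ∈ S then n ⟨p, hp⟩ else 0 with hk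
  set lam : ℝ := ∑ p ∈ S, (k p : ℝ) * Real.log p with hlam
  have e1 : ∀ t : ℝ, mFourier n (tor S (tt t)) = Complex.exp ((-(lam:ℂ) * Complex.I) * t) := by
    intro t
    rw [mF_tor]
    have e2 : ∏ i : S, ee (tt t i) ^ (n i) = ∏ p ∈ S, ee (tt t p) ^ (k p) := by
      rw [← Finset.prod_coe_sort S fun p => ee (tt t p) ^ (k p)]
      refine prod_congr rfl fun i _ => ?_
      rw [hk]
      simp only [i.2, dite_true]
    rw [e2]
    have e3 : ∀ p ∈ S, ee (tt t p) ^ (k p) = Complex.exp ((-(((k p : ℝ) * Real.log p : ℝ) : ℂ) * Complex.I) * t) := by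
      intro p _
      rw [ee_tt, ← Complex.exp_int_mul]
      congr 1
      push_cast; ring
    rw [prod_congr rfl e3, ← Complex.exp_sum, ← sum_mul, ← sum_mul, sum_neg_distrib, hlam]
    push_cast
    rfl
  simp_rw [e1]
  by_cases h0 : n = 0
  · rw [if_pos h0]
    have hl0 : lam = 0 := by
      rw [hlam]
      refine sum_eq_zero fun p hp => ?_
      rw [hk]
      simp [hp, h0]
    rw [hl0]
    refine tendsto_const_nhds.congr' ?_
    filter_upwards [eventually_gt_atTop 0] with T hT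
    have hT0 : (T:ℂ) ≠ 0 := by exact_mod_cast hT.ne'
    simp [hT0]
  · rw [if_neg h0]
    have hl0 : lam ≠ 0 := by
      intro hl
      apply h0
      funext i
      have := log_indep S hS k hl i i.2
      rw [hk] at this
      simpa using this
    have hc : (-(lam:ℂ) * Complex.I) ≠ 0 := mul_ne_zero (neg_ne_zero.mpr (by exact_mod_cast hl0)) Complex.I_ne_zero
    rw [tendsto_zero_iff_norm_tendsto_zero]
    have h1 : Tendsto (fun T : ℝ => (2 / |lam|) / T) atTop (𝓝 0) := tendsto_const_nhds.div_atTop tendsto_id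
    refine squeeze_zero' (Eventually.of_forall fun T => norm_nonneg _) ?_ h1
    filter_upwards [eventually_gt_atTop 0] with T hT
    rw [integral_exp_mul_complex hc, norm_mul, norm_inv, Complex.norm_real, Real.norm_of_nonneg hT.le, norm_div]
    have hn : ‖-(lam:ℂ) * Complex.I‖ = |lam| := by
      rw [norm_mul, norm_neg, Complex.norm_real, Complex.norm_I, mul_one, Real.norm_eq_abs]
    rw [hn]
    have hb : ∀ s : ℝ, ‖Complex.exp (-(lam:ℂ) * Complex.I * s)‖ = 1 := by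
      intro s
      rw [show -(lam:ℂ) * Complex.I * s = ((-(lam * s) : ℝ) : ℂ) * Complex.I by push_cast; ring]
      exact Complex.norm_exp_ofReal_mul_I _
    have h2 : ‖Complex.exp (-(lam:ℂ) * Complex.I * T) - Complex.exp (-(lam:ℂ) * Complex.I * ((0:ℝ):ℂ))‖ ≤ 2 := by
      refine (norm_sub_le _ _).trans ?_
      rw [hb, hb]; norm_num
    have hl : 0 < |lam| := abs_pos.mpr hl0
    rw [div_div, inv_mul_eq_div, div_div]
    rw [mul_comm |lam| T]
    rw [mul_comm T |lam|]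
    exact div_le_div_of_nonneg_right h2 (by positivity)

/-- equidistribution -/
theorem weyl (h : Ph P θ) {S : Finset ℕ} (hS : ∀ p ∈ S, p.Prime) (Φ : C(UnitAddTorus S, ℂ)) :
    Tendsto (fun T : ℝ => (T:ℂ)⁻¹ * ∫ t in (0:ℝ)..T, Φ (tor S (tt t))) atTop (𝓝 (∫ ω, Φ (tor S fun p => θ p ω) ∂P)) := by
  have hpr := h.pr
  have hci : ∀ (Ψ : C(UnitAddTorus S, ℂ)) (A B : ℝ), IntervalIntegrable (fun t => Ψ (tor S (tt t))) volume A B := fun Ψ A B =>
    (Ψ.continuous.comp (tor_cont S)).intervalIntegrable _ _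
  have hmi : ∀ Ψ : C(UnitAddTorus S, ℂ), Integrable (fun ω => Ψ (tor S fun p => θ p ω)) P := fun Ψ =>
    Integrable.of_bound (Ψ.continuous.measurable.comp (tor_meas h S)).aestronglyMeasurable ‖Ψ‖
      (ae_of_all _ fun ω => Ψ.norm_coe_le_norm _)
  -- the span
  have hspan : ∀ Ψ ∈ Submodule.span ℂ (Set.range (mFourier (d := S))),
      Tendsto (fun T : ℝ => (T:ℂ)⁻¹ * ∫ t in (0:ℝ)..T, Ψ (tor S (tt t))) atTop (𝓝 (∫ ω, Ψ (tor S fun p => θ p ω) ∂P)) := by
    intro Ψ hΨ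
    induction hΨ using Submodule.span_induction with
    | mem x hx =>
      obtain ⟨n, rfl⟩ := hx
      rw [mono_E h S n]
      exact mono_T S hS n
    | zero => simp
    | add x y _ _ hx hy =>
      have e : ∫ ω, (x + y) (tor S fun p => θ p ω) ∂P = (∫ ω, x (tor S fun p => θ p ω) ∂P) + ∫ ω, y (tor S fun p => θ p ω) ∂P :=
        integral_add (hmi x) (hmi y)
      rw [e]
      refine (hx.add hy).congr fun T => ?_
      rw [← mul_add, ← intervalIntegral.integral_add (hci x _ _) (hci y _ _)]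
      rfl
    | smul a x _ hx =>
      have e : ∫ ω, (a • x) (tor S fun p => θ p ω) ∂P = a * ∫ ω, x (tor S fun p => θ p ω) ∂P := integral_const_mul _ _
      rw [e]
      refine (hx.const_mul a).congr fun T => ?_
      have e2 : ∫ t in (0:ℝ)..T, (a • x) (tor S (tt t)) = a * ∫ t in (0:ℝ)..T, x (tor S (tt t)) :=
        intervalIntegral.integral_const_mul _ _
      rw [e2]; ring
  rw [Metric.tendsto_nhds]
  intro ε hε
  have hd : Φ ∈ (Submodule.span ℂ (Set.range (mFourier (d := S)))).topologicalClosure := by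
    rw [span_mFourier_closure_eq_top]; exact Submodule.mem_top
  rw [← SetLike.mem_coe, Submodule.topologicalClosure_coe, Metric.mem_closure_iff] at hd
  obtain ⟨Ψ, hΨ, hdist⟩ := hd (ε / 3) (by positivity)
  have h1 := hspan Ψ hΨ
  rw [Metric.tendsto_nhds] at h1
  filter_upwards [h1 (ε / 3) (by positivity), eventually_gt_atTop 0] with T hT hT0
  rw [dist_eq_norm] at hT hdist ⊢
  have hΦΨ : ∀ x, ‖Φ x - Ψ x‖ ≤ ε / 3 := fun x => by
    have := (Φ - Ψ).norm_coe_le_norm x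
    exact this.trans hdist.le
  have a1 : ‖(T:ℂ)⁻¹ * (∫ t in (0:ℝ)..T, Φ (tor S (tt t))) - (T:ℂ)⁻¹ * ∫ t in (0:ℝ)..T, Ψ (tor S (tt t))‖ ≤ ε / 3 := by
    rw [← mul_sub, ← intervalIntegral.integral_sub (hci Φ _ _) (hci Ψ _ _), norm_mul, norm_inv, Complex.norm_real,
      Real.norm_of_nonneg hT0.le]
    have h2 := intervalIntegral.norm_integral_le_of_norm_le_const (a := (0:ℝ)) (b := T)
      (f := fun t => Φ (tor S (tt t)) - Ψ (tor S (tt t))) (C := ε / 3) fun t _ => hΦΨ _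
    rw [sub_zero, abs_of_pos hT0] at h2
    rw [inv_mul_le_iff₀ hT0]
    linarith
  have a2 : ‖(∫ ω, Ψ (tor S fun p => θ p ω) ∂P) - ∫ ω, Φ (tor S fun p => θ p ω) ∂P‖ ≤ ε / 3 := by
    rw [← integral_sub (hmi Ψ) (hmi Φ)]
    refine (norm_integral_le_of_norm_le_const (C := ε / 3) (ae_of_all _ fun ω => ?_)).trans (le_of_eq (by simp))
    rw [norm_sub_rev]; exact hΦΨ _
  have e : (T:ℂ)⁻¹ * (∫ t in (0:ℝ)..T, Φ (tor S (tt t))) - ∫ ω, Φ (tor S fun p => θ p ω) ∂P =
      ((T:ℂ)⁻¹ * (∫ t in (0:ℝ)..T, Φ (tor S (tt t))) - (T:ℂ)⁻¹ * ∫ t in (0:ℝ)..T, Ψ (tor S (tt t))) +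
      ((T:ℂ)⁻¹ * (∫ t in (0:ℝ)..T, Ψ (tor S (tt t))) - ∫ ω, Ψ (tor S fun p => θ p ω) ∂P) +
      ((∫ ω, Ψ (tor S fun p => θ p ω) ∂P) - ∫ ω, Φ (tor S fun p => θ p ω) ∂P) := by ring
  rw [e]
  refine lt_of_le_of_lt ((norm_add_le _ _).trans (add_le_add (norm_add_le _ _) le_rfl)) ?_
  linarith

/-- equidistribution, real functions -/
theorem weyl_re (h : Ph P θ) {S : Finset ℕ} (hS : ∀ p ∈ S, p.Prime) {Φ : UnitAddTorus S → ℝ} (hΦ : Continuous Φ) :
    Tendsto (fun T : ℝ => T⁻¹ * ∫ t in (0:ℝ)..T, Φ (tor S (tt t))) atTop (𝓝 (∫ ω, Φ (tor S fun p => θ p ω) ∂P)) := by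
  have h1 := weyl h hS ⟨fun x => (Φ x : ℂ), Complex.continuous_ofReal.comp hΦ⟩
  have e1 : ∫ ω, ((Φ (tor S fun p => θ p ω) : ℝ) : ℂ) ∂P = ((∫ ω, Φ (tor S fun p => θ p ω) ∂P : ℝ) : ℂ) := integral_complex_ofReal
  have h2 := (Complex.continuous_re.tendsto _).comp h1
  have e3 : (∫ ω, (⟨fun x => (Φ x : ℂ), Complex.continuous_ofReal.comp hΦ⟩ : C(UnitAddTorus S, ℂ)) (tor S fun p => θ p ω) ∂P).re =
      ∫ ω, Φ (tor S fun p => θ p ω) ∂P := by
    show (∫ ω, ((Φ (tor S fun p => θ p ω) : ℝ) : ℂ) ∂P).re = _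
    rw [e1, Complex.ofReal_re]
  rw [e3] at h2
  refine h2.congr fun T => ?_
  show ((T:ℂ)⁻¹ * ∫ t in (0:ℝ)..T, ((Φ (tor S (tt t)) : ℝ) : ℂ)).re = _
  rw [intervalIntegral.integral_ofReal, ← Complex.ofReal_inv, ← Complex.ofReal_mul, Complex.ofReal_re]

end Pool.Agent.T6.H99.CH
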