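import Pool.Agent.T6.H99.CH.V2
import Pool.Agent.T6.H99.CH.T6

set_option autoImplicit false
set_option linter.unusedSectionVars false

/-! The small primes: from the polynomial to the random field. -/

namespace Pool.Agent.T6.H99.CH

open Finset MeasureTheory ProbabilityTheory Filter Topology MonoidAlgebra
open UnitAddTorus
open Pool.Agent.Y755
open Pool.Agent.W184.NZ

variable {Ω : Type*} [mΩ : MeasurableSpace Ω] {P : Measure Ω} {θ : ℕ → Ω → ℝ}

/-- the field at a point of the torus -/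
noncomputable def GV (P : Measure Ω) (θ : ℕ → Ω → ℝ) (α δ : ℝ) (I : Finset ℕ) (w : ℕ → ℂ) (x : ℝ) : ℝ :=
  ∏ p ∈ I, (Lf α (pv δ x p) (w p) / cc P θ α δ p)

lemma GF_eq (α δ : ℝ) (I : Finset ℕ) (ω : Ω) (x : ℝ) : GF P θ α δ I ω x = GV P θ α δ I (fun p => Xp θ p ω) x := rfl

lemma GV_range (h : Ph P θ) {α : ℝ} (hα : 0 ≤ α) (hα1 : α ≤ 1) {δ : ℝ} (hδ : 0 ≤ δ) {I : Finset ℕ} (hI : ∀ p ∈ I, p.Prime)
    {w : ℕ → ℂ} (hw : ∀ p, ‖w p‖ = 1) (x : ℝ) : 0 < GV P θ α δ I w x ∧ GV P θ α δ I w x ≤ 48 ^ I.card := by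
  have hf : ∀ p ∈ I, 0 < Lf α (pv δ x p) (w p) / cc P θ α δ p ∧ Lf α (pv δ x p) (w p) / cc P θ α δ p ≤ 48 := by
    intro p hp
    have hx : ‖pv δ x p‖ ≤ 71 / 100 := by rw [pv_norm δ x (hI p hp)]; exact rr_lt_one hδ (hI p hp)
    obtain ⟨c1, c2⟩ := cc_range h hα hα1 hδ (hI p hp)
    obtain ⟨l1, l2⟩ := Lf_range hα hα1 hx (hw p)
    constructor
    · exact div_pos (by linarith) (by linarith)
    · rw [div_le_iff₀ (by linarith)]; nlinarith
  unfold GV
  refine ⟨prod_pos fun p hp => (hf p hp).1, ?_⟩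
  exact (prod_le_prod (fun p hp => (hf p hp).1.le) fun p hp => (hf p hp).2).trans (by rw [prod_const])

/-- the integrated field along the line -/
noncomputable def gz (P : Measure Ω) (θ : ℕ → Ω → ℝ) (α : ℝ) (f : ℝ → ℝ) (a b : ℝ) (z : ℕ) (t : ℝ) : ℝ :=
  ∫ x in Set.Icc a b, f x * GV P θ α 0 (Bz' z) (fun p => ee (tt t p)) x

/-- the coordinate of the torus -/
noncomputable def toC (u : UnitAddCircle) : ℂ := fourier 1 u

lemma toC_cont : Continuous toC := (fourier 1).continuous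

lemma toC_norm (u : UnitAddCircle) : ‖toC u‖ = 1 := by
  unfold toC
  rw [fourier_apply]
  exact Circle.norm_coe _

lemma toC_coe (v : ℝ) : toC ((v : ℝ) : UnitAddCircle) = ee v := by
  unfold toC ee
  rw [fourier_coe_apply]
  congr 1
  push_cast; ring

lemma Lf_torus_cont {α : ℝ} {p : ℕ} (hp : p.Prime) {S : Finset ℕ} (i : S) :
    Continuous fun q : UnitAddTorus S × ℝ => Lf α (pv 0 q.2 p) (toC (q.1 i)) := by
  unfold Lf
  have h1 : Continuous fun q : UnitAddTorus S × ℝ => toC (q.1 i) :=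
    toC_cont.comp ((continuous_apply i).comp continuous_fst)
  have h2 : Continuous fun q : UnitAddTorus S × ℝ => pv 0 q.2 p := (pv_cont 0 hp).comp continuous_snd
  refine Continuous.rpow_const ((continuous_const.sub (h2.mul h1)).norm) fun q => Or.inl ?_
  have h3 : ‖pv 0 q.2 p * toC (q.1 i)‖ ≤ 71 / 100 := by
    rw [norm_mul, toC_norm, mul_one, pv_norm 0 _ hp]; exact rr_lt_one le_rfl hp
  intro h0
  have h4 : (1:ℂ) = pv 0 q.2 p * toC (q.1 i) := sub_eq_zero.mp (norm_eq_zero.mp h0)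
  rw [← h4, norm_one] at h3
  norm_num at h3

/-- the law of the field along the line -/
theorem gz_weyl (h : Ph P θ) {α : ℝ} {f : ℝ → ℝ} (hf : Continuous f) (a b : ℝ) (z : ℕ) {ψ : ℝ → ℝ} (hψ : Continuous ψ) :
    Tendsto (fun T : ℝ => T⁻¹ * ∫ t in (0:ℝ)..T, ψ (gz P θ α f a b z t)) atTop
      (𝓝 (∫ ω, ψ (Mz P θ α f a b z ω) ∂P)) := by
  have hS : ∀ p ∈ Bz' z, p.Prime := fun p hp => Bz'_prime hp
  set Φ : UnitAddTorus (Bz' z) → ℝ := fun u =>
    ψ (∫ x in Set.Icc a b, f x * ∏ i : Bz' z, (Lf α (pv 0 x i) (toC (u i)) / cc P θ α 0 i)) with hΦ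
  have hc : Continuous Φ := by
    refine hψ.comp ?_
    refine continuous_parametric_integral_of_continuous
      (f := fun (u : UnitAddTorus (Bz' z)) (x : ℝ) => f x * ∏ i : Bz' z, (Lf α (pv 0 x i) (toC (u i)) / cc P θ α 0 i))
      ?_ isCompact_Icc
    refine (hf.comp continuous_snd).mul ?_
    refine continuous_finsetProd _ fun i _ => ?_
    exact (Lf_torus_cont (hS i i.2) i).div_const _
  have h1 := weyl_re h hS hc
  have e1 : ∀ v : ℕ → ℝ, Φ (tor (Bz' z) v) = ψ (∫ x in Set.Icc a b, f x * GV P θ α 0 (Bz' z) (fun p => ee (v p)) x) := by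
    intro v
    rw [hΦ]
    simp only
    congr 2
    funext x
    congr 1
    unfold GV
    rw [← Finset.prod_coe_sort (Bz' z) fun p => Lf α (pv 0 x p) (ee (v p)) / cc P θ α 0 p]
    refine prod_congr rfl fun i _ => ?_
    show Lf α (pv 0 x i) (toC ((v i : ℝ) : UnitAddCircle)) / _ = _
    rw [toC_coe]
  simp_rw [e1] at h1
  exact h1

/-- uniform continuity of the local factor -/
lemma Lf_unif (α : ℝ) {e : ℝ} (he : 0 < e) : ∃ d : ℝ, 0 < d ∧ ∀ v v' z : ℂ, ‖v‖ ≤ 71 / 100 → ‖v'‖ ≤ 71 / 100 →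
    ‖z‖ = 1 → ‖v - v'‖ ≤ d → |Lf α v z - Lf α v' z| ≤ e := by
  have hg : ContinuousOn (fun w : ℂ => ‖1 - w‖ ^ (-(2 * α))) (Metric.closedBall 0 (71 / 100)) := by
    refine ContinuousOn.rpow_const (by fun_prop) fun w hw => Or.inl ?_
    rw [mem_closedBall_zero_iff] at hw
    intro h0
    have h4 : (1:ℂ) = w := sub_eq_zero.mp (norm_eq_zero.mp h0)
    rw [← h4, norm_one] at hw
    norm_num at hw
  have hu := (isCompact_closedBall (0:ℂ) (71 / 100)).uniformContinuousOn_of_continuous hg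
  rw [Metric.uniformContinuousOn_iff] at hu
  obtain ⟨d, hd, hd2⟩ := hu e he
  refine ⟨d / 2, by positivity, fun v v' z hv hv' hz hvv => ?_⟩
  have hm : ∀ v : ℂ, ‖v‖ ≤ 71 / 100 → v * z ∈ Metric.closedBall (0:ℂ) (71 / 100) := by
    intro v hv
    rw [mem_closedBall_zero_iff, norm_mul, hz, mul_one]; exact hv
  have h1 := hd2 (v * z) (hm v hv) (v' * z) (hm v' hv') (by
    rw [dist_eq_norm, ← sub_mul, norm_mul, hz, mul_one]
    linarith)
  rw [Real.dist_eq] at h1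
  exact h1.le

lemma rr_tendsto {p : ℕ} (hp : p.Prime) : Tendsto (fun δ => rr δ p) (𝓝 0) (𝓝 (rr 0 p)) := by
  have hp0 : (0:ℝ) < p := by exact_mod_cast hp.pos
  have : Continuous fun δ => rr δ p := by
    unfold rr
    exact Continuous.rpow continuous_const (by fun_prop) fun _ => Or.inl hp0.ne'
  exact this.tendsto 0

lemma pv_sub_norm (δ x : ℝ) {p : ℕ} (hp : p.Prime) : ‖pv δ x p - pv 0 x p‖ = |rr δ p - rr 0 p| := by
  rw [pv_eq δ x hp, pv_eq 0 x hp, ← sub_mul, norm_mul]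
  have : ‖Complex.exp (-(x * Real.log p) * Complex.I)‖ = 1 := by
    rw [show (-(x * Real.log p) * Complex.I : ℂ) = ((-(x * Real.log p) : ℝ) : ℂ) * Complex.I by push_cast; ring]
    exact Complex.norm_exp_ofReal_mul_I _
  rw [this, mul_one, ← Complex.ofReal_sub, Complex.norm_real, Real.norm_eq_abs]

lemma cc_close (h : Ph P θ) {α e : ℝ} {δ : ℝ} (hδ : 0 ≤ δ) {p : ℕ} (hp : p.Prime)
    (he : ∀ z : ℂ, ‖z‖ = 1 → |Lf α (rr δ p) z - Lf α (rr 0 p) z| ≤ e) : |cc P θ α δ p - cc P θ α 0 p| ≤ e := by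
  have hpr := h.pr
  have hi : ∀ δ : ℝ, 0 ≤ δ → Integrable (fun ω => Lf α (rr δ p) (Xp θ p ω)) P := fun δ hδ =>
    X_integrable h p (g := fun z => Lf α (rr δ p) z) (Lf_cont (by
      rw [Complex.norm_real, Real.norm_of_nonneg (rr_pos δ hp).le]
      have := rr_lt_one hδ hp
      linarith))
  unfold cc
  rw [← integral_sub (hi δ hδ) (hi 0 le_rfl), ← Real.norm_eq_abs]
  refine (norm_integral_le_of_norm_le_const (C := e) (ae_of_all _ fun ω => ?_)).trans (le_of_eq (by simp))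
  rw [Real.norm_eq_abs]
  exact he _ (Xp_norm _ _)

/-- the field near the line -/
theorem GV_near (h : Ph P θ) {α : ℝ} (hα : 0 ≤ α) (hα1 : α ≤ 1) {I : Finset ℕ} (hI : ∀ p ∈ I, p.Prime) {η : ℝ} (hη : 0 < η) :
    ∃ δ1 : ℝ, 0 < δ1 ∧ ∀ δ : ℝ, 0 ≤ δ → δ ≤ δ1 → ∀ w : ℕ → ℂ, (∀ p, ‖w p‖ = 1) → ∀ x : ℝ,
      |GV P θ α δ I w x - GV P θ α 0 I w x| ≤ η := by
  obtain ⟨e, he, hpc⟩ := Pool.Agent.Y753.NL.prod_close I (η := η / 48 ^ I.card) (by positivity)
  obtain ⟨d, hd, hL⟩ := Lf_unif α (e := e / 2000) (by positivity)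
  have hev : ∀ᶠ δ in 𝓝 (0:ℝ), ∀ p ∈ I, |rr δ p - rr 0 p| ≤ d := by
    rw [Filter.eventually_all_finset]
    intro p hp
    have := (rr_tendsto (hI p hp)).eventually (Metric.closedBall_mem_nhds _ hd)
    filter_upwards [this] with δ hδ
    rw [← Real.dist_eq]
    exact hδ
  rw [Metric.eventually_nhds_iff] at hev
  obtain ⟨δ2, hδ2, hev⟩ := hev
  refine ⟨δ2 / 2, by positivity, fun δ hδ hδ1 w hw x => ?_⟩
  have hr := hev (show dist δ 0 < δ2 by rw [Real.dist_eq, sub_zero, abs_of_nonneg hδ]; linarith)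
  set r : ℕ → ℝ := fun p => (Lf α (pv δ x p) (w p) / cc P θ α δ p) / (Lf α (pv 0 x p) (w p) / cc P θ α 0 p) with hr2
  have hrp : ∀ p ∈ I, |r p - 1| ≤ e := by
    intro p hp
    have hpp := hI p hp
    have n1 : ‖pv δ x p‖ ≤ 71 / 100 := by rw [pv_norm δ x hpp]; exact rr_lt_one hδ hpp
    have n2 : ‖pv 0 x p‖ ≤ 71 / 100 := by rw [pv_norm 0 x hpp]; exact rr_lt_one le_rfl hpp
    obtain ⟨l1, l2⟩ := Lf_range hα hα1 n1 (hw p)
    obtain ⟨l3, l4⟩ := Lf_range hα hα1 n2 (hw p)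
    obtain ⟨c1, c2⟩ := cc_range h hα hα1 hδ hpp
    obtain ⟨c3, c4⟩ := cc_range h hα hα1 (le_refl (0:ℝ)) hpp
    have d1 := hL _ _ (w p) n1 n2 (hw p) (by rw [pv_sub_norm δ x hpp]; exact hr p hp)
    have d2 : |cc P θ α δ p - cc P θ α 0 p| ≤ e / 2000 := by
      refine cc_close h hδ hpp fun z hz => hL _ _ z (real_norm_rr hδ hpp) (real_norm_rr le_rfl hpp) hz ?_
      rw [← Complex.ofReal_sub, Complex.norm_real, Real.norm_eq_abs]
      exact hr p hp
    rw [hr2]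
    simp only
    set A := Lf α (pv δ x p) (w p)
    set B := Lf α (pv 0 x p) (w p)
    set C := cc P θ α δ p
    set D := cc P θ α 0 p
    have e1 : A / C / (B / D) - 1 = ((A - B) * D - B * (C - D)) / (C * B) := by
      have hC : C ≠ 0 := by linarith
      have hB : B ≠ 0 := by linarith
      have hD : D ≠ 0 := by linarith
      field_simp
      ring
    have hCB : 1 / 16 ≤ C * B := by nlinarith
    rw [e1, abs_div, abs_of_pos (by linarith : 0 < C * B), div_le_iff₀ (by linarith)]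
    refine (abs_sub _ _).trans ?_
    rw [abs_mul, abs_mul, abs_of_pos (by linarith : 0 < D), abs_of_pos (by linarith : 0 < B)]
    have g1 : |A - B| * D ≤ e / 2000 * 12 := mul_le_mul d1 c4 (by linarith) (by positivity)
    have g2 : B * |C - D| ≤ 12 * (e / 2000) := mul_le_mul l4 d2 (abs_nonneg _) (by norm_num)
    nlinarith
  have hfin := hpc r hrp
  obtain ⟨g1, g2⟩ := GV_range h hα hα1 (le_refl (0:ℝ)) hI hw x
  have e2 : GV P θ α δ I w x = GV P θ α 0 I w x * ∏ p ∈ I, r p := by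
    unfold GV
    rw [← prod_mul_distrib]
    refine prod_congr rfl fun p hp => ?_
    have hpp := hI p hp
    have n2 : ‖pv 0 x p‖ ≤ 71 / 100 := by rw [pv_norm 0 x hpp]; exact rr_lt_one le_rfl hpp
    obtain ⟨l3, l4⟩ := Lf_range hα hα1 n2 (hw p)
    obtain ⟨c3, c4⟩ := cc_range h hα hα1 (le_refl (0:ℝ)) hpp
    rw [hr2]
    simp only
    rw [mul_div_cancel₀]
    exact (div_pos (by linarith) (by linarith)).ne'
  rw [e2]
  have e3 : GV P θ α 0 I w x * ∏ p ∈ I, r p - GV P θ α 0 I w x = GV P θ α 0 I w x * (∏ p ∈ I, r p - 1) := by ring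
  rw [e3, abs_mul, abs_of_pos g1]
  calc GV P θ α 0 I w x * |∏ p ∈ I, r p - 1| ≤ 48 ^ I.card * (η / 48 ^ I.card) :=
        mul_le_mul g2 hfin (abs_nonneg _) (by positivity)
    _ = η := by field_simp

/-- the polynomial on the line against the field -/
theorem poly_near (h : Ph P θ) {α ε : ℝ} {z : ℕ} {A0 : P1} (hP : PP α ε z A0) (hε : 0 ≤ ε) (hε1 : ε ≤ 1 / 30) {m : ℝ}
    (hA : Bd1 m A0) (hα : 0 ≤ α) (hα1 : α ≤ 1) {δ : ℝ} (hδ : 0 ≤ δ) (t x : ℝ) :
    |‖es (1 / 2 + δ + ((t + x : ℝ) : ℂ) * Complex.I) A0‖ ^ 2 / ip δ A0 A0 -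
      GV P θ α δ (S0 z) (fun p => ee (tt t p)) x| ≤ 7 * ε * 48 ^ (S0 z).card := by
  have hpm : ∀ p ∈ S0 z, p.Prime := fun p hp => (mem_S0.mp hp).2
  have h1 := PP_es hP hε (by linarith) hδ (t + x)
  have h2 := B_near h hP hε (by linarith) hA hα hα1 hδ
  have hc := cc_prod_pos h hα hα1 hδ z
  have e1 : ∏ p ∈ S0 z, Lf α (pv δ (t + x) p) 1 =
      (∏ p ∈ S0 z, cc P θ α δ p) * GV P θ α δ (S0 z) (fun p => ee (tt t p)) x := by
    unfold GV
    rw [← prod_mul_distrib]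
    refine prod_congr rfl fun p hp => ?_
    have := (cc_range h hα hα1 hδ (hpm p hp)).1
    have e : Lf α (pv δ (t + x) p) 1 = Lf α (pv δ x p) (ee (tt t p)) := by
      unfold Lf
      rw [pv_tt δ t x (hpm p hp), mul_one]
    rw [e]
    field_simp
  rw [e1] at h1
  obtain ⟨g1, g2⟩ := GV_range h hα hα1 hδ hpm (w := fun p => ee (tt t p)) (fun p => ee_norm _) x
  set C := ∏ p ∈ S0 z, cc P θ α δ p
  set G := GV P θ α δ (S0 z) (fun p => ee (tt t p)) x
  set B := ip δ A0 A0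
  set E := ‖es (1 / 2 + δ + ((t + x : ℝ) : ℂ) * Complex.I) A0‖ ^ 2
  have hB : 9 / 10 * C ≤ B := by have := (abs_le.mp h2).1; nlinarith
  have hB0 : 0 < B := by nlinarith
  have e2 : E / B - G = ((E - C * G) + G * (C - B)) / B := by
    field_simp
    ring
  rw [e2, abs_div, abs_of_pos hB0, div_le_iff₀ hB0]
  have h3 : |G * (C - B)| ≤ G * (3 * ε * C) := by
    rw [abs_mul, abs_of_pos g1, abs_sub_comm]
    exact mul_le_mul_of_nonneg_left h2 g1.le
  refine (abs_add_le _ _).trans ((add_le_add h1 h3).trans ?_)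
  have h4 : 3 * ε * (C * G) + G * (3 * ε * C) = 6 * ε * (C * G) := by ring
  rw [h4]
  have h5 : C * G ≤ C * 48 ^ (S0 z).card := mul_le_mul_of_nonneg_left g2 hc.le
  have h6 : 0 ≤ (48:ℝ) ^ (S0 z).card := by positivity
  calc 6 * ε * (C * G) ≤ 6 * ε * (C * 48 ^ (S0 z).card) := mul_le_mul_of_nonneg_left h5 (by positivity)
    _ ≤ 7 * ε * 48 ^ (S0 z).card * (9 / 10 * C) := by
        have : 0 ≤ ε * (C * 48 ^ (S0 z).card) := by positivity
        nlinarith
    _ ≤ _ := mul_le_mul_of_nonneg_left hB (by positivity)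

end Pool.Agent.T6.H99.CH
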