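import Pool.Agent.T6.H99.CH.V1
import Pool.Agent.T6.H99.CH.V3

set_option autoImplicit false
set_option linter.unusedSectionVars false

/-! Comparison over a window. -/

namespace Pool.Agent.T6.H99.CH

open Finset MeasureTheory ProbabilityTheory Filter Topology MonoidAlgebra
open Pool.Agent.Y755
open Pool.Agent.Y753.NL
open Pool.Agent.W184.NZ
open Pool.Agent.W184 (zn zn_nonneg zn_cont zn_le')

lemma prod_integrable {G : ℝ × ℝ → ℝ} (hG : Continuous G) (a b u v : ℝ) :
    Integrable G ((volume.restrict (Set.Icc u v)).prod (volume.restrict (Set.Icc a b))) := by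
  rw [Measure.prod_restrict]
  exact hG.continuousOn.integrableOn_compact (isCompact_Icc.prod isCompact_Icc)

/-- Fubini over a window -/
lemma fub {D : ℝ → ℝ} (hD : Continuous D) (h0 : ∀ s, 0 ≤ D s) {a b u1 u2 X1 X2 : ℝ} (hab : a ≤ b) (hu : u1 ≤ u2)
    (h1 : X1 ≤ u1 + a) (h2 : u2 + b ≤ X2) :
    ∫ t in Set.Icc u1 u2, ∫ x in Set.Icc a b, D (t + x) ≤ (b - a) * ∫ s in X1..X2, D s := by
  have hi := prod_integrable (G := fun q : ℝ × ℝ => D (q.1 + q.2)) (by fun_prop) a b u1 u2
  rw [integral_integral_swap hi]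
  have hin : ∀ x ∈ Set.Icc a b, ∫ t in Set.Icc u1 u2, D (t + x) ≤ ∫ s in X1..X2, D s := by
    intro x hx
    rw [integral_Icc_eq_integral_Ioc, ← intervalIntegral.integral_of_le hu,
      intervalIntegral.integral_comp_add_right (fun s => D s) x]
    have ha := hx.1
    have hb := hx.2
    refine intervalIntegral.integral_mono_interval (by linarith) (by linarith) (by linarith) ?_ (hD.intervalIntegrable _ _)
    exact Filter.Eventually.of_forall h0
  have hj : IntegrableOn (fun x => ∫ t in Set.Icc u1 u2, D (t + x)) (Set.Icc a b) := hi.integral_prod_right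
  have h3 : ∫ x in Set.Icc a b, ∫ t in Set.Icc u1 u2, D (t + x) ≤ ∫ _x in Set.Icc a b, ∫ s in X1..X2, D s := by
    refine setIntegral_mono_on hj ?_ measurableSet_Icc hin
    exact integrableOn_const (by rw [Real.volume_Icc]; exact ENNReal.ofReal_ne_top)
  refine h3.trans (le_of_eq ?_)
  rw [setIntegral_const, smul_eq_mul, Real.volume_real_Icc_of_le hab]

/-- integrals against `f` -/
noncomputable def If (f : ℝ → ℝ) (a b : ℝ) (D : ℝ → ℝ) (t : ℝ) : ℝ := ∫ x in Set.Icc a b, f x * D (t + x)

lemma If_cont {f D : ℝ → ℝ} (hf : Continuous f) (hD : Continuous D) (a b : ℝ) : Continuous (If f a b D) := by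
  unfold If
  refine continuous_parametric_integral_of_continuous (f := fun (t x : ℝ) => f x * D (t + x)) ?_ isCompact_Icc
  exact (hf.comp continuous_snd).mul (hD.comp (continuous_fst.add continuous_snd))

lemma If_int {f D : ℝ → ℝ} (hf : Continuous f) (hD : Continuous D) (a b t : ℝ) :
    IntegrableOn (fun x => f x * D (t + x)) (Set.Icc a b) :=
  (hf.mul (hD.comp (continuous_const.add continuous_id))).integrableOn_Icc

lemma If_abs {f D : ℝ → ℝ} (hf : Continuous f) (hD : Continuous D) {a b F : ℝ}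
    (hF : ∀ x ∈ Set.Icc a b, |f x| ≤ F) (t : ℝ) : |If f a b D t| ≤ F * ∫ x in Set.Icc a b, |D (t + x)| := by
  unfold If
  rw [← Real.norm_eq_abs, ← integral_const_mul]
  refine (norm_integral_le_integral_norm _).trans ?_
  refine setIntegral_mono_on (If_int hf hD a b t).norm ?_ measurableSet_Icc fun x hx => ?_
  · exact (continuous_const.mul (hD.comp (continuous_const.add continuous_id)).abs).integrableOn_Icc
  · rw [Real.norm_eq_abs, abs_mul]
    exact mul_le_mul_of_nonneg_right (hF x hx) (abs_nonneg _)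

/-- the mean of the integrals against `f` -/
lemma If_L1 {f D : ℝ → ℝ} (hf : Continuous f) (hD : Continuous D) {a b F u1 u2 X1 X2 : ℝ} (hab : a ≤ b)
    (hF0 : 0 ≤ F) (hF : ∀ x ∈ Set.Icc a b, |f x| ≤ F) (hu : u1 ≤ u2) (h1 : X1 ≤ u1 + a) (h2 : u2 + b ≤ X2) :
    ∫ t in Set.Icc u1 u2, |If f a b D t| ≤ F * ((b - a) * ∫ s in X1..X2, |D s|) := by
  have h3 := fub (D := fun s => |D s|) hD.abs (fun s => abs_nonneg _) hab hu h1 h2
  refine le_trans ?_ (mul_le_mul_of_nonneg_left h3 hF0)
  rw [← integral_const_mul]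
  refine setIntegral_mono_on (If_cont hf hD a b).abs.integrableOn_Icc ?_ measurableSet_Icc fun t _ => If_abs hf hD hF t
  exact (continuous_const.mul (continuous_parametric_integral_of_continuous (f := fun (t x : ℝ) => |D (t + x)|)
    (hD.abs.comp (continuous_fst.add continuous_snd)) isCompact_Icc)).integrableOn_Icc

lemma If_sub {f D E : ℝ → ℝ} (hf : Continuous f) (hD : Continuous D) (hE : Continuous E) (a b t : ℝ) :
    If f a b D t - If f a b E t = If f a b (fun s => D s - E s) t := by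
  unfold If
  rw [← integral_sub (If_int hf hD a b t) (If_int hf hE a b t)]
  refine integral_congr_ae (ae_of_all _ fun x => ?_)
  show f x * D (t + x) - f x * E (t + x) = f x * (D (t + x) - E (t + x))
  ring

/-- from mean square to mean -/
lemma L2_L1 {g : ℝ → ℝ} (hg : Continuous g) {u1 u2 lam : ℝ} (hu : u1 ≤ u2) (hl : 0 < lam)
    (h : ∫ t in Set.Icc u1 u2, g t ^ 2 ≤ lam ^ 2 * (u2 - u1)) : ∫ t in Set.Icc u1 u2, |g t| ≤ lam * (u2 - u1) := by
  have h1 : ∫ t in Set.Icc u1 u2, |g t| ≤ ∫ t in Set.Icc u1 u2, (lam / 2 + g t ^ 2 / (2 * lam)) := by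
    refine setIntegral_mono_on hg.abs.integrableOn_Icc (by fun_prop : Continuous fun t => lam / 2 + g t ^ 2 / (2 * lam)).integrableOn_Icc
      measurableSet_Icc fun t _ => ?_
    rw [← sq_abs (g t)]
    have e : lam / 2 + |g t| ^ 2 / (2 * lam) = (lam ^ 2 + |g t| ^ 2) / (2 * lam) := by field_simp
    rw [e, le_div_iff₀ (by positivity)]
    nlinarith [sq_nonneg (lam - |g t|)]
  refine h1.trans ?_
  have i1 : IntegrableOn (fun _ : ℝ => lam / 2) (Set.Icc u1 u2) := continuous_const.integrableOn_Icc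
  have i2 : IntegrableOn (fun t : ℝ => g t ^ 2 / (2 * lam)) (Set.Icc u1 u2) := ((hg.pow 2).div_const _).integrableOn_Icc
  rw [integral_add i1 i2, setIntegral_const, smul_eq_mul, Real.volume_real_Icc_of_le hu, integral_div]
  have h2 : (∫ t in Set.Icc u1 u2, g t ^ 2) / (2 * lam) ≤ lam ^ 2 * (u2 - u1) / (2 * lam) :=
    div_le_div_of_nonneg_right h (by positivity)
  have e : lam ^ 2 * (u2 - u1) / (2 * lam) = lam / 2 * (u2 - u1) := by field_simp
  rw [e] at h2
  linarith

end Pool.Agent.T6.H99.CH
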