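import Pool.Agent.T6.H99.CH.V4

set_option autoImplicit false
set_option linter.unusedSectionVars false

/-! The main comparison over a window. -/

namespace Pool.Agent.T6.H99.CH

open Finset MeasureTheory ProbabilityTheory Filter Topology MonoidAlgebra
open Pool.Agent.Y755
open Pool.Agent.Y753.NL
open Pool.Agent.W184.NZ
open Pool.Agent.W184 (zn zn_nonneg zn_cont zn_le')

variable {Ω : Type*} [mΩ : MeasurableSpace Ω] {P : Measure Ω} {θ : ℕ → Ω → ℝ}

/-- the Euler product along the line -/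
noncomputable def D0 (P : Measure Ω) (θ : ℕ → Ω → ℝ) (α δ : ℝ) (I : Finset ℕ) (s : ℝ) : ℝ :=
  ∏ p ∈ I, (Lf α (pv δ s p) 1 / cc P θ α δ p)

lemma GV_D0 (α δ : ℝ) {I : Finset ℕ} (hI : ∀ p ∈ I, p.Prime) (t x : ℝ) :
    GV P θ α δ I (fun p => ee (tt t p)) x = D0 P θ α δ I (t + x) := by
  unfold GV D0
  refine prod_congr rfl fun p hp => ?_
  congr 1
  unfold Lf
  rw [pv_tt δ t x (hI p hp), mul_one]

lemma D0_cont (α : ℝ) {δ : ℝ} (hδ : 0 ≤ δ) {I : Finset ℕ} (hI : ∀ p ∈ I, p.Prime) : Continuous (D0 P θ α δ I) := by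
  unfold D0
  refine continuous_finsetProd _ fun p hp => ?_
  refine Continuous.div_const ?_ _
  unfold Lf
  have h2 := pv_cont δ (hI p hp)
  refine Continuous.rpow_const ((continuous_const.sub (h2.mul continuous_const)).norm) fun s => Or.inl ?_
  intro h0
  have h3 : ‖pv δ s p * 1‖ ≤ 71 / 100 := by
    rw [mul_one, pv_norm δ _ (hI p hp)]; exact rr_lt_one hδ (hI p hp)
  have h4 : (1:ℂ) = pv δ s p * 1 := sub_eq_zero.mp (norm_eq_zero.mp h0)
  rw [← h4, norm_one] at h3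
  norm_num at h3

lemma gz_eq (α : ℝ) (f : ℝ → ℝ) (a b : ℝ) (z : ℕ) (t : ℝ) :
    gz P θ α f a b z t = If f a b (D0 P θ α 0 (S0 z)) t := by
  unfold gz If
  refine integral_congr_ae (ae_of_all _ fun x => ?_)
  show f x * _ = f x * _
  rw [GV_D0 α 0 (fun p hp => Bz'_prime hp), S0_eq]

lemma gz_cont (α : ℝ) {f : ℝ → ℝ} (hf : Continuous f) (a b : ℝ) (z : ℕ) : Continuous (gz P θ α f a b z) := by
  have h : gz P θ α f a b z = If f a b (D0 P θ α 0 (S0 z)) := funext fun t => gz_eq α f a b z t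
  rw [h]
  exact If_cont hf (D0_cont α le_rfl fun p hp => (mem_S0.mp hp).2) a b

/-- the comparison over a window -/
theorem win_main (h : Ph P θ) {c y δ α ε X1 X2 W m Y B V Q1 Q2 : ℝ} {z J Rs N K : ℕ} {A0 : P1}
    (H : Cf c y δ α ε X1 X2 W m Y B V Q1 Q2 z J Rs N K A0) (hα1 : α ≤ 1) {e' : ℝ} (hPP : PP α e' z A0) (he0 : 0 ≤ e')
    (he1 : e' ≤ 1 / 30) {f : ℝ → ℝ} (hf : Continuous f) {a b F : ℝ} (hab : a ≤ b) (hF0 : 0 ≤ F)
    (hF : ∀ x ∈ Set.Icc a b, |f x| ≤ F) {u1 u2 : ℝ} (hu : u1 ≤ u2) (h1 : X1 ≤ u1 + a) (h2 : u2 + b ≤ X2) {lam : ℝ}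
    (hl : 0 < lam) (hL2 : ∫ t in Set.Icc u1 u2, (∫ x in Set.Icc a b, f x * Wt δ α z y J Rs A0 t x) ^ 2 ≤ lam ^ 2 * (u2 - u1))
    {η1 : ℝ} (hGV : ∀ w : ℕ → ℂ, (∀ p, ‖w p‖ = 1) → ∀ x : ℝ, |GV P θ α δ (S0 z) w x - GV P θ α 0 (S0 z) w x| ≤ η1) :
    ∫ t in Set.Icc u1 u2, |If f a b (fun s => zn (1 / 2 + δ) s ^ (2 * α)) t / (B * Real.exp (α ^ 2 * V)) -
      gz P θ α f a b z t| ≤ F * ((b - a) * (140 * ε * X2)) + lam * (u2 - u1) +
        F * ((b - a) * (7 * e' * 48 ^ (S0 z).card + η1)) * (u2 - u1) := by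
  have hpm : ∀ p ∈ S0 z, p.Prime := fun p hp => (mem_S0.mp hp).2
  have hB1 := H.iB1
  have hEV : 0 < Real.exp (α ^ 2 * V) := Real.exp_pos _
  have hN0 : 0 < B * Real.exp (α ^ 2 * V) := by positivity
  have hY := H.iY
  have hcl := H.cl
  have cw := H.c1
  have cz := H.c0
  have hBe := H.iB
  have hVe := H.iV
  have hX2 := H.X20
  have hδ := H.id0
  have hα := H.ia0
  set N0 := B * Real.exp (α ^ 2 * V) with hN0d
  have cD1 : Continuous fun s => zn (1 / 2 + δ) s ^ (2 * α) / N0 := cz.div_const _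
  have cD2 : Continuous fun s => wf δ α z y J Rs A0 s / N0 := cw.div_const _
  have cD3 : Continuous fun s : ℝ => ‖es (1 / 2 + δ + s * Complex.I) A0‖ ^ 2 / B := (es_cont0 δ H.iA).div_const _
  have cD4 : Continuous (D0 P θ α 0 (S0 z)) := D0_cont α le_rfl hpm
  have d12 : Continuous fun s => zn (1 / 2 + δ) s ^ (2 * α) / N0 - wf δ α z y J Rs A0 s / N0 := cD1.sub cD2
  have d23 : Continuous fun s : ℝ => wf δ α z y J Rs A0 s / N0 - ‖es (1 / 2 + δ + s * Complex.I) A0‖ ^ 2 / B := cD2.sub cD3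
  have d34 : Continuous fun s : ℝ => ‖es (1 / 2 + δ + s * Complex.I) A0‖ ^ 2 / B - D0 P θ α 0 (S0 z) s := cD3.sub cD4
  have e0 : ∀ t, If f a b (fun s => zn (1 / 2 + δ) s ^ (2 * α)) t / N0 - gz P θ α f a b z t =
      If f a b (fun s => zn (1 / 2 + δ) s ^ (2 * α) / N0 - wf δ α z y J Rs A0 s / N0) t +
      If f a b (fun s => wf δ α z y J Rs A0 s / N0 - ‖es (1 / 2 + δ + s * Complex.I) A0‖ ^ 2 / B) t +
      If f a b (fun s => ‖es (1 / 2 + δ + s * Complex.I) A0‖ ^ 2 / B - D0 P θ α 0 (S0 z) s) t := by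
    intro t
    rw [← If_sub hf cD1 cD2, ← If_sub hf cD2 cD3, ← If_sub hf cD3 cD4, gz_eq]
    have e1 : If f a b (fun s => zn (1 / 2 + δ) s ^ (2 * α)) t / N0 =
        If f a b (fun s => zn (1 / 2 + δ) s ^ (2 * α) / N0) t := by
      unfold If
      rw [← integral_div]
      refine integral_congr_ae (ae_of_all _ fun x => ?_)
      show f x * _ / N0 = f x * (_ / N0)
      ring
    rw [e1]; ring
  have c12 : Continuous (If f a b (fun s => zn (1 / 2 + δ) s ^ (2 * α) / N0 - wf δ α z y J Rs A0 s / N0)) :=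
    If_cont hf d12 a b
  have c23 : Continuous (If f a b (fun s => wf δ α z y J Rs A0 s / N0 - ‖es (1 / 2 + δ + s * Complex.I) A0‖ ^ 2 / B)) :=
    If_cont hf d23 a b
  have c34 : Continuous (If f a b (fun s => ‖es (1 / 2 + δ + s * Complex.I) A0‖ ^ 2 / B - D0 P θ α 0 (S0 z) s)) :=
    If_cont hf d34 a b
  -- the three parts
  have p1 : ∫ t in Set.Icc u1 u2, |If f a b (fun s => zn (1 / 2 + δ) s ^ (2 * α) / N0 - wf δ α z y J Rs A0 s / N0) t| ≤
      F * ((b - a) * (140 * ε * X2)) := by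
    refine (If_L1 hf d12 hab hF0 hF hu h1 h2).trans ?_
    have e1 : ∫ s in X1..X2, |zn (1 / 2 + δ) s ^ (2 * α) / N0 - wf δ α z y J Rs A0 s / N0| =
        (∫ s in X1..X2, |zn (1 / 2 + δ) s ^ (2 * α) - wf δ α z y J Rs A0 s|) / N0 := by
      rw [← intervalIntegral.integral_div]
      refine intervalIntegral.integral_congr fun s _ => ?_
      show |_ / N0 - _ / N0| = |_ - _| / N0
      rw [← sub_div, abs_div, abs_of_pos hN0]
    rw [e1]
    have h3 : (∫ s in X1..X2, |zn (1 / 2 + δ) s ^ (2 * α) - wf δ α z y J Rs A0 s|) / N0 ≤ 140 * ε * X2 := by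
      rw [div_le_iff₀ hN0]
      refine hcl.trans (le_of_eq ?_)
      rw [← hY, hN0d]; ring
    have h4 : 0 ≤ b - a := by linarith
    exact mul_le_mul_of_nonneg_left (mul_le_mul_of_nonneg_left h3 h4) hF0
  have p2 : ∫ t in Set.Icc u1 u2, |If f a b (fun s => wf δ α z y J Rs A0 s / N0 -
      ‖es (1 / 2 + δ + s * Complex.I) A0‖ ^ 2 / B) t| ≤ lam * (u2 - u1) := by
    refine L2_L1 c23 hu hl (le_trans (le_of_eq ?_) hL2)
    refine integral_congr_ae (ae_of_all _ fun t => ?_)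
    show (If f a b (fun s => wf δ α z y J Rs A0 s / N0 - ‖es (1 / 2 + δ + s * Complex.I) A0‖ ^ 2 / B) t) ^ 2 =
      (∫ x in Set.Icc a b, f x * Wt δ α z y J Rs A0 t x) ^ 2
    congr 1
    unfold If Wt
    rw [hN0d, hBe, hVe]
  have p3 : ∀ t, |If f a b (fun s => ‖es (1 / 2 + δ + s * Complex.I) A0‖ ^ 2 / B - D0 P θ α 0 (S0 z) s) t| ≤
      F * ((b - a) * (7 * e' * 48 ^ (S0 z).card + η1)) := by
    intro t
    refine (If_abs hf d34 hF t).trans (mul_le_mul_of_nonneg_left ?_ hF0)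
    have hb : ∀ x ∈ Set.Icc a b, |‖es (1 / 2 + δ + ((t + x : ℝ) : ℂ) * Complex.I) A0‖ ^ 2 / B - D0 P θ α 0 (S0 z) (t + x)| ≤
        7 * e' * 48 ^ (S0 z).card + η1 := by
      intro x _
      have g1 := poly_near h hPP he0 he1 H.iA hα.le hα1 hδ t x
      have g2 := hGV (fun p => ee (tt t p)) (fun p => ee_norm _) x
      rw [← hBe] at g1
      rw [← GV_D0 α 0 hpm]
      exact (abs_sub_le _ _ _).trans (add_le_add g1 g2)
    have d34' : Continuous fun x : ℝ => |‖es (1 / 2 + δ + ((t + x : ℝ) : ℂ) * Complex.I) A0‖ ^ 2 / B - D0 P θ α 0 (S0 z) (t + x)| :=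
      (d34.comp (continuous_const.add continuous_id : Continuous fun x : ℝ => t + x)).abs
    have h3 := setIntegral_mono_on (μ := volume) (s := Set.Icc a b)
      (f := fun x => |‖es (1 / 2 + δ + ((t + x : ℝ) : ℂ) * Complex.I) A0‖ ^ 2 / B - D0 P θ α 0 (S0 z) (t + x)|)
      (g := fun _ => 7 * e' * 48 ^ (S0 z).card + η1)
      d34'.integrableOn_Icc continuous_const.integrableOn_Icc measurableSet_Icc hb
    refine h3.trans (le_of_eq ?_)
    rw [setIntegral_const, smul_eq_mul, Real.volume_real_Icc_of_le hab]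
  simp_rw [e0]
  clear e0
  generalize If f a b (fun s => zn (1 / 2 + δ) s ^ (2 * α) / N0 - wf δ α z y J Rs A0 s / N0) = g1 at *
  generalize If f a b (fun s => wf δ α z y J Rs A0 s / N0 - ‖es (1 / 2 + δ + s * Complex.I) A0‖ ^ 2 / B) = g2 at *
  generalize If f a b (fun s => ‖es (1 / 2 + δ + s * Complex.I) A0‖ ^ 2 / B - D0 P θ α 0 (S0 z) s) = g3 at *
  generalize F * ((b - a) * (7 * e' * 48 ^ (S0 z).card + η1)) = C at *
  have hle : ∀ t ∈ Set.Icc u1 u2, |g1 t + g2 t + g3 t| ≤ (|g1 t| + |g2 t|) + C := by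
    intro t _
    exact (abs_add_le _ _).trans (add_le_add (abs_add_le _ _) (p3 t))
  have k1 : Continuous fun t => |g1 t + g2 t + g3 t| := ((c12.add c23).add c34).abs
  have k2 : Continuous fun t => |g1 t| + |g2 t| := c12.abs.add c23.abs
  have k3 : Continuous fun t => (|g1 t| + |g2 t|) + C := k2.add continuous_const
  refine (setIntegral_mono_on k1.integrableOn_Icc k3.integrableOn_Icc measurableSet_Icc hle).trans ?_
  have k4 : Continuous fun _ : ℝ => C := continuous_const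
  rw [integral_add k2.integrableOn_Icc k4.integrableOn_Icc,
    integral_add c12.abs.integrableOn_Icc c23.abs.integrableOn_Icc, setIntegral_const, smul_eq_mul,
    Real.volume_real_Icc_of_le hu]
  linarith

end Pool.Agent.T6.H99.CH
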