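import Pool.Agent.T6.H99.CH.V5

set_option autoImplicit false
set_option linter.unusedSectionVars false

/-! The normalisation, and the beginning of the interval. -/

namespace Pool.Agent.T6.H99.CH

open Finset MeasureTheory ProbabilityTheory Filter Topology MonoidAlgebra
open Pool.Agent.Y755
open Pool.Agent.Y753.NL
open Pool.Agent.W184.NZ
open Pool.Agent.W184 (zn zn_nonneg zn_cont zn_le' zn_neg)
open Pool.Agent.H306R2 (aF aF_pos)

variable {Ω : Type*} [mΩ : MeasurableSpace Ω] {P : Measure Ω} {θ : ℕ → Ω → ℝ}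

/-- the normalisation -/
lemma N0_near {X N0 D I ε : ℝ} (hε : 0 < ε) (hε1 : ε ≤ 1 / 1000) (hX : 0 < X) (hD : 0 < D) (_hN : 0 < N0)
    (h1 : |I - X * N0| ≤ 200 * ε * (X * N0)) (h2 : (1 - ε) * (X * D) ≤ I) (h3 : I ≤ (1 + ε) * (X * D)) :
    |N0 - D| ≤ 300 * ε * D := by
  obtain ⟨h4, h5⟩ := abs_le.mp h1
  have h6 : (1 - 200 * ε) * N0 ≤ (1 + ε) * D := by
    have : X * ((1 - 200 * ε) * N0) ≤ X * ((1 + ε) * D) := by nlinarith
    exact le_of_mul_le_mul_left this hX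
  have h7 : (1 - ε) * D ≤ (1 + 200 * ε) * N0 := by
    have : X * ((1 - ε) * D) ≤ X * ((1 + 200 * ε) * N0) := by nlinarith
    exact le_of_mul_le_mul_left this hX
  rw [abs_le]
  constructor
  · have h8 : (1 - 201 * ε) * D ≤ N0 := by
      by_contra hc
      push Not at hc
      have h9 : (1 + 200 * ε) * N0 < (1 + 200 * ε) * ((1 - 201 * ε) * D) := mul_lt_mul_of_pos_left hc (by linarith)
      have h10 : (1 + 200 * ε) * ((1 - 201 * ε) * D) ≤ (1 - ε) * D := by nlinarith [mul_pos hε hD]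
      linarith
    nlinarith [mul_pos hε hD]
  · have h8 : N0 ≤ (1 + 300 * ε) * D := by
      by_contra hc
      push Not at hc
      have h9 : (1 - 200 * ε) * ((1 + 300 * ε) * D) < (1 - 200 * ε) * N0 := mul_lt_mul_of_pos_left hc (by linarith)
      have h10 : (1 + ε) * D ≤ (1 - 200 * ε) * ((1 + 300 * ε) * D) := by
        have h11 : ε ^ 2 ≤ ε / 1000 := by nlinarith
        nlinarith [mul_pos hε hD, mul_le_mul_of_nonneg_right h11 hD.le]
      linarith
    linarith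

/-- the mean of the absolute value -/
lemma Mz_abs_mean (h : Ph P θ) {α : ℝ} (hα : 0 ≤ α) (hα1 : α ≤ 1) {a b F : ℝ} (hab : a ≤ b) {f : ℝ → ℝ}
    (hf : Continuous f) (hF : ∀ x ∈ Set.Icc a b, |f x| ≤ F) (z : ℕ) :
    ∫ ω, |Mz P θ α f a b z ω| ∂P ≤ F * (b - a) := by
  have hpr := h.pr
  have hFa : ∀ x ∈ Set.Icc a b, |(|f x|)| ≤ F := fun x hx => by rw [abs_abs]; exact hF x hx
  have h1 : ∀ ω, |Mz P θ α f a b z ω| ≤ Mz P θ α (fun x => |f x|) a b z ω := by
    intro ω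
    unfold Mz
    rw [← Real.norm_eq_abs]
    refine (norm_integral_le_integral_norm _).trans (le_of_eq ?_)
    refine integral_congr_ae (ae_of_all _ fun x => ?_)
    show ‖f x * GF P θ α 0 (Bz' z) ω x‖ = |f x| * GF P θ α 0 (Bz' z) ω x
    obtain ⟨g1, -⟩ := GF_range h hα hα1 le_rfl (I := Bz' z) (fun p hp => Bz'_prime hp) ω x
    rw [Real.norm_eq_abs, abs_mul, abs_of_pos g1]
  have i1 : Integrable (Mz P θ α f a b z) P := (Mz_memLp h hα hα1 hab hf.measurable hF z 1).integrable le_rfl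
  have i2 : Integrable (Mz P θ α (fun x => |f x|) a b z) P :=
    (Mz_memLp h hα hα1 hab hf.abs.measurable hFa z 1).integrable le_rfl
  refine (integral_mono i1.abs i2 h1).trans ?_
  rw [Mz_mean h hα hα1 hab hf.abs.measurable hFa z]
  have h2 := setIntegral_mono_on (μ := volume) hf.abs.integrableOn_Icc (continuous_const (y := F)).integrableOn_Icc
    measurableSet_Icc hF (s := Set.Icc a b)
  refine h2.trans (le_of_eq ?_)
  rw [setIntegral_const, smul_eq_mul, Real.volume_real_Icc_of_le hab]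
  ring

lemma gz_bdd (h : Ph P θ) {α : ℝ} (hα : 0 ≤ α) (hα1 : α ≤ 1) {a b F : ℝ} (hab : a ≤ b) (hF0 : 0 ≤ F) {f : ℝ → ℝ}
    (hf : Continuous f) (hF : ∀ x ∈ Set.Icc a b, |f x| ≤ F) (z : ℕ) (t : ℝ) :
    |gz P θ α f a b z t| ≤ F * ((b - a) * 48 ^ (S0 z).card) := by
  have hpm : ∀ p ∈ S0 z, p.Prime := fun p hp => (mem_S0.mp hp).2
  rw [gz_eq]
  refine (If_abs hf (D0_cont α le_rfl hpm) hF t).trans (mul_le_mul_of_nonneg_left ?_ hF0)
  have hb : ∀ x ∈ Set.Icc a b, |D0 P θ α 0 (S0 z) (t + x)| ≤ 48 ^ (S0 z).card := by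
    intro x _
    rw [← GV_D0 α 0 hpm]
    obtain ⟨g1, g2⟩ := GV_range h hα hα1 (le_refl (0:ℝ)) hpm (w := fun p => ee (tt t p)) (fun p => ee_norm _) x
    rw [abs_of_pos g1]; exact g2
  have hc : Continuous fun x : ℝ => |D0 P θ α 0 (S0 z) (t + x)| :=
    ((D0_cont α le_rfl hpm).comp (continuous_const.add continuous_id : Continuous fun x : ℝ => t + x)).abs
  have h3 := setIntegral_mono_on (μ := volume) (s := Set.Icc a b) hc.integrableOn_Icc
    (continuous_const (y := (48:ℝ) ^ (S0 z).card)).integrableOn_Icc measurableSet_Icc hb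
  refine h3.trans (le_of_eq ?_)
  rw [setIntegral_const, smul_eq_mul, Real.volume_real_Icc_of_le hab]

/-- the mean of the field along the line -/
lemma gz_mean (h : Ph P θ) {α : ℝ} (hα : 0 ≤ α) (hα1 : α ≤ 1) {a b F : ℝ} (hab : a ≤ b) {f : ℝ → ℝ}
    (hf : Continuous f) (hF : ∀ x ∈ Set.Icc a b, |f x| ≤ F) (z : ℕ) :
    ∀ᶠ X : ℝ in atTop, ∫ t in Set.Icc 0 X, |gz P θ α f a b z t| ≤ (F * (b - a) + 1) * X := by
  have h1 := gz_weyl (P := P) (θ := θ) h (α := α) hf a b z (ψ := fun x => |x|) continuous_abs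
  have h2 := Mz_abs_mean h hα hα1 hab hf hF z
  have h3 := h1.eventually (gt_mem_nhds (show ∫ ω, |Mz P θ α f a b z ω| ∂P < F * (b - a) + 1 by linarith))
  filter_upwards [h3, eventually_gt_atTop 0] with X hX hX0
  rw [inv_mul_lt_iff₀ hX0] at hX
  rw [integral_Icc_eq_integral_Ioc, ← intervalIntegral.integral_of_le hX0.le]
  linarith

/-- the beginning of the interval -/
lemma init_part {α δ : ℝ} (hα : 0 < α) (hδ : 0 < δ) (hδ1 : δ ≤ 1 / 16) {f : ℝ → ℝ} (hf : Continuous f) {a b F s u1 V D : ℝ}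
    (hab : a ≤ b) (hF0 : 0 ≤ F) (hF : ∀ x ∈ Set.Icc a b, |f x| ≤ F) (hs0 : 0 ≤ s) (hsa : -s ≤ a) (hsb : b ≤ s) (hu : 0 ≤ u1)
    (hV : u1 + s ≤ V) (hD : ∫ t in (0:ℝ)..V, zn (1 / 2 + δ) t ^ (2 * α) ≤ 2 * (V * D)) :
    ∫ t in Set.Icc 0 u1, |If f a b (fun s => zn (1 / 2 + δ) s ^ (2 * α)) t| ≤ F * ((b - a) * (4 * (V * D))) := by
  have hc : Continuous fun t => zn (1 / 2 + δ) t ^ (2 * α) := znp_cont (by linarith) (by linarith)
  have hn : ∀ t, 0 ≤ zn (1 / 2 + δ) t ^ (2 * α) := fun t => Real.rpow_nonneg (zn_nonneg _ _) _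
  have h1 := If_L1 hf hc hab hF0 hF hu (X1 := -s) (X2 := V) (by linarith) (by linarith)
  refine h1.trans (mul_le_mul_of_nonneg_left (mul_le_mul_of_nonneg_left ?_ (by linarith)) hF0)
  have e1 : ∫ t in (-s)..V, |zn (1 / 2 + δ) t ^ (2 * α)| = ∫ t in (-s)..V, zn (1 / 2 + δ) t ^ (2 * α) :=
    intervalIntegral.integral_congr fun t _ => abs_of_nonneg (hn t)
  rw [e1, ← intervalIntegral.integral_add_adjacent_intervals (hc.intervalIntegrable (-s) 0) (hc.intervalIntegrable 0 V)]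
  have e2 : ∫ t in (-s)..0, zn (1 / 2 + δ) t ^ (2 * α) = ∫ t in (0:ℝ)..s, zn (1 / 2 + δ) t ^ (2 * α) := by
    have h2 := intervalIntegral.integral_comp_neg (a := (0:ℝ)) (b := s) (fun t => zn (1 / 2 + δ) t ^ (2 * α))
    rw [neg_zero] at h2
    rw [← h2]
    refine intervalIntegral.integral_congr fun t _ => ?_
    show zn (1 / 2 + δ) (-t) ^ (2 * α) = _
    rw [zn_neg]
  rw [e2]
  have h3 : ∫ t in (0:ℝ)..s, zn (1 / 2 + δ) t ^ (2 * α) ≤ ∫ t in (0:ℝ)..V, zn (1 / 2 + δ) t ^ (2 * α) :=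
    intervalIntegral.integral_mono_interval le_rfl hs0 (by linarith) (Filter.Eventually.of_forall hn)
      (hc.intervalIntegrable _ _)
  linarith

/-- combination of the errors -/
lemma combine {A FU ρN0 E5 ε lam q X I1 I2 I3 I4 G η rest : ℝ} (hA : 0 ≤ A) (hFU : 0 ≤ FU) (hX : 0 ≤ X)
    (hG : G = (A + 1) * (FU + 1)) (hη : 0 < η) (hN : ρN0 ≤ 2 * (A + 1)) (_hN0 : 0 ≤ ρN0)
    (hE : E5 ≤ X * (280 * FU * ε + lam + FU * q)) (hE0 : 0 ≤ E5)
    (hd : |ρN0 - A| ≤ 301 * ε * (A + 1)) (hε0 : 0 < ε) (hε : ε ≤ η / (4000 * G)) (hlam : lam = η / (8 * (A + 1))) (hq : q ≤ η / (8 * G))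
    (hI4 : I4 ≤ (FU + 1) * X) (hI40 : 0 ≤ I4) (hI : I1 ≤ I2 + I3) (hI3 : I3 ≤ ρN0 * E5 + |ρN0 - A| * I4) (hI2 : I2 ≤ rest)
    (hr : rest ≤ η / 4 * X) : I1 ≤ η * X := by
  have hG0 : 0 < G := by rw [hG]; positivity
  have k1 : ρN0 * E5 ≤ 2 * (A + 1) * (X * (280 * FU * ε + lam + FU * q)) := mul_le_mul hN hE hE0 (by positivity)
  have k2 : |ρN0 - A| * I4 ≤ 301 * ε * (A + 1) * ((FU + 1) * X) := mul_le_mul hd hI4 hI40 (by positivity)
  have k3 : 2 * (A + 1) * (280 * FU * ε) + 301 * ε * (A + 1) * (FU + 1) ≤ η / 4 := by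
    have e1 : 2 * (A + 1) * (280 * FU * ε) ≤ 560 * ε * G := by
      rw [hG]
      have : 0 ≤ ε * (A + 1) := by positivity
      nlinarith
    have e2 : 301 * ε * (A + 1) * (FU + 1) = 301 * ε * G := by rw [hG]; ring
    have e3 : ε * G ≤ η / 4000 := by
      have := mul_le_mul_of_nonneg_right hε hG0.le
      have e4 : η / (4000 * G) * G = η / 4000 := by field_simp
      linarith
    nlinarith
  have k4 : 2 * (A + 1) * lam = η / 4 := by rw [hlam]; field_simp; norm_num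
  have k5 : 2 * (A + 1) * (FU * q) ≤ η / 4 := by
    rcases le_total q 0 with hq0 | hq0
    · have : (A + 1) * (FU * q) ≤ 0 := mul_nonpos_of_nonneg_of_nonpos (by linarith) (mul_nonpos_of_nonneg_of_nonpos hFU hq0)
      nlinarith
    · have e1 : (A + 1) * FU ≤ G := by rw [hG]; nlinarith
      have e2 : G * q ≤ η / 8 := by
        have := mul_le_mul_of_nonneg_left hq hG0.le
        have e3 : G * (η / (8 * G)) = η / 8 := by field_simp
        linarith
      have e4 := mul_le_mul_of_nonneg_right e1 hq0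
      nlinarith
  have k6 : 2 * (A + 1) * (X * (280 * FU * ε + lam + FU * q)) + 301 * ε * (A + 1) * ((FU + 1) * X) =
      X * (2 * (A + 1) * (280 * FU * ε) + 301 * ε * (A + 1) * (FU + 1) + 2 * (A + 1) * lam + 2 * (A + 1) * (FU * q)) := by ring
  have k7 : X * (2 * (A + 1) * (280 * FU * ε) + 301 * ε * (A + 1) * (FU + 1) + 2 * (A + 1) * lam + 2 * (A + 1) * (FU * q)) ≤
      X * (η / 4 + η / 4 + η / 4) := by
    refine mul_le_mul_of_nonneg_left ?_ hX
    linarith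
  nlinarith

end Pool.Agent.T6.H99.CH
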