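import Pool.Agent.T6.H99.CH.V6

set_option autoImplicit false
set_option linter.unusedSectionVars false

/-! The approximation in mean. -/

namespace Pool.Agent.T6.H99.CH

open Finset MeasureTheory ProbabilityTheory Filter Topology MonoidAlgebra
open Pool.Agent.Y755
open Pool.Agent.Y753.NL
open Pool.Agent.W184.NZ
open Pool.Agent.W184 (zn zn_nonneg zn_cont zn_le' zn_neg)
open Pool.Agent.H306R2 (aF aF_pos)

variable {Ω : Type*} [mΩ : MeasurableSpace Ω] {P : Measure Ω} {θ : ℕ → Ω → ℝ}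

/-- comparisons of powers of the two scales -/
lemma scales {s κ M : ℝ} (hs : 0 ≤ s) (hκ : 0 < κ) : ∀ᶠ X : ℝ in atTop, 1 ≤ X ∧ s ≤ X ∧
    (2 * (X + s)) ^ ((4:ℝ)/5) + s ≤ X / 2 ∧ (2 * (X + s)) ^ ((4:ℝ)/5) + 2 * s ≤ κ * X ∧
    M * ((2 * (X + s)) ^ ((1:ℝ) / 50)) ^ 4 ≤ κ * X ∧ X ^ ((1:ℝ)/2) ≤ (2 * (X + s)) ^ ((4:ℝ)/5) := by
  have t1 : Tendsto (fun X : ℝ => 2 * (X + s)) atTop atTop :=
    (tendsto_atTop_add_const_right _ s tendsto_id).const_mul_atTop (by norm_num)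
  set κ' := min κ (1 / 4) with hκ'
  have hκ0 : 0 < κ' := lt_min hκ (by norm_num)
  have hκ1 : κ' ≤ κ := min_le_left _ _
  have hκ4 : κ' ≤ 1 / 4 := min_le_right _ _
  filter_upwards [eventually_ge_atTop 1, eventually_ge_atTop s, eventually_ge_atTop (4 * s / κ'),
    t1.eventually (rpow_ev (p := 4 / 5) (q := 1) (by norm_num) (8 / κ')),
    t1.eventually (rpow_ev (p := 4 / 50) (q := 1) (by norm_num) (4 * |M| / κ'))] with X h1 h2 h3 h4 h5
  have hT : 0 < 2 * (X + s) := by linarith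
  rw [Real.rpow_one] at h4 h5
  have h3' : 4 * s ≤ κ' * X := by
    rw [div_le_iff₀ hκ0] at h3; linarith
  have h4' : (2 * (X + s)) ^ ((4:ℝ)/5) ≤ κ' / 2 * X := by
    have h6 := mul_le_mul_of_nonneg_left h4 (by positivity : 0 ≤ κ' / 8)
    have e : κ' / 8 * (8 / κ' * (2 * (X + s)) ^ ((4:ℝ)/5)) = (2 * (X + s)) ^ ((4:ℝ)/5) := by field_simp
    rw [e] at h6
    refine h6.trans ?_
    nlinarith
  refine ⟨h1, h2, ?_, ?_, ?_, ?_⟩
  · nlinarith
  · nlinarith
  · have e4 : ((2 * (X + s)) ^ ((1:ℝ) / 50)) ^ 4 = (2 * (X + s)) ^ ((4:ℝ) / 50) := by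
      rw [← Real.rpow_natCast, ← Real.rpow_mul hT.le]; norm_num
    rw [e4]
    have h6 := mul_le_mul_of_nonneg_left h5 (by positivity : 0 ≤ κ' / 4)
    have e : κ' / 4 * (4 * |M| / κ' * (2 * (X + s)) ^ ((4:ℝ) / 50)) = |M| * (2 * (X + s)) ^ ((4:ℝ) / 50) := by field_simp
    rw [e] at h6
    have h7 : M * (2 * (X + s)) ^ ((4:ℝ) / 50) ≤ |M| * (2 * (X + s)) ^ ((4:ℝ) / 50) :=
      mul_le_mul_of_nonneg_right (le_abs_self M) (by positivity)
    have h8 : κ' / 4 * (2 * (X + s)) ≤ κ * X := by nlinarith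
    linarith
  · calc X ^ ((1:ℝ)/2) ≤ (2 * (X + s)) ^ ((1:ℝ)/2) := Real.rpow_le_rpow (by linarith) (by linarith) (by norm_num)
      _ ≤ (2 * (X + s)) ^ ((4:ℝ)/5) := Real.rpow_le_rpow_of_exponent_le (by linarith) (by norm_num)

lemma lam_use {lam Λ X Z δ : ℝ} (hlam : 0 ≤ lam) (hΛ : 2 * lam ≤ Λ) (hX : 1 < X) (hδ : Λ ≤ δ * Real.log X)
    (hZ : X ^ ((1:ℝ)/2) ≤ Z) : lam / Real.log Z ≤ δ := by
  have hX0 : 0 < X := by linarith
  have hL : 0 < Real.log X := Real.log_pos hX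
  have h1 : Real.log X / 2 ≤ Real.log Z := by
    have := Real.log_le_log (by positivity) hZ
    rw [Real.log_rpow hX0] at this
    linarith
  have hZ0 : 0 < Real.log Z := by linarith
  rw [div_le_iff₀ hZ0]
  have hδ0 : 0 ≤ δ := by
    by_contra hc
    push Not at hc
    have : δ * Real.log X < 0 := mul_neg_of_neg_of_pos hc hL
    linarith
  have h2 := mul_le_mul_of_nonneg_left h1 hδ0
  linarith

/-- the field is close to the Euler product over the small primes -/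
theorem approx (h : Ph P θ) {α : ℝ} (hα : 0 < α) (hα1 : 2 * α ^ 2 < 1) {a b : ℝ} (hab : a ≤ b) {f : ℝ → ℝ}
    (hf : Continuous f) {δ : ℝ → ℝ} (hδ0 : Tendsto δ atTop (𝓝 0)) (hδ1 : Tendsto (fun T => δ T * Real.log T) atTop atTop)
    {η : ℝ} (hη : 0 < η) (zm : ℕ) : ∃ z : ℕ, zm ≤ z ∧ ∀ᶠ X : ℝ in atTop,
      ∫ t in Set.Icc 0 X, |(2 * δ X) ^ (α ^ 2) * If f a b (fun s => zn (1 / 2 + δ X) s ^ (2 * α)) t -
        aF α * gz P θ α f a b z t| ≤ η * X := by
  have hα' : α ≤ 1 := by nlinarith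
  obtain ⟨F, hF⟩ : ∃ F : ℝ, ∀ x ∈ Set.Icc a b, |f x| ≤ F := by
    obtain ⟨F, hF⟩ := isCompact_Icc.exists_bound_of_continuousOn (s := Set.Icc a b) hf.continuousOn
    exact ⟨F, fun x hx => by rw [← Real.norm_eq_abs]; exact hF x hx⟩
  have hF0 : 0 ≤ F := (abs_nonneg _).trans (hF a ⟨le_rfl, hab⟩)
  have hU0 : 0 ≤ b - a := by linarith
  obtain ⟨FU, hFU⟩ : ∃ FU : ℝ, FU = F * (b - a) := ⟨_, rfl⟩
  have hFU0 : 0 ≤ FU := by rw [hFU]; positivity
  obtain ⟨A, hA⟩ : ∃ A : ℝ, A = aF α := ⟨_, rfl⟩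
  have hA0 : 0 < A := by rw [hA]; exact aF_pos hα
  obtain ⟨G, hG⟩ : ∃ G : ℝ, G = (A + 1) * (FU + 1) := ⟨_, rfl⟩
  have hG0 : 0 < G := by rw [hG]; positivity
  obtain ⟨s, hs⟩ : ∃ s : ℝ, s = |a| + |b| := ⟨_, rfl⟩
  have hs0 : 0 ≤ s := by rw [hs]; positivity
  have hsa : -s ≤ a := by rw [hs]; have := neg_abs_le a; have := abs_nonneg b; linarith
  have hsb : b ≤ s := by rw [hs]; have := le_abs_self b; have := abs_nonneg a; linarith
  -- parameters
  obtain ⟨lam0, hlam0⟩ : ∃ lam0 : ℝ, lam0 = η / (8 * (A + 1)) := ⟨_, rfl⟩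
  have hl0 : 0 < lam0 := by rw [hlam0]; positivity
  obtain ⟨c, hc0, hcf⟩ := cf_ex
  obtain ⟨z1, R1, e1, he10, he11, hL2⟩ := L2_small h hα.le hα1 hab hf.measurable hF hc0 (η := lam0 ^ 2) (by positivity)
  -- the precision: any smaller η may be used
  obtain ⟨η', hη'0, hη'1, hη'2⟩ : ∃ η' : ℝ, 0 < η' ∧ η' ≤ η ∧ η' / (4000 * G) ≤ min (1 / 1000) e1 := by
    refine ⟨min η (min (1 / 1000) e1 * (4000 * G)), by positivity, min_le_left _ _, ?_⟩
    rw [div_le_iff₀ (by positivity)]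
    exact min_le_right _ _
  obtain ⟨ε, hε⟩ : ∃ ε : ℝ, ε = η' / (4000 * G) := ⟨_, rfl⟩
  have hε0 : 0 < ε := by rw [hε]; positivity
  have hε1 : ε ≤ 1 / 1000 := by rw [hε]; exact hη'2.trans (min_le_left _ _)
  have hεe : ε ≤ e1 := by rw [hε]; exact hη'2.trans (min_le_right _ _)
  obtain ⟨z, Rs, hz, hR, hcf2⟩ := hcf hα (by linarith) hε0 (by linarith) (max zm z1) R1
  refine ⟨z, (le_max_left _ _).trans hz, ?_⟩
  obtain ⟨C, hC⟩ : ∃ C : ℝ, C = 48 ^ (S0 z).card := ⟨_, rfl⟩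
  have hC0 : 0 < C := by rw [hC]; positivity
  obtain ⟨e', he'0, he'1, he'2, he'3⟩ : ∃ e' : ℝ, 0 < e' ∧ 3 * e' ≤ ε ∧ e' ≤ 1 / 30 ∧ 7 * e' * C ≤ η' / (16 * G) := by
    refine ⟨min (ε / 3) (min (1 / 30) (η' / (16 * G) / (7 * C))), by positivity, ?_, ?_, ?_⟩
    · have := min_le_left (ε / 3) (min (1 / 30) (η' / (16 * G) / (7 * C))); linarith
    · exact (min_le_right _ _).trans (min_le_left _ _)
    · have h1 : min (ε / 3) (min (1 / 30) (η' / (16 * G) / (7 * C))) ≤ η' / (16 * G) / (7 * C) :=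
        (min_le_right _ _).trans (min_le_right _ _)
      rw [le_div_iff₀ (by positivity)] at h1
      linarith
  obtain ⟨A0, m, hAB, hm0, hAm, hBge, hPP, lam, δ0, hlam1, hδ00, hcf3⟩ := hcf2 he'0 he'1
  obtain ⟨δ1, hδ10, hGV⟩ := GV_near h hα.le hα' (I := S0 z) (fun p hp => (mem_S0.mp hp).2) (η := η' / (16 * G)) (by positivity)
  obtain ⟨lam2, hlam2, hwX⟩ := win_X hα (by linarith) hε0
  obtain ⟨lam3, hlam3, hfull⟩ := full_up hα hα' (ε := 1) one_pos
  obtain ⟨κ, hκ⟩ : ∃ κ : ℝ, κ = min (e1 / 2) (η' / (4 * (4 * G + A * (F * ((b - a) * C)) + 1))) := ⟨_, rfl⟩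
  have hκ0 : 0 < κ := by rw [hκ]; positivity
  have hκ1 : κ ≤ e1 / 2 := by rw [hκ]; exact min_le_left _ _
  have hκ2 : κ ≤ η' / (4 * (4 * G + A * (F * ((b - a) * C)) + 1)) := by rw [hκ]; exact min_le_right _ _
  have t1 : Tendsto (fun X : ℝ => 2 * (X + s)) atTop atTop :=
    (tendsto_atTop_add_const_right _ s tendsto_id).const_mul_atTop (by norm_num)
  have t2 : Tendsto (fun X : ℝ => X + s) atTop atTop := tendsto_atTop_add_const_right _ s tendsto_id
  have t3 : Tendsto (fun X : ℝ => (2 * (X + s)) ^ ((4:ℝ)/5) + 2 * s) atTop atTop :=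
    tendsto_atTop_add_const_right _ _ ((tendsto_rpow_atTop (by norm_num)).comp t1)
  have hpos : ∀ᶠ T in atTop, 0 < δ T := by
    filter_upwards [hδ1.eventually_gt_atTop 0, eventually_gt_atTop 1] with T hT hT1
    exact (pos_iff_pos_of_mul_pos hT).mpr (Real.log_pos hT1)
  have hDD := DD_asym hα hpos hδ0
  rw [← hA] at hDD
  have hDD2 := Metric.tendsto_nhds.mp hDD (min ε 1) (by positivity)
  filter_upwards [t1.eventually hcf3, t2.eventually hwX, t3.eventually hfull, hpos,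
    hδ1.eventually_ge_atTop (2 * (lam + lam2 + lam3)), hδ0.eventually (gt_mem_nhds hδ00),
    hδ0.eventually (gt_mem_nhds hδ10), hδ0.eventually (gt_mem_nhds (show (0:ℝ) < 1 / 16 by norm_num)), hDD2,
    gz_mean h hα.le hα' hab hf hF z, scales (M := 8 * (m ^ 2 * l1' A0 ^ 4)) hs0 hκ0, eventually_gt_atTop 1]
    with X f1 f2 f3 f4 f5 f6 f7 f8 f9 f10 f11 f12
  obtain ⟨g1, g2, g3, g4, g5, g6⟩ := f11
  obtain ⟨d, hd⟩ : ∃ d, d = δ X := ⟨_, rfl⟩
  rw [← hd] at f4 f5 f6 f7 f8 f9 ⊢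
  have hX0 : 0 < X := by linarith only [f12]
  have hXs : X ^ ((1:ℝ)/2) ≤ X := by
    calc X ^ ((1:ℝ)/2) ≤ X ^ (1:ℝ) := Real.rpow_le_rpow_of_exponent_le (by linarith only [f12]) (by norm_num)
      _ = X := Real.rpow_one X
  have hl1 : lam / Real.log (2 * (X + s)) ≤ d :=
    lam_use (by linarith only [hlam1]) (by linarith only [hlam2, hlam3]) f12 f5 (by linarith only [hXs, hs0, hX0])
  have hl2 : lam2 / Real.log (X + s) ≤ d :=
    lam_use (by linarith only [hlam2]) (by linarith only [hlam1, hlam3]) f12 f5 (by linarith only [hXs, hs0, hX0])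
  have hl3 : lam3 / Real.log ((2 * (X + s)) ^ ((4:ℝ)/5) + 2 * s) ≤ d :=
    lam_use (by linarith only [hlam3]) (by linarith only [hlam1, hlam2]) f12 f5 (by linarith only [g6, hs0])
  obtain ⟨y, J, N, K, Q1, Q2, H⟩ := f1 d hl1 f6.le
  have hwin := f2 d hl2 f8.le
  have hful := f3 d hl3 f8.le
  have e2 : 2 * (X + s) / 2 = X + s := by ring
  rw [e2] at H
  obtain ⟨X1, hX1⟩ : ∃ X1, X1 = (2 * (X + s)) ^ ((4:ℝ)/5) := ⟨_, rfl⟩
  rw [← hX1] at H hwin hful g3 g4 g6
  have hX10 : 0 ≤ X1 := H.iX1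
  obtain ⟨W, hW⟩ : ∃ W, W = (2 * (X + s)) ^ ((1:ℝ) / 50) := ⟨_, rfl⟩
  rw [← hW] at H g5
  obtain ⟨D, hD⟩ : ∃ D, D = DD α d := ⟨_, rfl⟩
  rw [← hD] at hwin hful f9
  have hD1 : 1 ≤ D := by rw [hD]; exact DD_ge_one hα f4
  obtain ⟨ρ, hρ⟩ : ∃ ρ, ρ = (2 * d) ^ (α ^ 2) := ⟨_, rfl⟩
  rw [← hρ, Real.dist_eq] at f9
  rw [← hρ]
  have hρ0 : 0 < ρ := by rw [hρ]; positivity
  obtain ⟨N0, hN0⟩ : ∃ N0, N0 = ip d A0 A0 * Real.exp (α ^ 2 * Vd d z y J) := ⟨_, rfl⟩
  have hB1 := H.iB1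
  have hN00 : 0 < N0 := by rw [hN0]; positivity
  -- the normalisation
  have hXs0 : 0 < X + s := by linarith only [hX0, hs0]
  have hfa := H.fa
  rw [← hN0] at hfa
  have hnear := N0_near hε0 hε1 hXs0 (by linarith only [hD1]) hN00 hfa hwin.1 (hwin.2 hα')
  have hρD : |ρ * D - A| ≤ ε := f9.le.trans (min_le_left _ _)
  have hρD1 : ρ * D ≤ A + 1 := by
    have := (abs_le.mp (f9.le.trans (min_le_right ε 1))).2
    linarith only [this]
  have hρN : |ρ * N0 - A| ≤ 301 * ε * (A + 1) := by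
    have k1 : |ρ * N0 - ρ * D| ≤ 300 * ε * (A + 1) := by
      rw [← mul_sub, abs_mul, abs_of_pos hρ0]
      calc ρ * |N0 - D| ≤ ρ * (300 * ε * D) := mul_le_mul_of_nonneg_left hnear hρ0.le
        _ = 300 * ε * (ρ * D) := by ring
        _ ≤ 300 * ε * (A + 1) := mul_le_mul_of_nonneg_left hρD1 (by positivity)
    have k2 : ε ≤ ε * (A + 1) := le_mul_of_one_le_right hε0.le (by linarith only [hA0])
    have k3 := abs_sub_le (ρ * N0) (ρ * D) A
    linarith only [k1, k2, k3, hρD]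
  have hρN2 : ρ * N0 ≤ 2 * (A + 1) := by
    have k1 := (abs_le.mp hρN).2
    have k2 : 301 * ε * (A + 1) ≤ 1 * (A + 1) := mul_le_mul_of_nonneg_right (by linarith only [hε1]) (by linarith only [hA0])
    linarith only [k1, k2, hA0]
  -- the window
  obtain ⟨u1, hu1⟩ : ∃ u1, u1 = X1 + s := ⟨_, rfl⟩
  have hu10 : 0 ≤ u1 := by rw [hu1]; linarith only [hX10, hs0]
  have huX : u1 ≤ X / 2 := by rw [hu1]; exact g3
  have huX' : u1 ≤ X := by linarith only [huX, hX0]
  have hETe : ET c z y J Rs ≤ e1 := by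
    have k1 := H.iE
    have k2 : ε ^ 2 ≤ ε := by
      rw [pow_two]
      exact mul_le_of_le_one_left hε0.le (by linarith only [hε1])
    linarith only [k1, k2, hεe]
  have hL2' := hL2 y d W m e' z J Rs N K A0 ((le_max_right _ _).trans hz) hR H.iS hAB hAm hm0 f4.le
    (by linarith only [f8]) hB1 H.iW hPP he'0.le he'2 hETe u1 X huX' (by
      have k1 : κ * X ≤ e1 * (X - u1) := by
        have k2 : κ * X ≤ e1 / 2 * X := mul_le_mul_of_nonneg_right hκ1 hX0.le
        have k3 : e1 * (X / 2) ≤ e1 * (X - u1) := mul_le_mul_of_nonneg_left (by linarith only [huX]) he10.le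
        linarith only [k2, k3]
      refine le_trans (le_of_eq ?_) (g5.trans k1)
      ring)
  have hmain := CH.win_main h H hα' hPP he'0.le he'2 hf hab hF0 hF huX' (by linarith only [hu1, hsa])
    (by linarith only [hsb]) hl0 hL2' (η1 := η' / (16 * G)) (fun w hw x => hGV d f4.le f7.le w hw x)
  rw [← hN0, ← hC] at hmain
  obtain ⟨XI, hXI⟩ : ∃ XI : ℝ → ℝ, XI = If f a b (fun s => zn (1 / 2 + d) s ^ (2 * α)) := ⟨_, rfl⟩
  have hcz : Continuous fun t => zn (1 / 2 + d) t ^ (2 * α) := H.c0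
  have hcX : Continuous XI := by rw [hXI]; exact If_cont hf hcz a b
  rw [← hXI] at hmain ⊢
  have hcg : Continuous (gz P θ α f a b z) := gz_cont α hf a b z
  obtain ⟨g, hg⟩ : ∃ g : ℝ → ℝ, g = gz P θ α f a b z := ⟨_, rfl⟩
  rw [← hg] at hmain hcg f10 ⊢
  rw [← hA]
  -- the beginning
  have hinit := init_part hα f4 f8.le hf hab hF0 hF hs0 hsa hsb hu10 (V := X1 + 2 * s) (D := D)
    (by rw [hu1]; linarith only []) (by linarith only [hful])
  rw [← hXI] at hinit
  have hgb : ∀ t, |g t| ≤ F * ((b - a) * C) := by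
    intro t; rw [hg, hC]; exact gz_bdd h hα.le hα' hab hF0 hf hF z t
  -- splitting
  have hck : Continuous fun t => |ρ * XI t - A * g t| := ((continuous_const.mul hcX).sub (continuous_const.mul hcg)).abs
  have hsplit : ∫ t in Set.Icc 0 X, |ρ * XI t - A * g t| =
      (∫ t in Set.Icc 0 u1, |ρ * XI t - A * g t|) + ∫ t in Set.Icc u1 X, |ρ * XI t - A * g t| := by
    rw [integral_Icc_eq_integral_Ioc, integral_Icc_eq_integral_Ioc, integral_Icc_eq_integral_Ioc,
      ← intervalIntegral.integral_of_le hX0.le, ← intervalIntegral.integral_of_le hu10,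
      ← intervalIntegral.integral_of_le huX',
      intervalIntegral.integral_add_adjacent_intervals (hck.intervalIntegrable _ _) (hck.intervalIntegrable _ _)]
  have hI2 : ∫ t in Set.Icc 0 u1, |ρ * XI t - A * g t| ≤
      (A + 1) * FU * (4 * (X1 + 2 * s)) + A * (F * ((b - a) * C)) * u1 := by
    have k1 : ∀ t ∈ Set.Icc 0 u1, |ρ * XI t - A * g t| ≤ ρ * |XI t| + A * (F * ((b - a) * C)) := by
      intro t _
      refine (abs_sub _ _).trans ?_
      rw [abs_mul, abs_mul, abs_of_pos hρ0, abs_of_pos hA0]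
      have := mul_le_mul_of_nonneg_left (hgb t) hA0.le
      linarith only [this]
    have c1 : Continuous fun t => ρ * |XI t| := continuous_const.mul hcX.abs
    have c2 : Continuous fun _ : ℝ => A * (F * ((b - a) * C)) := continuous_const
    refine (setIntegral_mono_on hck.integrableOn_Icc (c1.add c2).integrableOn_Icc measurableSet_Icc k1).trans ?_
    have k3 : ∫ t in Set.Icc 0 u1, (ρ * |XI t| + A * (F * ((b - a) * C))) =
        ρ * (∫ t in Set.Icc 0 u1, |XI t|) + u1 * (A * (F * ((b - a) * C))) := by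
      rw [integral_add c1.integrableOn_Icc c2.integrableOn_Icc, integral_const_mul, setIntegral_const, smul_eq_mul,
        Real.volume_real_Icc_of_le hu10, sub_zero]
    refine (le_of_eq k3).trans ?_
    have k2 : ρ * (∫ t in Set.Icc 0 u1, |XI t|) ≤ (A + 1) * FU * (4 * (X1 + 2 * s)) := by
      calc ρ * (∫ t in Set.Icc 0 u1, |XI t|) ≤ ρ * (F * ((b - a) * (4 * ((X1 + 2 * s) * D)))) :=
            mul_le_mul_of_nonneg_left hinit hρ0.le
        _ = (ρ * D) * (FU * (4 * (X1 + 2 * s))) := by rw [hFU]; ring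
        _ ≤ (A + 1) * (FU * (4 * (X1 + 2 * s))) := by
            refine mul_le_mul_of_nonneg_right hρD1 (mul_nonneg hFU0 ?_)
            linarith only [hX10, hs0]
        _ = _ := by ring
    linarith only [k2]
  have hI3 : ∫ t in Set.Icc u1 X, |ρ * XI t - A * g t| ≤
      (ρ * N0) * (∫ t in Set.Icc u1 X, |XI t / N0 - g t|) + |ρ * N0 - A| * ∫ t in Set.Icc 0 X, |g t| := by
    have c1 : Continuous fun t => (ρ * N0) * |XI t / N0 - g t| := continuous_const.mul ((hcX.div_const _).sub hcg).abs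
    have c2 : Continuous fun t => |ρ * N0 - A| * |g t| := continuous_const.mul hcg.abs
    have k1 : ∀ t ∈ Set.Icc u1 X, |ρ * XI t - A * g t| ≤ (ρ * N0) * |XI t / N0 - g t| + |ρ * N0 - A| * |g t| := by
      intro t _
      have e3 : ρ * XI t - A * g t = (ρ * N0) * (XI t / N0 - g t) + (ρ * N0 - A) * g t := by
        have hN0' := hN00.ne'
        field_simp
        ring
      rw [e3]
      refine (abs_add_le _ _).trans ?_
      rw [abs_mul (ρ * N0), abs_mul (ρ * N0 - A), abs_of_pos (mul_pos hρ0 hN00)]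
    refine (setIntegral_mono_on hck.integrableOn_Icc (c1.add c2).integrableOn_Icc measurableSet_Icc k1).trans ?_
    have k3 : ∫ t in Set.Icc u1 X, ((ρ * N0) * |XI t / N0 - g t| + |ρ * N0 - A| * |g t|) =
        (ρ * N0) * (∫ t in Set.Icc u1 X, |XI t / N0 - g t|) + |ρ * N0 - A| * ∫ t in Set.Icc u1 X, |g t| := by
      rw [integral_add c1.integrableOn_Icc c2.integrableOn_Icc, integral_const_mul, integral_const_mul]
    refine (le_of_eq k3).trans (add_le_add le_rfl (mul_le_mul_of_nonneg_left ?_ (abs_nonneg _)))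
    exact setIntegral_mono_set hcg.abs.integrableOn_Icc (ae_of_all _ fun t => abs_nonneg _)
      (Filter.Eventually.of_forall (Set.Icc_subset_Icc_left hu10))
  have hE5 : ∫ t in Set.Icc u1 X, |XI t / N0 - g t| ≤ X * (280 * FU * ε + lam0 + FU * (7 * e' * C + η' / (16 * G))) := by
    refine hmain.trans ?_
    have k1 : F * ((b - a) * (140 * ε * (X + s))) ≤ X * (280 * FU * ε) := by
      have : F * ((b - a) * (140 * ε * (X + s))) = 140 * FU * ε * (X + s) := by rw [hFU]; ring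
      rw [this]
      have k2 : 140 * FU * ε * (X + s) ≤ 140 * FU * ε * (2 * X) := mul_le_mul_of_nonneg_left (by linarith only [g2]) (by positivity)
      linarith only [k2]
    have k2 : lam0 * (X - u1) ≤ X * lam0 := by
      have := mul_le_mul_of_nonneg_left (by linarith only [hu10] : X - u1 ≤ X) hl0.le
      linarith only [this]
    have k3 : F * ((b - a) * (7 * e' * C + η' / (16 * G))) * (X - u1) ≤ X * (FU * (7 * e' * C + η' / (16 * G))) := by
      have : F * ((b - a) * (7 * e' * C + η' / (16 * G))) = FU * (7 * e' * C + η' / (16 * G)) := by rw [hFU]; ring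
      rw [this]
      have k4 := mul_le_mul_of_nonneg_left (by linarith only [hu10] : X - u1 ≤ X)
        (by positivity : 0 ≤ FU * (7 * e' * C + η' / (16 * G)))
      linarith only [k4]
    linarith only [k1, k2, k3]
  have hq : 7 * e' * C + η' / (16 * G) ≤ η / (8 * G) := by
    have k1 : η' / (16 * G) + η' / (16 * G) = η' / (8 * G) := by field_simp; norm_num
    have k2 : η' / (8 * G) ≤ η / (8 * G) := div_le_div_of_nonneg_right hη'1 (by positivity)
    linarith only [he'3, k1, k2]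
  have hrest : (A + 1) * FU * (4 * (X1 + 2 * s)) + A * (F * ((b - a) * C)) * u1 ≤ η / 4 * X := by
    have k1 : (A + 1) * FU ≤ G := by
      rw [hG]
      exact mul_le_mul_of_nonneg_left (by linarith only []) (by linarith only [hA0])
    have k2 : 0 ≤ X1 + 2 * s := by linarith only [hX10, hs0]
    have k3 : u1 ≤ X1 + 2 * s := by rw [hu1]; linarith only [hs0]
    have k4 : 0 ≤ A * (F * ((b - a) * C)) := by positivity
    have k5 : (A + 1) * FU * (4 * (X1 + 2 * s)) + A * (F * ((b - a) * C)) * u1 ≤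
        (4 * G + A * (F * ((b - a) * C)) + 1) * (X1 + 2 * s) := by
      have k6 := mul_le_mul_of_nonneg_right k1 (by linarith only [k2] : 0 ≤ 4 * (X1 + 2 * s))
      have k7 := mul_le_mul_of_nonneg_left k3 k4
      linarith only [k6, k7, k2]
    refine k5.trans ?_
    have hden : 0 < 4 * G + A * (F * ((b - a) * C)) + 1 := by linarith only [hG0, k4]
    have k6 : X1 + 2 * s ≤ η' / (4 * (4 * G + A * (F * ((b - a) * C)) + 1)) * X :=
      g4.trans (mul_le_mul_of_nonneg_right hκ2 hX0.le)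
    have k7 := mul_le_mul_of_nonneg_left k6 hden.le
    have k8 : (4 * G + A * (F * ((b - a) * C)) + 1) * (η' / (4 * (4 * G + A * (F * ((b - a) * C)) + 1)) * X) = η' / 4 * X := by
      field_simp
    rw [k8] at k7
    refine k7.trans (mul_le_mul_of_nonneg_right (by linarith only [hη'1]) hX0.le)
  have hI4 : ∫ t in Set.Icc 0 X, |g t| ≤ (FU + 1) * X := by rw [hFU]; exact f10
  have hE50 : 0 ≤ ∫ t in Set.Icc u1 X, |XI t / N0 - g t| := integral_nonneg fun t => abs_nonneg _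
  have hI40 : 0 ≤ ∫ t in Set.Icc 0 X, |g t| := integral_nonneg fun t => abs_nonneg _
  have hεη : ε ≤ η / (4000 * G) := by
    rw [hε]; exact div_le_div_of_nonneg_right hη'1 (by positivity)
  exact combine hA0.le hFU0 hX0.le hG hη hρN2 (mul_pos hρ0 hN00).le hE5 hE50 hρN hε0 hεη hlam0 hq hI4 hI40 hsplit.le hI3
    hI2 hrest

end Pool.Agent.T6.H99.CH
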