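import Pool.Agent.T6.H99.CH.V7
import Mathlib.MeasureTheory.Measure.Portmanteau

set_option autoImplicit false
set_option linter.unusedSectionVars false

/-! Convergence in law. -/

namespace Pool.Agent.T6.H99.CH

open Finset MeasureTheory ProbabilityTheory Filter Topology MonoidAlgebra
open Pool.Agent.Y755
open Pool.Agent.Y753.NL
open Pool.Agent.W184.NZ
open Pool.Agent.W184 (zn zn_nonneg zn_cont zn_le' zn_neg)
open Pool.Agent.H306R2 (aF aF_pos)
open scoped NNReal

variable {Ω : Type*} [mΩ : MeasurableSpace Ω] {P : Measure Ω} {θ : ℕ → Ω → ℝ}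

/-- the uniform point -/
lemma resc (g : ℝ → ℝ) {T : ℝ} (hT : 0 < T) : ∫ u in (0:ℝ)..1, g (u * T) = T⁻¹ * ∫ t in (0:ℝ)..T, g t := by
  rw [intervalIntegral.integral_comp_mul_right g hT.ne', zero_mul, one_mul, smul_eq_mul]

/-- the limit for Lipschitz functions -/
theorem lip_limit (h : Ph P θ) {α : ℝ} (hα : 0 < α) (hα1 : 2*α^2 < 1) {a b : ℝ} (hab : a ≤ b) {f : ℝ → ℝ} (hf : Continuous f)
    {δ : ℝ → ℝ} (hδ0 : Tendsto δ atTop (𝓝 0)) (hδ1 : Tendsto (fun T => δ T * Real.log T) atTop atTop)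
    {Z : Ω → ℝ} (hZ : MemLp Z 2 P) (hMZ : Tendsto (fun z => ∫ ω, (Mz P θ α f a b z ω - Z ω) ^ 2 ∂P) atTop (𝓝 0))
    {φ : ℝ → ℝ} {L : ℝ≥0} (hφ : LipschitzWith L φ) :
    Tendsto (fun T => ∫ u in (0:ℝ)..1, φ ((2*δ T)^(α^2) * If f a b (fun s => zn (1/2+δ T) s^(2*α)) (u * T))) atTop
      (𝓝 (∫ ω, φ (aF α * Z ω) ∂P)) := by
  have hpr := h.pr
  have hα' : α ≤ 1 := by nlinarith
  have hA := aF_pos hα
  obtain ⟨F, hF⟩ : ∃ F, ∀ x ∈ Set.Icc a b, |f x| ≤ F := by
    obtain ⟨F, hF⟩ := isCompact_Icc.exists_bound_of_continuousOn (f := f) (s := Set.Icc a b) hf.continuousOn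
    exact ⟨F, fun x hx => by rw [← Real.norm_eq_abs]; exact hF x hx⟩
  set K : ℝ := L + 1 with hK
  have hK0 : 0 < K := by rw [hK]; positivity
  have hlip : ∀ x y, |φ x - φ y| ≤ K * |x - y| := by
    intro x y
    have := hφ.dist_le_mul x y
    rw [Real.dist_eq, Real.dist_eq] at this
    refine this.trans (mul_le_mul_of_nonneg_right (by rw [hK]; linarith) (abs_nonneg _))
  rw [Metric.tendsto_nhds]
  intro e he
  have hsq := hMZ.sqrt
  rw [Real.sqrt_zero] at hsq
  have hev := hsq.eventually (gt_mem_nhds (show (0:ℝ) < e / (4 * K * aF α) by positivity))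
  obtain ⟨zm, hzm⟩ := eventually_atTop.mp hev
  obtain ⟨z, hz, hap⟩ := approx h hα hα1 hab hf hδ0 hδ1 (η := e / (4 * K)) (by positivity) zm
  have hzz := hzm z hz
  have hMm := Mz_memLp h hα.le hα' hab hf.measurable hF z 2
  -- the third term
  have h3 : |(∫ ω, φ (aF α * Mz P θ α f a b z ω) ∂P) - ∫ ω, φ (aF α * Z ω) ∂P| ≤ e / 4 := by
    have i1 : Integrable (fun ω => φ (aF α * Mz P θ α f a b z ω)) P := by
      have := (hMm.integrable one_le_two)
      have hb : Integrable (fun ω => |φ 0| + K * |aF α * Mz P θ α f a b z ω|) P :=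
        (integrable_const _).add (((this.const_mul _).abs).const_mul _)
      refine hb.mono' (hφ.continuous.comp_aestronglyMeasurable (this.const_mul _).1) (ae_of_all _ fun ω => ?_)
      have := hlip (aF α * Mz P θ α f a b z ω) 0
      rw [sub_zero] at this
      rw [Real.norm_eq_abs]
      calc |φ (aF α * Mz P θ α f a b z ω)| = |φ 0 + (φ (aF α * Mz P θ α f a b z ω) - φ 0)| := by ring_nf
        _ ≤ |φ 0| + |φ (aF α * Mz P θ α f a b z ω) - φ 0| := abs_add_le _ _
        _ ≤ _ := by linarith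
    have i2 : Integrable (fun ω => φ (aF α * Z ω)) P := by
      have := (hZ.integrable one_le_two)
      have hb : Integrable (fun ω => |φ 0| + K * |aF α * Z ω|) P :=
        (integrable_const _).add (((this.const_mul _).abs).const_mul _)
      refine hb.mono' (hφ.continuous.comp_aestronglyMeasurable (this.const_mul _).1) (ae_of_all _ fun ω => ?_)
      have := hlip (aF α * Z ω) 0
      rw [sub_zero] at this
      rw [Real.norm_eq_abs]
      calc |φ (aF α * Z ω)| = |φ 0 + (φ (aF α * Z ω) - φ 0)| := by ring_nf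
        _ ≤ |φ 0| + |φ (aF α * Z ω) - φ 0| := abs_add_le _ _
        _ ≤ _ := by linarith
    rw [← integral_sub i1 i2, ← Real.norm_eq_abs]
    refine (norm_integral_le_integral_norm _).trans ?_
    have i3 : Integrable (fun ω => K * (aF α * |Mz P θ α f a b z ω - Z ω|)) P :=
      ((((hMm.integrable one_le_two).sub (hZ.integrable one_le_two)).abs).const_mul _).const_mul _
    refine (integral_mono (i1.sub i2).norm i3 fun ω => ?_).trans ?_
    · show ‖φ (aF α * Mz P θ α f a b z ω) - φ (aF α * Z ω)‖ ≤ _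
      rw [Real.norm_eq_abs]
      refine (hlip _ _).trans (le_of_eq ?_)
      rw [← mul_sub, abs_mul, abs_of_pos hA]
    · rw [integral_const_mul, integral_const_mul]
      have := l1_le_l2 (hMm.sub hZ)
      have h4 : ∫ ω, |Mz P θ α f a b z ω - Z ω| ∂P ≤ e / (4 * K * aF α) := this.trans hzz.le
      calc K * (aF α * ∫ ω, |Mz P θ α f a b z ω - Z ω| ∂P) ≤ K * (aF α * (e / (4 * K * aF α))) := by gcongr
        _ = e / 4 := by field_simp
  -- the second term
  have h2 : Tendsto (fun T : ℝ => T⁻¹ * ∫ t in (0:ℝ)..T, φ (aF α * gz P θ α f a b z t)) atTop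
      (𝓝 (∫ ω, φ (aF α * Mz P θ α f a b z ω) ∂P)) :=
    gz_weyl h (α := α) hf a b z (ψ := fun x => φ (aF α * x)) (hφ.continuous.comp (continuous_const.mul continuous_id))
  rw [Metric.tendsto_nhds] at h2
  have hδ2 : ∀ᶠ T in atTop, δ T < 1 / 4 := hδ0.eventually (gt_mem_nhds (by norm_num))
  filter_upwards [hap, h2 (e / 4) (by positivity), hδ2, eventually_gt_atTop 0] with T hT1 hT2 hT3 hT0
  set XI : ℝ → ℝ := fun t => (2*δ T)^(α^2) * If f a b (fun s => zn (1/2+δ T) s^(2*α)) t with hXI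
  have hcX : Continuous XI := by
    refine continuous_const.mul (If_cont hf ?_ a b)
    exact (zn_cont (by linarith)).rpow_const fun s => Or.inr (by positivity)
  have hcg : Continuous (gz P θ α f a b z) := gz_cont α hf a b z
  rw [resc (fun t => φ (XI t)) hT0]
  have h1 : |T⁻¹ * (∫ t in (0:ℝ)..T, φ (XI t)) - T⁻¹ * ∫ t in (0:ℝ)..T, φ (aF α * gz P θ α f a b z t)| ≤ e / 4 := by
    have ci1 : Continuous fun t => φ (XI t) := hφ.continuous.comp hcX
    have ci2 : Continuous fun t => φ (aF α * gz P θ α f a b z t) := hφ.continuous.comp (continuous_const.mul hcg)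
    rw [← mul_sub, ← intervalIntegral.integral_sub (ci1.intervalIntegrable _ _)
      (ci2.intervalIntegrable _ _), abs_mul, abs_of_pos (inv_pos.mpr hT0),
      intervalIntegral.integral_of_le hT0.le, ← integral_Icc_eq_integral_Ioc, ← Real.norm_eq_abs]
    have k1 : ‖∫ t in Set.Icc 0 T, (φ (XI t) - φ (aF α * gz P θ α f a b z t))‖ ≤
        ∫ t in Set.Icc 0 T, K * |XI t - aF α * gz P θ α f a b z t| := by
      refine (norm_integral_le_integral_norm _).trans ?_
      refine setIntegral_mono_on ?_ ?_ measurableSet_Icc fun t _ => ?_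
      · exact ((hφ.continuous.comp hcX).sub (hφ.continuous.comp (continuous_const.mul hcg))).norm.integrableOn_Icc
      · exact (continuous_const.mul (hcX.sub (continuous_const.mul hcg)).abs).integrableOn_Icc
      · rw [Real.norm_eq_abs]
        exact hlip _ _
    rw [integral_const_mul] at k1
    have k2 : K * (∫ t in Set.Icc 0 T, |XI t - aF α * gz P θ α f a b z t|) ≤ K * (e / (4 * K) * T) :=
      mul_le_mul_of_nonneg_left hT1 hK0.le
    calc T⁻¹ * _ ≤ T⁻¹ * (K * (e / (4 * K) * T)) := mul_le_mul_of_nonneg_left (k1.trans k2) (inv_nonneg.mpr hT0.le)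
      _ = e / 4 := by field_simp
  rw [Real.dist_eq] at hT2 ⊢
  set U := T⁻¹ * (∫ t in (0:ℝ)..T, φ (XI t))
  set V := T⁻¹ * ∫ t in (0:ℝ)..T, φ (aF α * gz P θ α f a b z t)
  set W := ∫ ω, φ (aF α * Mz P θ α f a b z ω) ∂P
  set W' := ∫ ω, φ (aF α * Z ω) ∂P
  have e1 : U - W' = (U - V) + (V - W) + (W - W') := by ring
  rw [e1]
  have := abs_add_le (U - V + (V - W)) (W - W')
  have := abs_add_le (U - V) (V - W)
  linarith

/-- the cutoff -/
noncomputable def cut (R x : ℝ) : ℝ := max 0 (min 1 (2 - |x| / (2 * R)))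

lemma cut_cont (R : ℝ) : Continuous (cut R) := by
  unfold cut
  exact continuous_const.max (continuous_const.min (continuous_const.sub (continuous_abs.div_const _)))

lemma cut_zero {R x : ℝ} (hR : 0 < R) (hx : 4 * R ≤ |x|) : cut R x = 0 := by
  unfold cut
  refine max_eq_left ((min_le_right _ _).trans ?_)
  have : 2 ≤ |x| / (2 * R) := by rw [le_div_iff₀ (by positivity)]; linarith
  linarith

lemma cut_one {R x : ℝ} (hR : 0 < R) (hx : |x| ≤ 2 * R) : cut R x = 1 := by
  unfold cut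
  have : |x| / (2 * R) ≤ 1 := by rw [div_le_one (by positivity)]; exact hx
  rw [min_eq_left (by linarith), max_eq_right (by norm_num)]

lemma cut_range (R x : ℝ) : 0 ≤ cut R x ∧ cut R x ≤ 1 := by
  unfold cut
  exact ⟨le_max_left _ _, max_le zero_le_one (min_le_left _ _)⟩

lemma cut_bd {φ : ℝ → ℝ} {C : ℝ} (hC : ∀ x, |φ x| ≤ C * (1 + |x|)) {R : ℝ} (hR : 1 ≤ R) (x : ℝ) :
    |φ x * (1 - cut R x)| ≤ 4 * C * max (|x| - R) 0 := by
  have hC0 : 0 ≤ C := by
    have := (abs_nonneg _).trans (hC 0)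
    rw [abs_zero, add_zero, mul_one] at this
    exact this
  by_cases hx : |x| ≤ 2 * R
  · rw [cut_one (by linarith) hx, sub_self, mul_zero, abs_zero]
    positivity
  · push Not at hx
    obtain ⟨c1, c2⟩ := cut_range R x
    rw [abs_mul, abs_of_nonneg (by linarith : 0 ≤ 1 - cut R x)]
    calc |φ x| * (1 - cut R x) ≤ C * (1 + |x|) * 1 :=
          mul_le_mul (hC x) (by linarith) (by linarith) (by positivity)
      _ ≤ 4 * C * (|x| - R) := by nlinarith
      _ ≤ _ := mul_le_mul_of_nonneg_left (le_max_left _ _) (by positivity)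

lemma lip_tail (R : ℝ) : LipschitzWith 1 (fun x : ℝ => max (|x| - R) 0) := by
  refine LipschitzWith.of_dist_le_mul fun x y => ?_
  rw [Real.dist_eq, Real.dist_eq, NNReal.coe_one, one_mul]
  refine (abs_max_sub_max_le_abs _ _ _).trans ?_
  have : |x| - R - (|y| - R) = |x| - |y| := by ring
  rw [this]
  exact abs_abs_sub_abs_le_abs_sub x y

/-- from Lipschitz functions to continuous functions of linear growth -/
theorem port [IsProbabilityMeasure P] {Y : ℝ → ℝ → ℝ} (hY : ∀ᶠ T in atTop, Continuous (Y T)) {W : Ω → ℝ}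
    (hWm : Measurable W) (hW : Integrable W P)
    (hL : ∀ (φ : ℝ → ℝ) (L : ℝ≥0), LipschitzWith L φ →
      Tendsto (fun T => ∫ u in (0:ℝ)..1, φ (Y T u)) atTop (𝓝 (∫ ω, φ (W ω) ∂P)))
    {φ : ℝ → ℝ} (hφ : Continuous φ) {C : ℝ} (hC : ∀ x, |φ x| ≤ C * (1 + |x|)) :
    Tendsto (fun T => ∫ u in (0:ℝ)..1, φ (Y T u)) atTop (𝓝 (∫ ω, φ (W ω) ∂P)) := by
  classical
  have hC0 : 0 ≤ C := by
    have := (abs_nonneg _).trans (hC 0)
    rw [abs_zero, add_zero, mul_one] at this
    exact this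
  -- bounded continuous functions
  have hB : ∀ ψ : ℝ → ℝ, Continuous ψ → (∃ D, ∀ x, |ψ x| ≤ D) →
      Tendsto (fun T => ∫ u in (0:ℝ)..1, ψ (Y T u)) atTop (𝓝 (∫ ω, ψ (W ω) ∂P)) := by
    intro ψ hψ ⟨D, hD⟩
    set Y' : ℝ → ℝ → ℝ := fun T => if Continuous (Y T) then Y T else 0 with hY'
    have hY'c : ∀ T, Continuous (Y' T) := by
      intro T
      rw [hY']
      simp only
      split_ifs with hc
      · exact hc
      · exact continuous_const
    have hpu : IsProbabilityMeasure (volume.restrict (Set.Ioc (0:ℝ) 1)) :=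
      ⟨by rw [Measure.restrict_apply_univ, Real.volume_Ioc]; norm_num⟩
    set μs : ℝ → ProbabilityMeasure ℝ := fun T => ⟨(volume.restrict (Set.Ioc (0:ℝ) 1)).map (Y' T),
      Measure.isProbabilityMeasure_map (hY'c T).measurable.aemeasurable⟩ with hμs
    set μ : ProbabilityMeasure ℝ := ⟨P.map W, Measure.isProbabilityMeasure_map hWm.aemeasurable⟩ with hμ
    have e1 : ∀ (χ : ℝ → ℝ), Continuous χ → ∀ T, ∫ x, χ x ∂(μs T : Measure ℝ) = ∫ u in (0:ℝ)..1, χ (Y' T u) := by
      intro χ hχ T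
      rw [intervalIntegral.integral_of_le zero_le_one]
      exact integral_map (hY'c T).measurable.aemeasurable hχ.aestronglyMeasurable
    have e2 : ∀ (χ : ℝ → ℝ), Continuous χ → ∫ x, χ x ∂(μ : Measure ℝ) = ∫ ω, χ (W ω) ∂P := by
      intro χ hχ
      exact integral_map hWm.aemeasurable hχ.aestronglyMeasurable
    have e3 : ∀ (χ : ℝ → ℝ), (fun T => ∫ u in (0:ℝ)..1, χ (Y' T u)) =ᶠ[atTop] fun T => ∫ u in (0:ℝ)..1, χ (Y T u) := by
      intro χ
      filter_upwards [hY] with T hT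
      have : Y' T = Y T := by rw [hY']; simp only; rw [if_pos hT]
      rw [this]
    have hw : Tendsto μs atTop (𝓝 μ) := by
      rw [tendsto_iff_forall_lipschitz_integral_tendsto]
      rintro χ - ⟨L, hχ⟩
      rw [e2 χ hχ.continuous]
      have := (hL χ L hχ).congr' (e3 χ).symm
      refine this.congr fun T => (e1 χ hχ.continuous T).symm
    rw [ProbabilityMeasure.tendsto_iff_forall_integral_tendsto] at hw
    have hd : ∀ x y, dist (ψ x) (ψ y) ≤ 2 * D := by
      intro x y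
      rw [Real.dist_eq]
      have := abs_sub (ψ x) (ψ y)
      linarith [hD x, hD y]
    have h1 := hw ⟨⟨ψ, hψ⟩, ⟨2 * D, hd⟩⟩
    have h2 : Tendsto (fun T => ∫ u in (0:ℝ)..1, ψ (Y' T u)) atTop (𝓝 (∫ ω, ψ (W ω) ∂P)) := by
      rw [← e2 ψ hψ]
      refine Tendsto.congr (fun T => e1 ψ hψ T) ?_
      exact h1
    exact h2.congr' (e3 ψ)
  rw [Metric.tendsto_nhds]
  intro e he
  -- the tail
  have htail : Tendsto (fun R : ℝ => ∫ ω, max (|W ω| - R) 0 ∂P) atTop (𝓝 0) := by
    have := tendsto_integral_filter_of_dominated_convergence (μ := P) (l := (atTop : Filter ℝ))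
      (F := fun R ω => max (|W ω| - R) 0) (f := fun _ => (0:ℝ)) (fun ω => |W ω|) ?_ ?_ hW.abs ?_
    · simpa using this
    · exact Filter.Eventually.of_forall fun R => ((hWm.norm.sub_const R).max measurable_const).aestronglyMeasurable
    · filter_upwards [eventually_ge_atTop 0] with R hR
      refine ae_of_all _ fun ω => ?_
      rw [Real.norm_eq_abs, abs_of_nonneg (le_max_right _ _)]
      exact max_le (by linarith) (abs_nonneg _)
    · refine ae_of_all _ fun ω => ?_
      refine tendsto_const_nhds.congr' ?_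
      filter_upwards [eventually_ge_atTop |W ω|] with R hR
      rw [max_eq_right (by linarith)]
  have ht2 := htail.eventually (gt_mem_nhds (show (0:ℝ) < e / (20 * (C + 1)) by positivity))
  obtain ⟨R, hR1, hR2⟩ := ((eventually_ge_atTop (1:ℝ)).and ht2).exists
  have hR0 : 0 < R := by linarith
  have h1 := hB (fun x => φ x * cut R x) (hφ.mul (cut_cont R)) ⟨C * (1 + 4 * R), fun x => by
    obtain ⟨c1, c2⟩ := cut_range R x
    by_cases hx : 4 * R ≤ |x|
    · rw [cut_zero hR0 hx, mul_zero, abs_zero]; positivity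
    · push Not at hx
      rw [abs_mul, abs_of_nonneg c1]
      calc |φ x| * cut R x ≤ C * (1 + |x|) * 1 := mul_le_mul (hC x) c2 c1 (by positivity)
        _ ≤ C * (1 + 4 * R) := by rw [mul_one]; gcongr⟩
  have h2 := hL _ _ (lip_tail R)
  rw [Metric.tendsto_nhds] at h1 h2
  filter_upwards [h1 (e / 4) (by positivity), h2 (e / (20 * (C + 1))) (by positivity), hY] with T hT1 hT2 hTc
  rw [Real.dist_eq] at hT1 hT2 ⊢
  have cY : Continuous fun u => φ (Y T u) := hφ.comp hTc
  have cY2 : Continuous fun u => φ (Y T u) * cut R (Y T u) := cY.mul ((cut_cont R).comp hTc)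
  have cY3 : Continuous fun u => max (|Y T u| - R) 0 := ((hTc.abs).sub continuous_const).max continuous_const
  -- the part of the time average
  have g1 : |(∫ u in (0:ℝ)..1, φ (Y T u)) - ∫ u in (0:ℝ)..1, φ (Y T u) * cut R (Y T u)| ≤
      4 * C * ∫ u in (0:ℝ)..1, max (|Y T u| - R) 0 := by
    rw [← intervalIntegral.integral_sub (cY.intervalIntegrable _ _) (cY2.intervalIntegrable _ _),
      ← intervalIntegral.integral_const_mul, ← Real.norm_eq_abs]
    refine intervalIntegral.norm_integral_le_of_norm_le zero_le_one (ae_of_all _ fun u _ => ?_)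
      ((continuous_const.mul cY3).intervalIntegrable _ _)
    rw [Real.norm_eq_abs]
    have : φ (Y T u) - φ (Y T u) * cut R (Y T u) = φ (Y T u) * (1 - cut R (Y T u)) := by ring
    rw [this]
    exact cut_bd hC hR1 _
  -- the part of the limit
  have hφW : Integrable (fun ω => φ (W ω)) P := by
    refine (((integrable_const (1:ℝ)).add hW.abs).const_mul C).mono' (hφ.comp_aestronglyMeasurable hW.1) (ae_of_all _ fun ω => ?_)
    rw [Real.norm_eq_abs]
    exact hC _
  have hφW2 : Integrable (fun ω => φ (W ω) * cut R (W ω)) P := by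
    refine (((integrable_const (1:ℝ)).add hW.abs).const_mul C).mono'
      ((hφ.mul (cut_cont R)).comp_aestronglyMeasurable hW.1) (ae_of_all _ fun ω => ?_)
    obtain ⟨c1, c2⟩ := cut_range R (W ω)
    rw [Real.norm_eq_abs, abs_mul, abs_of_nonneg c1]
    calc |φ (W ω)| * cut R (W ω) ≤ |φ (W ω)| * 1 := mul_le_mul_of_nonneg_left c2 (abs_nonneg _)
      _ ≤ _ := by rw [mul_one]; exact hC _
  have hWt : Integrable (fun ω => max (|W ω| - R) 0) P := by
    refine hW.abs.mono' ((hWm.norm.sub_const R).max measurable_const).aestronglyMeasurable (ae_of_all _ fun ω => ?_)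
    rw [Real.norm_eq_abs, abs_of_nonneg (le_max_right _ _)]
    exact max_le (by linarith) (abs_nonneg _)
  have g2 : |(∫ ω, φ (W ω) ∂P) - ∫ ω, φ (W ω) * cut R (W ω) ∂P| ≤ 4 * C * ∫ ω, max (|W ω| - R) 0 ∂P := by
    rw [← integral_sub hφW hφW2, ← integral_const_mul, ← Real.norm_eq_abs]
    refine norm_integral_le_of_norm_le (hWt.const_mul _) (ae_of_all _ fun ω => ?_)
    rw [Real.norm_eq_abs]
    have : φ (W ω) - φ (W ω) * cut R (W ω) = φ (W ω) * (1 - cut R (W ω)) := by ring
    rw [this]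
    exact cut_bd hC hR1 _
  set U := ∫ u in (0:ℝ)..1, φ (Y T u)
  set U' := ∫ u in (0:ℝ)..1, φ (Y T u) * cut R (Y T u)
  set V := ∫ ω, φ (W ω) ∂P
  set V' := ∫ ω, φ (W ω) * cut R (W ω) ∂P
  set S := ∫ u in (0:ℝ)..1, max (|Y T u| - R) 0
  set S' := ∫ ω, max (|W ω| - R) 0 ∂P
  have e1 : U - V = (U - U') + (U' - V') - (V - V') := by ring
  rw [e1]
  have k1 := abs_sub (U - U' + (U' - V')) (V - V')
  have k2 := abs_add_le (U - U') (U' - V')
  have k3 : S ≤ 2 * (e / (20 * (C + 1))) := by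
    have := (abs_lt.mp hT2).2
    linarith
  have k4 : 4 * C * S ≤ 4 * (C + 1) * (2 * (e / (20 * (C + 1)))) := by
    refine (mul_le_mul_of_nonneg_left k3 (by positivity)).trans ?_
    refine mul_le_mul_of_nonneg_right (by linarith) (by positivity)
  have k5 : 4 * (C + 1) * (2 * (e / (20 * (C + 1)))) = 2 * e / 5 := by field_simp; ring
  have k6 : 4 * C * S' ≤ 4 * (C + 1) * (e / (20 * (C + 1))) := by
    refine (mul_le_mul_of_nonneg_left hR2.le (by positivity)).trans ?_
    refine mul_le_mul_of_nonneg_right (by linarith) (by positivity)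
  have k7 : 4 * (C + 1) * (e / (20 * (C + 1))) = e / 5 := by field_simp; ring
  linarith

/-- the limit theorem -/
theorem law_limit (h : Ph P θ) {α : ℝ} (hα : 0 < α) (hα1 : 2*α^2 < 1) {a b : ℝ} (hab : a ≤ b) {f : ℝ → ℝ} (hf : Continuous f)
    {δ : ℝ → ℝ} (hδ0 : Tendsto δ atTop (𝓝 0)) (hδ1 : Tendsto (fun T => δ T * Real.log T) atTop atTop) :
    ∃ Z : Ω → ℝ, Measurable Z ∧ MemLp Z 2 P ∧ Tendsto (fun z => ∫ ω, (Mz P θ α f a b z ω - Z ω) ^ 2 ∂P) atTop (𝓝 0) ∧
      ∀ φ : ℝ → ℝ, Continuous φ → (∃ C, ∀ x, |φ x| ≤ C * (1 + |x|)) →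
        Tendsto (fun T => ∫ u in (0:ℝ)..1, φ ((2*δ T)^(α^2) * If f a b (fun s => zn (1/2+δ T) s^(2*α)) (u * T))) atTop
          (𝓝 (∫ ω, φ (aF α * Z ω) ∂P)) := by
  have hpr := h.pr
  obtain ⟨F, hF⟩ : ∃ F, ∀ x ∈ Set.Icc a b, |f x| ≤ F := by
    obtain ⟨F, hF⟩ := isCompact_Icc.exists_bound_of_continuousOn (f := f) (s := Set.Icc a b) hf.continuousOn
    exact ⟨F, fun x hx => by rw [← Real.norm_eq_abs]; exact hF x hx⟩
  obtain ⟨Z, hZm, hZ, hZl⟩ := Mz_limit h hα.le hα1 hab hf.measurable hF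
  refine ⟨Z, hZm, hZ, hZl, fun φ hφ ⟨C, hC⟩ => ?_⟩
  refine port (Y := fun T u => (2*δ T)^(α^2) * If f a b (fun s => zn (1/2+δ T) s^(2*α)) (u * T))
    (W := fun ω => aF α * Z ω) ?_ (hZm.const_mul _) ((hZ.integrable one_le_two).const_mul _)
    (fun χ L hχ => lip_limit h hα hα1 hab hf hδ0 hδ1 hZ hZl hχ) hφ hC
  have hδ2 : ∀ᶠ T in atTop, δ T < 1 / 4 := hδ0.eventually (gt_mem_nhds (by norm_num))
  filter_upwards [hδ2] with T hT
  refine continuous_const.mul ((If_cont hf ?_ a b).comp (by fun_prop))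
  exact (zn_cont (by linarith)).rpow_const fun s => Or.inr (by positivity)

end Pool.Agent.T6.H99.CH
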