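import Pool.Agent.T6.H99.CH.V8

set_option autoImplicit false
set_option linter.unusedSectionVars false

/-! The final form. -/

namespace Pool.Agent.T6.H99.CH

open Finset MeasureTheory ProbabilityTheory Filter Topology MonoidAlgebra
open Pool.Agent.Y755
open Pool.Agent.Y753.NL
open Pool.Agent.W184.NZ
open Pool.Agent.W184 (zn zn_nonneg zn_cont zn_le' zn_neg)
open Pool.Agent.H306R2 (aF aF_pos)
open scoped NNReal

variable {Ω : Type*} [mΩ : MeasurableSpace Ω] {P : Measure Ω} {θ : ℕ → Ω → ℝ}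

/-- the random Euler product -/
lemma prod_Lf {E : ℕ → ℂ} (α : ℝ) {s : Finset ℕ} : ‖∏ p ∈ s, (1 - E p)⁻¹‖ ^ (2 * α) = ∏ p ∈ s, ‖1 - E p‖ ^ (-(2 * α)) := by
  rw [norm_prod, ← Real.finsetProd_rpow _ _ fun p _ => norm_nonneg _]
  refine prod_congr rfl fun p _ => ?_
  rw [norm_inv, Real.inv_rpow (norm_nonneg _), Real.rpow_neg (norm_nonneg _)]

lemma GF_norm (h : Ph P θ) {α : ℝ} (hα : 0 ≤ α) (hα1 : α ≤ 1) (z : ℕ) (ω : Ω) (x : ℝ) :
    GF P θ α 0 (Bz' z) ω x = (∏ p ∈ Bz' z, Lf α (pv 0 x p) (Xp θ p ω)) /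
      ∫ ω', ∏ p ∈ Bz' z, Lf α (pv 0 x p) (Xp θ p ω') ∂P := by
  have h1 := GF_mean h hα hα1 le_rfl (I := Bz' z) (fun p hp => Bz'_prime hp) x
  have e1 : ∀ ω', GF P θ α 0 (Bz' z) ω' x = (∏ p ∈ Bz' z, Lf α (pv 0 x p) (Xp θ p ω')) * (∏ p ∈ Bz' z, cc P θ α 0 p)⁻¹ := by
    intro ω'
    unfold GF
    rw [prod_div_distrib, div_eq_mul_inv]
  simp_rw [e1] at h1
  rw [integral_mul_const] at h1
  have hc : ∏ p ∈ Bz' z, cc P θ α 0 p ≠ 0 := by
    intro h0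
    rw [h0, inv_zero, mul_zero] at h1
    exact zero_ne_one h1
  rw [mul_inv_eq_one₀ hc] at h1
  rw [h1, e1, div_eq_mul_inv]

/-- the mean of the limit -/
lemma Z_mean (h : Ph P θ) {α : ℝ} (hα : 0 ≤ α) (hα1 : α ≤ 1) {a b : ℝ} (hab : a ≤ b) {f : ℝ → ℝ} (hf : Continuous f)
    {Z : Ω → ℝ} (hZ : MemLp Z 2 P) (hMZ : Tendsto (fun z => ∫ ω, (Mz P θ α f a b z ω - Z ω) ^ 2 ∂P) atTop (𝓝 0)) :
    ∫ ω, Z ω ∂P = ∫ x in a..b, f x := by
  have hpr := h.pr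
  obtain ⟨F, hF⟩ : ∃ F, ∀ x ∈ Set.Icc a b, |f x| ≤ F := by
    obtain ⟨F, hF⟩ := isCompact_Icc.exists_bound_of_continuousOn (f := f) (s := Set.Icc a b) hf.continuousOn
    exact ⟨F, fun x hx => by rw [← Real.norm_eq_abs]; exact hF x hx⟩
  rw [intervalIntegral.integral_of_le hab, ← integral_Icc_eq_integral_Ioc]
  have h1 : ∀ z, |(∫ x in Set.Icc a b, f x) - ∫ ω, Z ω ∂P| ≤ Real.sqrt (∫ ω, (Mz P θ α f a b z ω - Z ω) ^ 2 ∂P) := by
    intro z
    have hMm := Mz_memLp h hα hα1 hab hf.measurable hF z 2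
    rw [← Mz_mean h hα hα1 hab hf.measurable hF z, ← integral_sub (hMm.integrable one_le_two) (hZ.integrable one_le_two),
      ← Real.norm_eq_abs]
    exact (norm_integral_le_integral_norm _).trans (l1_le_l2 (hMm.sub hZ))
  have h2 := hMZ.sqrt
  rw [Real.sqrt_zero] at h2
  have h3 : |(∫ x in Set.Icc a b, f x) - ∫ ω, Z ω ∂P| ≤ 0 := ge_of_tendsto' h2 h1
  have := abs_nonpos_iff.mp h3
  linarith

/-- the final form -/
theorem final [IsProbabilityMeasure P] (hθm : ∀ n, Measurable (θ n)) (hθi : iIndepFun θ P)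
    (hθu : ∀ n, P.map (θ n) = volume.restrict (Set.Icc 0 1))
    {β : ℝ} (hβ : 0 < β) (hβ2 : β ^ 2 < 2) {δ : ℝ → ℝ} (hδ0 : Tendsto δ atTop (𝓝 0))
    (hδ1 : Tendsto (fun T => δ T * Real.log T) atTop atTop) {a b : ℝ} (hab : a ≤ b) {f : ℝ → ℝ} (hf : Continuous f) :
    ∃ Z : Ω → ℝ, Measurable Z ∧ MemLp Z 2 P ∧ (∫ ω, Z ω ∂P = ∫ x in a..b, f x) ∧
      Tendsto (fun z : ℕ => ∫ ω, ((∫ x in a..b, f x *
        (‖∏ p ∈ (range z).filter Nat.Prime, (1 - Complex.exp (2 * Real.pi * Complex.I * θ p ω) *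
          (p : ℂ) ^ (-(1 / 2 + Complex.I * (x : ℂ))))⁻¹‖ ^ β /
          ∫ ω', ‖∏ p ∈ (range z).filter Nat.Prime, (1 - Complex.exp (2 * Real.pi * Complex.I * θ p ω') *
          (p : ℂ) ^ (-(1 / 2 + Complex.I * (x : ℂ))))⁻¹‖ ^ β ∂P)) - Z ω) ^ 2 ∂P) atTop (𝓝 0) ∧
      ∀ φ : ℝ → ℝ, Continuous φ → (∃ C, ∀ x, |φ x| ≤ C * (1 + |x|)) →
        Tendsto (fun T : ℝ => ∫ u in (0:ℝ)..1, φ ((2 * δ T) ^ (β ^ 2 / 4) *
          ∫ x in a..b, f x * ‖riemannZeta (1 / 2 + δ T + Complex.I * ((x + u * T : ℝ) : ℂ))‖ ^ β)) atTop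
          (𝓝 (∫ ω, φ (aF (β / 2) * Z ω) ∂P)) := by
  have h : Ph P θ := ⟨inferInstance, hθm, hθi, hθu⟩
  have hα : 0 < β / 2 := by positivity
  have hα1 : 2 * (β / 2) ^ 2 < 1 := by nlinarith
  have hα' : β / 2 ≤ 1 := by nlinarith
  obtain ⟨Z, hZm, hZ, hZl, hφ⟩ := law_limit h hα hα1 hab hf hδ0 hδ1
  have e8 : 2 * (β / 2) = β := by ring
  refine ⟨Z, hZm, hZ, Z_mean h hα.le hα' hab hf hZ hZl, ?_, ?_⟩
  · refine hZl.congr fun z => ?_
    refine integral_congr_ae (ae_of_all _ fun ω => ?_)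
    simp only
    congr 2
    unfold Mz
    rw [intervalIntegral.integral_of_le hab, ← integral_Icc_eq_integral_Ioc]
    refine integral_congr_ae (ae_of_all _ fun x => ?_)
    simp only
    have e1 : ∀ ω', ∏ p ∈ Bz' z, Lf (β / 2) (pv 0 x p) (Xp θ p ω') =
        ‖∏ p ∈ (range z).filter Nat.Prime, (1 - Complex.exp (2 * Real.pi * Complex.I * θ p ω') *
          (p : ℂ) ^ (-(1 / 2 + Complex.I * (x : ℂ))))⁻¹‖ ^ β := by
      intro ω'
      have := prod_Lf (E := fun p : ℕ => Complex.exp (2 * Real.pi * Complex.I * θ p ω') *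
          (p : ℂ) ^ (-(1 / 2 + Complex.I * (x : ℂ)))) (β / 2) (s := Bz' z)
      rw [e8] at this
      unfold Bz' at this ⊢
      rw [this]
      refine prod_congr rfl fun p _ => ?_
      unfold Lf pv Xp ee
      rw [e8]
      congr 2
      congr 1
      rw [mul_comm]
      congr 2
      push_cast
      ring
    rw [GF_norm h hα.le hα' z ω x, e1]
    simp_rw [e1]
  · intro φ hc hb
    refine (hφ φ hc hb).congr fun T => ?_
    refine intervalIntegral.integral_congr fun u _ => ?_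
    have e6 : (2 * δ T) ^ ((β / 2) ^ 2) = (2 * δ T) ^ (β ^ 2 / 4) := by congr 1; ring
    rw [e6]
    congr 2
    unfold If
    rw [intervalIntegral.integral_of_le hab, ← integral_Icc_eq_integral_Ioc]
    refine integral_congr_ae (ae_of_all _ fun x => ?_)
    simp only
    rw [e8]
    unfold zn
    congr 4
    push_cast
    ring

end Pool.Agent.T6.H99.CH
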